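import Pool.Agent.H38R2.CG.Stubs

/-!
# Class group project, task AS0: few bad discriminants in a residue class
-/

set_option autoImplicit false

namespace Pool.Agent.H38R2.CG

open Finset Filter
open scoped Classical

namespace AS0h

lemma abs_chi_le (D : ℤ) (n : ℕ) : |chi D n| ≤ 1 := by
  unfold chi
  rw [abs_mul, abs_pow]
  have h1 : |chi2 D| ≤ 1 := by
    unfold chi2
    split_ifs <;> simp
  have h2 : |jacobiSym D (n / 2 ^ padicValNat 2 n)| ≤ 1 := by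
    rcases jacobiSym.trichotomy D (n / 2 ^ padicValNat 2 n) with h | h | h <;> rw [h] <;> simp
  calc |chi2 D| ^ padicValNat 2 n * |jacobiSym D (n / 2 ^ padicValNat 2 n)| ≤ 1 * 1 := by
        apply mul_le_mul (pow_le_one₀ (abs_nonneg _) h1) h2 (abs_nonneg _) zero_le_one
    _ = 1 := one_mul 1

lemma one_add_chi_nonneg (D : ℤ) (n : ℕ) : (0 : ℝ) ≤ 1 + (chi D n : ℝ) := by
  have h := (abs_le.mp (abs_chi_le D n)).1
  have : (-1 : ℝ) ≤ (chi D n : ℝ) := by exact_mod_cast h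
  linarith

lemma phi_nonneg (t : ℝ) : 0 ≤ phi t := le_max_left _ _

lemma win_nonneg (η' : ℝ) (j : ℤ) (s : Finset ℕ) : 0 ≤ win η' j s := phi_nonneg _

lemma Rsum_nonneg (D n : ℕ) : 0 ≤ Rsum D n := by
  unfold Rsum
  apply Finset.sum_nonneg
  intro u _
  apply Finset.sum_nonneg
  intro v _
  split_ifs
  · exact phi_nonneg _
  · exact le_refl _

lemma SD_nonneg (D : ℕ) (S : Finset (Finset ℕ)) (f : Finset ℕ → ℝ) (hf : ∀ s, 0 ≤ f s) :
    0 ≤ SD D S f := by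
  unfold SD
  apply Finset.sum_nonneg
  intro s _
  apply Finset.sum_nonneg
  intro t _
  have h1 := hf s
  have h2 := hf t
  have h3 := Rsum_nonneg D (prodS s * prodS t)
  positivity

lemma MD_nonneg (D : ℕ) (S : Finset (Finset ℕ)) (f : Finset ℕ → ℝ) (hf : ∀ s, 0 ≤ f s) :
    0 ≤ MD D S f := by
  unfold MD
  apply Finset.sum_nonneg
  intro s _
  exact mul_nonneg (hf s) (Finset.prod_nonneg (fun p _ => one_add_chi_nonneg _ _))

lemma PiR_pos (z r : ℕ) : 0 < PiR z r := by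
  unfold PiR
  apply Finset.prod_pos
  intro l hl
  simp only [Finset.mem_filter, Finset.mem_Icc] at hl
  have h2 : (2 : ℝ) ≤ l := by exact_mod_cast hl.1.1
  have h := (abs_le.mp (abs_chi_le (r : ℤ) l)).2
  have h3 : (chi r l : ℝ) ≤ 1 := by exact_mod_cast h
  have h4 : (chi r l : ℝ) / l ≤ 1 / 2 := by
    rw [div_le_div_iff₀ (by linarith) (by norm_num)]
    linarith
  linarith

lemma tent_sum (x : ℝ) (J : Finset ℤ) (h1 : ⌊x⌋ ∈ J) (h2 : ⌊x⌋ + 1 ∈ J) :
    ∑ j ∈ J, phi (x - j) = 1 := by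
  have hsub : ({⌊x⌋, ⌊x⌋ + 1} : Finset ℤ) ⊆ J := by
    intro j hj
    simp only [Finset.mem_insert, Finset.mem_singleton] at hj
    rcases hj with rfl | rfl
    · exact h1
    · exact h2
  rw [← Finset.sum_subset hsub]
  · rw [Finset.sum_pair (by omega)]
    unfold phi
    have hf1 := Int.floor_le x
    have hf2 := Int.lt_floor_add_one x
    push_cast
    rw [abs_of_nonneg (by linarith), abs_of_nonpos (by linarith), max_eq_right (by linarith),
      max_eq_right (by linarith)]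
    ring
  · intro j _ hj
    simp only [Finset.mem_insert, Finset.mem_singleton, not_or] at hj
    unfold phi
    apply max_eq_left
    have hf1 := Int.floor_le x
    have hf2 := Int.lt_floor_add_one x
    rcases lt_or_gt_of_ne hj.1 with h | h
    · have h3 : (j : ℝ) + 1 ≤ ⌊x⌋ := by exact_mod_cast h
      have h4 : 1 ≤ |x - j| := by
        rw [le_abs]; left; linarith
      linarith
    · have h3 : ⌊x⌋ + 2 ≤ j := by
        have := hj.2
        omega
      have h3' : (⌊x⌋ : ℝ) + 2 ≤ j := by exact_mod_cast h3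
      have h4 : 1 ≤ |x - j| := by
        rw [le_abs]; right; linarith
      linarith

lemma mem_SX {X : ℕ} {s : Finset ℕ} (hs : s ∈ SX X) :
    s.card = kk X ∧ ∀ p ∈ s, yy X < p ∧ p ≤ 2 * yy X ∧ p.Prime := by
  unfold SX PX at hs
  rw [Finset.mem_powersetCard] at hs
  refine ⟨hs.2, fun p hp => ?_⟩
  have := hs.1 hp
  unfold PP at this
  simp only [Finset.mem_filter, Finset.mem_Ioc] at this
  exact ⟨this.1.1, this.1.2, this.2⟩

lemma log_prodS_bounds (X : ℕ) (hy : 1 ≤ yy X) (s : Finset ℕ) (hs : s ∈ SX X) :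
    kk X * Real.log (yy X) ≤ Real.log (prodS s) ∧
    Real.log (prodS s) ≤ kk X * Real.log (2 * yy X) := by
  obtain ⟨hcard, hmem⟩ := mem_SX hs
  have hlog : Real.log (prodS s) = ∑ p ∈ s, Real.log p := by
    unfold prodS
    rw [Nat.cast_prod, Real.log_prod]
    intro p hp
    have := (hmem p hp).2.2.pos
    positivity
  have hy' : (1 : ℝ) ≤ yy X := by exact_mod_cast hy
  rw [hlog]
  constructor
  · calc (kk X : ℝ) * Real.log (yy X) = ∑ p ∈ s, Real.log (yy X) := by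
          rw [Finset.sum_const, hcard, nsmul_eq_mul]
      _ ≤ ∑ p ∈ s, Real.log p := by
          apply Finset.sum_le_sum
          intro p hp
          apply Real.log_le_log
          · linarith
          · exact_mod_cast (hmem p hp).1.le
  · calc ∑ p ∈ s, Real.log p ≤ ∑ p ∈ s, Real.log (2 * yy X) := by
          apply Finset.sum_le_sum
          intro p hp
          apply Real.log_le_log
          · have := (hmem p hp).2.2.pos
            exact_mod_cast this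
          · exact_mod_cast (hmem p hp).2.1
      _ = (kk X : ℝ) * Real.log (2 * yy X) := by
          rw [Finset.sum_const, hcard, nsmul_eq_mul]

/-- relevant window indices -/
noncomputable def JJ (X : ℕ) (η' : ℝ) : Finset ℤ :=
  Finset.Icc ⌊(kk X * Real.log (yy X)) / η'⌋ (⌊(kk X * Real.log (2 * yy X)) / η'⌋ + 1)

lemma sum_win (X : ℕ) (η' : ℝ) (hη : 0 < η') (hy : 1 ≤ yy X) (s : Finset ℕ) (hs : s ∈ SX X) :
    ∑ j ∈ JJ X η', win η' j s = 1 := by
  obtain ⟨h1, h2⟩ := log_prodS_bounds X hy s hs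
  have h3 := Int.floor_le_floor (div_le_div_of_nonneg_right h1 hη.le)
  have h4 := Int.floor_le_floor (div_le_div_of_nonneg_right h2 hη.le)
  unfold win JJ
  apply tent_sum
  · rw [Finset.mem_Icc]
    constructor
    · exact h3
    · omega
  · rw [Finset.mem_Icc]
    constructor
    · omega
    · omega

lemma card_JJ (X : ℕ) (η' : ℝ) (hη : 0 < η') (hy : 1 ≤ yy X) :
    ((JJ X η').card : ℝ) ≤ kk X * (1 / η' + 3) := by
  have hk : (1 : ℝ) ≤ kk X := by
    have : 1 ≤ kk X := by unfold kk; omega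
    exact_mod_cast this
  have hy' : (1 : ℝ) ≤ yy X := by exact_mod_cast hy
  have hlog : Real.log (2 * yy X) = Real.log 2 + Real.log (yy X) := by
    rw [Real.log_mul (by norm_num) (by linarith)]
  have hlog2 : Real.log 2 ≤ 1 := by
    have := Real.log_two_lt_d9
    linarith
  have hlog2' : 0 ≤ Real.log 2 := Real.log_nonneg (by norm_num)
  have hle : kk X * Real.log (yy X) / η' ≤ kk X * Real.log (2 * yy X) / η' := by
    apply div_le_div_of_nonneg_right _ hη.le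
    apply mul_le_mul_of_nonneg_left _ (by linarith)
    linarith
  have hfl := Int.floor_le_floor hle
  unfold JJ
  rw [Int.card_Icc]
  have h0 : (0 : ℤ) ≤ ⌊(kk X * Real.log (2 * yy X)) / η'⌋ + 1 + 1 -
      ⌊(kk X * Real.log (yy X)) / η'⌋ := by omega
  have h1 : (((⌊(kk X * Real.log (2 * yy X)) / η'⌋ + 1 + 1 -
      ⌊(kk X * Real.log (yy X)) / η'⌋).toNat : ℕ) : ℝ) =
      ((⌊(kk X * Real.log (2 * yy X)) / η'⌋ + 1 + 1 -
      ⌊(kk X * Real.log (yy X)) / η'⌋ : ℤ) : ℝ) := by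
    rw [← Int.cast_natCast, Int.toNat_of_nonneg h0]
  rw [h1]
  push_cast
  have h2 := Int.floor_le ((kk X * Real.log (2 * yy X)) / η')
  have h3 := Int.lt_floor_add_one ((kk X * Real.log (yy X)) / η')
  have h4 : (kk X * Real.log (2 * yy X)) / η' - (kk X * Real.log (yy X)) / η' =
      kk X * Real.log 2 / η' := by
    rw [hlog]
    ring
  have h5 : kk X * Real.log 2 / η' ≤ kk X * (1 / η') := by
    rw [mul_one_div]
    apply div_le_div_of_nonneg_right _ hη.le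
    have : (kk X : ℝ) * Real.log 2 ≤ kk X * 1 := mul_le_mul_of_nonneg_left hlog2 (by linarith)
    linarith
  have h6 : (kk X : ℝ) * (1 / η' + 3) = kk X * (1 / η') + 3 * kk X := by ring
  rw [h6]
  linarith

lemma sum_MD (X D : ℕ) (η' : ℝ) (hη : 0 < η') (hy : 1 ≤ yy X) :
    ∑ j ∈ JJ X η', MD D (SX X) (win η' j) = MD D (SX X) (fun _ => 1) := by
  unfold MD
  rw [Finset.sum_comm]
  apply Finset.sum_congr rfl
  intro s hs
  rw [← Finset.sum_mul, sum_win X η' hη hy s hs]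

lemma sum_S1 (X : ℕ) (η' : ℝ) (hη : 0 < η') (hy : 1 ≤ yy X) :
    ∑ j ∈ JJ X η', S1 X η' j = NX X := by
  unfold S1
  rw [Finset.sum_comm]
  have h : ∀ s ∈ SX X, ∑ j ∈ JJ X η', win η' j s = 1 := fun s hs => sum_win X η' hη hy s hs
  rw [Finset.sum_congr rfl h, Finset.sum_const, nsmul_eq_mul, mul_one]
  unfold SX NX
  rw [Finset.card_powersetCard]

lemma S1_nonneg (X : ℕ) (η' : ℝ) (j : ℤ) : 0 ≤ S1 X η' j :=
  Finset.sum_nonneg (fun s _ => win_nonneg _ _ _)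

lemma sum_MD_le (X : ℕ) (η' : ℝ) (j : ℤ) (T : Finset ℕ) (U : ℝ)
    (h : ∀ s ∈ SX X, ∑ D ∈ T, ∏ p ∈ s, (1 + (chi D p : ℝ)) ≤ U) :
    ∑ D ∈ T, MD D (SX X) (win η' j) ≤ U * S1 X η' j := by
  unfold MD S1
  rw [Finset.sum_comm, Finset.mul_sum]
  apply Finset.sum_le_sum
  intro s hs
  rw [← Finset.mul_sum, mul_comm]
  exact mul_le_mul_of_nonneg_right (h s hs) (win_nonneg _ _ _)

lemma le_sum_MD (X : ℕ) (η' : ℝ) (j : ℤ) (T : Finset ℕ) (U : ℝ)
    (h : ∀ s ∈ SX X, U ≤ ∑ D ∈ T, ∏ p ∈ s, (1 + (chi D p : ℝ))) :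
    U * S1 X η' j ≤ ∑ D ∈ T, MD D (SX X) (win η' j) := by
  unfold MD S1
  rw [Finset.sum_comm (s := T), Finset.mul_sum]
  apply Finset.sum_le_sum
  intro s hs
  rw [← Finset.mul_sum, mul_comm U]
  exact mul_le_mul_of_nonneg_left (h s hs) (win_nonneg _ _ _)

lemma exists_good (J : Finset ℤ) (b S : ℤ → ℝ) (N W ε κ T : ℝ) (hN : 0 < N) (hW : 0 < W)
    (hκ : 0 < κ) (hεκ : 4 * κ ≤ ε) (hS : ∀ j ∈ J, 0 ≤ S j) (hT : 0 ≤ T)
    (hSN : ∑ j ∈ J, S j = N) (hb : ∀ j ∈ J, b j ≤ (1 + κ) * W * S j)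
    (hbs : (ε - 2 * κ) * W * N ≤ ∑ j ∈ J, b j)
    (hcard : (J.card : ℝ) * ((1 + κ) * W * T) ≤ κ * W * N) :
    ∃ j ∈ J, T ≤ S j ∧ (ε - 4 * κ) * W * S j ≤ b j := by
  by_contra hcon
  push Not at hcon
  have h1 : ∀ j ∈ J, b j ≤ (ε - 4 * κ) * W * S j + (1 + κ) * W * T := by
    intro j hj
    have hp : 0 ≤ (1 + κ) * W * T := by positivity
    have hp2 : 0 ≤ (ε - 4 * κ) * W * S j :=
      mul_nonneg (mul_nonneg (by linarith) hW.le) (hS j hj)
    rcases le_or_gt T (S j) with h | h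
    · have := hcon j hj h
      linarith
    · have h2 := hb j hj
      have h3 : (1 + κ) * W * S j ≤ (1 + κ) * W * T :=
        mul_le_mul_of_nonneg_left h.le (by positivity)
      linarith
  have h2 : ∑ j ∈ J, b j ≤ ∑ j ∈ J, ((ε - 4 * κ) * W * S j + (1 + κ) * W * T) :=
    Finset.sum_le_sum h1
  rw [Finset.sum_add_distrib, ← Finset.mul_sum, hSN, Finset.sum_const, nsmul_eq_mul] at h2
  have h3 : 0 < κ * W * N := by positivity
  nlinarith

lemma final_ineq (F B : Finset ℕ) (hBF : B ⊆ F) (M L S : ℕ → ℝ) (R V m b : ℝ)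
    (hR : 0 ≤ R) (hV : 0 ≤ V)
    (hL : ∀ D ∈ F, 0 ≤ L D) (hS : ∀ D ∈ F, 0 ≤ S D)
    (h1 : ∀ D ∈ F, M D ^ 2 ≤ 2 * √(D : ℝ) * L D * S D)
    (h2 : ∀ D ∈ B, 2 * M D ^ 2 ≤ 2 * √(D : ℝ) * L D * S D)
    (hD : ∀ D ∈ F, √(D : ℝ) ≤ R)
    (hSS : ∑ D ∈ F, S D ≤ V)
    (hm0 : 0 ≤ m) (hb0 : 0 ≤ b)
    (hlow : m ≤ ∑ D ∈ F, M D)
    (hB : b ≤ ∑ D ∈ B, M D) :
    m ^ 2 + b ^ 2 ≤ 2 * R * V * ∑ D ∈ F, L D := by
  -- first Cauchy-Schwarz
  have hLB : 0 ≤ ∑ D ∈ B, L D := Finset.sum_nonneg (fun D hDB => hL D (hBF hDB))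
  have hSB0 : 0 ≤ ∑ D ∈ B, S D := Finset.sum_nonneg (fun D hDB => hS D (hBF hDB))
  have hSB : ∑ D ∈ B, S D ≤ V :=
    le_trans (Finset.sum_le_sum_of_subset_of_nonneg hBF (fun D hDF _ => hS D hDF)) hSS
  have hLFB : ∑ D ∈ B, L D ≤ ∑ D ∈ F, L D :=
    Finset.sum_le_sum_of_subset_of_nonneg hBF (fun D hDF _ => hL D hDF)
  have hC1 : (∑ D ∈ B, M D) ^ 2 ≤ (∑ D ∈ B, R * L D) * ∑ D ∈ B, S D := by
    apply Finset.sum_sq_le_sum_mul_sum_of_sq_le_mul
    · intro D hDB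
      exact mul_nonneg hR (hL D (hBF hDB))
    · intro D hDB
      exact hS D (hBF hDB)
    · intro D hDB
      have h3 := h2 D hDB
      have h4 : √(D : ℝ) * (L D * S D) ≤ R * (L D * S D) :=
        mul_le_mul_of_nonneg_right (hD D (hBF hDB))
          (mul_nonneg (hL D (hBF hDB)) (hS D (hBF hDB)))
      nlinarith
  have hC2 : (∑ D ∈ F, M D) ^ 2 ≤
      (∑ D ∈ F, (2 * R * L D - if D ∈ B then R * L D else 0)) * ∑ D ∈ F, S D := by
    apply Finset.sum_sq_le_sum_mul_sum_of_sq_le_mul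
    · intro D hDF
      have := mul_nonneg hR (hL D hDF)
      split_ifs
      · nlinarith
      · nlinarith
    · intro D hDF
      exact hS D hDF
    · intro D hDF
      have h4 : √(D : ℝ) * (L D * S D) ≤ R * (L D * S D) :=
        mul_le_mul_of_nonneg_right (hD D hDF) (mul_nonneg (hL D hDF) (hS D hDF))
      split_ifs with hDB
      · have h3 := h2 D hDB
        nlinarith
      · have h3 := h1 D hDF
        nlinarith
  have hsum : ∑ D ∈ F, (2 * R * L D - if D ∈ B then R * L D else 0) =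
      2 * R * ∑ D ∈ F, L D - R * ∑ D ∈ B, L D := by
    rw [Finset.sum_sub_distrib, ← Finset.mul_sum, Finset.sum_ite_mem,
      Finset.inter_eq_right.mpr hBF, ← Finset.mul_sum]
  rw [hsum] at hC2
  rw [← Finset.mul_sum] at hC1
  have hb2 : b ^ 2 ≤ R * (∑ D ∈ B, L D) * V := by
    calc b ^ 2 ≤ (∑ D ∈ B, M D) ^ 2 := pow_le_pow_left₀ hb0 hB 2
      _ ≤ (R * ∑ D ∈ B, L D) * ∑ D ∈ B, S D := hC1
      _ ≤ R * (∑ D ∈ B, L D) * V := mul_le_mul_of_nonneg_left hSB (mul_nonneg hR hLB)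
  have hm2 : m ^ 2 ≤ (2 * R * ∑ D ∈ F, L D - R * ∑ D ∈ B, L D) * V := by
    calc m ^ 2 ≤ (∑ D ∈ F, M D) ^ 2 := pow_le_pow_left₀ hm0 hlow 2
      _ ≤ (2 * R * ∑ D ∈ F, L D - R * ∑ D ∈ B, L D) * ∑ D ∈ F, S D := hC2
      _ ≤ (2 * R * ∑ D ∈ F, L D - R * ∑ D ∈ B, L D) * V := by
          apply mul_le_mul_of_nonneg_left hSS
          have : R * ∑ D ∈ B, L D ≤ R * ∑ D ∈ F, L D := mul_le_mul_of_nonneg_left hLFB hR
          have h0 : 0 ≤ R * ∑ D ∈ F, L D := mul_nonneg hR (le_trans hLB hLFB)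
          nlinarith
  nlinarith

lemma numeric (ε κ zi η : ℝ) (hε : 0 < ε) (hε1 : ε ≤ 1) (hκ : κ = ε ^ 2 / 100)
    (hz0 : 0 ≤ zi) (hz : zi ≤ κ) (hη0 : 0 < η) (hη : η ≤ κ) :
    √(1 + η) * (1 + κ) ^ 2 * (1 + 4 * zi) < (1 - κ - zi) ^ 2 + (ε - 4 * κ) ^ 2 := by
  have hκ0 : 0 < κ := by rw [hκ]; positivity
  have hκ1 : κ ≤ 1 / 100 := by
    rw [hκ]
    have : ε ^ 2 ≤ 1 := pow_le_one₀ hε.le hε1
    linarith
  have hsq : √(1 + η) ≤ 1 + κ := by
    rw [Real.sqrt_le_left (by linarith)]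
    nlinarith
  have h1 : √(1 + η) * (1 + κ) ^ 2 * (1 + 4 * zi) ≤ (1 + κ) * (1 + κ) ^ 2 * (1 + 4 * κ) := by
    apply mul_le_mul
    · exact mul_le_mul_of_nonneg_right hsq (by positivity)
    · linarith
    · linarith
    · positivity
  have h2 : (1 + κ) * (1 + κ) ^ 2 * (1 + 4 * κ) ≤ 1 + 9 * κ := by
    have : (1 + κ) * (1 + κ) ^ 2 * (1 + 4 * κ) =
        1 + 7 * κ + κ * (15 * κ + 13 * κ ^ 2 + 4 * κ ^ 3) := by ring
    rw [this]
    have h3 : 15 * κ + 13 * κ ^ 2 + 4 * κ ^ 3 ≤ 2 := by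
      have h4 : κ ^ 2 ≤ 1 / 100 * (1 / 100) := by nlinarith
      have h5 : κ ^ 3 ≤ 1 / 100 := by
        have : κ ^ 3 = κ * κ ^ 2 := by ring
        rw [this]
        nlinarith
      linarith
    nlinarith
  have h3 : 1 - 4 * κ ≤ (1 - κ - zi) ^ 2 := by nlinarith
  have h4 : 92 * κ ≤ (ε - 4 * κ) ^ 2 := by
    have : ε ^ 2 = 100 * κ := by rw [hκ]; ring
    nlinarith
  linarith

end AS0h

open AS0h in
theorem T_AS0 : P_NF → P_LM → P_M1U → P_M1L → P_MLOW → P_SZ → P_NB → P_TM → P_AS0 := by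
  intro hNF hLM hM1U hM1L hMLOW _hSZ hNB hTM
  intro ε0 hε0
  -- reduce to ε ≤ 1
  set ε : ℝ := min ε0 1 with hεdef
  have hε : 0 < ε := lt_min hε0 one_pos
  have hε1 : ε ≤ 1 := min_le_right _ _
  have hεε : ε ≤ ε0 := min_le_left _ _
  set κ : ℝ := ε ^ 2 / 100 with hκdef
  have hκ0 : 0 < κ := by rw [hκdef]; positivity
  have hκ1 : κ ≤ 1 / 100 := by
    rw [hκdef]
    have : ε ^ 2 ≤ 1 := pow_le_one₀ hε.le hε1
    linarith
  have hκε : 4 * κ ≤ ε := by
    rw [hκdef]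
    nlinarith
  refine ⟨max 2 ⌈1 / κ⌉₊, fun z hz => ⟨κ, hκ0, fun η hη hηκ r hr => ?_⟩⟩
  have hz2 : 2 ≤ z := le_trans (le_max_left _ _) hz
  have hzκ : (1 : ℝ) / z ≤ κ := by
    have h1 : ⌈1 / κ⌉₊ ≤ z := le_trans (le_max_right _ _) hz
    have h2 : 1 / κ ≤ z := le_trans (Nat.le_ceil _) (by exact_mod_cast h1)
    have hz0 : (0 : ℝ) < z := by
      have : 0 < z := by omega
      exact_mod_cast this
    rw [div_le_iff₀ hz0]
    rw [div_le_iff₀ hκ0] at h2
    linarith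
  have hη1 : η ≤ 1 := by linarith
  have hrQ : r < Qz z := hr.1
  obtain ⟨η0, hη0, hTM'⟩ := hTM z r hz2 hr η hη hη1 κ hκ0
  set η' : ℝ := η0 / 2 with hη'def
  have hη'0 : 0 < η' := by rw [hη'def]; linarith
  have hη'1 : η' < η0 := by rw [hη'def]; linarith
  set δ : ℝ := κ / (2 * (1 / η' + 3)) with hδdef
  have hc : 0 < 1 / η' + 3 := by positivity
  have hδ0 : 0 < δ := by rw [hδdef]; positivity
  obtain ⟨X1, hX1⟩ := hTM' η' hη'0 hη'1 δ hδ0
  obtain ⟨X2, hX2⟩ := hLM z r hz2 hr η hη hη1 κ hκ0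
  obtain ⟨X3, hX3⟩ := hM1U z r hrQ η hη hη1 κ hκ0
  obtain ⟨X4, hX4⟩ := hM1L z r hz2 hr η hη hη1 κ hκ0
  obtain ⟨X5, hX5⟩ := hMLOW z r hrQ η hη hη1 κ hκ0
  obtain ⟨⟨X6, hX6⟩, -⟩ := hNB
  -- yy X ≥ 2 for X large
  obtain ⟨X7, hX7⟩ : ∃ X7 : ℕ, ∀ X ≥ X7, 2 ≤ yy X := by
    refine ⟨⌈Real.exp 2⌉₊, fun X hX => ?_⟩
    unfold yy
    apply Nat.le_floor
    have h1 : Real.exp 2 ≤ X := le_trans (Nat.le_ceil _) (by exact_mod_cast hX)
    have h2 : 2 ≤ Real.log X := by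
      rw [Real.le_log_iff_exp_le (lt_of_lt_of_le (Real.exp_pos _) h1)]
      exact h1
    have h3 : (2 : ℝ) ^ 6 ≤ Real.log X ^ 6 := pow_le_pow_left₀ (by norm_num) h2 6
    push_cast
    linarith
  refine ⟨max (max (max X1 X2) (max X3 X4)) (max (max X5 X6) (max X7 1)), fun X hX => ?_⟩
  simp only [ge_iff_le, max_le_iff] at hX
  obtain ⟨⟨⟨hXa, hXb⟩, ⟨hXc, hXd⟩⟩, ⟨⟨hXe, hXf⟩, ⟨hXg, hXh⟩⟩⟩ := hX
  have hy2 : 2 ≤ yy X := hX7 X hXg
  have hy1 : 1 ≤ yy X := by omega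
  have hXpos : (0 : ℝ) < X := by
    have : 0 < X := by omega
    exact_mod_cast this
  have hQpos : (0 : ℝ) < Qz z := by
    have : 0 < Qz z := lt_of_le_of_lt (Nat.zero_le _) hrQ
    exact_mod_cast this
  have hkk : (1 : ℝ) ≤ kk X := by
    have : 1 ≤ kk X := by unfold kk; omega
    exact_mod_cast this
  set W : ℝ := η * X / Qz z with hWdef
  have hW : 0 < W := by rw [hWdef]; positivity
  have hN : 0 < NX X := lt_of_lt_of_le (by positivity) (hX6 X hXf)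
  have hε0W : ε * W ≤ ε0 * W := mul_le_mul_of_nonneg_right hεε hW.le
  refine le_trans ?_ hε0W
  by_contra hcon
  push Not at hcon
  set F := FD z r X η with hFdef
  set B := F.filter (fun D => BadX X D) with hBdef
  have hBF : B ⊆ F := Finset.filter_subset _ _
  have hFDD : F ⊆ DD z r X η := by
    rw [hFdef]; unfold FD; exact Finset.filter_subset _ _
  have hFfund : ∀ D ∈ F, IsFund D := by
    intro D hD
    rw [hFdef] at hD
    unfold FD at hD
    exact (Finset.mem_filter.mp hD).2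
  -- the total over B
  have hT1 : (ε - 2 * κ) * W * NX X ≤ ∑ D ∈ B, MD D (SX X) (fun _ => 1) := by
    set Lw := (DD z r X η).filter (fun D => MD D (SX X) (fun _ => 1) < (1 - κ) * NX X) with hLw
    have h5 : (Lw.card : ℝ) ≤ κ * W := hX5 X hXe
    have h6 : ∑ D ∈ B \ Lw, MD D (SX X) (fun _ => 1) ≤ ∑ D ∈ B, MD D (SX X) (fun _ => 1) :=
      Finset.sum_le_sum_of_subset_of_nonneg Finset.sdiff_subset
        (fun D _ _ => MD_nonneg _ _ _ (fun _ => zero_le_one))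
    have h7 : ((B \ Lw).card : ℝ) * ((1 - κ) * NX X) ≤
        ∑ D ∈ B \ Lw, MD D (SX X) (fun _ => 1) := by
      rw [← nsmul_eq_mul]
      apply Finset.card_nsmul_le_sum
      intro D hD
      rw [Finset.mem_sdiff] at hD
      by_contra hlt
      push Not at hlt
      apply hD.2
      rw [hLw, Finset.mem_filter]
      exact ⟨hFDD (hBF hD.1), hlt⟩
    have h8 : (B.card : ℝ) - Lw.card ≤ (B \ Lw).card := by
      have := Finset.le_card_sdiff Lw B
      have h9 : B.card ≤ (B \ Lw).card + Lw.card := by omega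
      have h10 : (B.card : ℝ) ≤ (B \ Lw).card + Lw.card := by exact_mod_cast h9
      linarith
    have h9 : (ε - κ) * W ≤ (B \ Lw).card := by
      have : ε * W < B.card := hcon
      nlinarith
    have h10 : (ε - κ) * W * ((1 - κ) * NX X) ≤ ((B \ Lw).card : ℝ) * ((1 - κ) * NX X) :=
      mul_le_mul_of_nonneg_right h9 (mul_nonneg (by linarith) hN.le)
    have h11 : (ε - 2 * κ) * W * NX X ≤ (ε - κ) * W * ((1 - κ) * NX X) := by
      have h12 : ε - 2 * κ ≤ (ε - κ) * (1 - κ) := by nlinarith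
      have h13 : (ε - κ) * W * ((1 - κ) * NX X) = (ε - κ) * (1 - κ) * (W * NX X) := by ring
      rw [h13, mul_assoc]
      exact mul_le_mul_of_nonneg_right h12 (by positivity)
    linarith
  -- choose j
  obtain ⟨j, hjJ, hjT, hjB⟩ := exists_good (JJ X η')
    (fun j => ∑ D ∈ B, MD D (SX X) (win η' j)) (fun j => S1 X η' j) (NX X) W ε κ
    (δ / kk X * NX X) hN hW hκ0 hκε (fun j _ => S1_nonneg X η' j) (by positivity)
    (sum_S1 X η' hη'0 hy1)
    (by
      intro j _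
      have h1 : ∑ D ∈ B, MD D (SX X) (win η' j) ≤
          ∑ D ∈ DD z r X η, MD D (SX X) (win η' j) :=
        Finset.sum_le_sum_of_subset_of_nonneg (hBF.trans hFDD)
          (fun D _ _ => MD_nonneg _ _ _ (fun s => win_nonneg _ _ _))
      refine le_trans h1 ?_
      exact sum_MD_le X η' j _ _ (hX3 X hXc))
    (by
      rw [Finset.sum_comm]
      refine le_trans hT1 (le_of_eq ?_)
      apply Finset.sum_congr rfl
      intro D _
      exact (sum_MD X D η' hη'0 hy1).symm)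
    (by
      have h1 := card_JJ X η' hη'0 hy1
      have h2 : ((JJ X η').card : ℝ) * ((1 + κ) * W * (δ / kk X * NX X)) ≤
          kk X * (1 / η' + 3) * ((1 + κ) * W * (δ / kk X * NX X)) :=
        mul_le_mul_of_nonneg_right h1 (by positivity)
      refine le_trans h2 ?_
      have h3 : kk X * (1 / η' + 3) * ((1 + κ) * W * (δ / kk X * NX X)) =
          (1 + κ) / 2 * (κ * W * NX X) := by
        rw [hδdef]
        have hc' : (1 / η' + 3) ≠ 0 := hc.ne'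
        have hk' : (kk X : ℝ) ≠ 0 := by linarith
        field_simp
      rw [h3]
      have h4 : (1 + κ) / 2 ≤ 1 := by linarith
      have h5 : 0 ≤ κ * W * NX X := by positivity
      nlinarith)
  have hSpos : 0 < S1 X η' j := lt_of_lt_of_le (by positivity) hjT
  have hTMj := hX1 X hXa j hjT
  -- hypotheses of P_NF
  have hfam1 : ∀ s ∈ SX X, 0 ≤ win η' j s ∧ ∀ p ∈ s, p.Prime ∧ p ≠ 2 := by
    intro s hs
    refine ⟨win_nonneg _ _ _, fun p hp => ?_⟩
    have := (mem_SX hs).2 p hp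
    exact ⟨this.2.2, by omega⟩
  have hfam2 : ∀ s ∈ SX X, 0 ≤ win η' j s ∧
      ∀ p ∈ s, p.Prime ∧ p ≠ 2 ∧ (p : ℝ) ≤ Real.log X ^ 6 / 2 := by
    intro s hs
    refine ⟨win_nonneg _ _ _, fun p hp => ?_⟩
    have := (mem_SX hs).2 p hp
    refine ⟨this.2.2, by omega, ?_⟩
    have h1 : (p : ℝ) ≤ 2 * yy X := by exact_mod_cast this.2.1
    have h2 : (yy X : ℝ) ≤ Real.log X ^ 6 / 4 := by
      unfold yy
      apply Nat.floor_le
      positivity
    linarith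
  have hP : 0 < PiR z r := PiR_pos z r
  have key := final_ineq F B hBF (fun D => MD D (SX X) (win η' j)) Lone
    (fun D => SD D (SX X) (win η' j)) (√((1 + η) * X))
    ((1 + κ) * (PiR z r / (2 * Qz z)) * η * √(X : ℝ) * (S1 X η' j) ^ 2)
    ((1 - κ - 1 / z) * W * S1 X η' j) ((ε - 4 * κ) * W * S1 X η' j)
    (Real.sqrt_nonneg _) (by positivity)
    (fun D hD => (hNF D (hFfund D hD)).1)
    (fun D _ => SD_nonneg _ _ _ (fun s => win_nonneg _ _ _))
    (fun D hD => (hNF D (hFfund D hD)).2.1 _ _ hfam1)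
    (fun D hD => by
      have hDF := hBF hD
      have hbad : BadX X D := by
        rw [hBdef] at hD
        exact (Finset.mem_filter.mp hD).2
      exact (hNF D (hFfund D hDF)).2.2 (Real.log X ^ 6 / 2) hbad _ _ hfam2)
    (fun D hD => by
      apply Real.sqrt_le_sqrt
      have h1 := hFDD hD
      unfold DD at h1
      rw [Finset.mem_filter, Finset.mem_Ioc] at h1
      have h2 := h1.1.2
      have h3 : ((⌊(1 + η) * X⌋₊ : ℕ) : ℝ) ≤ (1 + η) * X := Nat.floor_le (by positivity)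
      have h4 : (D : ℝ) ≤ (⌊(1 + η) * X⌋₊ : ℕ) := by exact_mod_cast h2
      linarith)
    (le_trans (Finset.sum_le_sum_of_subset_of_nonneg hFDD
      (fun D _ _ => SD_nonneg _ _ _ (fun s => win_nonneg _ _ _))) hTMj)
    (by
      have : 0 ≤ 1 - κ - 1 / (z : ℝ) := by linarith
      positivity)
    (by
      have : 0 ≤ ε - 4 * κ := by linarith
      positivity)
    (le_sum_MD X η' j F _ (hX4 X hXd))
    hjB
  have hLMX := hX2 X hXb
  have hLsum : PiR z r * ∑ D ∈ F, Lone D ≤ (1 + κ) * (1 + 4 / z) * W := by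
    have h1 : ∑ D ∈ F, Lone D ≤ (1 + κ) * (1 + 4 / z) * W / PiR z r := hLMX
    rw [le_div_iff₀ hP] at h1
    linarith
  -- rewrite the right side of key
  have hR : √((1 + η) * X) = √(1 + η) * √(X : ℝ) := Real.sqrt_mul (by linarith) _
  have hXX : √(X : ℝ) * √(X : ℝ) = X := Real.mul_self_sqrt hXpos.le
  have hrhs : 2 * √((1 + η) * X) *
      ((1 + κ) * (PiR z r / (2 * Qz z)) * η * √(X : ℝ) * (S1 X η' j) ^ 2) *
      ∑ D ∈ F, Lone D =
      √(1 + η) * (1 + κ) * W * (S1 X η' j) ^ 2 * (PiR z r * ∑ D ∈ F, Lone D) := by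
    rw [hR, hWdef]
    have h1 : 2 * (√(1 + η) * √(X : ℝ)) *
      ((1 + κ) * (PiR z r / (2 * Qz z)) * η * √(X : ℝ) * (S1 X η' j) ^ 2) *
      ∑ D ∈ F, Lone D = √(1 + η) * (1 + κ) * (η * (√(X : ℝ) * √(X : ℝ)) / Qz z) *
        (S1 X η' j) ^ 2 * (PiR z r * ∑ D ∈ F, Lone D) := by
      field_simp
    rw [h1, hXX]
  rw [hrhs] at key
  have hfin : √(1 + η) * (1 + κ) * W * (S1 X η' j) ^ 2 * (PiR z r * ∑ D ∈ F, Lone D) ≤
      √(1 + η) * (1 + κ) * W * (S1 X η' j) ^ 2 * ((1 + κ) * (1 + 4 / z) * W) :=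
    mul_le_mul_of_nonneg_left hLsum (by positivity)
  have hnum := numeric ε κ (1 / z) η hε hε1 hκdef (by positivity) hzκ hη hηκ
  have hWS : 0 < W ^ 2 * (S1 X η' j) ^ 2 := by positivity
  have h1 : ((1 - κ - 1 / z) ^ 2 + (ε - 4 * κ) ^ 2) * (W ^ 2 * (S1 X η' j) ^ 2) ≤
      (√(1 + η) * (1 + κ) ^ 2 * (1 + 4 * (1 / z))) * (W ^ 2 * (S1 X η' j) ^ 2) := by
    have h2 : ((1 - κ - 1 / z) ^ 2 + (ε - 4 * κ) ^ 2) * (W ^ 2 * (S1 X η' j) ^ 2) =
        ((1 - κ - 1 / z) * W * S1 X η' j) ^ 2 + ((ε - 4 * κ) * W * S1 X η' j) ^ 2 := by ring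
    have h3 : √(1 + η) * (1 + κ) * W * (S1 X η' j) ^ 2 * ((1 + κ) * (1 + 4 / z) * W) =
        (√(1 + η) * (1 + κ) ^ 2 * (1 + 4 * (1 / z))) * (W ^ 2 * (S1 X η' j) ^ 2) := by ring
    rw [h2, ← h3]
    exact le_trans key hfin
  have h2 := (mul_le_mul_iff_left₀ hWS).mp h1
  linarith

end Pool.Agent.H38R2.CG
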