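import Pool.Agent.H38R2.CG.Stubs

/-!
# CC5: number of bad f
-/

set_option autoImplicit false

namespace Pool.Agent.H38R2.CG

open Finset Filter
open scoped Classical

namespace CC5h

/-- the Jacobi symbol modulo `M` as a Dirichlet character -/
noncomputable def jchar (M : ℕ) [NeZero M] : DirichletCharacter ℂ M where
  toFun a := ((jacobiSym (a.val : ℤ) M : ℤ) : ℂ)
  map_one' := by
    have h : ((1 : ZMod M).val : ℤ) = (1 % M : ℕ) := by
      rw [ZMod.val_one_eq_one_mod]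
    rw [h]
    push_cast
    rw [← jacobiSym.mod_left, jacobiSym.one_left]
    norm_num
  map_mul' a b := by
    rw [ZMod.val_mul]
    push_cast
    rw [← jacobiSym.mod_left, jacobiSym.mul_left]
    push_cast
    rfl
  map_nonunit' a ha := by
    have h1 : jacobiSym (a.val : ℤ) M = 0 := by
      rw [jacobiSym.eq_zero_iff_not_coprime]
      intro h
      apply ha
      have h2 : Nat.Coprime a.val M := by
        rw [Nat.Coprime]
        have := h
        rwa [Int.gcd_natCast_natCast] at this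
      have h3 := (ZMod.isUnit_iff_coprime a.val M).mpr h2
      rwa [ZMod.natCast_zmod_val] at h3
    rw [h1]
    norm_num

lemma jchar_apply (M : ℕ) [NeZero M] (n : ℕ) :
    jchar M (n : ZMod M) = ((jacobiSym (n : ℤ) M : ℤ) : ℂ) := by
  have : jchar M (n : ZMod M) = ((jacobiSym (((n : ZMod M).val : ℕ) : ℤ) M : ℤ) : ℂ) := rfl
  rw [this, ZMod.val_natCast]
  push_cast
  rw [← jacobiSym.mod_left]

/-- the product character -/
noncomputable def theta (M f : ℕ) [NeZero f] (ψ : DirichletCharacter ℂ M) :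
    DirichletCharacter ℂ (M * f) :=
  DirichletCharacter.changeLevel (Nat.dvd_mul_right M f) ψ *
    DirichletCharacter.changeLevel (Nat.dvd_mul_left f M) (jchar f)

lemma theta_apply (M f : ℕ) [NeZero f] (ψ : DirichletCharacter ℂ M) (n : ℕ)
    (hn : n.Coprime (M * f)) :
    theta M f ψ (n : ZMod (M * f)) = ψ (n : ZMod M) * ((jacobiSym (n : ℤ) f : ℤ) : ℂ) := by
  have h1 : IsCoprime (n : ℤ) ((M * f : ℕ) : ℤ) := Nat.isCoprime_iff_coprime.mpr hn
  have h2 := DirichletCharacter.changeLevel_eq_cast_of_dvd' ψ (Nat.dvd_mul_right M f) h1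
  have h3 := DirichletCharacter.changeLevel_eq_cast_of_dvd' (jchar f) (Nat.dvd_mul_left f M) h1
  unfold theta
  rw [MulChar.mul_apply]
  rw [Int.cast_natCast, Int.cast_natCast] at h2 h3
  rw [h2, h3, jchar_apply]

lemma dvd_of_primes (f c : ℕ) (hf : Squarefree f) (h : ∀ p : ℕ, p.Prime → p ∣ f → p ∣ c) :
    f ∣ c := by
  rw [← Nat.prod_primeFactors_of_squarefree hf]
  apply Finset.prod_primes_dvd
  · intro p hp
    exact (Nat.prime_of_mem_primeFactors hp).prime
  · intro p hp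
    exact h p (Nat.prime_of_mem_primeFactors hp) (Nat.dvd_of_mem_primeFactors hp)

lemma dvd_cond (M f : ℕ) [NeZero M] [NeZero f] (ψ : DirichletCharacter ℂ M) (hf : Squarefree f)
    (hc : f.Coprime (2 * M)) : f ∣ (theta M f ψ).conductor := by
  apply dvd_of_primes f _ hf
  intro p hp hpf
  by_contra hpc
  obtain ⟨r, hr⟩ := hpf
  have hFact := Fact.mk hp
  have hf0 : f ≠ 0 := NeZero.ne f
  have hM0 : M ≠ 0 := NeZero.ne M
  have hr0 : r ≠ 0 := by
    rintro rfl; exact hf0 (by rw [hr, mul_zero])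
  have hpr : ¬ p ∣ r := by
    intro h
    have h2 : p * p ∣ f := by rw [hr]; exact Nat.mul_dvd_mul_left p h
    have := hf p h2
    exact hp.one_lt.ne' (Nat.isUnit_iff.mp this)
  have hpf' : p ∣ f := ⟨r, hr⟩
  have hp2M : Nat.Coprime p (2 * M) := Nat.Coprime.coprime_dvd_left hpf' hc
  have hp2 : p ≠ 2 := by
    rintro rfl
    have := Nat.Coprime.coprime_dvd_right (Nat.dvd_mul_right 2 M) hp2M
    norm_num at this
  have hpM : ¬ p ∣ M := by
    intro h
    have h1 := Nat.Coprime.coprime_dvd_right (Nat.dvd_mul_left M 2) hp2M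
    have h2 : p ∣ 1 := by
      rw [← h1.gcd_eq_one]
      exact Nat.dvd_gcd dvd_rfl h
    exact hp.one_lt.ne' (Nat.dvd_one.mp h2)
  have hco : Nat.Coprime p (M * r) :=
    Nat.Coprime.mul_right ((Nat.Prime.coprime_iff_not_dvd hp).mpr hpM)
      ((Nat.Prime.coprime_iff_not_dvd hp).mpr hpr)
  -- a nonresidue
  obtain ⟨c, hc'⟩ : ∃ c : ZMod p, quadraticChar (ZMod p) c = -1 := by
    apply quadraticChar_exists_neg_one
    rw [ZMod.ringChar_zmod_n]
    exact hp2
  obtain ⟨a, ha1, ha2⟩ := Nat.chineseRemainder hco c.val 1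
  have hac : (a : ZMod p) = c := by
    have h3 := (ZMod.natCast_eq_natCast_iff a c.val p).mpr ha1
    rw [h3, ZMod.natCast_zmod_val]
  have hc0 : c ≠ 0 := by
    rintro rfl
    rw [quadraticChar_zero] at hc'
    norm_num at hc'
  have e1 : jacobiSym (a : ℤ) p = -1 := by
    rw [← jacobiSym.legendreSym.to_jacobiSym, legendreSym]
    push_cast
    rw [hac]
    exact hc'
  have hNr : NeZero r := ⟨hr0⟩
  have ha2r : a ≡ 1 [MOD r] := ha2.of_dvd (Nat.dvd_mul_left r M)
  have ha2M : a ≡ 1 [MOD M] := ha2.of_dvd (Nat.dvd_mul_right M r)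
  have e2 : jacobiSym (a : ℤ) r = 1 := by
    rw [jacobiSym.mod_left]
    have h3 : (a : ℤ) % (r : ℤ) = (1 : ℤ) % (r : ℤ) := by
      exact_mod_cast ha2r
    rw [h3, ← jacobiSym.mod_left, jacobiSym.one_left]
  have haMr : a.Coprime (M * r) := by
    have := ha2.gcd_eq
    rw [Nat.gcd_one_left] at this
    exact this
  have hap : a.Coprime p := by
    rw [Nat.coprime_comm, Nat.Prime.coprime_iff_not_dvd hp]
    intro h
    apply hc0
    rw [← hac, ZMod.natCast_eq_zero_iff]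
    exact h
  have haMf : a.Coprime (M * f) := by
    rw [hr]
    have : M * (p * r) = p * (M * r) := by ring
    rw [this]
    exact Nat.Coprime.mul_right hap haMr
  have h1 := theta_apply M f ψ a haMf
  have h2 : (a : ZMod M) = 1 := by
    have := (ZMod.natCast_eq_natCast_iff a 1 M).mpr ha2M
    rw [this, Nat.cast_one]
  rw [h2, map_one, one_mul] at h1
  have h3 : jacobiSym (a : ℤ) f = -1 := by
    rw [hr, jacobiSym.mul_right, e1, e2, mul_one]
  rw [h3] at h1
  -- the conductor divides M r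
  have h4 : (theta M f ψ).conductor ∣ M * r := by
    have h5 := (theta M f ψ).conductor_dvd_level
    have h6 : M * f = (M * r) * p := by rw [hr]; ring
    refine Nat.Coprime.dvd_of_dvd_mul_right ?_ (h5.trans (dvd_of_eq h6))
    rw [Nat.coprime_comm, Nat.Prime.coprime_iff_not_dvd hp]
    exact hpc
  have h5 : IsCoprime (a : ℤ) ((M * f : ℕ) : ℤ) := Nat.isCoprime_iff_coprime.mpr haMf
  have h6 := (theta M f ψ).primitiveCharacter_apply_of_isCoprime h5
  rw [Int.cast_natCast, Int.cast_natCast] at h6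
  have h7 : (a : ZMod (theta M f ψ).conductor) = 1 := by
    have := (ZMod.natCast_eq_natCast_iff a 1 (theta M f ψ).conductor).mpr (ha2.of_dvd h4)
    rw [this, Nat.cast_one]
  rw [h7, map_one] at h6
  rw [← h6] at h1
  norm_num at h1

/-- values of the primitive character at primes which do not divide `M` -/
lemma prim_apply (M f : ℕ) [NeZero M] [NeZero f] (ψ : DirichletCharacter ℂ M) (hf : Squarefree f)
    (hc : f.Coprime (2 * M)) (p : ℕ) (hp : p.Prime) (hpM : ¬ p ∣ M) :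
    (theta M f ψ).primitiveCharacter (p : ZMod (theta M f ψ).conductor) =
      ψ (p : ZMod M) * ((jacobiSym (p : ℤ) f : ℤ) : ℂ) := by
  by_cases hpf : p ∣ f
  · have h1 : jacobiSym (p : ℤ) f = 0 := by
      rw [jacobiSym.eq_zero_iff_not_coprime, Int.gcd_natCast_natCast]
      rw [Nat.gcd_eq_left hpf]
      exact hp.one_lt.ne'
    rw [h1, Int.cast_zero, mul_zero]
    apply MulChar.map_nonunit
    rw [ZMod.isUnit_iff_coprime]
    intro h
    have h2 : p ∣ (theta M f ψ).conductor := hpf.trans (dvd_cond M f ψ hf hc)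
    rw [Nat.Prime.coprime_iff_not_dvd hp] at h
    exact h h2
  · have h1 : p.Coprime (M * f) :=
      Nat.Coprime.mul_right ((Nat.Prime.coprime_iff_not_dvd hp).mpr hpM)
        ((Nat.Prime.coprime_iff_not_dvd hp).mpr hpf)
    rw [← theta_apply M f ψ p h1]
    have h5 : IsCoprime (p : ℤ) ((M * f : ℕ) : ℤ) := Nat.isCoprime_iff_coprime.mpr h1
    have h6 := (theta M f ψ).primitiveCharacter_apply_of_isCoprime h5
    rw [Int.cast_natCast, Int.cast_natCast] at h6
    exact h6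

/-- number of ordered tuples with given product -/
noncomputable def bcoef (P : Finset ℕ) (i n : ℕ) : ℕ :=
  ((Fintype.piFinset (fun _ : Fin i => P)).filter (fun t => ∏ j, t j = n)).card

lemma bcoef_le (P : Finset ℕ) (hP : ∀ p ∈ P, p.Prime) (i n : ℕ) : bcoef P i n ≤ i.factorial := by
  unfold bcoef
  rcases Finset.eq_empty_or_nonempty
    ((Fintype.piFinset (fun _ : Fin i => P)).filter (fun t => ∏ j, t j = n)) with h | h
  · rw [h, Finset.card_empty]; exact Nat.zero_le _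
  · have key : ∀ t ∈ (Fintype.piFinset (fun _ : Fin i => P)).filter (fun t => ∏ j, t j = n),
        (List.ofFn t).Perm n.primeFactorsList := by
      intro t ht
      rw [Finset.mem_filter, Fintype.mem_piFinset] at ht
      apply Nat.primeFactorsList_unique
      · rw [List.prod_ofFn]; exact ht.2
      · intro p hp
        rw [List.mem_ofFn] at hp
        obtain ⟨j, rfl⟩ := hp
        exact hP _ (ht.1 j)
    obtain ⟨t0, ht0⟩ := h
    have hlen : n.primeFactorsList.length = i := by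
      rw [← (key t0 ht0).length_eq, List.length_ofFn]
    have h2 : n.primeFactorsList.permutations.length = i.factorial := by
      rw [List.length_permutations, hlen]
    rw [← h2]
    refine le_trans ?_ (List.toFinset_card_le _)
    apply Finset.card_le_card_of_injOn (fun t => List.ofFn t)
    · intro t ht
      rw [Finset.mem_coe, List.mem_toFinset, List.mem_permutations]
      exact key t ht
    · intro t _ t' _ h
      exact List.ofFn_injective h

lemma prod_mem (P : Finset ℕ) (y i : ℕ) (h1 : ∀ p ∈ P, 1 ≤ p) (h2 : ∀ p ∈ P, p ≤ 2 * y)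
    (t : Fin i → ℕ) (ht : t ∈ Fintype.piFinset (fun _ : Fin i => P)) :
    ∏ j, t j ∈ Finset.Icc 1 ((2 * y) ^ i) := by
  rw [Fintype.mem_piFinset] at ht
  rw [Finset.mem_Icc]
  refine ⟨Finset.one_le_prod' (fun j _ => h1 _ (ht j)), ?_⟩
  calc ∏ j, t j ≤ ∏ _j : Fin i, (2 * y) := Finset.prod_le_prod' (fun j _ => h2 _ (ht j))
    _ = (2 * y) ^ i := by rw [Finset.prod_const, Finset.card_univ, Fintype.card_fin]

lemma pow_expand (P : Finset ℕ) (y i : ℕ) (h1 : ∀ p ∈ P, 1 ≤ p) (h2 : ∀ p ∈ P, p ≤ 2 * y)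
    {c : ℕ} (χ : DirichletCharacter ℂ c) :
    (∑ p ∈ P, χ (p : ZMod c)) ^ i =
      ∑ n ∈ Finset.Icc 1 ((2 * y) ^ i), (bcoef P i n : ℂ) * χ (n : ZMod c) := by
  rw [Finset.sum_pow']
  rw [← Finset.sum_fiberwise_of_maps_to (s := Fintype.piFinset (fun _ : Fin i => P))
    (t := Finset.Icc 1 ((2 * y) ^ i)) (g := fun t => ∏ j, t j)
    (fun t ht => prod_mem P y i h1 h2 t ht)]
  refine Finset.sum_congr rfl fun n _ => ?_
  unfold bcoef
  rw [← nsmul_eq_mul, ← Finset.sum_const]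
  refine Finset.sum_congr rfl fun t ht => ?_
  rw [Finset.mem_filter] at ht
  rw [← ht.2, Nat.cast_prod, map_prod]

lemma sum_bcoef (P : Finset ℕ) (y i : ℕ) (h1 : ∀ p ∈ P, 1 ≤ p) (h2 : ∀ p ∈ P, p ≤ 2 * y) :
    ∑ n ∈ Finset.Icc 1 ((2 * y) ^ i), bcoef P i n = P.card ^ i := by
  have h3 := Finset.card_eq_sum_card_fiberwise (s := Fintype.piFinset (fun _ : Fin i => P))
    (t := Finset.Icc 1 ((2 * y) ^ i)) (f := fun t => ∏ j, t j)
    (fun t ht => prod_mem P y i h1 h2 t ht)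
  rw [Fintype.card_piFinset_const] at h3
  exact h3.symm

lemma sum_sq_bcoef (P : Finset ℕ) (hP : ∀ p ∈ P, p.Prime) (y i : ℕ) (h2 : ∀ p ∈ P, p ≤ 2 * y) :
    ∑ n ∈ Finset.Icc 1 ((2 * y) ^ i), ‖((bcoef P i n : ℕ) : ℂ)‖ ^ 2 ≤
      (i.factorial : ℝ) * (P.card : ℝ) ^ i := by
  calc ∑ n ∈ Finset.Icc 1 ((2 * y) ^ i), ‖((bcoef P i n : ℕ) : ℂ)‖ ^ 2 ≤
      ∑ n ∈ Finset.Icc 1 ((2 * y) ^ i), (i.factorial : ℝ) * (bcoef P i n : ℝ) := by
        refine Finset.sum_le_sum fun n _ => ?_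
        rw [Complex.norm_natCast, sq]
        refine mul_le_mul_of_nonneg_right ?_ (Nat.cast_nonneg _)
        exact_mod_cast bcoef_le P hP i n
    _ = (i.factorial : ℝ) * (P.card : ℝ) ^ i := by
        rw [← Finset.mul_sum]
        congr 1
        exact_mod_cast sum_bcoef P y i (fun p hp => (hP p hp).one_lt.le) h2

/-- the sum over the primitive characters of a fixed modulus -/
noncomputable def Gs (N : ℕ) (b : ℕ → ℂ) (q : ℕ) : ℝ := ∑ χ : DirichletCharacter ℂ q,
    (if χ.IsPrimitive then ‖∑ n ∈ Finset.Icc 1 N, b n * χ (n : ZMod q)‖ ^ 2 else 0)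

lemma Gs_nonneg (N : ℕ) (b : ℕ → ℂ) (q : ℕ) : 0 ≤ Gs N b q := by
  unfold Gs
  refine Finset.sum_nonneg fun χ _ => ?_
  split_ifs <;> positivity

lemma bad_step (M y i f : ℕ) (hM : 1 ≤ M) (hMy : M ≤ y) (hf : Squarefree f)
    (hc : f.Coprime (2 * M)) (hbad : BadF M y f) :
    ∃ c : ℕ, f ∣ c ∧ c ∣ M * f ∧
      (((9 / 10 : ℝ) * (PP y).card) ^ i) ^ 2 ≤
        Gs ((2 * y) ^ i) (fun n => ((bcoef (PP y) i n : ℕ) : ℂ)) c := by
  have hNM : NeZero M := ⟨by omega⟩
  have hNf : NeZero f := ⟨hf.ne_zero⟩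
  obtain ⟨ψ, _, hψ⟩ := hbad
  refine ⟨(theta M f ψ).conductor, dvd_cond M f ψ hf hc, (theta M f ψ).conductor_dvd_level, ?_⟩
  have hPp : ∀ p ∈ PP y, p.Prime ∧ y < p ∧ p ≤ 2 * y := by
    intro p hp
    unfold PP at hp
    rw [Finset.mem_filter, Finset.mem_Ioc] at hp
    exact ⟨hp.2, hp.1⟩
  have h1 : ∑ p ∈ PP y, ψ (p : ZMod M) * ((jacobiSym (p : ℤ) f : ℤ) : ℂ) =
      ∑ p ∈ PP y, (theta M f ψ).primitiveCharacter (p : ZMod (theta M f ψ).conductor) := by
    refine Finset.sum_congr rfl fun p hp => ?_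
    obtain ⟨h2, h3, h4⟩ := hPp p hp
    rw [prim_apply M f ψ hf hc p h2]
    intro h5
    have := Nat.le_of_dvd (by omega) h5
    omega
  rw [h1] at hψ
  have h2 := pow_expand (PP y) y i (fun p hp => (hPp p hp).1.one_lt.le)
    (fun p hp => (hPp p hp).2.2) (theta M f ψ).primitiveCharacter
  have h3 : (((9 / 10 : ℝ) * (PP y).card) ^ i) ^ 2 ≤
      ‖∑ n ∈ Finset.Icc 1 ((2 * y) ^ i), ((bcoef (PP y) i n : ℕ) : ℂ) *
        (theta M f ψ).primitiveCharacter (n : ZMod (theta M f ψ).conductor)‖ ^ 2 := by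
    rw [← h2, norm_pow]
    apply pow_le_pow_left₀ (by positivity)
    exact pow_le_pow_left₀ (by positivity) hψ.le i
  refine h3.trans ?_
  unfold Gs
  have h4 := Finset.single_le_sum (s := (Finset.univ :
    Finset (DirichletCharacter ℂ (theta M f ψ).conductor)))
    (f := fun χ => (if χ.IsPrimitive then ‖∑ n ∈ Finset.Icc 1 ((2 * y) ^ i),
      ((bcoef (PP y) i n : ℕ) : ℂ) * χ (n : ZMod (theta M f ψ).conductor)‖ ^ 2 else 0))
    (fun χ _ => by
      show 0 ≤ (if χ.IsPrimitive then _ else _)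
      split_ifs <;> positivity) (Finset.mem_univ (theta M f ψ).primitiveCharacter)
  rw [if_pos (theta M f ψ).primitiveCharacter_isPrimitive] at h4
  exact h4

end CC5h

open CC5h in
theorem T_CC5 : P_LS → P_NB → P_CC5 := by
  intro hLS hNB M hM
  obtain ⟨C, hC, hLS⟩ := hLS
  obtain ⟨_, y0, hNB⟩ := hNB
  refine ⟨C * (1 + (M : ℝ) ^ 2), by positivity, max y0 (max M 3), ?_⟩
  intro y hy i hi
  have hy0 : y0 ≤ y := le_trans (le_max_left _ _) hy
  have hyM : M ≤ y := le_trans (le_trans (le_max_left _ _) (le_max_right _ _)) hy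
  have hy3 : 3 ≤ y := le_trans (le_trans (le_max_right _ _) (le_max_right _ _)) hy
  have hy3' : (3 : ℝ) ≤ y := by exact_mod_cast hy3
  set Bad := (Finset.Icc 1 ⌊((2 * y : ℝ)) ^ ((i : ℝ) / 2)⌋₊).filter
    (fun f => Squarefree f ∧ f.Coprime (2 * M) ∧ BadF M y f) with hBad
  set F := ⌊((2 * y : ℝ)) ^ ((i : ℝ) / 2)⌋₊ with hF
  have hFle : (F : ℝ) ≤ ((2 * y : ℝ)) ^ ((i : ℝ) / 2) := Nat.floor_le (by positivity)
  have hF1 : 1 ≤ F := by
    apply Nat.le_floor
    rw [Nat.cast_one]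
    exact Real.one_le_rpow (by linarith) (by positivity)
  have hFsq : (F : ℝ) ^ 2 ≤ (2 * y : ℝ) ^ i := by
    calc (F : ℝ) ^ 2 ≤ (((2 * y : ℝ)) ^ ((i : ℝ) / 2)) ^ 2 := pow_le_pow_left₀ (by positivity) hFle 2
      _ = (2 * y : ℝ) ^ i := by
          rw [← Real.rpow_natCast, ← Real.rpow_mul (by positivity), ← Real.rpow_natCast]
          congr 1
          push_cast; ring
  set b : ℕ → ℂ := fun n => ((bcoef (PP y) i n : ℕ) : ℂ) with hb
  have hstep : ∀ f ∈ Bad, ∃ c : ℕ, f ∣ c ∧ c ∣ M * f ∧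
      (((9 / 10 : ℝ) * (PP y).card) ^ i) ^ 2 ≤ Gs ((2 * y) ^ i) b c := by
    intro f hf
    rw [hBad, Finset.mem_filter] at hf
    exact bad_step M y i f hM hyM hf.2.1 hf.2.2.1 hf.2.2.2
  choose! c hc1 hc2 hc3 using hstep
  have hinj : Set.InjOn c Bad := by
    have key : ∀ f ∈ Bad, ∀ f' ∈ Bad, c f = c f' → f ∣ f' := by
      intro f hf f' hf' h
      have h1 : f ∣ M * f' := (hc1 f hf).trans (h ▸ hc2 f' hf')
      have h2 : f.Coprime M := by
        rw [hBad, Finset.mem_filter] at hf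
        exact Nat.Coprime.coprime_dvd_right (Nat.dvd_mul_left M 2) hf.2.2.1
      exact h2.dvd_of_dvd_mul_left h1
    intro f hf f' hf' h
    exact Nat.dvd_antisymm (key f hf f' hf' h) (key f' hf' f hf h.symm)
  have hls := hLS ((2 * y) ^ i) (M * F) b (Nat.one_le_iff_ne_zero.mpr (by positivity))
    (Nat.one_le_iff_ne_zero.mpr (by positivity))
  have h1 : (Bad.card : ℝ) * (((9 / 10 : ℝ) * (PP y).card) ^ i) ^ 2 ≤
      ∑ q ∈ Finset.Icc 1 (M * F), Gs ((2 * y) ^ i) b q := by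
    calc (Bad.card : ℝ) * (((9 / 10 : ℝ) * (PP y).card) ^ i) ^ 2
        = ∑ f ∈ Bad, (((9 / 10 : ℝ) * (PP y).card) ^ i) ^ 2 := by
          rw [Finset.sum_const, nsmul_eq_mul]
      _ ≤ ∑ f ∈ Bad, Gs ((2 * y) ^ i) b (c f) := Finset.sum_le_sum fun f hf => hc3 f hf
      _ = ∑ q ∈ Bad.image c, Gs ((2 * y) ^ i) b q := (Finset.sum_image hinj).symm
      _ ≤ ∑ q ∈ Finset.Icc 1 (M * F), Gs ((2 * y) ^ i) b q := by
          apply Finset.sum_le_sum_of_subset_of_nonneg
          · intro q hq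
            rw [Finset.mem_image] at hq
            obtain ⟨f, hf, rfl⟩ := hq
            have h2 := hc2 f hf
            rw [hBad, Finset.mem_filter, Finset.mem_Icc] at hf
            have hMf : 0 < M * f := Nat.mul_pos (by omega) (by omega)
            rw [Finset.mem_Icc]
            refine ⟨Nat.pos_of_dvd_of_pos h2 hMf, (Nat.le_of_dvd hMf h2).trans ?_⟩
            exact Nat.mul_le_mul_left M hf.1.2
          · intro q _ _
            exact Gs_nonneg _ _ _
  have h2 : ∑ q ∈ Finset.Icc 1 (M * F), Gs ((2 * y) ^ i) b q ≤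
      C * ((((2 * y) ^ i : ℕ) : ℝ) + ((M * F : ℕ) : ℝ) ^ 2) *
        ∑ n ∈ Finset.Icc 1 ((2 * y) ^ i), ‖b n‖ ^ 2 := hls
  have hPp : ∀ p ∈ PP y, p.Prime ∧ y < p ∧ p ≤ 2 * y := by
    intro p hp
    unfold PP at hp
    rw [Finset.mem_filter, Finset.mem_Ioc] at hp
    exact ⟨hp.2, hp.1⟩
  have h3 : ∑ n ∈ Finset.Icc 1 ((2 * y) ^ i), ‖b n‖ ^ 2 ≤
      (i.factorial : ℝ) * ((PP y).card : ℝ) ^ i :=
    sum_sq_bcoef (PP y) (fun p hp => (hPp p hp).1) y i (fun p hp => (hPp p hp).2.2)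
  set π : ℝ := ((PP y).card : ℝ) with hπ
  have hlog : 0 < Real.log y := Real.log_pos (by linarith)
  have hπ1 : (9 / 10 : ℝ) * y ≤ π * Real.log y := by
    have := (hNB y hy0).1
    rw [div_le_iff₀ hlog] at this
    exact this
  have hπ0 : 0 < π := by
    by_contra h
    push Not at h
    nlinarith
  have h4 : C * ((((2 * y) ^ i : ℕ) : ℝ) + ((M * F : ℕ) : ℝ) ^ 2) ≤
      C * ((1 + (M : ℝ) ^ 2) * (2 * y : ℝ) ^ i) := by
    apply mul_le_mul_of_nonneg_left _ hC.le
    push_cast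
    have h5 := mul_le_mul_of_nonneg_left hFsq (show (0 : ℝ) ≤ (M : ℝ) ^ 2 by positivity)
    rw [mul_pow (M : ℝ) (F : ℝ) 2]
    linarith
  have h5 : (Bad.card : ℝ) * (((9 / 10 : ℝ) * π) ^ i) ^ 2 ≤
      C * ((1 + (M : ℝ) ^ 2) * (2 * y : ℝ) ^ i) * ((i.factorial : ℝ) * π ^ i) := by
    refine h1.trans (h2.trans ?_)
    apply mul_le_mul h4 h3 (Finset.sum_nonneg fun n _ => by positivity) (by positivity)
  have h6 : (2 * y * π : ℝ) ^ i ≤ (3 * Real.log y) ^ i * (((9 / 10 : ℝ) * π) ^ i) ^ 2 := by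
    have e1 : (((9 / 10 : ℝ) * π) ^ i) ^ 2 = (((9 / 10 : ℝ) * π) ^ 2) ^ i := by
      rw [← pow_mul, ← pow_mul, mul_comm i 2]
    rw [e1, ← mul_pow]
    apply pow_le_pow_left₀ (by positivity)
    nlinarith [mul_le_mul_of_nonneg_right hπ1 hπ0.le]
  have h7 : 0 < (((9 / 10 : ℝ) * π) ^ i) ^ 2 := by positivity
  refine le_of_mul_le_mul_right ?_ h7
  refine h5.trans ?_
  calc C * ((1 + (M : ℝ) ^ 2) * (2 * y : ℝ) ^ i) * ((i.factorial : ℝ) * π ^ i)
      = C * (1 + (M : ℝ) ^ 2) * (i.factorial : ℝ) * (2 * y * π : ℝ) ^ i := by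
        rw [mul_pow (2 * y : ℝ) π]; ring
    _ ≤ C * (1 + (M : ℝ) ^ 2) * (i.factorial : ℝ) *
        ((3 * Real.log y) ^ i * (((9 / 10 : ℝ) * π) ^ i) ^ 2) :=
        mul_le_mul_of_nonneg_left h6 (by positivity)
    _ = C * (1 + (M : ℝ) ^ 2) * (i.factorial : ℝ) * (3 * Real.log y) ^ i *
        (((9 / 10 : ℝ) * π) ^ i) ^ 2 := by ring

end Pool.Agent.H38R2.CG
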