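import Pool.Agent.H38R2.CG.Stubs

/-!
# CC7: harmonic sum over the bad f
-/

set_option autoImplicit false

namespace Pool.Agent.H38R2.CG

open Finset Filter
open scoped Classical

namespace CC7h

lemma cover (S I : Finset ℕ) (A : ℕ → Finset ℕ) (w : ℕ → ℝ) (hw : ∀ i ∈ I, 0 ≤ w i)
    (h : ∀ f ∈ S, ∃ i ∈ I, f ∈ A i ∧ (1 : ℝ) / f ≤ w i) :
    ∑ f ∈ S, (1 : ℝ) / f ≤ ∑ i ∈ I, ((A i).card : ℝ) * w i := by
  choose! g hg using h
  calc ∑ f ∈ S, (1 : ℝ) / f ≤ ∑ f ∈ S, w (g f) := Finset.sum_le_sum fun f hf => (hg f hf).2.2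
    _ = ∑ i ∈ I, ∑ f ∈ S.filter (fun f => g f = i), w (g f) :=
        (Finset.sum_fiberwise_of_maps_to (fun f hf => (hg f hf).1) _).symm
    _ ≤ ∑ i ∈ I, ((A i).card : ℝ) * w i := by
        refine Finset.sum_le_sum fun i hi => ?_
        have h1 : ∑ f ∈ S.filter (fun f => g f = i), w (g f) =
            ∑ f ∈ S.filter (fun f => g f = i), w i := by
          refine Finset.sum_congr rfl fun f hf => ?_
          rw [(Finset.mem_filter.mp hf).2]
        rw [h1, Finset.sum_const, nsmul_eq_mul]
        refine mul_le_mul_of_nonneg_right ?_ (hw i hi)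
        have h2 : S.filter (fun f => g f = i) ⊆ A i := by
          intro f hf
          rw [Finset.mem_filter] at hf
          have := (hg f hf.1).2.1
          rw [hf.2] at this
          exact this
        exact_mod_cast Finset.card_le_card h2

lemma tendsto_L : Tendsto (fun X : ℕ => Real.log X) atTop atTop :=
  Real.tendsto_log_atTop.comp tendsto_natCast_atTop_atTop

lemma yy_le (X : ℕ) (_ : 0 ≤ Real.log X) : (yy X : ℝ) ≤ (Real.log X) ^ 6 / 4 :=
  Nat.floor_le (by positivity)

lemma le_yy (X : ℕ) : (Real.log X) ^ 6 / 4 - 1 < (yy X : ℝ) := by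
  have := Nat.lt_floor_add_one ((Real.log X) ^ 6 / 4)
  unfold yy
  linarith

lemma tendsto_yy : Tendsto yy atTop atTop := by
  have h1 : Tendsto (fun X : ℕ => (Real.log X) ^ 6 / 4) atTop atTop := by
    have := (tendsto_pow_atTop (n := 6) (by norm_num)).comp tendsto_L
    exact this.atTop_div_const (by norm_num)
  exact tendsto_nat_floor_atTop.comp h1

lemma tendsto_logyy : Tendsto (fun X : ℕ => Real.log (yy X)) atTop atTop :=
  Real.tendsto_log_atTop.comp (tendsto_natCast_atTop_atTop.comp tendsto_yy)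

lemma logL_small (δ : ℝ) (hδ : 0 < δ) :
    ∀ᶠ X : ℕ in atTop, (Real.log (Real.log X)) ^ 2 ≤ δ * Real.log X := by
  have h1 := (Real.isLittleO_pow_log_id_atTop (n := 2)).def hδ
  have h2 := tendsto_L.eventually h1
  filter_upwards [h2, tendsto_L.eventually_ge_atTop 0] with X hX hL
  rw [Real.norm_of_nonneg (by positivity), id, Real.norm_of_nonneg hL] at hX
  exact hX

lemma geom_bound (a : ℝ) (ha0 : 0 ≤ a) (ha : a ≤ 1 / 2) (n : ℕ) :
    ∑ i ∈ Finset.range n, a ^ i ≤ 2 := by
  have h1 := geom_sum_mul_neg a n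
  have h2 : 0 ≤ ∑ i ∈ Finset.range n, a ^ i := Finset.sum_nonneg fun i _ => by positivity
  have h3 : 0 ≤ a ^ n := by positivity
  nlinarith

end CC7h

open CC7h in
theorem T_CC7 : P_CC5 → P_CC6 → P_CC7 := by
  intro h5 h6 M hM ε hε
  obtain ⟨C, hC, y5, h5⟩ := h5 M hM
  obtain ⟨y6, h6⟩ := h6 M hM
  rw [← Filter.eventually_atTop]
  have hδ : 0 < ε / (2 * (36 * 36 * C)) := by positivity
  have e1 : ∀ᶠ X : ℕ in atTop, 6 * C / ε + 1 ≤ Real.log (yy X) :=
    tendsto_logyy.eventually_ge_atTop _
  filter_upwards [e1, logL_small _ hδ, logL_small (1 / 72 / 6) (by norm_num),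
    tendsto_L.eventually_ge_atTop 8, tendsto_yy.eventually_ge_atTop y5,
    tendsto_yy.eventually_ge_atTop y6, tendsto_yy.eventually_ge_atTop 1] with
    X hly hs1 hs2 hL8 hy5 hy6 hy1
  set y := yy X with hy
  set L := Real.log X with hLdef
  set l := Real.log y with hl
  have hy1' : (1 : ℝ) ≤ y := by exact_mod_cast hy1
  have hL0 : 0 < L := by linarith
  have hl1 : 1 ≤ l := by
    have : 0 ≤ 6 * C / ε := by positivity
    linarith
  have hl0 : 0 < l := by linarith
  have hlL : l ≤ 6 * Real.log L := by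
    have h1 : (y : ℝ) ≤ L ^ 6 := by
      have := yy_le X hL0.le
      have h2 : 0 ≤ L ^ 6 := by positivity
      linarith
    have h2 := Real.log_le_log (by linarith) h1
    rw [Real.log_pow] at h2
    push_cast at h2
    exact h2
  have hlogL : 0 < Real.log L := by linarith
  have hl2 : l ^ 2 ≤ 36 * (Real.log L) ^ 2 := by nlinarith
  -- the square root of 2y
  have hsq : L ^ 3 / 2 ≤ (2 * y : ℝ) ^ (1 / 2 : ℝ) := by
    rw [← Real.sqrt_eq_rpow]
    apply Real.le_sqrt_of_sq_le
    have h1 := le_yy X
    have h2 : (4 : ℝ) ≤ L ^ 6 := by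
      have : (1 : ℝ) ≤ L / 8 := by linarith
      have h3 : (8 : ℝ) ^ 6 ≤ L ^ 6 := pow_le_pow_left₀ (by norm_num) hL8 6
      norm_num at h3
      linarith
    have h3 : L ^ 6 / 4 - 1 < (y : ℝ) := h1
    have h4 : (L ^ 3 / 2) ^ 2 = L ^ 6 / 4 := by ring
    have h5 : (8 : ℝ) ^ 6 ≤ L ^ 6 := pow_le_pow_left₀ (by norm_num) hL8 6
    norm_num at h5
    rw [h4]
    linarith
  set s := (2 * y : ℝ) ^ (1 / 2 : ℝ) with hs
  have hs0 : 0 < s := by positivity
  have hspow : ∀ i : ℕ, (2 * y : ℝ) ^ ((i : ℝ) / 2) = s ^ i := by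
    intro i
    rw [hs, ← Real.rpow_natCast, ← Real.rpow_mul (by positivity)]
    congr 1; ring
  set I := ⌊L⌋₊ with hI
  have hIL : (I : ℝ) ≤ L := Nat.floor_le hL0.le
  have hIL' : L - 1 < I := by
    have := Nat.lt_floor_add_one L
    linarith
  -- X ≤ s ^ I
  have hXs : (X : ℝ) ≤ s ^ I := by
    have hX0 : (0 : ℝ) < X := by
      rcases Nat.eq_zero_or_pos X with h | h
      · exfalso
        rw [hLdef, h] at hL8
        simp at hL8
        linarith
      · exact_mod_cast h
    rw [← Real.log_le_log_iff hX0 (by positivity), Real.log_pow]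
    have h1 : (2 : ℝ) ≤ Real.log s := by
      rw [Real.le_log_iff_exp_le hs0]
      refine le_trans ?_ hsq
      have h2 : Real.exp 2 ≤ 9 := by
        have := Real.exp_one_lt_d9
        have h3 : Real.exp 2 = Real.exp 1 * Real.exp 1 := by
          rw [← Real.exp_add]; norm_num
        rw [h3]
        have h4 := Real.exp_pos 1
        nlinarith
      have h3 : (8 : ℝ) ^ 3 ≤ L ^ 3 := pow_le_pow_left₀ (by norm_num) hL8 3
      norm_num at h3
      linarith
    have h2 : L = Real.log X := rfl
    rw [← h2]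
    nlinarith
  set A : ℕ → Finset ℕ := fun i => (Finset.Icc 1 ⌊((2 * y : ℝ)) ^ ((i : ℝ) / 2)⌋₊).filter
    (fun f => Squarefree f ∧ f.Coprime (2 * M) ∧ BadF M y f) with hA
  set w : ℕ → ℝ := fun i => if i = 1 then 1 / l ^ 3 else 1 / s ^ (i - 1) with hw
  have hcov := cover ((Finset.Icc 1 X).filter
    (fun f => Squarefree f ∧ f.Coprime (2 * M) ∧ BadF M y f)) (Finset.Icc 1 I) A w (by
      intro i _
      simp only [hw]
      split_ifs <;> positivity) (by
      intro f hf
      rw [Finset.mem_filter, Finset.mem_Icc] at hf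
      obtain ⟨⟨hf1, hfX⟩, hsf, hcop, hbad⟩ := hf
      have hf1' : (1 : ℝ) ≤ f := by exact_mod_cast hf1
      have hex : ∃ i : ℕ, 1 ≤ i ∧ (f : ℝ) ≤ s ^ i := by
        refine ⟨I, ?_, ?_⟩
        · rw [hI]; exact Nat.le_floor (by push_cast; linarith)
        · exact le_trans (by exact_mod_cast hfX) hXs
      obtain ⟨hi1, hi2⟩ := Nat.find_spec hex
      set i := Nat.find hex with hi
      have hiI : i ≤ I := Nat.find_min' hex ⟨by rw [hI]; exact Nat.le_floor (by push_cast; linarith),
        le_trans (by exact_mod_cast hfX) hXs⟩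
      refine ⟨i, Finset.mem_Icc.mpr ⟨hi1, hiI⟩, ?_, ?_⟩
      · simp only [hA]
        rw [Finset.mem_filter, Finset.mem_Icc]
        refine ⟨⟨hf1, ?_⟩, hsf, hcop, hbad⟩
        apply Nat.le_floor
        rw [hspow]; exact hi2
      · simp only [hw]
        split_ifs with h
        · apply one_div_le_one_div_of_le (by positivity)
          by_contra hlt
          push Not at hlt
          exact h6 y hy6 f hf1 hlt.le hsf hcop hbad
        · apply one_div_le_one_div_of_le (by positivity)
          have hmin := Nat.find_min hex (m := i - 1) (by omega)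
          by_contra hlt
          push Not at hlt
          exact hmin ⟨by omega, hlt.le⟩)
  refine hcov.trans ?_
  -- bound of the terms
  set a := 6 * l / L ^ 2 with ha
  have ha0 : 0 ≤ a := by positivity
  have haa : a ≤ 1 / 2 := by
    rw [ha, div_le_iff₀ (by positivity)]
    have h1 : Real.log L ^ 2 ≤ 1 / 72 / 6 * L := hs2
    have h2 : l ≤ l ^ 2 := by nlinarith
    nlinarith
  have hterm : ∀ i ∈ Finset.Icc 1 I, ((A i).card : ℝ) * w i ≤
      (if i = 1 then 3 * C / l ^ 2 else 0) + (if i = 1 then 0 else C * (3 * L * l) * a ^ (i - 1)) := by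
    intro i hi
    rw [Finset.mem_Icc] at hi
    have hcard := h5 y hy5 i hi.1
    have hw0 : 0 ≤ w i := by
      simp only [hw]
      split_ifs <;> positivity
    refine (mul_le_mul_of_nonneg_right hcard hw0).trans ?_
    by_cases h : i = 1
    · rw [if_pos h, if_pos h]
      simp only [hw]
      rw [if_pos h, h]
      simp only [Nat.factorial_one, Nat.cast_one, mul_one, pow_one, add_zero]
      apply le_of_eq
      show C * (3 * l) * (1 / l ^ 3) = _
      field_simp
    · rw [if_neg h, if_neg h, zero_add]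
      simp only [hw]
      rw [if_neg h]
      obtain ⟨n, rfl⟩ : ∃ n, i = n + 1 := ⟨i - 1, by omega⟩
      simp only [Nat.add_sub_cancel]
      have hfac : ((n + 1).factorial : ℝ) ≤ L ^ (n + 1) := by
        calc ((n + 1).factorial : ℝ) ≤ ((n + 1 : ℕ) : ℝ) ^ (n + 1) := by
              exact_mod_cast Nat.factorial_le_pow (n + 1)
          _ ≤ L ^ (n + 1) := by
              apply pow_le_pow_left₀ (by positivity)
              refine le_trans ?_ hIL
              exact_mod_cast hi.2
      have hs1' : 1 / s ^ n ≤ (2 / L ^ 3) ^ n := by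
        rw [← one_div_pow]
        apply pow_le_pow_left₀ (by positivity)
        rw [div_le_div_iff₀ hs0 (by positivity)]
        linarith
      calc C * ((n + 1).factorial : ℝ) * (3 * l) ^ (n + 1) * (1 / s ^ n)
          ≤ C * L ^ (n + 1) * (3 * l) ^ (n + 1) * (2 / L ^ 3) ^ n := by
            apply mul_le_mul _ hs1' (by positivity) (by positivity)
            apply mul_le_mul_of_nonneg_right _ (by positivity)
            exact mul_le_mul_of_nonneg_left hfac hC.le
        _ = C * (3 * L * l) * a ^ n := by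
            rw [ha]
            have : (6 * l / L ^ 2) = (L * (3 * l)) * (2 / L ^ 3) := by
              field_simp
              norm_num
            rw [this, mul_pow, mul_pow]
            ring
  refine (Finset.sum_le_sum hterm).trans ?_
  rw [Finset.sum_add_distrib]
  have hp1 : ∑ i ∈ Finset.Icc 1 I, (if i = 1 then 3 * C / l ^ 2 else 0) ≤ ε / 2 := by
    rw [Finset.sum_ite_eq' (Finset.Icc 1 I) 1]
    split_ifs
    · rw [div_le_div_iff₀ (by positivity) (by norm_num)]
      have h1 : 6 * C ≤ ε * l := by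
        have h2 : 6 * C / ε ≤ l := by linarith
        rw [div_le_iff₀ hε] at h2
        linarith
      nlinarith
    · positivity
  have hp2 : ∑ i ∈ Finset.Icc 1 I, (if i = 1 then 0 else C * (3 * L * l) * a ^ (i - 1)) ≤ ε / 2 := by
    have h1 : ∑ i ∈ Finset.Icc 1 I, (if i = 1 then 0 else C * (3 * L * l) * a ^ (i - 1)) ≤
        ∑ i ∈ Finset.range I, C * (3 * L * l) * a * a ^ i := by
      have h2 : ∀ i ∈ Finset.Icc 1 I, (if i = 1 then 0 else C * (3 * L * l) * a ^ (i - 1)) ≤
          (if i = 1 then 0 else C * (3 * L * l) * a * a ^ (i - 2)) := by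
        intro i hi
        rw [Finset.mem_Icc] at hi
        by_cases h : i = 1
        · rw [if_pos h, if_pos h]
        · rw [if_neg h, if_neg h]
          apply le_of_eq
          rw [mul_assoc (C * (3 * L * l)), ← pow_succ']
          congr 2; omega
      refine (Finset.sum_le_sum h2).trans ?_
      rw [← Finset.sum_filter_not_add_sum_filter (Finset.Icc 1 I) (fun i => i = 1)]
      have h3 : ∑ i ∈ (Finset.Icc 1 I).filter (fun i => i = 1),
          (if i = 1 then 0 else C * (3 * L * l) * a * a ^ (i - 2)) = 0 := by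
        apply Finset.sum_eq_zero
        intro i hi
        rw [if_pos (Finset.mem_filter.mp hi).2]
      rw [h3, add_zero]
      have h4 : ∑ i ∈ (Finset.Icc 1 I).filter (fun i => ¬ i = 1),
          (if i = 1 then 0 else C * (3 * L * l) * a * a ^ (i - 2)) =
          ∑ i ∈ (Finset.Icc 1 I).filter (fun i => ¬ i = 1), C * (3 * L * l) * a * a ^ (i - 2) := by
        refine Finset.sum_congr rfl fun i hi => ?_
        rw [if_neg (Finset.mem_filter.mp hi).2]
      rw [h4, ← Finset.sum_image (s := (Finset.Icc 1 I).filter (fun i => ¬ i = 1))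
        (g := fun i => i - 2) (f := fun i => C * (3 * L * l) * a * a ^ i) ?_]
      · apply Finset.sum_le_sum_of_subset_of_nonneg
        · intro i hi
          rw [Finset.mem_image] at hi
          obtain ⟨k, hk, rfl⟩ := hi
          rw [Finset.mem_filter, Finset.mem_Icc] at hk
          rw [Finset.mem_range]
          omega
        · intro i _ _; positivity
      · intro i hi k hk hik
        rw [Finset.mem_coe, Finset.mem_filter, Finset.mem_Icc] at hi hk
        simp only at hik
        omega
    refine h1.trans ?_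
    rw [← Finset.mul_sum]
    have h2 := geom_bound a ha0 haa I
    have h3 : C * (3 * L * l) * a * ∑ i ∈ Finset.range I, a ^ i ≤ C * (3 * L * l) * a * 2 :=
      mul_le_mul_of_nonneg_left h2 (by positivity)
    refine h3.trans ?_
    have h4 : C * (3 * L * l) * a * 2 = 36 * C * l ^ 2 / L := by
      rw [ha]; field_simp; ring
    rw [h4, div_le_iff₀ hL0]
    have h5 : Real.log L ^ 2 ≤ ε / (2 * (36 * 36 * C)) * L := hs1
    have h6 : 36 * C * l ^ 2 ≤ 36 * C * (36 * (Real.log L) ^ 2) :=
      mul_le_mul_of_nonneg_left hl2 (by positivity)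
    have h7 : 36 * C * (36 * (Real.log L) ^ 2) ≤ 36 * C * (36 * (ε / (2 * (36 * 36 * C)) * L)) := by
      apply mul_le_mul_of_nonneg_left _ (by positivity)
      linarith
    have h8 : 36 * C * (36 * (ε / (2 * (36 * 36 * C)) * L)) = ε / 2 * L := by
      field_simp
    linarith
  linarith

end Pool.Agent.H38R2.CG
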