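import Pool.Agent.H38R2.CG.CC4

/-!
# CM: sum over all characters
-/

set_option autoImplicit false

namespace Pool.Agent.H38R2.CG

open Finset Filter
open scoped Classical

namespace CMh

open CC4h

lemma kk_ge (X : ℕ) (h : 4 ≤ Real.log X) : √(Real.log X) / 20 ≤ (kk X : ℝ) := by
  have h1 := log_yy_ge X (by linarith)
  have h2 : Real.log (yy X) ≤ 12 * √(Real.log X) := by
    have h3 : (yy X : ℝ) ≤ (Real.log X) ^ 6 := by
      unfold yy
      have h31 := Nat.floor_le (show (0 : ℝ) ≤ (Real.log X) ^ 6 / 4 by positivity)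
      have h32 : (0 : ℝ) ≤ (Real.log X) ^ 6 := by positivity
      linarith
    have h4 : Real.log (yy X) ≤ Real.log ((Real.log X) ^ 6) :=
      Real.log_le_log (by have := yy_ge_eight X (by linarith); linarith) h3
    rw [Real.log_pow] at h4
    have h5 := log_le_two_sqrt (Real.log X) (by linarith)
    push_cast at h4
    linarith
  have h5 := Nat.lt_floor_add_one ((13 / 20 : ℝ) * Real.log X / Real.log (yy X))
  have hs : 0 < √(Real.log X) := Real.sqrt_pos.mpr (by linarith)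
  have hsq : √(Real.log X) * √(Real.log X) = Real.log X := Real.mul_self_sqrt (by linarith)
  have h6 : √(Real.log X) / 20 ≤ (13 / 20 : ℝ) * Real.log X / Real.log (yy X) := by
    rw [le_div_iff₀ (by linarith)]
    nlinarith
  unfold kk
  push_cast
  linarith

/-- The constant. -/
noncomputable def C1 (c : ℝ) : ℝ := 2500 * ((Nat.factorial 10 : ℕ) : ℝ) * 10 ^ 10 / c ^ 10

lemma powbound (c : ℝ) (hc0 : 0 < c) (hc1 : c ≤ 1 / 2) (X : ℕ) (h : 4 ≤ Real.log X) :
    (50 * √(kk X : ℝ) * (1 - c) ^ (kk X)) ^ 2 ≤ C1 c / (Real.log X) ^ 4 := by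
  have hk := kk_le X h
  have hk2 := kk_ge X h
  set L := Real.log X with hL
  set k : ℝ := (kk X : ℝ) with hk'
  have hk0 : 0 ≤ k := Nat.cast_nonneg _
  have h1 : (1 - c) ^ (kk X) ≤ Real.exp (-(c * k)) := by
    have h11 : 1 - c ≤ Real.exp (-c) := Real.one_sub_le_exp_neg c
    calc (1 - c) ^ (kk X) ≤ (Real.exp (-c)) ^ (kk X) :=
          pow_le_pow_left₀ (by linarith) h11 _
      _ = Real.exp (-(c * k)) := by rw [← Real.exp_nat_mul]; congr 1; ring
  have hL0 : 0 < L := by linarith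
  have hs : 0 < √L := Real.sqrt_pos.mpr hL0
  have h2 : ((1 - c) ^ (kk X)) ^ 2 ≤
      ((Nat.factorial 10 : ℕ) : ℝ) * 10 ^ 10 / (c ^ 10 * L ^ 5) := by
    calc ((1 - c) ^ (kk X)) ^ 2 ≤ (Real.exp (-(c * k))) ^ 2 :=
          pow_le_pow_left₀ (pow_nonneg (by linarith) _) h1 2
      _ = (Real.exp (2 * c * k))⁻¹ := by
          rw [← Real.exp_neg, ← Real.exp_nat_mul]; congr 1; push_cast; ring
      _ ≤ ((2 * c * k) ^ 10 / ((Nat.factorial 10 : ℕ) : ℝ))⁻¹ := by
          apply inv_anti₀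
          · have : 0 < k := lt_of_lt_of_le (by positivity) hk2
            positivity
          · exact Real.pow_div_factorial_le_exp _ (by positivity) 10
      _ ≤ ((c * √L / 10) ^ 10 / ((Nat.factorial 10 : ℕ) : ℝ))⁻¹ := by
          apply inv_anti₀ (by positivity)
          apply div_le_div_of_nonneg_right _ (by positivity)
          apply pow_le_pow_left₀ (by positivity)
          nlinarith
      _ = ((Nat.factorial 10 : ℕ) : ℝ) * 10 ^ 10 / (c ^ 10 * L ^ 5) := by
          have h3 : (c * √L / 10) ^ 10 = c ^ 10 * L ^ 5 / 10 ^ 10 := by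
            have : √L ^ 10 = L ^ 5 := by
              rw [show (10 : ℕ) = 2 * 5 by norm_num, pow_mul, Real.sq_sqrt hL0.le]
            rw [div_pow, mul_pow, this]
          rw [h3, inv_div, div_div_eq_mul_div]
  have h4 : (50 * √k * (1 - c) ^ (kk X)) ^ 2 = 2500 * k * ((1 - c) ^ (kk X)) ^ 2 := by
    rw [mul_pow, mul_pow, Real.sq_sqrt hk0]; norm_num
  rw [h4]
  have hpos : 0 ≤ ((Nat.factorial 10 : ℕ) : ℝ) * 10 ^ 10 / (c ^ 10 * L ^ 5) := by positivity
  calc 2500 * k * ((1 - c) ^ (kk X)) ^ 2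
      ≤ 2500 * L * (((Nat.factorial 10 : ℕ) : ℝ) * 10 ^ 10 / (c ^ 10 * L ^ 5)) := by
        apply mul_le_mul (by linarith) h2 (by positivity) (by positivity)
    _ = C1 c / L ^ 4 := by
        unfold C1
        have hc10 : c ^ 10 ≠ 0 := by positivity
        have hL5 : L ≠ 0 := hL0.ne'
        generalize ((Nat.factorial 10 : ℕ) : ℝ) = F
        field_simp

lemma small (K c η' δ ε : ℝ) (hK : 0 ≤ K) (hc0 : 0 < c) (hc1 : c ≤ 1 / 2) (hη : 0 < η')
    (hδ : 0 < δ) (hε : 0 < ε) : ∃ X0 : ℕ, ∀ X ≥ X0,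
    K * (1 + Real.log X) * ((kk X / δ) ^ 2 *
      (50 * √(kk X : ℝ) * (1 - c) ^ (kk X) + 8 / (η' * √(yy X : ℝ))) ^ 2) ≤ ε := by
  set C := 4 * K / δ ^ 2 * (C1 c + 512 / η' ^ 2) with hC
  obtain ⟨X0, hX0⟩ := log_large (max 4 (C / ε))
  refine ⟨X0, fun X hX => ?_⟩
  have h4 : 4 ≤ Real.log X := (le_max_left _ _).trans (hX0 X hX)
  have h5 : C / ε ≤ Real.log X := (le_max_right _ _).trans (hX0 X hX)
  have hA := powbound c hc0 hc1 X h4
  have hy := yy_ge X (by linarith)
  have hy8 := yy_ge_eight X (by linarith)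
  have hk := kk_le X h4
  set L := Real.log X with hL
  set k : ℝ := (kk X : ℝ) with hk'
  set y : ℝ := (yy X : ℝ) with hy'
  set A := 50 * √k * (1 - c) ^ (kk X) with hAdef
  set B := 8 / (η' * √y) with hB
  have hL0 : 0 < L := by linarith
  have hk0 : 0 ≤ k := Nat.cast_nonneg _
  have hC10 : 0 ≤ C1 c := by unfold C1; positivity
  have hB2 : B ^ 2 ≤ 512 / η' ^ 2 / L ^ 6 := by
    have : B ^ 2 = 64 / (η' ^ 2 * y) := by
      rw [hB, div_pow, mul_pow, Real.sq_sqrt (by linarith)]; norm_num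
    rw [this, div_div, div_le_div_iff₀ (by positivity) (by positivity)]
    have : 0 ≤ η' ^ 2 := by positivity
    nlinarith
  have hAB : (A + B) ^ 2 ≤ 2 * (A ^ 2 + B ^ 2) := by nlinarith [sq_nonneg (A - B)]
  have hB3 : 512 / η' ^ 2 / L ^ 6 ≤ 512 / η' ^ 2 / L ^ 4 := by
    apply div_le_div_of_nonneg_left (by positivity) (by positivity)
    exact pow_le_pow_right₀ (by linarith) (by norm_num)
  have h6 : (A + B) ^ 2 ≤ 2 * (C1 c + 512 / η' ^ 2) / L ^ 4 := by
    have : 2 * (C1 c + 512 / η' ^ 2) / L ^ 4 = 2 * (C1 c / L ^ 4 + 512 / η' ^ 2 / L ^ 4) := by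
      ring
    rw [this]
    linarith
  have h7 : (k / δ) ^ 2 ≤ L ^ 2 / δ ^ 2 := by
    rw [div_pow]
    apply div_le_div_of_nonneg_right _ (by positivity)
    exact pow_le_pow_left₀ hk0 hk 2
  calc K * (1 + L) * ((k / δ) ^ 2 * (A + B) ^ 2)
      ≤ K * (2 * L) * ((L ^ 2 / δ ^ 2) * (2 * (C1 c + 512 / η' ^ 2) / L ^ 4)) := by
        apply mul_le_mul
        · apply mul_le_mul_of_nonneg_left (by linarith) hK
        · exact mul_le_mul h7 h6 (by positivity) (by positivity)
        · positivity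
        · positivity
    _ = C / L := by
        rw [hC]
        have := hL0.ne'
        field_simp
        ring
    _ ≤ ε := by
        rw [div_le_iff₀ hL0]
        rw [div_le_iff₀ hε] at h5
        linarith

lemma phi_nonneg (t : ℝ) : 0 ≤ phi t := le_max_left _ _

lemma norm_Sch_le (X : ℕ) (η' : ℝ) (j : ℤ) (M : ℕ) (ψ : DirichletCharacter ℂ M) (f : ℕ) :
    ‖Sch X η' j M ψ f‖ ≤ S1 X η' j := by
  unfold Sch S1
  refine (norm_sum_le _ _).trans (Finset.sum_le_sum fun s _ => ?_)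
  have hw : 0 ≤ win η' j s := phi_nonneg _
  rw [mul_assoc, prod_xv, norm_mul, Complex.norm_real, Real.norm_of_nonneg hw]
  have : ‖∏ p ∈ s, xv M ψ f p‖ ≤ 1 := by
    rw [norm_prod]
    exact Finset.prod_le_one (fun _ _ => norm_nonneg _) fun p _ => norm_xv M ψ f p
  calc win η' j s * ‖∏ p ∈ s, xv M ψ f p‖ ≤ win η' j s * 1 :=
        mul_le_mul_of_nonneg_left this (phi_nonneg _)
    _ = win η' j s := mul_one _

lemma harm (X : ℕ) : ∑ f ∈ Finset.Icc 1 X, (1 : ℝ) / f ≤ 1 + Real.log X := by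
  have h := harmonic_le_one_add_log X
  rw [harmonic_eq_sum_Icc] at h
  push_cast at h
  simpa [one_div] using h

end CMh

open CMh in
theorem T_CM : P_CC4 → P_CC6 → P_CC7 → P_NB → P_CM := by
  intro hCC4 _ hCC7 _ M hM η' hη δ ε hδ hε
  obtain ⟨c, hc0, hc1, X1, hX1⟩ := hCC4 M hM
  set K : ℝ := (Fintype.card (DirichletCharacter ℂ M) : ℝ) with hK
  have hK1 : 1 ≤ K := by
    have : 0 < Fintype.card (DirichletCharacter ℂ M) := Fintype.card_pos_iff.mpr ⟨1⟩
    rw [hK]
    exact_mod_cast this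
  obtain ⟨X2, hX2⟩ := hCC7 M hM (ε / (2 * K)) (by positivity)
  obtain ⟨X3, hX3⟩ := small K c η' δ (ε / 2) (by linarith) hc0 hc1 hη hδ (by positivity)
  refine ⟨max X1 (max X2 X3), fun X hX j hS => ?_⟩
  have hXX1 : X ≥ X1 := (le_max_left _ _).trans hX
  have hXX2 : X ≥ X2 := ((le_max_left _ _).trans (le_max_right _ _)).trans hX
  have hXX3 : X ≥ X3 := ((le_max_right _ _).trans (le_max_right _ _)).trans hX
  set F := (Finset.Icc 1 X).filter (fun f => Squarefree f ∧ f.Coprime (2 * M)) with hF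
  have hk0 : (0 : ℝ) < kk X := by
    unfold kk; positivity
  have hNX : NX X ≤ kk X / δ * S1 X η' j := by
    rw [div_mul_eq_mul_div, le_div_iff₀ hδ]
    rw [div_mul_eq_mul_div, div_le_iff₀ hk0] at hS
    linarith
  have hNX0 : 0 ≤ NX X := by unfold NX; positivity
  set A := 50 * √(kk X : ℝ) * (1 - c) ^ (kk X) + 8 / (η' * √(yy X : ℝ)) with hA
  have hA0 : 0 ≤ A := by
    have : 0 ≤ (1 - c) ^ (kk X) := pow_nonneg (by linarith) _
    positivity
  have hS0 : 0 ≤ S1 X η' j := Finset.sum_nonneg fun s _ => phi_nonneg _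
  have hterm : ∀ f ∈ F, ∑ ψ : DirichletCharacter ℂ M,
      (if ψ = 1 ∧ f = 1 then 0 else ‖Sch X η' j M ψ f‖ ^ 2 / f) ≤
      (if BadF M (yy X) f then K * (S1 X η' j) ^ 2 * (1 / f) else 0) +
        K * ((kk X / δ) ^ 2 * A ^ 2) * (S1 X η' j) ^ 2 * (1 / f) := by
    intro f hf
    have hfm := Finset.mem_filter.mp hf
    have hf1 : 1 ≤ f := (Finset.mem_Icc.mp hfm.1).1
    have hf0 : (0 : ℝ) < f := by exact_mod_cast hf1
    by_cases hb : BadF M (yy X) f
    · rw [if_pos hb]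
      have h1 : ∑ ψ : DirichletCharacter ℂ M,
          (if ψ = 1 ∧ f = 1 then 0 else ‖Sch X η' j M ψ f‖ ^ 2 / f) ≤
          ∑ ψ : DirichletCharacter ℂ M, (S1 X η' j) ^ 2 * (1 / f) := by
        refine Finset.sum_le_sum fun ψ _ => ?_
        split_ifs
        · positivity
        · rw [div_eq_mul_one_div]
          apply mul_le_mul_of_nonneg_right _ (by positivity)
          exact pow_le_pow_left₀ (norm_nonneg _) (norm_Sch_le X η' j M ψ f) 2
      rw [Finset.sum_const, Finset.card_univ, nsmul_eq_mul] at h1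
      have h2 : 0 ≤ K * ((kk X / δ) ^ 2 * A ^ 2) * (S1 X η' j) ^ 2 * (1 / (f : ℝ)) := by
        positivity
      linarith
    · rw [if_neg hb, zero_add]
      have h1 : ∑ ψ : DirichletCharacter ℂ M,
          (if ψ = 1 ∧ f = 1 then 0 else ‖Sch X η' j M ψ f‖ ^ 2 / f) ≤
          ∑ ψ : DirichletCharacter ℂ M,
            ((kk X / δ) ^ 2 * A ^ 2) * (S1 X η' j) ^ 2 * (1 / f) := by
        refine Finset.sum_le_sum fun ψ _ => ?_
        split_ifs with hψ
        · positivity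
        · rw [div_eq_mul_one_div]
          apply mul_le_mul_of_nonneg_right _ (by positivity)
          have h3 : ‖∑ p ∈ PP (yy X), ψ (p : ZMod M) * ((jacobiSym (p : ℤ) f : ℤ) : ℂ)‖ ≤
              (9 / 10 : ℝ) * (PP (yy X)).card := by
            by_contra hcon
            push Not at hcon
            exact hb ⟨ψ, hψ, hcon⟩
          have h4 := hX1 X hXX1 η' j ψ f hη hfm.2.1 hfm.2.2 h3
          calc ‖Sch X η' j M ψ f‖ ^ 2 ≤ (NX X * A) ^ 2 :=
                pow_le_pow_left₀ (norm_nonneg _) h4 2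
            _ ≤ ((kk X / δ * S1 X η' j) * A) ^ 2 := by
                apply pow_le_pow_left₀ (by positivity)
                exact mul_le_mul_of_nonneg_right hNX hA0
            _ = ((kk X / δ) ^ 2 * A ^ 2) * (S1 X η' j) ^ 2 := by ring
      rw [Finset.sum_const, Finset.card_univ, nsmul_eq_mul] at h1
      calc _ ≤ _ := h1
        _ = _ := by rw [hK]; ring
  refine (Finset.sum_le_sum hterm).trans ?_
  rw [Finset.sum_add_distrib]
  have hbad : ∑ f ∈ F, (if BadF M (yy X) f then K * (S1 X η' j) ^ 2 * (1 / (f : ℝ)) else 0) ≤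
      ε / 2 * (S1 X η' j) ^ 2 := by
    rw [← Finset.sum_filter, ← Finset.mul_sum]
    have h5 := hX2 X hXX2
    have h6 : F.filter (fun f => BadF M (yy X) f) =
        (Finset.Icc 1 X).filter (fun f => Squarefree f ∧ f.Coprime (2 * M) ∧ BadF M (yy X) f) := by
      ext f
      simp only [hF, Finset.mem_filter, and_assoc]
    rw [h6]
    calc K * (S1 X η' j) ^ 2 * ∑ f ∈ (Finset.Icc 1 X).filter
          (fun f => Squarefree f ∧ f.Coprime (2 * M) ∧ BadF M (yy X) f), (1 : ℝ) / f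
        ≤ K * (S1 X η' j) ^ 2 * (ε / (2 * K)) := by
          apply mul_le_mul_of_nonneg_left h5 (by positivity)
      _ = ε / 2 * (S1 X η' j) ^ 2 := by
          have : K ≠ 0 := by positivity
          field_simp
  have hgood : ∑ f ∈ F, K * ((kk X / δ) ^ 2 * A ^ 2) * (S1 X η' j) ^ 2 * (1 / (f : ℝ)) ≤
      ε / 2 * (S1 X η' j) ^ 2 := by
    rw [← Finset.mul_sum]
    have h7 : ∑ f ∈ F, (1 : ℝ) / f ≤ 1 + Real.log X := by
      refine le_trans ?_ (harm X)
      apply Finset.sum_le_sum_of_subset_of_nonneg (Finset.filter_subset _ _)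
      intro i _ _
      positivity
    have h8 := hX3 X hXX3
    calc K * ((kk X / δ) ^ 2 * A ^ 2) * (S1 X η' j) ^ 2 * ∑ f ∈ F, (1 : ℝ) / f
        ≤ K * ((kk X / δ) ^ 2 * A ^ 2) * (S1 X η' j) ^ 2 * (1 + Real.log X) := by
          apply mul_le_mul_of_nonneg_left h7 (by positivity)
      _ = (K * (1 + Real.log X) * ((kk X / δ) ^ 2 * A ^ 2)) * (S1 X η' j) ^ 2 := by ring
      _ ≤ ε / 2 * (S1 X η' j) ^ 2 := by
          apply mul_le_mul_of_nonneg_right h8 (by positivity)
  linarith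

end Pool.Agent.H38R2.CG
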