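import Pool.Agent.H38R2.CG.Stubs
import Pool.Agent.Helper112.MultLS

/-! Task LS: the multiplicative large sieve. -/

set_option autoImplicit false

namespace Pool.Agent.H38R2.CG

open Finset

theorem T_LS : P_LS := by
  refine ⟨6, by norm_num, ?_⟩
  intro N Q b _ _
  refine le_trans ?_ (Pool.Agent.Helper112.mult_large_sieve N Q b)
  refine sum_le_sum fun f hf => ?_
  rw [mem_Icc] at hf
  rw [← sum_filter]
  refine le_mul_of_one_le_left (sum_nonneg fun χ _ => sq_nonneg _) ?_
  have h2 : (0 : ℝ) < (Nat.totient f : ℝ) := by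
    exact_mod_cast Nat.totient_pos.2 hf.1
  rw [one_le_div h2]
  exact_mod_cast Nat.totient_le f

end Pool.Agent.H38R2.CG
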