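import Pool.Agent.H38R2.CG.Stubs

/-!
# M1U: first moment of the ideal counts, upper bound
-/

set_option autoImplicit false

namespace Pool.Agent.H38R2.CG

open Finset Filter
open scoped Classical

namespace M1Uh

theorem chi_odd {p : ℕ} [hp : Fact p.Prime] (hp2 : p ≠ 2) (D : ℕ) :
    chi (D : ℤ) p = quadraticChar (ZMod p) ((D : ℕ) : ZMod p) := by
  have h0 : padicValNat 2 p = 0 := by
    apply padicValNat.eq_zero_of_not_dvd
    intro h
    exact hp2 ((Nat.prime_dvd_prime_iff_eq Nat.prime_two hp.out).mp h).symm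
  unfold chi
  rw [h0]
  simp only [pow_zero, Nat.div_one, one_mul]
  rw [← jacobiSym.legendreSym.to_jacobiSym]
  simp [legendreSym]

theorem one_add_nonneg {p : ℕ} [hp : Fact p.Prime] (x : ZMod p) :
    0 ≤ 1 + ((quadraticChar (ZMod p) x : ℤ) : ℝ) := by
  rcases eq_or_ne x 0 with h | h
  · rw [h]; simp
  · rcases quadraticChar_dichotomy h with h' | h' <;> rw [h'] <;> norm_num

theorem sum_chi {p : ℕ} [hp : Fact p.Prime] (hp2 : p ≠ 2) :
    ∑ x : ZMod p, (1 + ((quadraticChar (ZMod p) x : ℤ) : ℝ)) = p := by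
  rw [Finset.sum_add_distrib]
  have h1 : ∑ x : ZMod p, ((quadraticChar (ZMod p) x : ℤ) : ℝ) = 0 := by
    have h := quadraticChar_sum_zero (F := ZMod p) (by rwa [ZMod.ringChar_zmod_n])
    have h' : ((∑ x : ZMod p, quadraticChar (ZMod p) x : ℤ) : ℝ) = 0 := by rw [h]; simp
    push_cast at h'
    exact h'
  rw [h1]
  simp [ZMod.card]

section
variable {s : Finset ℕ}

/-- the modulus -/
abbrev N (s : Finset ℕ) : ℕ := ∏ p : {p // p ∈ s}, (p : ℕ)

theorem N_eq (s : Finset ℕ) : N s = prodS s := Finset.prod_coe_sort s (fun p => p)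

theorem pairw (hs : ∀ p ∈ s, p.Prime) :
    Pairwise (Function.onFun Nat.Coprime fun p : {p // p ∈ s} => (p : ℕ)) := by
  intro p q hpq
  exact (Nat.coprime_primes (hs p p.2) (hs q q.2)).mpr fun h => hpq (Subtype.ext h)

/-- the density as a function on the residue classes -/
noncomputable def G (s : Finset ℕ) (hs : ∀ p ∈ s, p.Prime) (x : ZMod (N s)) : ℝ :=
  haveI : ∀ p : {p // p ∈ s}, Fact (p : ℕ).Prime := fun p => ⟨hs p p.2⟩
  ∏ p : {p // p ∈ s}, (1 + ((quadraticChar (ZMod (p : ℕ))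
    (ZMod.prodEquivPi (fun p : {p // p ∈ s} => (p : ℕ)) (pairw hs) x p) : ℤ) : ℝ))

theorem G_nonneg (hs : ∀ p ∈ s, p.Prime) (x : ZMod (N s)) : 0 ≤ G s hs x := by
  unfold G
  refine Finset.prod_nonneg fun p _ => ?_
  have : Fact (p : ℕ).Prime := ⟨hs p p.2⟩
  exact one_add_nonneg _

theorem G_natCast (hs : ∀ p ∈ s, p.Prime) (hs2 : ∀ p ∈ s, p ≠ 2) (D : ℕ) :
    ∏ p ∈ s, (1 + (chi D p : ℝ)) = G s hs (D : ZMod (N s)) := by
  unfold G
  rw [← Finset.prod_coe_sort s]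
  refine Finset.prod_congr rfl fun p _ => ?_
  have : Fact (p : ℕ).Prime := ⟨hs p p.2⟩
  rw [chi_odd (hs2 p p.2)]
  have h : ZMod.prodEquivPi (fun p : {p // p ∈ s} => (p : ℕ)) (pairw hs)
      ((D : ℕ) : ZMod (N s)) p = ((D : ℕ) : ZMod (p : ℕ)) := by
    have h1 := map_natCast (ZMod.prodEquivPi (fun p : {p // p ∈ s} => (p : ℕ)) (pairw hs)) D
    have h2 := congrFun h1 p
    exact h2
  rw [h]

theorem sum_G (hs : ∀ p ∈ s, p.Prime) (hs2 : ∀ p ∈ s, p ≠ 2) [NeZero (N s)] :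
    ∑ x : ZMod (N s), G s hs x = N s := by
  have : ∀ p : {p // p ∈ s}, Fact (p : ℕ).Prime := fun p => ⟨hs p p.2⟩
  have h1 : ∑ x : ZMod (N s), G s hs x = ∑ y : (∀ p : {p // p ∈ s}, ZMod (p : ℕ)),
      ∏ p : {p // p ∈ s}, (1 + ((quadraticChar (ZMod (p : ℕ)) (y p) : ℤ) : ℝ)) := by
    refine Fintype.sum_equiv (ZMod.prodEquivPi (fun p : {p // p ∈ s} => (p : ℕ))
      (pairw hs)).toEquiv _ _ fun x => ?_
    rfl
  rw [h1]
  have h2 := Finset.prod_univ_sum (fun p : {p // p ∈ s} => (Finset.univ : Finset (ZMod (p : ℕ))))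
    (fun p x => (1 + ((quadraticChar (ZMod (p : ℕ)) x : ℤ) : ℝ)))
  rw [Fintype.piFinset_univ] at h2
  rw [← h2]
  unfold N
  push_cast
  exact Finset.prod_congr rfl fun p _ => sum_chi (hs2 p p.2)

theorem sum_block (hs : ∀ p ∈ s, p.Prime) (hs2 : ∀ p ∈ s, p ≠ 2) [NeZero (N s)] {Q : ℕ}
    (hQ : Nat.Coprime Q (N s)) (c : ℕ) :
    ∑ i ∈ Finset.range (N s), G s hs ((c + Q * i : ℕ) : ZMod (N s)) = N s := by
  rw [← sum_G hs hs2]
  have h1 : ∑ i ∈ Finset.range (N s), G s hs ((c + Q * i : ℕ) : ZMod (N s)) =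
      ∑ x : ZMod (N s), G s hs ((c : ZMod (N s)) + (Q : ZMod (N s)) * x) := by
    refine Finset.sum_nbij' (fun i => (i : ZMod (N s))) (fun x => x.val) ?_ ?_ ?_ ?_ ?_
    · intro i _; exact Finset.mem_univ _
    · intro x _; exact Finset.mem_range.mpr (ZMod.val_lt x)
    · intro i hi; exact ZMod.val_cast_of_lt (Finset.mem_range.mp hi)
    · intro x _; exact ZMod.natCast_zmod_val x
    · intro i _; push_cast; rfl
  rw [h1]
  let u := ZMod.unitOfCoprime Q hQ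
  have hu : (u : ZMod (N s)) = Q := ZMod.coe_unitOfCoprime Q hQ
  refine Fintype.sum_bijective (fun x : ZMod (N s) => (c : ZMod (N s)) + (Q : ZMod (N s)) * x)
    ?_ _ _ fun x => rfl
  rw [← hu]
  exact (Equiv.addLeft (c : ZMod (N s))).bijective.comp u.mulLeft_bijective

theorem sum_blocks (hs : ∀ p ∈ s, p.Prime) (hs2 : ∀ p ∈ s, p ≠ 2) [NeZero (N s)] {Q : ℕ}
    (hQ : Nat.Coprime Q (N s)) (c n : ℕ) :
    ∑ i ∈ Finset.range (n * N s), G s hs ((c + Q * i : ℕ) : ZMod (N s)) = n * N s := by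
  induction n with
  | zero => simp
  | succ n ih =>
    rw [Nat.succ_mul, Finset.sum_range_add, ih]
    have h := sum_block hs hs2 hQ (c + Q * (n * N s))
    have h' : ∀ i, c + Q * (n * N s + i) = c + Q * (n * N s) + Q * i := by intro i; ring
    simp only [h', h]
    push_cast
    ring

end

theorem sum_DD {z r X : ℕ} {η : ℝ} (hη : 0 < η) (hr : r < Qz z) {s : Finset ℕ}
    (hs : ∀ p ∈ s, p.Prime) (hs2 : ∀ p ∈ s, p ≠ 2) (hQ : Nat.Coprime (Qz z) (prodS s)) :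
    ∑ D ∈ DD z r X η, ∏ p ∈ s, (1 + (chi D p : ℝ)) ≤ η * X / Qz z + 2 + prodS s := by
  have hN0 : 0 < N s := by
    rw [N_eq]; exact Finset.prod_pos fun p hp => (hs p hp).pos
  have : NeZero (N s) := ⟨hN0.ne'⟩
  have hQ0 : 0 < Qz z := lt_of_le_of_lt (Nat.zero_le _) hr
  rw [← N_eq] at hQ ⊢
  obtain ⟨i1, hi1⟩ : ∃ i1, i1 = X / Qz z := ⟨_, rfl⟩
  obtain ⟨i2, hi2⟩ : ∃ i2, i2 = ⌊(1 + η) * X⌋₊ / Qz z := ⟨_, rfl⟩
  have hle : i1 ≤ i2 := by
    rw [hi1, hi2]
    apply Nat.div_le_div_right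
    apply Nat.le_floor
    have : (0 : ℝ) ≤ X := Nat.cast_nonneg X
    nlinarith
  obtain ⟨n, hn⟩ : ∃ n, n = (i2 - i1 + 1) / N s + 1 := ⟨_, rfl⟩
  have hnle : i2 - i1 + 1 ≤ n * N s := by
    rw [hn, Nat.add_mul, one_mul]
    have := Nat.div_add_mod (i2 - i1 + 1) (N s)
    have h2 := Nat.mod_lt (i2 - i1 + 1) hN0
    nlinarith
  have h1 : ∑ D ∈ DD z r X η, ∏ p ∈ s, (1 + (chi D p : ℝ)) ≤
      ∑ i ∈ Finset.range (n * N s), G s hs (((r + Qz z * i1) + Qz z * i : ℕ) : ZMod (N s)) := by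
    have h2 : ∀ D ∈ DD z r X η, ∏ p ∈ s, (1 + (chi D p : ℝ)) =
        G s hs (D : ZMod (N s)) := fun D _ => G_natCast hs hs2 D
    rw [Finset.sum_congr rfl h2]
    have hinj : Set.InjOn (fun i : ℕ => (r + Qz z * i1) + Qz z * i)
        (Finset.range (n * N s) : Set ℕ) := by
      intro a _ b _ hab
      have hab' : (r + Qz z * i1) + Qz z * a = (r + Qz z * i1) + Qz z * b := hab
      have := Nat.add_left_cancel hab'
      exact Nat.eq_of_mul_eq_mul_left hQ0 this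
    have h3 := Finset.sum_image (f := fun D : ℕ => G s hs (D : ZMod (N s))) hinj
    rw [← h3]
    refine Finset.sum_le_sum_of_subset_of_nonneg ?_ (fun D _ _ => G_nonneg hs _)
    intro D hD
    unfold DD at hD
    rw [Finset.mem_filter, Finset.mem_Ioc] at hD
    obtain ⟨⟨hD1, hD2⟩, hD3⟩ := hD
    rw [Finset.mem_image]
    have hdm := Nat.div_add_mod D (Qz z)
    have hlo : i1 ≤ D / Qz z := by rw [hi1]; exact Nat.div_le_div_right hD1.le
    have hhi : D / Qz z ≤ i2 := by rw [hi2]; exact Nat.div_le_div_right hD2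
    refine ⟨D / Qz z - i1, ?_, ?_⟩
    · rw [Finset.mem_range]
      omega
    · rw [Nat.mul_sub]
      have : Qz z * i1 ≤ Qz z * (D / Qz z) := Nat.mul_le_mul_left _ hlo
      omega
  refine h1.trans ?_
  rw [sum_blocks hs hs2 hQ]
  have hQr : (0 : ℝ) < Qz z := by exact_mod_cast hQ0
  have h4 : ((n * N s : ℕ) : ℝ) ≤ ((i2 - i1 + 1 : ℕ) : ℝ) + N s := by
    rw [hn]
    have : ((i2 - i1 + 1) / N s + 1) * N s ≤ (i2 - i1 + 1) + N s := by
      have := Nat.div_mul_le_self (i2 - i1 + 1) (N s)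
      rw [Nat.add_mul, one_mul]
      omega
    exact_mod_cast this
  have h5 : ((i2 - i1 + 1 : ℕ) : ℝ) ≤ η * X / Qz z + 2 := by
    rw [Nat.cast_add, Nat.cast_sub hle, Nat.cast_one]
    have h6 : (i2 : ℝ) ≤ (1 + η) * X / Qz z := by
      rw [hi2]
      refine Nat.cast_div_le.trans ?_
      gcongr
      exact Nat.floor_le (by positivity)
    have h7 : (X : ℝ) / Qz z - 1 ≤ i1 := by
      have h8 : X < Qz z * (i1 + 1) := by
        rw [hi1]
        exact Nat.lt_mul_div_succ X hQ0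
      have h9 : (X : ℝ) < Qz z * (i1 + 1) := by exact_mod_cast h8
      have h10 : (X : ℝ) / Qz z < i1 + 1 := by
        rw [div_lt_iff₀ hQr]
        linarith
      linarith
    have h11 : (1 + η) * X / Qz z = X / Qz z + η * X / Qz z := by ring
    rw [h11] at h6
    linarith
  push_cast at h4 ⊢
  push_cast at h5
  linarith

theorem tendsto_yy : Tendsto yy atTop atTop := by
  unfold yy
  apply tendsto_nat_floor_atTop.comp
  have h1 : Tendsto (fun X : ℕ => Real.log (X : ℝ)) atTop atTop :=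
    Real.tendsto_log_atTop.comp tendsto_natCast_atTop_atTop
  have h2 := (tendsto_pow_atTop (α := ℝ) (n := 6) (by norm_num)).comp h1
  exact h2.atTop_div_const (by norm_num)

theorem coprime_Q {z p : ℕ} (hp : p.Prime) (hz : z < p) (hp2 : p ≠ 2) :
    Nat.Coprime (Qz z) p := by
  unfold Qz
  rw [Nat.coprime_mul_iff_left]
  constructor
  · have : Nat.Coprime 2 p := (Nat.coprime_primes Nat.prime_two hp).mpr (Ne.symm hp2)
    have h := Nat.Coprime.pow_left 4 this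
    simpa using h
  · refine Nat.Coprime.prod_left fun l hl => ?_
    rw [Finset.mem_filter, Finset.mem_Icc] at hl
    exact Nat.Coprime.pow_left 2 ((Nat.coprime_primes hl.2 hp).mpr (by omega))

end M1Uh

open M1Uh in
/-- task M1U -/
theorem T_M1U : P_SZ → P_M1U := by
  intro hSZ z r hr η hη0 hη1 ε hε
  obtain ⟨X1, hX1⟩ := hSZ
  have hQ0 : 0 < Qz z := lt_of_le_of_lt (Nat.zero_le _) hr
  have hQr : (0 : ℝ) < Qz z := by exact_mod_cast hQ0
  obtain ⟨X2, hX2⟩ := (tendsto_atTop.mp tendsto_yy (max z 2)).exists_forall_of_atTop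
  have hrp : Tendsto (fun X : ℕ => (X : ℝ) ^ (1 / 3 : ℝ)) atTop atTop :=
    (tendsto_rpow_atTop (by norm_num)).comp tendsto_natCast_atTop_atTop
  obtain ⟨X3, hX3⟩ := (tendsto_atTop.mp hrp (3 * Qz z / (ε * η))).exists_forall_of_atTop
  refine ⟨max (max X1 X2) (max X3 1), ?_⟩
  intro X hX s hs
  have g1 : X1 ≤ X := le_trans (le_trans (le_max_left _ _) (le_max_left _ _)) hX
  have g2 : X2 ≤ X := le_trans (le_trans (le_max_right _ _) (le_max_left _ _)) hX
  have g3 : X3 ≤ X := le_trans (le_trans (le_max_left _ _) (le_max_right _ _)) hX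
  have g4 : 1 ≤ X := le_trans (le_trans (le_max_right _ _) (le_max_right _ _)) hX
  have hy := hX2 X g2
  have hmem : ∀ p ∈ s, p.Prime ∧ yy X < p := by
    intro p hp
    unfold SX at hs
    have h1 := (Finset.mem_powersetCard.mp hs).1 hp
    unfold PX PP at h1
    rw [Finset.mem_filter, Finset.mem_Ioc] at h1
    exact ⟨h1.2, h1.1.1⟩
  have hs1 : ∀ p ∈ s, p.Prime := fun p hp => (hmem p hp).1
  have hs2 : ∀ p ∈ s, p ≠ 2 := by
    intro p hp
    have h1 := (hmem p hp).2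
    have h2 : 2 ≤ yy X := le_trans (le_max_right _ _) hy
    omega
  have hcop : Nat.Coprime (Qz z) (prodS s) := by
    unfold prodS
    refine Nat.Coprime.prod_right fun p hp => ?_
    have h1 := (hmem p hp).2
    have h2 : z ≤ yy X := le_trans (le_max_left _ _) hy
    exact coprime_Q (hs1 p hp) (by omega) (hs2 p hp)
  refine (sum_DD hη0 hr hs1 hs2 hcop).trans ?_
  have hsz := (hX1 X g1 s hs).2
  have hXr : (1 : ℝ) ≤ X := by exact_mod_cast g4
  have hXpos : (0 : ℝ) < X := by linarith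
  have hone : (1 : ℝ) ≤ (X : ℝ) ^ (2 / 3 : ℝ) := Real.one_le_rpow hXr (by norm_num)
  have h3 := hX3 X g3
  have hprod : (X : ℝ) ^ (1 / 3 : ℝ) * (X : ℝ) ^ (2 / 3 : ℝ) = X := by
    rw [← Real.rpow_add hXpos]
    norm_num
  have h4 : 3 * (X : ℝ) ^ (2 / 3 : ℝ) ≤ ε * (η * X / Qz z) := by
    have h5 : 3 * Qz z / (ε * η) * (X : ℝ) ^ (2 / 3 : ℝ) ≤ X := by
      calc 3 * Qz z / (ε * η) * (X : ℝ) ^ (2 / 3 : ℝ)
          ≤ (X : ℝ) ^ (1 / 3 : ℝ) * (X : ℝ) ^ (2 / 3 : ℝ) :=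
            mul_le_mul_of_nonneg_right h3 (by positivity)
        _ = X := hprod
    have h6 : 3 * (X : ℝ) ^ (2 / 3 : ℝ) =
        (ε * η / Qz z) * (3 * Qz z / (ε * η) * (X : ℝ) ^ (2 / 3 : ℝ)) := by
      field_simp
    rw [h6]
    calc (ε * η / Qz z) * (3 * Qz z / (ε * η) * (X : ℝ) ^ (2 / 3 : ℝ))
        ≤ (ε * η / Qz z) * X := mul_le_mul_of_nonneg_left h5 (by positivity)
      _ = ε * (η * X / Qz z) := by ring
  nlinarith

end Pool.Agent.H38R2.CG
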