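import Pool.Agent.H38R2.CG.Stubs

/-!
# Task N1: the number of ideals whose norm is a product of distinct odd primes
-/

set_option autoImplicit false

namespace Pool.Agent.H38R2.CG

open Finset Filter NumberField
open scoped Classical

namespace N1h

variable {K : Type} [Field K] [NumberField K]

theorem norm_span (n : ℕ) : Ideal.absNorm (Ideal.span {(n : 𝓞 K)}) =
    n ^ Module.finrank ℚ K := by
  rw [Ideal.absNorm_span_singleton]
  have h : ((n : ℕ) : 𝓞 K) = algebraMap ℤ (𝓞 K) n := by simp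
  rw [h, Algebra.norm_algebraMap, RingOfIntegers.rank]
  simp

theorem span_le {I : Ideal (𝓞 K)} {n : ℕ} (h : Ideal.absNorm I = n) :
    Ideal.span {(n : 𝓞 K)} ≤ I := by
  rw [Ideal.span_singleton_le_iff_mem, ← h]
  exact Ideal.absNorm_mem I

omit [NumberField K] in
theorem sup_top {m n : ℕ} (h : m.Coprime n) :
    Ideal.span {(m : 𝓞 K)} ⊔ Ideal.span {(n : 𝓞 K)} = ⊤ := by
  rw [← Ideal.isCoprime_iff_sup_eq, Ideal.isCoprime_span_singleton_iff]
  exact Nat.Coprime.cast h

theorem mul_sup {A B : Ideal (𝓞 K)} {m n : ℕ} (h : m.Coprime n) (hA : Ideal.absNorm A = m)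
    (hB : Ideal.absNorm B = n) : (A * B) ⊔ Ideal.span {(m : 𝓞 K)} = A := by
  refine le_antisymm (sup_le Ideal.mul_le_left (span_le hA)) ?_
  have h1 : B ⊔ Ideal.span {(m : 𝓞 K)} = ⊤ := by
    rw [eq_top_iff, ← sup_top (K := K) h, sup_comm]
    exact sup_le_sup (span_le hB) le_rfl
  calc A = A * (B ⊔ Ideal.span {(m : 𝓞 K)}) := by rw [h1, Ideal.mul_top]
    _ = A * B ⊔ A * Ideal.span {(m : 𝓞 K)} := Ideal.mul_sup _ _ _
    _ ≤ _ := sup_le_sup le_rfl Ideal.mul_le_right

theorem sup_mul {I : Ideal (𝓞 K)} {m n : ℕ} (h : m.Coprime n) (hI : Ideal.absNorm I = m * n) :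
    (I ⊔ Ideal.span {(m : 𝓞 K)}) * (I ⊔ Ideal.span {(n : 𝓞 K)}) = I := by
  have hmem := span_le hI
  refine le_antisymm ?_ ?_
  · rw [Ideal.sup_mul, Ideal.mul_sup, Ideal.mul_sup]
    refine sup_le (sup_le Ideal.mul_le_left Ideal.mul_le_left) (sup_le Ideal.mul_le_right ?_)
    rw [Ideal.span_singleton_mul_span_singleton]
    push_cast at hmem
    exact hmem
  · calc I = I * (Ideal.span {(m : 𝓞 K)} ⊔ Ideal.span {(n : 𝓞 K)}) := by
          rw [sup_top h, Ideal.mul_top]
      _ = I * Ideal.span {(m : 𝓞 K)} ⊔ I * Ideal.span {(n : 𝓞 K)} := Ideal.mul_sup _ _ _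
      _ ≤ _ := by
        refine sup_le ?_ ?_
        · rw [mul_comm]
          exact Ideal.mul_mono le_sup_right le_sup_left
        · exact Ideal.mul_mono le_sup_left le_sup_right

theorem norm_sup_dvd {I : Ideal (𝓞 K)} {m n : ℕ} (h : m.Coprime n)
    (hI : Ideal.absNorm I = m * n) : Ideal.absNorm (I ⊔ Ideal.span {(m : 𝓞 K)}) ∣ m := by
  have h1 : Ideal.absNorm (I ⊔ Ideal.span {(m : 𝓞 K)}) ∣ m * n := by
    rw [← hI]
    exact Ideal.absNorm_dvd_absNorm_of_le le_sup_left
  have h2 : Ideal.absNorm (I ⊔ Ideal.span {(m : 𝓞 K)}) ∣ m ^ Module.finrank ℚ K := by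
    rw [← norm_span (K := K) m]
    exact Ideal.absNorm_dvd_absNorm_of_le le_sup_right
  have h3 : (Ideal.absNorm (I ⊔ Ideal.span {(m : 𝓞 K)})).Coprime n :=
    Nat.Coprime.coprime_dvd_left h2 (Nat.Coprime.pow_left _ h)
  exact h3.dvd_of_dvd_mul_right h1

theorem norm_sup {I : Ideal (𝓞 K)} {m n : ℕ} (hm : 0 < m) (hn : 0 < n) (h : m.Coprime n)
    (hI : Ideal.absNorm I = m * n) :
    Ideal.absNorm (I ⊔ Ideal.span {(m : 𝓞 K)}) = m ∧
      Ideal.absNorm (I ⊔ Ideal.span {(n : 𝓞 K)}) = n := by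
  have h1 := norm_sup_dvd h hI
  have h2 := norm_sup_dvd h.symm (hI.trans (mul_comm m n))
  have h3 := congrArg Ideal.absNorm (sup_mul h hI)
  rw [map_mul, hI] at h3
  have h4 := Nat.le_of_dvd hm h1
  have h5 := Nat.le_of_dvd hn h2
  obtain ⟨a, ha⟩ := h1
  obtain ⟨b, hb⟩ := h2
  set x := Ideal.absNorm (I ⊔ Ideal.span {(m : 𝓞 K)})
  set y := Ideal.absNorm (I ⊔ Ideal.span {(n : 𝓞 K)})
  have hx : x = m := by
    by_contra hne
    have hlt : x < m := lt_of_le_of_ne h4 hne
    have : x * y < m * n := by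
      calc x * y ≤ x * n := Nat.mul_le_mul_left _ h5
        _ < m * n := Nat.mul_lt_mul_of_pos_right hlt hn
    omega
  refine ⟨hx, ?_⟩
  rw [hx] at h3
  exact Nat.eq_of_mul_eq_mul_left hm h3

/-- multiplicativity of the number of ideals of given norm -/
theorem card_mul {m n : ℕ} (hm : 0 < m) (hn : 0 < n) (h : m.Coprime n) :
    Nat.card {I : Ideal (𝓞 K) // Ideal.absNorm I = m * n} =
      Nat.card {I : Ideal (𝓞 K) // Ideal.absNorm I = m} *
        Nat.card {I : Ideal (𝓞 K) // Ideal.absNorm I = n} := by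
  rw [← Nat.card_prod]
  refine Nat.card_congr
    { toFun := fun I => (⟨I.1 ⊔ Ideal.span {(m : 𝓞 K)}, (norm_sup hm hn h I.2).1⟩,
        ⟨I.1 ⊔ Ideal.span {(n : 𝓞 K)}, (norm_sup hm hn h I.2).2⟩)
      invFun := fun p => ⟨p.1.1 * p.2.1, by rw [map_mul, p.1.2, p.2.2]⟩
      left_inv := fun I => Subtype.ext (sup_mul h I.2)
      right_inv := fun p => by
        refine Prod.ext (Subtype.ext ?_) (Subtype.ext ?_)
        · exact mul_sup h p.1.2 p.2.2
        · change p.1.1 * p.2.1 ⊔ _ = p.2.1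
          rw [mul_comm]
          exact mul_sup h.symm p.2.2 p.1.2 }

theorem eq_of_le {P I : Ideal (𝓞 K)} {p : ℕ} (hp : p.Prime) (hP : P.IsPrime)
    (hPn : P ≠ ⊥) (hI : Ideal.absNorm I = p) (h : P ≤ I) : P = I := by
  have h1 : P.IsMaximal := hP.isMaximal hPn
  refine h1.eq_of_le ?_ h
  intro ht
  rw [ht, Ideal.absNorm_top] at hI
  exact hp.one_lt.ne hI

theorem ne_bot {P : Ideal (𝓞 K)} {p : ℕ} (hp : p.Prime) (hP : Ideal.absNorm P = p) : P ≠ ⊥ := by
  rintro rfl
  rw [Ideal.absNorm_bot] at hP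
  exact hp.pos.ne hP

theorem chi_odd {D p : ℕ} (hp : p.Prime) (h2 : p ≠ 2) : chi D p = jacobiSym D p := by
  unfold chi
  have h : padicValNat 2 p = 0 := by
    refine padicValNat.eq_zero_of_not_dvd fun hd => h2 ?_
    exact ((Nat.prime_dvd_prime_iff_eq Nat.prime_two hp).1 hd).symm
  rw [h]
  simp

theorem card_prime (hSPL : P_SPL) {D : ℕ} (hD : IsFund D) (h2 : Module.finrank ℚ K = 2)
    (hd : discr K = (D : ℤ)) {p : ℕ} (hp : p.Prime) (hp2 : p ≠ 2) :
    (Nat.card {I : Ideal (𝓞 K) // Ideal.absNorm I = p} : ℤ) = 1 + chi D p := by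
  obtain ⟨g1, g0, gm⟩ := hSPL K D hD h2 hd p hp
  have htri := jacobiSym.trichotomy (D : ℤ) p
  rw [← chi_odd hp hp2] at htri
  have hset : Nat.card {I : Ideal (𝓞 K) // Ideal.absNorm I = p} =
      Set.ncard {I : Ideal (𝓞 K) | Ideal.absNorm I = p} := Nat.card_coe_set_eq _
  have hprime : ∀ I : Ideal (𝓞 K), Ideal.absNorm I = p → I.IsPrime := fun I hI =>
    Ideal.isPrime_of_irreducible_absNorm (by rw [hI]; exact hp)
  rcases htri with h | h | h
  · obtain ⟨P, hP, hPn, hPP⟩ := g0 h
    have hs : {I : Ideal (𝓞 K) | Ideal.absNorm I = p} = {P} := by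
      ext I
      simp only [Set.mem_ofPred_eq, Set.mem_singleton_iff]
      constructor
      · intro hI
        have h1 : P ^ 2 ≤ I := by rw [hPP]; exact span_le hI
        have hIp := hprime I hI
        rw [sq, hIp.mul_le, or_self] at h1
        exact (eq_of_le hp hP (ne_bot hp hPn) hI h1).symm
      · rintro rfl
        exact hPn
    rw [hset, hs, Set.ncard_singleton, h]
    norm_num
  · obtain ⟨P, P', hne, hP, hP', hPn, hPn', hPP⟩ := g1 h
    have hs : {I : Ideal (𝓞 K) | Ideal.absNorm I = p} = {P, P'} := by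
      ext I
      simp only [Set.mem_ofPred_eq, Set.mem_insert_iff, Set.mem_singleton_iff]
      constructor
      · intro hI
        have h1 : P * P' ≤ I := by rw [hPP]; exact span_le hI
        have hIp := hprime I hI
        rw [hIp.mul_le] at h1
        rcases h1 with h1 | h1
        · left; exact (eq_of_le hp hP (ne_bot hp hPn) hI h1).symm
        · right; exact (eq_of_le hp hP' (ne_bot hp hPn') hI h1).symm
      · rintro (rfl | rfl)
        · exact hPn
        · exact hPn'
    rw [hset, hs, Set.ncard_pair hne, h]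
    norm_num
  · have hP := gm h
    have hs : {I : Ideal (𝓞 K) | Ideal.absNorm I = p} = ∅ := by
      ext I
      simp only [Set.mem_ofPred_eq, Set.mem_empty_iff_false, iff_false]
      intro hI
      have hnb : Ideal.span {(p : 𝓞 K)} ≠ ⊥ := by
        rw [Ne, Ideal.span_singleton_eq_bot]
        exact_mod_cast hp.ne_zero
      have h1 := eq_of_le hp hP hnb hI (span_le hI)
      rw [← h1, norm_span, h2] at hI
      have := hp.one_lt
      nlinarith
    rw [hset, hs, Set.ncard_empty, h]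
    norm_num

end N1h

open N1h in
theorem T_N1 : P_SPL → P_N1 := by
  intro hSPL K _ _ D hD h2 hd s
  induction s using Finset.induction_on with
  | empty =>
    intro _
    have hs : {I : Ideal (𝓞 K) | Ideal.absNorm I = 1} = {⊤} := by
      ext I
      simp [Ideal.absNorm_eq_one_iff]
    have hset : Nat.card {I : Ideal (𝓞 K) // Ideal.absNorm I = 1} =
        Set.ncard {I : Ideal (𝓞 K) | Ideal.absNorm I = 1} := Nat.card_coe_set_eq _
    rw [hs, Set.ncard_singleton] at hset
    simp only [prodS, Finset.prod_empty]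
    rw [hset]
    norm_num
  | insert p s hps ih =>
    intro hs
    obtain ⟨hp, hp2⟩ := hs p (Finset.mem_insert_self _ _)
    have hs' : ∀ q ∈ s, q.Prime ∧ q ≠ 2 := fun q hq => hs q (Finset.mem_insert_of_mem hq)
    have e1 : prodS (insert p s) = p * prodS s := by
      unfold prodS
      rw [Finset.prod_insert hps]
    have hcop : p.Coprime (prodS s) := by
      unfold prodS
      refine Nat.Coprime.prod_right fun q hq => ?_
      refine (Nat.coprime_primes hp (hs' q hq).1).2 ?_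
      rintro rfl
      exact hps hq
    have hpos : 0 < prodS s := Finset.prod_pos fun q hq => (hs' q hq).1.pos
    rw [e1, card_mul hp.pos hpos hcop, Finset.prod_insert hps]
    push_cast
    rw [card_prime hSPL hD h2 hd hp hp2, ih hs']

end Pool.Agent.H38R2.CG
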