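import Pool.Agent.H38R2.CG.Defs

/-!
# Statements (propositions) of the class group project
-/

set_option autoImplicit false

namespace Pool.Agent.H38R2.CG

open Finset Filter NumberField
open scoped Classical

/-! ## Number field part -/

/-- The two real embeddings of a real quadratic field of discriminant D, in coordinates. -/
structure Emb (K : Type) [Field K] [NumberField K] (D : ℕ) where
  σ : K →+* ℝ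
  τ : K →+* ℝ
  ne : σ ≠ τ
  int1 : ∀ x : 𝓞 K, ∃ u v : ℤ, (2 : ℤ) ∣ u - D * v ∧
    σ (x : K) = (u + v * √(D : ℝ)) / 2 ∧ τ (x : K) = (u - v * √(D : ℝ)) / 2
  int2 : ∀ u v : ℤ, (2 : ℤ) ∣ u - D * v → ∃ x : 𝓞 K,
    σ (x : K) = (u + v * √(D : ℝ)) / 2 ∧ τ (x : K) = (u - v * √(D : ℝ)) / 2
  nrm : ∀ x : K, ((Algebra.norm ℚ x : ℚ) : ℝ) = σ x * τ x

/-- N0: coordinates. -/
def P_N0 : Prop := ∀ (K : Type) [Field K] [NumberField K] (D : ℕ), IsFund D →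
  Module.finrank ℚ K = 2 → NumberField.discr K = (D : ℤ) → Nonempty (Emb K D)

/-- N0d: the discriminant of Q(√d). -/
def P_N0d : Prop := ∀ (K : Type) [Field K] [NumberField K] (d : ℕ), 1 < d → Squarefree d →
  Module.finrank ℚ K = 2 → (∃ x : K, x ^ 2 = (d : K)) →
  NumberField.discr K = if d % 4 = 1 then (d : ℤ) else 4 * d

/-- N0e: existence of the field of discriminant D. -/
def P_N0e : Prop := ∀ D : ℕ, IsFund D → ∃ (K : Type) (_ : Field K) (_ : NumberField K),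
  Module.finrank ℚ K = 2 ∧ NumberField.discr K = (D : ℤ)

/-- SPL: decomposition of primes. -/
def P_SPL : Prop := ∀ (K : Type) [Field K] [NumberField K] (D : ℕ), IsFund D →
  Module.finrank ℚ K = 2 → NumberField.discr K = (D : ℤ) → ∀ p : ℕ, p.Prime →
  (chi D p = 1 → ∃ P P' : Ideal (𝓞 K), P ≠ P' ∧ P.IsPrime ∧ P'.IsPrime ∧
    Ideal.absNorm P = p ∧ Ideal.absNorm P' = p ∧ P * P' = Ideal.span {(p : 𝓞 K)}) ∧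
  (chi D p = 0 → ∃ P : Ideal (𝓞 K), P.IsPrime ∧ Ideal.absNorm P = p ∧
    P ^ 2 = Ideal.span {(p : 𝓞 K)}) ∧
  (chi D p = -1 → (Ideal.span {(p : 𝓞 K)}).IsPrime)

/-- N1: number of ideals whose norm is a product of distinct odd primes. -/
def P_N1 : Prop := ∀ (K : Type) [Field K] [NumberField K] (D : ℕ), IsFund D →
  Module.finrank ℚ K = 2 → NumberField.discr K = (D : ℤ) →
  ∀ s : Finset ℕ, (∀ p ∈ s, p.Prime ∧ p ≠ 2) →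
    (Nat.card {I : Ideal (𝓞 K) // Ideal.absNorm I = prodS s} : ℤ) = ∏ p ∈ s, (1 + chi D p)

/-- N2: number of ideals of norm n. -/
def P_N2 : Prop := ∀ (K : Type) [Field K] [NumberField K] (D : ℕ), IsFund D →
  Module.finrank ℚ K = 2 → NumberField.discr K = (D : ℤ) →
  ∀ n : ℕ, 1 ≤ n →
    (Nat.card {I : Ideal (𝓞 K) // Ideal.absNorm I = n} : ℤ) = ∑ m ∈ n.divisors, chi D m

/-- KR: the Kronecker symbol of a fundamental discriminant is a nonprincipal character. -/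
def P_KR : Prop := ∀ D : ℕ, IsFund D → ∃ χ : DirichletCharacter ℂ D, χ ≠ 1 ∧
  ∀ n : ℕ, 1 ≤ n → χ (n : ZMod D) = (chi D n : ℂ)

/-- PV: Polya-Vinogradov for nonprincipal characters (not necessarily primitive). -/
def P_PV : Prop := ∃ C : ℝ, 0 < C ∧ ∀ (q : ℕ) (χ : DirichletCharacter ℂ q), 2 ≤ q → χ ≠ 1 →
  ∀ a b : ℕ, ‖∑ n ∈ Finset.Ioc a b, χ (n : ZMod q)‖ ≤ C * √(q : ℝ) * Real.log q

/-- N3a: convergence of L(1, chi_D), with rate. -/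
def P_N3a : Prop := ∃ C : ℝ, 0 < C ∧ ∀ D : ℕ, IsFund D → ∀ N : ℕ, 1 ≤ N →
  |Lone D - ∑ n ∈ Finset.Icc 1 N, (chi D n : ℝ) / n| ≤ C * √(D : ℝ) * Real.log D / N

/-- N3b: mean value of the ideal counting function. -/
def P_N3b : Prop := ∀ D : ℕ, IsFund D →
  Tendsto (fun N : ℕ => (∑ n ∈ Finset.Icc 1 N, ∑ m ∈ n.divisors, (chi D m : ℝ)) / N)
    atTop (nhds (Lone D))

/-- N3: number of ideals, and number of ideals with class in a proper subgroup. -/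
def P_N3 : Prop := ∀ (K : Type) [Field K] [NumberField K] (D : ℕ), IsFund D →
  Module.finrank ℚ K = 2 → NumberField.discr K = (D : ℤ) →
  0 ≤ Lone D ∧
  Tendsto (fun N : ℕ => (Nat.card {I : nonZeroDivisors (Ideal (𝓞 K)) //
    Ideal.absNorm (I : Ideal (𝓞 K)) ≤ N} : ℝ) / N) atTop (nhds (Lone D)) ∧
  ∀ H : Subgroup (ClassGroup (𝓞 K)), H ≠ ⊤ → ∃ L' : ℝ, L' ≤ Lone D / 2 ∧
    Tendsto (fun N : ℕ => (Nat.card {I : nonZeroDivisors (Ideal (𝓞 K)) //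
      Ideal.absNorm (I : Ideal (𝓞 K)) ≤ N ∧ ClassGroup.mk0 I ∈ H} : ℝ) / N) atTop (nhds L')

/-- Totally positive x with t = log(σx/τx) in [α, β), x ∈ A⁻¹ and N(x) N(A) ≤ Y. -/
def latSet {K : Type} [Field K] [NumberField K] {D : ℕ} (e : Emb K D) (A : Ideal (𝓞 K))
    (α β Y : ℝ) : Set K :=
  {x : K | 0 < e.σ x ∧ 0 < e.τ x ∧ α ≤ Real.log (e.σ x / e.τ x) ∧
    Real.log (e.σ x / e.τ x) < β ∧
    x ∈ ((A : FractionalIdeal (nonZeroDivisors (𝓞 K)) K)⁻¹ :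
      FractionalIdeal (nonZeroDivisors (𝓞 K)) K) ∧
    e.σ x * e.τ x * (Ideal.absNorm A : ℝ) ≤ Y}

/-- N4a: a Z-basis of the inverse of an ideal, with its determinant. -/
def P_N4a : Prop := ∀ (K : Type) [Field K] [NumberField K] (D : ℕ), IsFund D →
  Module.finrank ℚ K = 2 → NumberField.discr K = (D : ℤ) → ∀ (e : Emb K D)
  (A : Ideal (𝓞 K)), A ≠ ⊥ → ∃ b1 b2 : K,
    (∀ x : K, x ∈ ((A : FractionalIdeal (nonZeroDivisors (𝓞 K)) K)⁻¹ :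
      FractionalIdeal (nonZeroDivisors (𝓞 K)) K) ↔ ∃ m n : ℤ, x = m * b1 + n * b2) ∧
    |e.σ b1 * e.τ b2 - e.σ b2 * e.τ b1| = √(D : ℝ) / (Ideal.absNorm A : ℝ)

/-- N4b: lattice points of a planar lattice in a hyperbolic sector. -/
def P_N4b : Prop := ∀ a1 a2 c1 c2 α β κ : ℝ, a1 * c2 - a2 * c1 ≠ 0 → α < β → 0 < κ →
  (∀ Y : ℝ, {x : ℤ × ℤ | 0 < x.1 * a1 + x.2 * a2 ∧ 0 < x.1 * c1 + x.2 * c2 ∧
    α ≤ Real.log ((x.1 * a1 + x.2 * a2) / (x.1 * c1 + x.2 * c2)) ∧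
    Real.log ((x.1 * a1 + x.2 * a2) / (x.1 * c1 + x.2 * c2)) < β ∧
    (x.1 * a1 + x.2 * a2) * (x.1 * c1 + x.2 * c2) * κ ≤ Y}.Finite) ∧
  Tendsto (fun N : ℕ => (({x : ℤ × ℤ | 0 < x.1 * a1 + x.2 * a2 ∧ 0 < x.1 * c1 + x.2 * c2 ∧
    α ≤ Real.log ((x.1 * a1 + x.2 * a2) / (x.1 * c1 + x.2 * c2)) ∧
    Real.log ((x.1 * a1 + x.2 * a2) / (x.1 * c1 + x.2 * c2)) < β ∧
    (x.1 * a1 + x.2 * a2) * (x.1 * c1 + x.2 * c2) * κ ≤ N}).ncard : ℝ) / N) atTop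
    (nhds ((β - α) / (2 * κ * |a1 * c2 - a2 * c1|)))

/-- N4: lattice points in a hyperbolic sector. -/
def P_N4 : Prop := ∀ (K : Type) [Field K] [NumberField K] (D : ℕ), IsFund D →
  Module.finrank ℚ K = 2 → NumberField.discr K = (D : ℤ) → ∀ (e : Emb K D)
  (A : Ideal (𝓞 K)), A ≠ ⊥ → ∀ α β : ℝ, α < β →
  (∀ Y : ℝ, (latSet e A α β Y).Finite) ∧
  Tendsto (fun N : ℕ => ((latSet e A α β N).ncard : ℝ) / N) atTop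
    (nhds ((β - α) / (2 * √(D : ℝ))))

/-- Totally positive x with x A = B. -/
def XAB {K : Type} [Field K] [NumberField K] {D : ℕ} (e : Emb K D) (A B : Ideal (𝓞 K)) :
    Set K :=
  {x : K | 0 < e.σ x ∧ 0 < e.τ x ∧
    FractionalIdeal.spanSingleton (nonZeroDivisors (𝓞 K)) x *
      (A : FractionalIdeal (nonZeroDivisors (𝓞 K)) K) = B}

/-- The near collision kernel. -/
noncomputable def KAB {K : Type} [Field K] [NumberField K] {D : ℕ} (e : Emb K D)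
    (A B : Ideal (𝓞 K)) : ℝ :=
  ∑ᶠ x ∈ XAB e A B, phi (Real.log (e.σ x / e.τ x))

/-- finiteness of the sums defining KAB -/
def P_KF : Prop := ∀ (K : Type) [Field K] [NumberField K] (D : ℕ), IsFund D →
  Module.finrank ℚ K = 2 → NumberField.discr K = (D : ℤ) → ∀ (e : Emb K D)
  (A B : Ideal (𝓞 K)), A ≠ ⊥ → B ≠ ⊥ →
  (XAB e A B ∩ {x | |Real.log (e.σ x / e.τ x)| ≤ 1}).Finite

/-- number of common multiples counted in N5a -/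
noncomputable def Vij {K : Type} [Field K] [NumberField K] {D : ℕ} (e : Emb K D)
    (A B : Ideal (𝓞 K)) (Y : ℝ) : ℝ :=
  ∑ᶠ x ∈ XAB e A B, ((latSet e B (max 0 (-(Real.log (e.σ x / e.τ x))))
    (min 1 (1 - Real.log (e.σ x / e.τ x))) Y).ncard : ℝ)

/-- N5a: Cauchy-Schwarz for each N. -/
def P_N5a : Prop := ∀ (K : Type) [Field K] [NumberField K] (D : ℕ), IsFund D →
  Module.finrank ℚ K = 2 → NumberField.discr K = (D : ℤ) → ∀ (e : Emb K D)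
  (ι : Type) [Fintype ι] (A : ι → nonZeroDivisors (Ideal (𝓞 K))) (w : ι → ℝ),
  (∀ i, 0 ≤ w i) → ∀ H : Subgroup (ClassGroup (𝓞 K)), (∀ i, ClassGroup.mk0 (A i) ∈ H) →
  ∀ N : ℕ, (∑ i, w i * ((latSet e (A i : Ideal (𝓞 K)) 0 1 N).ncard : ℝ)) ^ 2 ≤
    (Nat.card {I : nonZeroDivisors (Ideal (𝓞 K)) //
      Ideal.absNorm (I : Ideal (𝓞 K)) ≤ N ∧ ClassGroup.mk0 I ∈ H} : ℝ) *
    ∑ i, ∑ j, w i * w j * Vij e (A i : Ideal (𝓞 K)) (A j : Ideal (𝓞 K)) N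

/-- N5b: the limit of Vij. -/
def P_N5b : Prop := ∀ (K : Type) [Field K] [NumberField K] (D : ℕ), IsFund D →
  Module.finrank ℚ K = 2 → NumberField.discr K = (D : ℤ) → ∀ (e : Emb K D)
  (A B : Ideal (𝓞 K)), A ≠ ⊥ → B ≠ ⊥ →
  Tendsto (fun N : ℕ => Vij e A B N / N) atTop (nhds (KAB e A B / (2 * √(D : ℝ))))

/-- N5: the positivity inequality for families of ideals. -/
def P_N5 : Prop := ∀ (K : Type) [Field K] [NumberField K] (D : ℕ), IsFund D →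
  Module.finrank ℚ K = 2 → NumberField.discr K = (D : ℤ) → ∀ (e : Emb K D)
  (ι : Type) [Fintype ι] (A : ι → nonZeroDivisors (Ideal (𝓞 K))) (w : ι → ℝ),
  (∀ i, 0 ≤ w i) →
  (∑ i, w i) ^ 2 ≤ 2 * √(D : ℝ) * Lone D *
    ∑ i, ∑ j, w i * w j * KAB e (A i : Ideal (𝓞 K)) (A j : Ideal (𝓞 K)) ∧
  ∀ H : Subgroup (ClassGroup (𝓞 K)), H ≠ ⊤ → (∀ i, ClassGroup.mk0 (A i) ∈ H) →
    2 * (∑ i, w i) ^ 2 ≤ 2 * √(D : ℝ) * Lone D *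
      ∑ i, ∑ j, w i * w j * KAB e (A i : Ideal (𝓞 K)) (A j : Ideal (𝓞 K))

/-- N6: from pairs of ideals to elements. -/
def P_N6 : Prop := ∀ (K : Type) [Field K] [NumberField K] (D : ℕ), IsFund D →
  Module.finrank ℚ K = 2 → NumberField.discr K = (D : ℤ) → ∀ (e : Emb K D)
  (s t : Finset ℕ), (∀ p ∈ s, p.Prime ∧ p ≠ 2) → (∀ p ∈ t, p.Prime ∧ p ≠ 2) →
  ∀ (UA UB : Finset (Ideal (𝓞 K))), (∀ A ∈ UA, Ideal.absNorm A = prodS s) →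
    (∀ B ∈ UB, Ideal.absNorm B = prodS t) →
    ∑ A ∈ UA, ∑ B ∈ UB, KAB e A B ≤ 2 ^ ((s ∩ t).card) * Rsum D (prodS s * prodS t)

/-- The conclusion of the number field part. -/
def P_NF : Prop := ∀ D : ℕ, IsFund D → 0 ≤ Lone D ∧
  (∀ (S : Finset (Finset ℕ)) (f : Finset ℕ → ℝ),
    (∀ s ∈ S, 0 ≤ f s ∧ ∀ p ∈ s, p.Prime ∧ p ≠ 2) →
    (MD D S f) ^ 2 ≤ 2 * √(D : ℝ) * Lone D * SD D S f) ∧
  ∀ B : ℝ, (∃ (K : Type) (_ : Field K) (_ : NumberField K), Module.finrank ℚ K = 2 ∧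
      NumberField.discr K = (D : ℤ) ∧ ¬ SmallGen K B) →
    ∀ (S : Finset (Finset ℕ)) (f : Finset ℕ → ℝ),
      (∀ s ∈ S, 0 ≤ f s ∧ ∀ p ∈ s, p.Prime ∧ p ≠ 2 ∧ (p : ℝ) ≤ B) →
      2 * (MD D S f) ^ 2 ≤ 2 * √(D : ℝ) * Lone D * SD D S f

/-! ## Averages over D -/

/-- LM2: cancellation of Jacobi symbols over fundamental discriminants in a class. -/
def P_LM2 : Prop := ∀ z r : ℕ, FundRes z r → ∀ η : ℝ, 0 < η → η ≤ 1 → ∃ X0 : ℕ, ∀ X ≥ X0,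
  ∀ m : ℕ, 1 ≤ m → (m : ℝ) ≤ (X : ℝ) ^ (3 / 5 : ℝ) → m.Coprime (Qz z) → ¬ IsSquare m →
    |∑ D ∈ FD z r X η, ((jacobiSym (D : ℤ) m : ℤ) : ℝ)| ≤ (X : ℝ) ^ (7 / 10 : ℝ)

/-- LM: first moment of L(1, chi_D). -/
def P_LM : Prop := ∀ z r : ℕ, 2 ≤ z → FundRes z r → ∀ η : ℝ, 0 < η → η ≤ 1 →
  ∀ ε : ℝ, 0 < ε → ∃ X0 : ℕ, ∀ X ≥ X0,
    ∑ D ∈ FD z r X η, Lone D ≤ (1 + ε) * (1 + 4 / z) * (η * X / Qz z) / PiR z r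

/-- M1U: first moment of the ideal counts, upper bound. -/
def P_M1U : Prop := ∀ z r : ℕ, r < Qz z → ∀ η : ℝ, 0 < η → η ≤ 1 → ∀ ε : ℝ, 0 < ε →
  ∃ X0 : ℕ, ∀ X ≥ X0, ∀ s ∈ SX X,
    ∑ D ∈ DD z r X η, ∏ p ∈ s, (1 + (chi D p : ℝ)) ≤ (1 + ε) * (η * X / Qz z)

/-- M1L: first moment of the ideal counts over fundamental discriminants, lower bound. -/
def P_M1L : Prop := ∀ z r : ℕ, 2 ≤ z → FundRes z r → ∀ η : ℝ, 0 < η → η ≤ 1 → ∀ ε : ℝ, 0 < ε →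
  ∃ X0 : ℕ, ∀ X ≥ X0, ∀ s ∈ SX X,
    (1 - ε - 1 / z) * (η * X / Qz z) ≤ ∑ D ∈ FD z r X η, ∏ p ∈ s, (1 + (chi D p : ℝ))

/-- MLOW: for almost all D the total number of ideals is at least about the expected one. -/
def P_MLOW : Prop := ∀ z r : ℕ, r < Qz z → ∀ η : ℝ, 0 < η → η ≤ 1 → ∀ ε : ℝ, 0 < ε →
  ∃ X0 : ℕ, ∀ X ≥ X0,
    (((DD z r X η).filter (fun D => MD D (SX X) (fun _ => 1) < (1 - ε) * NX X)).card : ℝ) ≤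
      ε * (η * X / Qz z)

/-! ## The near collision sum -/

/-- The final upper bound. -/
def P_TM : Prop := ∀ z r : ℕ, 2 ≤ z → FundRes z r → ∀ η : ℝ, 0 < η → η ≤ 1 →
  ∀ ε : ℝ, 0 < ε → ∃ η0 : ℝ, 0 < η0 ∧ ∀ η' : ℝ, 0 < η' → η' < η0 → ∀ δ : ℝ, 0 < δ →
  ∃ X0 : ℕ, ∀ X ≥ X0, ∀ j : ℤ, δ / kk X * NX X ≤ S1 X η' j →
    ∑ D ∈ DD z r X η, SD D (SX X) (win η' j) ≤
      (1 + ε) * (PiR z r / (2 * Qz z)) * η * √(X : ℝ) * (S1 X η' j) ^ 2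

/-- TB1a: the sum over D for one n and one v ≥ 1. -/
def P_TB1a : Prop := ∀ (z r X n v : ℕ) (η : ℝ), r < Qz z → 0 < η → η ≤ 1 → 1 ≤ X → 1 ≤ n →
  1 ≤ v → ∑ D ∈ DD z r X η, ∑ u ∈ Finset.Icc 1 (4 * n),
    (if ((u : ℤ) ^ 2 - (D : ℤ) * (v : ℤ) ^ 2 = 4 * n) then
      phi (Real.log (((u : ℝ) + v * √(D : ℝ)) / ((u : ℝ) - v * √(D : ℝ)))) else 0) ≤
    (rho z r n v : ℝ) * (om X η v n / Qz z + 1)

/-- TB1: the sum over D for one n. -/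
def P_TB1 : Prop := ∀ (z r X n : ℕ) (η : ℝ), r < Qz z → 0 < η → η ≤ 1 → 1 ≤ X → 1 ≤ n →
  ∑ D ∈ DD z r X η, Rsum D n ≤ (if IsSquare n then ((DD z r X η).card : ℝ) else 0) +
    2 * ∑ v ∈ Finset.Icc 1 ⌊2 * √((n : ℝ) / X)⌋₊, (rho z r n v : ℝ) * (om X η v n / Qz z + 1)

/-- TB2: elementary properties of `om`. -/
def P_TB2 : Prop := ∀ (X : ℕ) (η : ℝ), 1 ≤ X → 0 < η → η ≤ 1 → ∀ n : ℝ, 0 < n →
  AntitoneOn (fun v => om X η v n) (Set.Ici 0) ∧ (∀ v : ℝ, 0 ≤ om X η v n) ∧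
  (∀ v : ℝ, om X η v n ≤ η * X / (4 * √n)) ∧
  (∀ V : ℝ, 0 ≤ V → ∫ v in (0 : ℝ)..V, om X η v n ≤ η * √(X : ℝ) / 8) ∧
  ∀ v : ℝ, 0 ≤ v → ∀ n' η' : ℝ, 0 < n' → 0 ≤ η' → |Real.log n' - Real.log n| ≤ 2 * η' →
    om X η v n' ≤ Real.exp η' * om X η (v * Real.exp (-η')) n

/-- TB3a: crude bound for the number of roots. -/
def P_TB3a : Prop := ∀ z r n v g m : ℕ, n = g ^ 2 * m → Squarefree m → 1 ≤ g → 1 ≤ v →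
  rho z r n v ≤ 16 * Qz z * v.divisors.card * Nat.gcd g v

/-- TB3b: bound by the local factors. -/
def P_TB3b : Prop := ∀ (z r v : ℕ) (s t : Finset ℕ), 1 ≤ v → Disjoint s t →
  (∀ p ∈ s ∪ t, p.Prime ∧ ¬ p ∣ Qz z) →
  (rho z r (prodS s * prodS t) v : ℝ) ≤
    (rhoQ z r (prodS s * prodS t) v : ℝ) * jprod z (prodS s * prodS t) v

/-- TB3c: bound for the part at the primes dividing Q. -/
def P_TB3c : Prop := ∀ z r n v : ℕ, 1 ≤ v → n.Coprime (Qz z) →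
  rhoQ z r n v ≤ Qz z * 8 * 2 ^ z

/-- TB3d: expansion of the product of Jacobi symbols. -/
def P_TB3d : Prop := ∀ z n v : ℕ, 1 ≤ v → 0 ≤ jprod z n v ∧
  jprod z n v = ∑ f ∈ v.divisors.filter (fun f => Squarefree f ∧ f.Coprime (Qz z)),
    ((jacobiSym (n : ℤ) f : ℤ) : ℝ)

/-- size of the products (used everywhere) -/
def P_SZ : Prop := ∃ X0 : ℕ, ∀ X ≥ X0, ∀ s ∈ SX X,
  (X : ℝ) ^ (13 / 20 : ℝ) ≤ prodS s ∧ (prodS s : ℝ) ≤ (X : ℝ) ^ (2 / 3 : ℝ)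

/-- number of primes and size of the family -/
def P_NB : Prop := (∃ X0 : ℕ, ∀ X ≥ X0, (X : ℝ) ^ (13 / 25 : ℝ) ≤ NX X) ∧
  ∃ y0 : ℕ, ∀ y ≥ y0, (9 / 10 : ℝ) * y / Real.log y ≤ (PP y).card ∧
    ((PP y).card : ℝ) ≤ (11 / 10 : ℝ) * y / Real.log y

/-- TB4: terms of lower order. -/
def P_TB4 : Prop := ∀ z r : ℕ, r < Qz z → ∀ η : ℝ, 0 < η → η ≤ 1 → ∀ η' : ℝ, 0 < η' → η' ≤ 1 →
  ∀ δ ε : ℝ, 0 < δ → 0 < ε → ∃ X0 : ℕ, ∀ X ≥ X0, ∀ j : ℤ, δ / kk X * NX X ≤ S1 X η' j →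
    (∑ s ∈ SX X, ∑ t ∈ SX X, win η' j s * win η' j t * 2 ^ ((s ∩ t).card) *
      ∑ v ∈ Finset.Icc 1 ⌊2 * √(((prodS s * prodS t : ℕ) : ℝ) / X)⌋₊,
        (rho z r (prodS s * prodS t) v : ℝ)) ≤ ε * √(X : ℝ) * (S1 X η' j) ^ 2 ∧
    (∑ s ∈ SX X, (win η' j s) ^ 2 * 2 ^ (s.card) * ((DD z r X η).card : ℝ)) ≤
      ε * √(X : ℝ) * (S1 X η' j) ^ 2

/-- TB5: pairs with a common prime. -/
def P_TB5 : Prop := ∀ z r : ℕ, r < Qz z → ∀ η : ℝ, 0 < η → η ≤ 1 → ∀ η' : ℝ, 0 < η' → η' ≤ 1 →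
  ∀ δ ε : ℝ, 0 < δ → 0 < ε → ∃ X0 : ℕ, ∀ X ≥ X0, ∀ j : ℤ, δ / kk X * NX X ≤ S1 X η' j →
    (∑ s ∈ SX X, ∑ t ∈ (SX X).filter (fun t => ¬ Disjoint s t),
      win η' j s * win η' j t * 2 ^ ((s ∩ t).card) *
      ∑ v ∈ Finset.Icc 1 ⌊2 * √(((prodS s * prodS t : ℕ) : ℝ) / X)⌋₊,
        (rho z r (prodS s * prodS t) v : ℝ) * (om X η v (prodS s * prodS t : ℕ) / Qz z)) ≤
      ε * √(X : ℝ) * (S1 X η' j) ^ 2

/-- TB6a: mean of rhoQ over n coprime to Q. -/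
def P_TB6a : Prop := ∀ z r v : ℕ, 2 ≤ z → FundRes z r → 1 ≤ v →
  ∑ n ∈ (Finset.range (Qz z * (qpart z v) ^ 2)).filter (fun n => n.Coprime (Qz z)),
    (rhoQ z r n v : ℝ) = Nat.totient (Qz z * (qpart z v) ^ 2) * rbar z r v

/-- TB6b: mean of rbar over v. -/
def P_TB6b : Prop := ∀ z r : ℕ, 2 ≤ z → FundRes z r →
  (∀ v, 0 ≤ rbar z r v) ∧
  (∀ v, rbar z r (v + ∏ l ∈ (Finset.Icc 2 z).filter Nat.Prime, l) = rbar z r v) ∧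
  ∑ v ∈ Finset.range (∏ l ∈ (Finset.Icc 2 z).filter Nat.Prime, l), rbar z r v =
    2 * PiR z r * ((∏ l ∈ (Finset.Icc 2 z).filter Nat.Prime, l : ℕ) : ℝ)

/-- TB6c: periodic weights against an antitone function. -/
def P_TB6c : Prop := ∀ (q : ℕ) (h : ℕ → ℝ) (F : ℝ → ℝ) (I a : ℝ), 1 ≤ q → (∀ v, 0 ≤ h v) →
  (∀ v, h (v + q) = h v) → ∑ v ∈ Finset.range q, h v = a * q →
  AntitoneOn F (Set.Ici 0) → (∀ x, 0 ≤ F x) →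
  (∀ V : ℝ, 0 ≤ V → ∫ x in (0 : ℝ)..V, F x ≤ I) →
  ∀ V : ℕ, ∑ v ∈ Finset.Icc 1 V, h v * F v ≤ a * (q * F 0 + I)

/-- TB6d: expansion of rhoQ in characters. -/
def P_TB6d : Prop := ∀ z r v f X : ℕ, ∀ (η' : ℝ) (j : ℤ), 2 ≤ z → FundRes z r → 1 ≤ v →
  (∀ s ∈ SX X, (prodS s).Coprime (Qz z)) →
  |(∑ s ∈ SX X, ∑ t ∈ SX X, win η' j s * win η' j t * (rhoQ z r (prodS s * prodS t) v : ℝ) *
      ((jacobiSym ((prodS s * prodS t : ℕ) : ℤ) f : ℤ) : ℝ)) -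
    (if f = 1 then rbar z r v * (S1 X η' j) ^ 2 else 0)| ≤
  (Qz z * 8 * 2 ^ z : ℝ) *
    ∑ ψ : DirichletCharacter ℂ (Qz z * (qpart z v) ^ 2),
      if ψ = 1 ∧ f = 1 then 0 else ‖Sch X η' j (Qz z * (qpart z v) ^ 2) ψ f‖ ^ 2

/-- TB6: the main term. -/
def P_TB6 : Prop := ∀ z r : ℕ, 2 ≤ z → FundRes z r → ∀ η : ℝ, 0 < η → η ≤ 1 →
  ∀ ε : ℝ, 0 < ε → ∃ η0 : ℝ, 0 < η0 ∧ ∀ η' : ℝ, 0 < η' → η' < η0 → ∀ δ : ℝ, 0 < δ →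
  ∃ X0 : ℕ, ∀ X ≥ X0, ∀ j : ℤ, δ / kk X * NX X ≤ S1 X η' j → ∀ V : ℕ, V ≤ X →
    ∑ s ∈ SX X, ∑ t ∈ SX X, win η' j s * win η' j t *
      ∑ v ∈ Finset.Icc 1 V, (rhoQ z r (prodS s * prodS t) v : ℝ) *
        jprod z (prodS s * prodS t) v *
        (Real.exp η' * om X η (v * Real.exp (-η')) (Real.exp (2 * η' * j)) / Qz z) ≤
      (1 + ε) * (PiR z r / (4 * Qz z)) * η * √(X : ℝ) * (S1 X η' j) ^ 2

/-! ## Character sums -/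

/-- CC1: elementary symmetric functions. -/
def P_CC1 : Prop := ∀ (P : Finset ℕ) (x : ℕ → ℂ) (c : ℝ) (k : ℕ), (∀ p ∈ P, ‖x p‖ ≤ 1) →
  0 < c → c ≤ 1 / 2 → 1 ≤ k → k ^ 2 ≤ P.card → ‖∑ p ∈ P, x p‖ ≤ (1 - c) * P.card →
  ‖∑ s ∈ P.powersetCard k, ∏ p ∈ s, x p‖ ≤ 50 * √(k : ℝ) * (1 - c) ^ k * (P.card.choose k)

/-- CC2: tent window. -/
def P_CC2 : Prop := ∀ (ι : Type) (T : Finset ι) (x : ι → ℝ) (c : ι → ℂ) (η' Θ B : ℝ) (j : ℝ),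
  0 < η' → 0 < Θ → (∀ i ∈ T, ‖c i‖ ≤ 1) →
  (∀ ξ : ℝ, |ξ| ≤ 2 * Real.pi * Θ / η' →
    ‖∑ i ∈ T, c i * Complex.exp (ξ * x i * Complex.I)‖ ≤ B) →
  ‖∑ i ∈ T, ((phi (x i / η' - j) : ℝ) : ℂ) * c i‖ ≤ B + T.card / Θ

/-- BT: Brun-Titchmarsh type bound with some constant, intervals of length ≥ y^(1/3). -/
def P_BT : Prop := ∃ C y0 : ℝ, 0 < C ∧ ∀ x h y : ℝ, y0 ≤ y → y ≤ x → x ≤ 2 * y →
  y ^ (1 / 3 : ℝ) ≤ h →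
  (((Finset.Icc ⌈x⌉₊ ⌊x + h⌋₊).filter Nat.Prime).card : ℝ) ≤ C * h / Real.log y

/-- CC3: no correlation with n^{it}. -/
def P_CC3 : Prop := ∀ M : ℕ, 1 ≤ M → ∃ c : ℝ, 0 < c ∧ c ≤ 1 / 2 ∧ ∃ y0 : ℕ, ∀ y ≥ y0,
  ∀ x : ℕ → ℂ, (∀ p ∈ PP y, x p = 0 ∨ x p ^ M = 1) →
  ‖∑ p ∈ PP y, x p‖ ≤ (9 / 10 : ℝ) * (PP y).card →
  ∀ ξ : ℝ, |ξ| ≤ √(y : ℝ) →
    ‖∑ p ∈ PP y, x p * Complex.exp (ξ * Real.log p * Complex.I)‖ ≤ (1 - c) * (PP y).card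

/-- f is bad for M and y: some character mod M times the Jacobi symbol mod f does not oscillate
on the primes in (y, 2y]. -/
def BadF (M y f : ℕ) : Prop := ∃ ψ : DirichletCharacter ℂ M, ¬ (ψ = 1 ∧ f = 1) ∧
  (9 / 10 : ℝ) * (PP y).card <
    ‖∑ p ∈ PP y, ψ (p : ZMod M) * ((jacobiSym (p : ℤ) f : ℤ) : ℂ)‖

/-- LS: large sieve for primitive characters. -/
def P_LS : Prop := ∃ C : ℝ, 0 < C ∧ ∀ (N Q : ℕ) (b : ℕ → ℂ), 1 ≤ N → 1 ≤ Q →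
  ∑ q ∈ Finset.Icc 1 Q, ∑ χ : DirichletCharacter ℂ q,
    (if χ.IsPrimitive then ‖∑ n ∈ Finset.Icc 1 N, b n * χ (n : ZMod q)‖ ^ 2 else 0) ≤
    C * ((N : ℝ) + (Q : ℝ) ^ 2) * ∑ n ∈ Finset.Icc 1 N, ‖b n‖ ^ 2

/-- CC5: number of bad f. -/
def P_CC5 : Prop := ∀ M : ℕ, 1 ≤ M → ∃ C : ℝ, 0 < C ∧ ∃ y0 : ℕ, ∀ y ≥ y0, ∀ i : ℕ, 1 ≤ i →
  (((Finset.Icc 1 ⌊((2 * y : ℝ)) ^ ((i : ℝ) / 2)⌋₊).filter
    (fun f => Squarefree f ∧ f.Coprime (2 * M) ∧ BadF M y f)).card : ℝ) ≤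
    C * (i.factorial : ℝ) * (3 * Real.log y) ^ i

/-- CC6: small f are not bad. -/
def P_CC6 : Prop := ∀ M : ℕ, 1 ≤ M → ∃ y0 : ℕ, ∀ y ≥ y0, ∀ f : ℕ, 1 ≤ f →
  (f : ℝ) ≤ (Real.log y) ^ 3 → Squarefree f → f.Coprime (2 * M) → ¬ BadF M y f

/-- CC7: the bad f have small harmonic sum. -/
def P_CC7 : Prop := ∀ M : ℕ, 1 ≤ M → ∀ ε : ℝ, 0 < ε → ∃ X0 : ℕ, ∀ X ≥ X0,
  ∑ f ∈ (Finset.Icc 1 X).filter (fun f => Squarefree f ∧ f.Coprime (2 * M) ∧ BadF M (yy X) f),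
    (1 : ℝ) / f ≤ ε

/-- CC4: bound for the twisted windowed sums. -/
def P_CC4 : Prop := ∀ M : ℕ, 1 ≤ M → ∃ c : ℝ, 0 < c ∧ c ≤ 1 / 2 ∧ ∃ X0 : ℕ, ∀ X ≥ X0,
  ∀ (η' : ℝ) (j : ℤ) (ψ : DirichletCharacter ℂ M) (f : ℕ), 0 < η' → Squarefree f →
  f.Coprime (2 * M) →
  ‖∑ p ∈ PP (yy X), ψ (p : ZMod M) * ((jacobiSym (p : ℤ) f : ℤ) : ℂ)‖ ≤
    (9 / 10 : ℝ) * (PP (yy X)).card →
  ‖Sch X η' j M ψ f‖ ≤ NX X * (50 * √(kk X : ℝ) * (1 - c) ^ (kk X) +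
    8 / (η' * √(yy X : ℝ)))

/-- CM: the sum over all characters. -/
def P_CM : Prop := ∀ M : ℕ, 1 ≤ M → ∀ η' : ℝ, 0 < η' → ∀ δ ε : ℝ, 0 < δ → 0 < ε →
  ∃ X0 : ℕ, ∀ X ≥ X0, ∀ j : ℤ, δ / kk X * NX X ≤ S1 X η' j →
    ∑ f ∈ (Finset.Icc 1 X).filter (fun f => Squarefree f ∧ f.Coprime (2 * M)),
      ∑ ψ : DirichletCharacter ℂ M,
        (if ψ = 1 ∧ f = 1 then 0 else ‖Sch X η' j M ψ f‖ ^ 2 / f) ≤ ε * (S1 X η' j) ^ 2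

/-! ## Assembly -/

/-- bad discriminants -/
def BadX (X D : ℕ) : Prop := ∃ (K : Type) (_ : Field K) (_ : NumberField K),
  Module.finrank ℚ K = 2 ∧ NumberField.discr K = (D : ℤ) ∧ ¬ SmallGen K ((Real.log X) ^ 6 / 2)

/-- AS0: few bad discriminants in a residue class. -/
def P_AS0 : Prop := ∀ ε : ℝ, 0 < ε → ∃ z0 : ℕ, ∀ z ≥ z0, ∃ η1 : ℝ, 0 < η1 ∧
  ∀ η : ℝ, 0 < η → η ≤ η1 → ∀ r : ℕ, FundRes z r → ∃ X0 : ℕ, ∀ X ≥ X0,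
    (((FD z r X η).filter (fun D => BadX X D)).card : ℝ) ≤ ε * (η * X / Qz z)

/-- AS1: few bad discriminants in a short interval. -/
def P_AS1 : Prop := ∀ ε : ℝ, 0 < ε → ∃ η : ℝ, 0 < η ∧ η ≤ 1 ∧ ∃ X0 : ℕ, ∀ X ≥ X0,
  (((Finset.Ioc X ⌊(1 + η) * X⌋₊).filter (fun D => IsFund D ∧ BadX X D)).card : ℝ) ≤ ε * η * X

end Pool.Agent.H38R2.CG
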