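import Pool.Agent.H38R2.CG.Stubs

/-!
# CG N4b: lattice points in a planar hyperbolic sector
-/

set_option autoImplicit false

namespace Pool.Agent.H38R2.CG

open Finset Filter MeasureTheory
open scoped Pointwise
open scoped Classical

namespace N4bh

/-- height function of the slices -/
noncomputable def hh (α β κ x : ℝ) : ℝ :=
  min (x * Real.exp (-α)) (1 / (κ * x)) - x * Real.exp (-β)

def Topen (α β κ : ℝ) : Set (ℝ × ℝ) :=
  {p | 0 < p.1 ∧ 0 < p.2 ∧ Real.exp α * p.2 < p.1 ∧ p.1 < Real.exp β * p.2 ∧ p.1 * p.2 * κ < 1}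

def Tclosed (α β κ : ℝ) : Set (ℝ × ℝ) :=
  {p | 0 ≤ p.1 ∧ 0 ≤ p.2 ∧ Real.exp α * p.2 ≤ p.1 ∧ p.1 ≤ Real.exp β * p.2 ∧ p.1 * p.2 * κ ≤ 1}

lemma isOpen_Topen (α β κ : ℝ) : IsOpen (Topen α β κ) := by
  have h : Topen α β κ = {p : ℝ × ℝ | 0 < p.1} ∩ ({p : ℝ × ℝ | 0 < p.2} ∩
      ({p : ℝ × ℝ | Real.exp α * p.2 < p.1} ∩ ({p : ℝ × ℝ | p.1 < Real.exp β * p.2} ∩
      {p : ℝ × ℝ | p.1 * p.2 * κ < 1}))) := rfl
  rw [h]
  exact (isOpen_lt (by fun_prop) (by fun_prop)).inter ((isOpen_lt (by fun_prop)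
    (by fun_prop)).inter ((isOpen_lt (by fun_prop) (by fun_prop)).inter
    ((isOpen_lt (by fun_prop) (by fun_prop)).inter (isOpen_lt (by fun_prop) (by fun_prop)))))

lemma isClosed_Tclosed (α β κ : ℝ) : IsClosed (Tclosed α β κ) := by
  have h : Tclosed α β κ = {p : ℝ × ℝ | 0 ≤ p.1} ∩ ({p : ℝ × ℝ | 0 ≤ p.2} ∩
      ({p : ℝ × ℝ | Real.exp α * p.2 ≤ p.1} ∩ ({p : ℝ × ℝ | p.1 ≤ Real.exp β * p.2} ∩
      {p : ℝ × ℝ | p.1 * p.2 * κ ≤ 1}))) := rfl
  rw [h]
  exact (isClosed_le (by fun_prop) (by fun_prop)).inter ((isClosed_le (by fun_prop)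
    (by fun_prop)).inter ((isClosed_le (by fun_prop) (by fun_prop)).inter
    ((isClosed_le (by fun_prop) (by fun_prop)).inter (isClosed_le (by fun_prop) (by fun_prop)))))

noncomputable def x1 (α κ : ℝ) : ℝ := √(Real.exp α / κ)

lemma x1_pos {α κ : ℝ} (hκ : 0 < κ) : 0 < x1 α κ := Real.sqrt_pos.mpr (by positivity)

lemma x1_sq {α κ : ℝ} (hκ : 0 < κ) : x1 α κ ^ 2 = Real.exp α / κ :=
  Real.sq_sqrt (by positivity)

lemma x1_lt {α β κ : ℝ} (hκ : 0 < κ) (h : α < β) : x1 α κ < x1 β κ := by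
  unfold x1
  apply Real.sqrt_lt_sqrt (by positivity)
  have := Real.exp_lt_exp.mpr h
  gcongr

lemma log_x1 {α κ : ℝ} (hκ : 0 < κ) : Real.log (x1 α κ) = (α - Real.log κ) / 2 := by
  unfold x1
  rw [Real.log_sqrt (by positivity), Real.log_div (by positivity) hκ.ne', Real.log_exp]

lemma hh_left {α β κ x : ℝ} (hκ : 0 < κ) (hx : 0 < x) (hx1 : x ≤ x1 α κ) :
    hh α β κ x = x * (Real.exp (-α) - Real.exp (-β)) := by
  have h1 : x ^ 2 ≤ Real.exp α / κ := by
    rw [← x1_sq hκ]; exact pow_le_pow_left₀ hx.le hx1 2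
  have h2 : x * Real.exp (-α) ≤ 1 / (κ * x) := by
    rw [le_div_iff₀ (by positivity)]
    rw [le_div_iff₀ hκ] at h1
    have : x * Real.exp (-α) * (κ * x) = (x ^ 2 * κ) * Real.exp (-α) := by ring
    rw [this]
    calc (x ^ 2 * κ) * Real.exp (-α) ≤ Real.exp α * Real.exp (-α) := by gcongr
      _ = 1 := by rw [← Real.exp_add]; simp
  unfold hh
  rw [min_eq_left h2]; ring

lemma hh_right {α β κ x : ℝ} (hκ : 0 < κ) (hx1 : x1 α κ ≤ x) :
    hh α β κ x = κ⁻¹ * x⁻¹ - x * Real.exp (-β) := by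
  have hx : 0 < x := lt_of_lt_of_le (x1_pos hκ) hx1
  have h1 : Real.exp α / κ ≤ x ^ 2 := by
    rw [← x1_sq hκ]; exact pow_le_pow_left₀ (x1_pos hκ).le hx1 2
  have h2 : 1 / (κ * x) ≤ x * Real.exp (-α) := by
    rw [div_le_iff₀ (by positivity)]
    rw [div_le_iff₀ hκ] at h1
    have : x * Real.exp (-α) * (κ * x) = (x ^ 2 * κ) * Real.exp (-α) := by ring
    rw [this]
    calc (1 : ℝ) = Real.exp α * Real.exp (-α) := by rw [← Real.exp_add]; simp
      _ ≤ (x ^ 2 * κ) * Real.exp (-α) := by gcongr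
  unfold hh
  rw [min_eq_right h2]
  field_simp

lemma cont_right {κ : ℝ} (β : ℝ) {a b : ℝ} (ha : 0 < a) (hab : a ≤ b) :
    IntervalIntegrable (fun x : ℝ => κ⁻¹ * x⁻¹ - x * Real.exp (-β)) volume a b := by
  apply ContinuousOn.intervalIntegrable
  rw [Set.uIcc_of_le hab]
  have : ContinuousOn (fun x : ℝ => x⁻¹) (Set.Icc a b) :=
    ContinuousOn.inv₀ continuousOn_id (fun x hx => (lt_of_lt_of_le ha hx.1).ne')
  exact (continuousOn_const.mul this).sub (by fun_prop)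

lemma ii_left {α β κ : ℝ} (hκ : 0 < κ) :
    IntervalIntegrable (hh α β κ) volume 0 (x1 α κ) := by
  have h : IntervalIntegrable (fun x : ℝ => x * (Real.exp (-α) - Real.exp (-β))) volume 0
      (x1 α κ) := by
    apply Continuous.intervalIntegrable; fun_prop
  refine h.congr ?_
  rw [Set.uIoc_of_le (x1_pos hκ).le]
  intro x hx
  exact (hh_left hκ hx.1 hx.2).symm

lemma ii_right {α β κ : ℝ} (hκ : 0 < κ) (h : α < β) :
    IntervalIntegrable (hh α β κ) volume (x1 α κ) (x1 β κ) := by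
  refine (cont_right (κ := κ) β (x1_pos (α := α) hκ) (x1_lt hκ h).le).congr ?_
  rw [Set.uIoc_of_le (x1_lt hκ h).le]
  intro x hx
  exact (hh_right hκ hx.1.le).symm

lemma int_left {α β κ : ℝ} (hκ : 0 < κ) :
    ∫ x in (0 : ℝ)..(x1 α κ), hh α β κ x =
      (Real.exp α / κ) / 2 * (Real.exp (-α) - Real.exp (-β)) := by
  have h : ∫ x in (0 : ℝ)..(x1 α κ), hh α β κ x =
      ∫ x in (0 : ℝ)..(x1 α κ), x * (Real.exp (-α) - Real.exp (-β)) := by
    apply intervalIntegral.integral_congr_ae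
    rw [Set.uIoc_of_le (x1_pos hκ).le]
    refine ae_of_all _ ?_
    intro x hx
    exact hh_left hκ hx.1 hx.2
  rw [h, intervalIntegral.integral_mul_const, integral_id, x1_sq hκ]
  ring

lemma int_right {α β κ : ℝ} (hκ : 0 < κ) (h : α < β) :
    ∫ x in (x1 α κ)..(x1 β κ), hh α β κ x =
      κ⁻¹ * ((β - α) / 2) - (Real.exp β / κ - Real.exp α / κ) / 2 * Real.exp (-β) := by
  have h0 : ∫ x in (x1 α κ)..(x1 β κ), hh α β κ x =
      ∫ x in (x1 α κ)..(x1 β κ), (κ⁻¹ * x⁻¹ - x * Real.exp (-β)) := by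
    apply intervalIntegral.integral_congr_ae
    rw [Set.uIoc_of_le (x1_lt hκ h).le]
    refine ae_of_all _ ?_
    intro x hx
    exact hh_right hκ hx.1.le
  have hi1 : IntervalIntegrable (fun x : ℝ => κ⁻¹ * x⁻¹) volume (x1 α κ) (x1 β κ) := by
    apply ContinuousOn.intervalIntegrable
    rw [Set.uIcc_of_le (x1_lt hκ h).le]
    exact continuousOn_const.mul (ContinuousOn.inv₀ continuousOn_id
      (fun x hx => (lt_of_lt_of_le (x1_pos hκ) hx.1).ne'))
  have hi2 : IntervalIntegrable (fun x : ℝ => x * Real.exp (-β)) volume (x1 α κ) (x1 β κ) := by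
    apply Continuous.intervalIntegrable; fun_prop
  rw [h0, intervalIntegral.integral_sub hi1 hi2, intervalIntegral.integral_const_mul,
    intervalIntegral.integral_mul_const, integral_id, integral_inv_of_pos (x1_pos hκ)
    (x1_pos hκ), Real.log_div (x1_pos hκ).ne' (x1_pos hκ).ne', log_x1 hκ, log_x1 hκ, x1_sq hκ,
    x1_sq hκ]
  ring

lemma int_total {α β κ : ℝ} (hκ : 0 < κ) (h : α < β) :
    ∫ x in (0 : ℝ)..(x1 β κ), hh α β κ x = (β - α) / (2 * κ) := by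
  rw [← intervalIntegral.integral_add_adjacent_intervals (ii_left (β := β) hκ) (ii_right hκ h),
    int_left hκ, int_right hκ h]
  have e1 : Real.exp α * Real.exp (-α) = 1 := by rw [← Real.exp_add]; simp
  have e2 : Real.exp β * Real.exp (-β) = 1 := by rw [← Real.exp_add]; simp
  field_simp
  linear_combination e1 - e2

lemma hh_nonneg {α β κ x : ℝ} (hκ : 0 < κ) (h : α < β) (hx : 0 < x) (hx2 : x ≤ x1 β κ) :
    0 ≤ hh α β κ x := by
  unfold hh
  rw [sub_nonneg, le_min_iff]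
  constructor
  · have := Real.exp_lt_exp.mpr (neg_lt_neg h)
    gcongr
  · have h1 : x ^ 2 ≤ Real.exp β / κ := by
      rw [← x1_sq hκ]; exact pow_le_pow_left₀ hx.le hx2 2
    rw [le_div_iff₀ (by positivity)]
    rw [le_div_iff₀ hκ] at h1
    have : x * Real.exp (-β) * (κ * x) = (x ^ 2 * κ) * Real.exp (-β) := by ring
    rw [this]
    calc (x ^ 2 * κ) * Real.exp (-β) ≤ Real.exp β * Real.exp (-β) := by gcongr
      _ = 1 := by rw [← Real.exp_add]; simp

lemma lint_total {α β κ : ℝ} (hκ : 0 < κ) (h : α < β) :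
    ∫⁻ x in Set.Ioc 0 (x1 β κ), ENNReal.ofReal (hh α β κ x) =
      ENNReal.ofReal ((β - α) / (2 * κ)) := by
  have hint : IntegrableOn (hh α β κ) (Set.Ioc 0 (x1 β κ)) volume := by
    have := (ii_left (β := β) hκ).trans (ii_right hκ h)
    rwa [intervalIntegrable_iff_integrableOn_Ioc_of_le (x1_pos hκ).le] at this
  rw [← ofReal_integral_eq_lintegral_ofReal hint]
  · rw [← intervalIntegral.integral_of_le (x1_pos hκ).le, int_total hκ h]
  · filter_upwards [ae_restrict_mem measurableSet_Ioc] with x hx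
    exact hh_nonneg hκ h hx.1 hx.2

lemma vol_open {α β κ : ℝ} (hκ : 0 < κ) (h : α < β) :
    ENNReal.ofReal ((β - α) / (2 * κ)) ≤ volume (Topen α β κ) := by
  rw [← lint_total hκ h, Measure.volume_eq_prod,
    Measure.prod_apply (isOpen_Topen α β κ).measurableSet]
  rw [← lintegral_indicator measurableSet_Ioc]
  apply lintegral_mono
  intro x
  by_cases hx : x ∈ Set.Ioc 0 (x1 β κ)
  · rw [Set.indicator_of_mem hx]
    have hsub : Set.Ioo (x * Real.exp (-β)) (min (x * Real.exp (-α)) (1 / (κ * x))) ⊆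
        (Prod.mk x ⁻¹' Topen α β κ) := by
      intro y hy
      obtain ⟨hy1, hy2⟩ := hy
      rw [lt_min_iff] at hy2
      obtain ⟨hy2, hy3⟩ := hy2
      have hx0 := hx.1
      have hy0 : 0 < y := lt_trans (by positivity) hy1
      refine ⟨hx0, hy0, ?_, ?_, ?_⟩
      · have := mul_lt_mul_of_pos_left hy2 (Real.exp_pos α)
        have e : Real.exp α * (x * Real.exp (-α)) = x := by
          rw [mul_comm x, ← mul_assoc, ← Real.exp_add]; simp
        simpa [e] using this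
      · have := mul_lt_mul_of_pos_left hy1 (Real.exp_pos β)
        have e : Real.exp β * (x * Real.exp (-β)) = x := by
          rw [mul_comm x, ← mul_assoc, ← Real.exp_add]; simp
        simpa [e] using this
      · rw [lt_div_iff₀ (by positivity)] at hy3
        show x * y * κ < 1
        linarith
    refine le_trans (le_of_eq ?_) (measure_mono hsub)
    rw [Real.volume_Ioo]; rfl
  · rw [Set.indicator_of_notMem hx]; exact zero_le

lemma vol_closed {α β κ : ℝ} (hκ : 0 < κ) (h : α < β) :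
    volume (Tclosed α β κ) ≤ ENNReal.ofReal ((β - α) / (2 * κ)) := by
  rw [← lint_total hκ h, Measure.volume_eq_prod,
    Measure.prod_apply (isClosed_Tclosed α β κ).measurableSet]
  rw [← lintegral_indicator measurableSet_Ioc]
  have hae : ∀ᵐ x : ℝ, x ≠ 0 := by
    rw [ae_iff]; simp
  apply lintegral_mono_ae
  filter_upwards [hae] with x hx0
  by_cases hx : x ∈ Set.Ioc 0 (x1 β κ)
  · rw [Set.indicator_of_mem hx]
    have hsub : (Prod.mk x ⁻¹' Tclosed α β κ) ⊆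
        Set.Icc (x * Real.exp (-β)) (min (x * Real.exp (-α)) (1 / (κ * x))) := by
      intro y hy
      obtain ⟨h1, h2, h3, h4, h5⟩ := hy
      have hx0 := hx.1
      dsimp only at h1 h2 h3 h4 h5
      refine ⟨?_, le_min ?_ ?_⟩
      · have := mul_le_mul_of_nonneg_right h4 (Real.exp_pos (-β)).le
        have e : Real.exp β * y * Real.exp (-β) = y := by
          rw [mul_comm, ← mul_assoc, ← Real.exp_add]; simp
        rwa [e] at this
      · have := mul_le_mul_of_nonneg_right h3 (Real.exp_pos (-α)).le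
        have e : Real.exp α * y * Real.exp (-α) = y := by
          rw [mul_comm, ← mul_assoc, ← Real.exp_add]; simp
        rwa [e] at this
      · rw [le_div_iff₀ (by positivity)]
        linarith
    refine le_trans (measure_mono hsub) (le_of_eq ?_)
    rw [Real.volume_Icc]; rfl
  · rw [Set.indicator_of_notMem hx]
    have hsub : (Prod.mk x ⁻¹' Tclosed α β κ) ⊆ ∅ := by
      intro y hy
      obtain ⟨h1, h2, h3, h4, h5⟩ := hy
      dsimp only at h1 h2 h3 h4 h5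
      have hxpos : 0 < x := lt_of_le_of_ne h1 (Ne.symm hx0)
      have hx2 : x1 β κ < x := by
        by_contra hcon
        exact hx ⟨hxpos, not_lt.mp hcon⟩
      have hsq : Real.exp β / κ < x ^ 2 := by
        rw [← x1_sq hκ]; exact pow_lt_pow_left₀ hx2 (x1_pos hκ).le two_ne_zero
      rw [div_lt_iff₀ hκ] at hsq
      -- x ≤ e^β y, x y κ ≤ 1 gives x^2 κ ≤ e^β
      have : x ^ 2 * κ ≤ Real.exp β * (x * y * κ) := by
        have := mul_le_mul_of_nonneg_left h4 (mul_pos hxpos hκ).le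
        nlinarith [this]
      have h6 : Real.exp β * (x * y * κ) ≤ Real.exp β * 1 :=
        mul_le_mul_of_nonneg_left h5 (Real.exp_pos β).le
      exact absurd hsq (not_lt.mpr (by linarith))
    exact le_trans (measure_mono hsub) (by simp)

/-- the sector region -/
def TT (α β κ Z : ℝ) : Set (ℝ × ℝ) :=
  {p | 0 < p.1 ∧ 0 < p.2 ∧ α ≤ Real.log (p.1 / p.2) ∧ Real.log (p.1 / p.2) < β ∧
    p.1 * p.2 * κ ≤ Z}

lemma open_sub (α β κ : ℝ) : Topen α β κ ⊆ TT α β κ 1 := by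
  rintro ⟨x, y⟩ ⟨h1, h2, h3, h4, h5⟩
  dsimp only at h1 h2 h3 h4 h5
  refine ⟨h1, h2, ?_, ?_, h5.le⟩
  · show α ≤ Real.log (x / y)
    rw [Real.le_log_iff_exp_le (by positivity), le_div_iff₀ h2]; exact h3.le
  · show Real.log (x / y) < β
    rw [Real.log_lt_iff_lt_exp (by positivity), div_lt_iff₀ h2]; exact h4

lemma sub_closed (α β κ : ℝ) : TT α β κ 1 ⊆ Tclosed α β κ := by
  rintro ⟨x, y⟩ ⟨h1, h2, h3, h4, h5⟩
  dsimp only at h1 h2 h3 h4 h5
  rw [Real.le_log_iff_exp_le (by positivity), le_div_iff₀ h2] at h3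
  rw [Real.log_lt_iff_lt_exp (by positivity), div_lt_iff₀ h2] at h4
  exact ⟨h1.le, h2.le, h3, h4.le, h5⟩

lemma vol_TT {α β κ : ℝ} (hκ : 0 < κ) (h : α < β) :
    volume (TT α β κ 1) = ENNReal.ofReal ((β - α) / (2 * κ)) :=
  le_antisymm ((measure_mono (sub_closed α β κ)).trans (vol_closed hκ h))
    ((vol_open hκ h).trans (measure_mono (open_sub α β κ)))

lemma vol_frontier {α β κ : ℝ} (hκ : 0 < κ) (h : α < β) :
    volume (frontier (TT α β κ 1)) = 0 := by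
  have hsub : frontier (TT α β κ 1) ⊆ Tclosed α β κ \ Topen α β κ := by
    intro p hp
    refine ⟨?_, ?_⟩
    · exact closure_minimal (sub_closed α β κ) (isClosed_Tclosed α β κ) hp.1
    · intro hp2
      exact hp.2 (interior_maximal (open_sub α β κ) (isOpen_Topen α β κ) hp2)
  have hsub2 : Topen α β κ ⊆ Tclosed α β κ := (open_sub α β κ).trans (sub_closed α β κ)
  have hfin : volume (Topen α β κ) ≠ ⊤ := by
    refine ne_top_of_le_ne_top ?_ ((measure_mono hsub2).trans (vol_closed hκ h))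
    exact ENNReal.ofReal_ne_top
  have h2 : volume (Tclosed α β κ \ Topen α β κ) = 0 := by
    rw [measure_sdiff hsub2 (isOpen_Topen α β κ).measurableSet.nullMeasurableSet hfin]
    exact tsub_eq_zero_of_le ((vol_closed hκ h).trans (vol_open hκ h))
  exact le_antisymm ((measure_mono hsub).trans h2.le) zero_le

/-- bound for the coordinates -/
lemma coord_bd {α β κ Z x y : ℝ} (hκ : 0 < κ) (h : (x, y) ∈ TT α β κ Z) :
    x ≤ √(Real.exp β * Z / κ) ∧ y ≤ √(Real.exp (-α) * Z / κ) := by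
  obtain ⟨h1, h2, h3, h4, h5⟩ := h
  dsimp only at h1 h2 h3 h4 h5
  rw [Real.le_log_iff_exp_le (by positivity), le_div_iff₀ h2] at h3
  rw [Real.log_lt_iff_lt_exp (by positivity), div_lt_iff₀ h2] at h4
  constructor
  · apply Real.le_sqrt_of_sq_le
    rw [le_div_iff₀ hκ]
    have h6 : x * x ≤ x * (Real.exp β * y) := mul_le_mul_of_nonneg_left h4.le h1.le
    have h7 : x ^ 2 * κ ≤ Real.exp β * (x * y * κ) := by
      have := mul_le_mul_of_nonneg_right h6 hκ.le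
      nlinarith [this]
    exact h7.trans (mul_le_mul_of_nonneg_left h5 (Real.exp_pos β).le)
  · apply Real.le_sqrt_of_sq_le
    rw [le_div_iff₀ hκ]
    have h6 : y ≤ Real.exp (-α) * x := by
      have := mul_le_mul_of_nonneg_left h3 (Real.exp_pos (-α)).le
      rwa [← mul_assoc, ← Real.exp_add, neg_add_cancel, Real.exp_zero, one_mul] at this
    have h8 : y * y ≤ y * (Real.exp (-α) * x) := mul_le_mul_of_nonneg_left h6 h2.le
    have h7 : y ^ 2 * κ ≤ Real.exp (-α) * (x * y * κ) := by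
      have := mul_le_mul_of_nonneg_right h8 hκ.le
      nlinarith [this]
    exact h7.trans (mul_le_mul_of_nonneg_left h5 (Real.exp_pos (-α)).le)

/-- the linear map -/
def mapXY (a1 a2 c1 c2 : ℝ) (w : ℝ × ℝ) : ℝ × ℝ :=
  (w.1 * a1 + w.2 * a2, w.1 * c1 + w.2 * c2)

lemma w_bd {a1 a2 c1 c2 α β κ Z : ℝ} (hd : a1 * c2 - a2 * c1 ≠ 0) (hκ : 0 < κ) :
    ∃ R : ℝ, 0 ≤ R ∧ ∀ w : ℝ × ℝ, mapXY a1 a2 c1 c2 w ∈ TT α β κ Z →
      |w.1| ≤ R ∧ |w.2| ≤ R := by
  set B1 := √(Real.exp β * Z / κ)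
  set B2 := √(Real.exp (-α) * Z / κ)
  set d := a1 * c2 - a2 * c1 with hdd
  refine ⟨|d|⁻¹ * ((|a1| + |a2| + |c1| + |c2|) * (B1 + B2)), by positivity, ?_⟩
  intro w hw
  have hb := coord_bd hκ (show (w.1 * a1 + w.2 * a2, w.1 * c1 + w.2 * c2) ∈ TT α β κ Z from hw)
  obtain ⟨h1, h2, -, -, -⟩ := hw
  change 0 < w.1 * a1 + w.2 * a2 at h1
  change 0 < w.1 * c1 + w.2 * c2 at h2
  set X := w.1 * a1 + w.2 * a2 with hX
  set Y := w.1 * c1 + w.2 * c2 with hY
  have hB1 : 0 ≤ B1 := Real.sqrt_nonneg _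
  have hB2 : 0 ≤ B2 := Real.sqrt_nonneg _
  have aX : |X| ≤ B1 + B2 := by rw [abs_of_pos h1]; linarith [hb.1]
  have aY : |Y| ≤ B1 + B2 := by rw [abs_of_pos h2]; linarith [hb.2]
  have hdp : 0 < |d| := abs_pos.mpr hd
  have e1 : w.1 = d⁻¹ * (c2 * X - a2 * Y) := by
    rw [hX, hY]; field_simp; rw [hdd]; ring
  have e2 : w.2 = d⁻¹ * (a1 * Y - c1 * X) := by
    rw [hX, hY]; field_simp; rw [hdd]; ring
  constructor
  · rw [e1, abs_mul, abs_inv]
    apply mul_le_mul_of_nonneg_left _ (by positivity)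
    calc |c2 * X - a2 * Y| ≤ |c2 * X| + |a2 * Y| := abs_sub _ _
      _ = |c2| * |X| + |a2| * |Y| := by rw [abs_mul, abs_mul]
      _ ≤ |c2| * (B1 + B2) + |a2| * (B1 + B2) := by gcongr
      _ ≤ (|a1| + |a2| + |c1| + |c2|) * (B1 + B2) := by
          nlinarith [abs_nonneg a1, abs_nonneg c1]
  · rw [e2, abs_mul, abs_inv]
    apply mul_le_mul_of_nonneg_left _ (by positivity)
    calc |a1 * Y - c1 * X| ≤ |a1 * Y| + |c1 * X| := abs_sub _ _
      _ = |a1| * |Y| + |c1| * |X| := by rw [abs_mul, abs_mul]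
      _ ≤ |a1| * (B1 + B2) + |c1| * (B1 + B2) := by gcongr
      _ ≤ (|a1| + |a2| + |c1| + |c2|) * (B1 + B2) := by
          nlinarith [abs_nonneg a2, abs_nonneg c2]

/-- the map from `Fin 2 → ℝ` -/
def Phi (a1 a2 c1 c2 : ℝ) (w : Fin 2 → ℝ) : ℝ × ℝ := mapXY a1 a2 c1 c2 (w 0, w 1)

lemma cont_Phi (a1 a2 c1 c2 : ℝ) : Continuous (Phi a1 a2 c1 c2) := by
  unfold Phi mapXY; fun_prop

lemma vol_Phi {a1 a2 c1 c2 : ℝ} (hd : a1 * c2 - a2 * c1 ≠ 0) (A : Set (ℝ × ℝ)) :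
    volume (Phi a1 a2 c1 c2 ⁻¹' A) =
      ENNReal.ofReal |(a1 * c2 - a2 * c1)⁻¹| * volume A := by
  have hdet : LinearMap.det (Matrix.toLin' !![a1, a2; c1, c2]) = a1 * c2 - a2 * c1 := by
    rw [LinearMap.det_toLin', Matrix.det_fin_two_of]
  have h1 : Phi a1 a2 c1 c2 ⁻¹' A = (Matrix.toLin' !![a1, a2; c1, c2]) ⁻¹'
      ((MeasurableEquiv.finTwoArrow : (Fin 2 → ℝ) ≃ᵐ ℝ × ℝ) ⁻¹' A) := by
    ext w
    have : Phi a1 a2 c1 c2 w = (MeasurableEquiv.finTwoArrow : (Fin 2 → ℝ) ≃ᵐ ℝ × ℝ)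
        (Matrix.toLin' !![a1, a2; c1, c2] w) := by
      simp [Phi, mapXY, MeasurableEquiv.finTwoArrow, Matrix.toLin'_apply, Matrix.mulVec,
        dotProduct, Fin.sum_univ_two]
      constructor <;> ring
    simp only [Set.mem_preimage, this]
  rw [h1, Measure.addHaar_preimage_linearMap volume (by rw [hdet]; exact hd), hdet,
    (volume_preserving_finTwoArrow ℝ).measure_preimage_equiv]

lemma meas_TT (α β κ Z : ℝ) : MeasurableSet (TT α β κ Z) := by
  have h : TT α β κ Z = {p : ℝ × ℝ | 0 < p.1} ∩ ({p : ℝ × ℝ | 0 < p.2} ∩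
      ({p : ℝ × ℝ | α ≤ Real.log (p.1 / p.2)} ∩ ({p : ℝ × ℝ | Real.log (p.1 / p.2) < β} ∩
      {p : ℝ × ℝ | p.1 * p.2 * κ ≤ Z}))) := rfl
  rw [h]
  exact (measurableSet_lt (by fun_prop) (by fun_prop)).inter ((measurableSet_lt (by fun_prop)
    (by fun_prop)).inter ((measurableSet_le (by fun_prop) (by fun_prop)).inter
    ((measurableSet_lt (by fun_prop) (by fun_prop)).inter
    (measurableSet_le (by fun_prop) (by fun_prop)))))

lemma TT_scale {α β κ Z x : ℝ} (hx : 0 < x) (p : ℝ × ℝ) :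
    (p.1 / x, p.2 / x) ∈ TT α β κ Z ↔ p ∈ TT α β κ (Z * x ^ 2) := by
  unfold TT
  simp only [Set.mem_ofPred_eq]
  rw [div_div_div_cancel_right₀ hx.ne']
  have e1 : 0 < p.1 / x ↔ 0 < p.1 := by
    constructor
    · intro h
      have := mul_pos h hx
      rwa [div_mul_cancel₀ _ hx.ne'] at this
    · intro h; positivity
  have e2 : 0 < p.2 / x ↔ 0 < p.2 := by
    constructor
    · intro h
      have := mul_pos h hx
      rwa [div_mul_cancel₀ _ hx.ne'] at this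
    · intro h; positivity
  have e3 : p.1 / x * (p.2 / x) * κ ≤ Z ↔ p.1 * p.2 * κ ≤ Z * x ^ 2 := by
    have : p.1 / x * (p.2 / x) * κ = p.1 * p.2 * κ / x ^ 2 := by field_simp
    rw [this, div_le_iff₀ (by positivity)]
  rw [e1, e2, e3]

lemma mapXY_div (a1 a2 c1 c2 x : ℝ) (w : ℝ × ℝ) :
    mapXY a1 a2 c1 c2 (w.1 / x, w.2 / x) =
      ((mapXY a1 a2 c1 c2 w).1 / x, (mapXY a1 a2 c1 c2 w).2 / x) := by
  unfold mapXY
  ext <;> simp <;> ring

end N4bh

open N4bh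

theorem T_N4b : P_N4b := by
  intro a1 a2 c1 c2 α β κ hd hαβ hκ
  have hset : ∀ Y : ℝ, {x : ℤ × ℤ | 0 < x.1 * a1 + x.2 * a2 ∧ 0 < x.1 * c1 + x.2 * c2 ∧
      α ≤ Real.log ((x.1 * a1 + x.2 * a2) / (x.1 * c1 + x.2 * c2)) ∧
      Real.log ((x.1 * a1 + x.2 * a2) / (x.1 * c1 + x.2 * c2)) < β ∧
      (x.1 * a1 + x.2 * a2) * (x.1 * c1 + x.2 * c2) * κ ≤ Y} =
      {x : ℤ × ℤ | mapXY a1 a2 c1 c2 ((x.1 : ℝ), (x.2 : ℝ)) ∈ TT α β κ Y} := by
    intro Y; rfl
  have hfin : ∀ Y : ℝ,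
      {x : ℤ × ℤ | mapXY a1 a2 c1 c2 ((x.1 : ℝ), (x.2 : ℝ)) ∈ TT α β κ Y}.Finite := by
    intro Y
    obtain ⟨R, hR0, hR⟩ := w_bd (Z := Y) (α := α) (β := β) hd hκ
    apply Set.Finite.subset (Set.finite_Icc ((-⌈R⌉, -⌈R⌉) : ℤ × ℤ) (⌈R⌉, ⌈R⌉))
    rintro ⟨m, n⟩ hx
    obtain ⟨h1, h2⟩ := hR _ hx
    dsimp only at h1 h2
    have hc := Int.le_ceil R
    have k1 : |m| ≤ ⌈R⌉ := by
      have : (|m| : ℝ) ≤ (⌈R⌉ : ℝ) := h1.trans hc
      exact_mod_cast this
    have k2 : |n| ≤ ⌈R⌉ := by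
      have : (|n| : ℝ) ≤ (⌈R⌉ : ℝ) := h2.trans hc
      exact_mod_cast this
    rw [abs_le] at k1 k2
    exact ⟨⟨k1.1, k2.1⟩, ⟨k1.2, k2.2⟩⟩
  refine ⟨fun Y => by rw [hset Y]; exact hfin Y, ?_⟩
  set s : Set (Fin 2 → ℝ) := Phi a1 a2 c1 c2 ⁻¹' (TT α β κ 1) with hs
  have hb : Bornology.IsBounded s := by
    obtain ⟨R, hR0, hR⟩ := w_bd (Z := 1) (α := α) (β := β) hd hκ
    apply (Metric.isBounded_closedBall (x := (0 : Fin 2 → ℝ)) (r := R)).subset
    intro w hw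
    rw [mem_closedBall_zero_iff, pi_norm_le_iff_of_nonneg hR0]
    obtain ⟨h1, h2⟩ := hR _ hw
    intro i
    fin_cases i
    · exact h1
    · exact h2
  have hm : MeasurableSet s := (cont_Phi a1 a2 c1 c2).measurable (meas_TT α β κ 1)
  have hf : volume (frontier s) = 0 := by
    have h1 := (cont_Phi a1 a2 c1 c2).frontier_preimage_subset (TT α β κ 1)
    refine le_antisymm ((measure_mono h1).trans ?_) zero_le
    rw [vol_Phi hd, vol_frontier hκ hαβ, mul_zero]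
  have hmono : ∀ ⦃x y : ℝ⦄, 0 < x → x ≤ y → x • s ⊆ y • s := by
    intro x y hx hxy w hw
    have hy : 0 < y := lt_of_lt_of_le hx hxy
    rw [Set.mem_smul_set_iff_inv_smul_mem₀ hx.ne'] at hw
    rw [Set.mem_smul_set_iff_inv_smul_mem₀ hy.ne']
    have key : ∀ z : ℝ, 0 < z → ((z⁻¹ • w) ∈ s ↔
        mapXY a1 a2 c1 c2 (w 0, w 1) ∈ TT α β κ (1 * z ^ 2)) := by
      intro z hz
      rw [← TT_scale hz, ← mapXY_div]
      have : ((w 0 / z, w 1 / z) : ℝ × ℝ) = ((z⁻¹ • w) 0, (z⁻¹ • w) 1) := by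
        simp [div_eq_inv_mul]
      rw [this]
      rfl
    rw [key x hx] at hw
    rw [key y hy]
    obtain ⟨h1, h2, h3, h4, h5⟩ := hw
    refine ⟨h1, h2, h3, h4, h5.trans ?_⟩
    have := pow_le_pow_left₀ hx.le hxy 2
    linarith
  have hlim := tendsto_card_div_pow_atTop_volume' s hb hm hf hmono
  have hvol : volume.real s = (β - α) / (2 * κ * |a1 * c2 - a2 * c1|) := by
    rw [measureReal_def, hs, vol_Phi hd, vol_TT hκ hαβ, ← ENNReal.ofReal_mul (abs_nonneg _),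
      ENNReal.toReal_ofReal (mul_nonneg (abs_nonneg _)
        (div_nonneg (sub_nonneg.mpr hαβ.le) (by positivity))), abs_inv]
    have : |a1 * c2 - a2 * c1| ≠ 0 := abs_ne_zero.mpr hd
    field_simp
  rw [hvol] at hlim
  have hlim2 := hlim.comp (Real.tendsto_sqrt_atTop.comp tendsto_natCast_atTop_atTop)
  refine hlim2.congr' ?_
  filter_upwards [eventually_gt_atTop 0] with N hN
  have hNr : (0 : ℝ) < N := by exact_mod_cast hN
  have hx : 0 < √(N : ℝ) := Real.sqrt_pos.mpr hNr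
  have hsq : √(N : ℝ) ^ 2 = N := Real.sq_sqrt hNr.le
  simp only [Function.comp]
  rw [hset (N : ℝ)]
  rw [Fintype.card_fin, hsq]
  congr 2
  set x := √(N : ℝ) with hxdef
  set A := {x : ℤ × ℤ | mapXY a1 a2 c1 c2 ((x.1 : ℝ), (x.2 : ℝ)) ∈ TT α β κ (N : ℝ)} with hA
  have himg : s ∩ x⁻¹ • (Submodule.span ℤ (Set.range (Pi.basisFun ℝ (Fin 2))) :
      Set (Fin 2 → ℝ)) = (fun z : ℤ × ℤ => (![(z.1 : ℝ) / x, (z.2 : ℝ) / x] : Fin 2 → ℝ)) '' A := by
    ext w
    constructor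
    · rintro ⟨hw1, hw2⟩
      rw [Set.mem_inv_smul_set_iff₀ hx.ne', SetLike.mem_coe,
        Module.Basis.mem_span_iff_repr_mem] at hw2
      obtain ⟨m, hm'⟩ := hw2 0
      obtain ⟨n, hn'⟩ := hw2 1
      simp only [Pi.basisFun_repr, Pi.smul_apply, smul_eq_mul, algebraMap_int_eq,
        Int.coe_castRingHom] at hm' hn'
      have e0 : w 0 = m / x := by rw [hm']; field_simp
      have e1 : w 1 = n / x := by rw [hn']; field_simp
      refine ⟨(m, n), ?_, ?_⟩
      · show mapXY a1 a2 c1 c2 ((m : ℝ), (n : ℝ)) ∈ TT α β κ (N : ℝ)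
        have h1 : mapXY a1 a2 c1 c2 (w 0, w 1) ∈ TT α β κ 1 := hw1
        rw [e0, e1] at h1
        have h2 := mapXY_div a1 a2 c1 c2 x ((m : ℝ), (n : ℝ))
        dsimp only at h2
        rw [h2, TT_scale hx, hsq, one_mul] at h1
        exact h1
      · ext i
        fin_cases i
        · simp [e0]
        · simp [e1]
    · rintro ⟨⟨m, n⟩, hz, rfl⟩
      refine ⟨?_, ?_⟩
      · show mapXY a1 a2 c1 c2 ((m : ℝ) / x, (n : ℝ) / x) ∈ TT α β κ 1
        have h2 := mapXY_div a1 a2 c1 c2 x ((m : ℝ), (n : ℝ))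
        dsimp only at h2
        rw [h2, TT_scale hx, hsq, one_mul]
        exact hz
      · rw [Set.mem_inv_smul_set_iff₀ hx.ne', SetLike.mem_coe,
          Module.Basis.mem_span_iff_repr_mem]
        intro i
        fin_cases i
        · refine ⟨m, ?_⟩
          simp
          field_simp
        · refine ⟨n, ?_⟩
          simp
          field_simp
  rw [himg, Nat.card_coe_set_eq, Set.ncard_image_of_injective]
  rintro ⟨m, n⟩ ⟨m', n'⟩ h
  have h0 := congrFun h 0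
  have h1 := congrFun h 1
  simp only [Matrix.cons_val_zero, Matrix.cons_val_one] at h0 h1
  rw [div_left_inj' hx.ne'] at h0 h1
  ext
  · exact_mod_cast h0
  · exact_mod_cast h1

end Pool.Agent.H38R2.CG
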