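import Pool.Agent.H38R2.CG.Stubs

/-! N5a: Cauchy-Schwarz over ideals. -/

set_option autoImplicit false

namespace Pool.Agent.H38R2.CG

open Finset Filter NumberField
open scoped Classical

namespace N5ah

variable {K : Type} [Field K] [NumberField K] {D : ℕ}

theorem ne_zero_of_pos (e : Emb K D) {x : K} (hx : 0 < e.σ x) : x ≠ 0 := by
  rintro rfl
  rw [map_zero] at hx
  exact lt_irrefl _ hx

/-- the ideal determined by `x A = J` -/
theorem XAB_unique (e : Emb K D) {A J J' : Ideal (𝓞 K)} {x : K} (h : x ∈ XAB e A J)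
    (h' : x ∈ XAB e A J') : J = J' := by
  have h1 := h.2.2.symm.trans h'.2.2
  exact FractionalIdeal.coeIdeal_injective h1

theorem mem_inv_of_XAB (e : Emb K D) {A J : Ideal (𝓞 K)} (hA : A ≠ ⊥) {x : K}
    (h : x ∈ XAB e A J) :
    x ∈ ((A : FractionalIdeal (nonZeroDivisors (𝓞 K)) K)⁻¹ :
      FractionalIdeal (nonZeroDivisors (𝓞 K)) K) := by
  have hA' : (A : FractionalIdeal (nonZeroDivisors (𝓞 K)) K) ≠ 0 :=
    FractionalIdeal.coeIdeal_ne_zero.2 hA
  rw [FractionalIdeal.mem_inv_iff hA']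
  intro y hy
  have h1 : x * y ∈ (FractionalIdeal.spanSingleton (nonZeroDivisors (𝓞 K)) x *
      (A : FractionalIdeal (nonZeroDivisors (𝓞 K)) K)) :=
    FractionalIdeal.mul_mem_mul (FractionalIdeal.mem_spanSingleton_self _ x) hy
  rw [h.2.2] at h1
  exact FractionalIdeal.coeIdeal_le_one h1

theorem exists_XAB (e : Emb K D) {A : Ideal (𝓞 K)} (hA : A ≠ ⊥) {x : K} (h1 : 0 < e.σ x)
    (h2 : 0 < e.τ x) (h : x ∈ ((A : FractionalIdeal (nonZeroDivisors (𝓞 K)) K)⁻¹ :
      FractionalIdeal (nonZeroDivisors (𝓞 K)) K)) :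
    ∃ J : Ideal (𝓞 K), J ≠ ⊥ ∧ x ∈ XAB e A J := by
  have hA' : (A : FractionalIdeal (nonZeroDivisors (𝓞 K)) K) ≠ 0 :=
    FractionalIdeal.coeIdeal_ne_zero.2 hA
  have hx := ne_zero_of_pos e h1
  have h3 : FractionalIdeal.spanSingleton (nonZeroDivisors (𝓞 K)) x *
      (A : FractionalIdeal (nonZeroDivisors (𝓞 K)) K) ≤ 1 := by
    rw [FractionalIdeal.mul_le]
    intro i hi j hj
    obtain ⟨z, rfl⟩ := (FractionalIdeal.mem_spanSingleton _).1 hi
    rw [FractionalIdeal.mem_inv_iff hA'] at h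
    have h4 := h j hj
    rw [smul_mul_assoc]
    exact Submodule.smul_mem _ z h4
  obtain ⟨J, hJ⟩ := FractionalIdeal.le_one_iff_exists_coeIdeal.1 h3
  refine ⟨J, ?_, h1, h2, hJ.symm⟩
  rintro rfl
  rw [FractionalIdeal.coeIdeal_bot, eq_comm, mul_eq_zero] at hJ
  rcases hJ with hJ | hJ
  · exact hx (FractionalIdeal.spanSingleton_eq_zero_iff.1 hJ)
  · exact hA' hJ

theorem norm_XAB (e : Emb K D) {A J : Ideal (𝓞 K)} {x : K} (h : x ∈ XAB e A J) :
    (Ideal.absNorm J : ℝ) = e.σ x * e.τ x * (Ideal.absNorm A : ℝ) := by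
  have h1 := congrArg FractionalIdeal.absNorm h.2.2
  rw [map_mul, FractionalIdeal.absNorm_span_singleton, FractionalIdeal.coeIdeal_absNorm,
    FractionalIdeal.coeIdeal_absNorm] at h1
  have h2 : ((|Algebra.norm ℚ x| : ℚ) : ℝ) = e.σ x * e.τ x := by
    rw [Rat.cast_abs, e.nrm, abs_of_pos (mul_pos h.1 h.2.1)]
  have h3 := congrArg (fun q : ℚ => (q : ℝ)) h1
  simp only [Rat.cast_mul, Rat.cast_natCast] at h3
  rw [h2] at h3
  exact h3.symm

theorem class_XAB (e : Emb K D) {A J : nonZeroDivisors (Ideal (𝓞 K))} {x : K}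
    (h : x ∈ XAB e (A : Ideal (𝓞 K)) (J : Ideal (𝓞 K))) :
    ClassGroup.mk0 J = ClassGroup.mk0 A := by
  have hx := ne_zero_of_pos e h.1
  have h1 := (FractionalIdeal.spanSingleton_mul_coeIdeal_eq_coeIdeal).1 h.2.2
  rw [eq_comm, ClassGroup.mk0_eq_mk0_iff]
  refine ⟨_, _, ?_, ?_, h1⟩
  · exact IsLocalization.sec_fst_ne_zero hx
  · exact IsLocalization.sec_snd_ne_zero le_rfl x

theorem XAB_div (e : Emb K D) {A B J : Ideal (𝓞 K)} {x y : K} (hx : x ∈ XAB e A J)
    (hy : y ∈ XAB e B J) : x / y ∈ XAB e A B := by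
  have hy0 := ne_zero_of_pos e hy.1
  refine ⟨?_, ?_, ?_⟩
  · rw [map_div₀]; exact div_pos hx.1 hy.1
  · rw [map_div₀]; exact div_pos hx.2.1 hy.2.1
  · have h1 : FractionalIdeal.spanSingleton (nonZeroDivisors (𝓞 K)) (x / y) =
        FractionalIdeal.spanSingleton (nonZeroDivisors (𝓞 K)) y⁻¹ *
        FractionalIdeal.spanSingleton (nonZeroDivisors (𝓞 K)) x := by
      rw [FractionalIdeal.spanSingleton_mul_spanSingleton, div_eq_mul_inv, mul_comm]
    rw [h1, mul_assoc, hx.2.2, ← hy.2.2, ← mul_assoc,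
      FractionalIdeal.spanSingleton_mul_spanSingleton, inv_mul_cancel₀ hy0,
      FractionalIdeal.spanSingleton_one, one_mul]

theorem log_div (e : Emb K D) {x y : K} (hx : 0 < e.σ x) (hx' : 0 < e.τ x) (hy : 0 < e.σ y)
    (hy' : 0 < e.τ y) : Real.log (e.σ (x / y) / e.τ (x / y)) =
      Real.log (e.σ x / e.τ x) - Real.log (e.σ y / e.τ y) := by
  have h1 : e.σ (x / y) / e.τ (x / y) = (e.σ x / e.τ x) / (e.σ y / e.τ y) := by
    rw [map_div₀, map_div₀]
    field_simp
  rw [h1, Real.log_div (div_pos hx hx').ne' (div_pos hy hy').ne']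

/-- the set of `x` with `x A = J`, argument in `[0,1)` -/
def U (e : Emb K D) (A J : Ideal (𝓞 K)) : Set K :=
  {x | x ∈ XAB e A J ∧ 0 ≤ Real.log (e.σ x / e.τ x) ∧ Real.log (e.σ x / e.τ x) < 1}

end N5ah

open N5ah in
theorem T_N5a : P_KF → P_N5a := by
  intro hKF K _ _ D hD hdeg hdisc e ι _ A w hw H hH N
  have hA0 : ∀ i, (A i : Ideal (𝓞 K)) ≠ ⊥ := fun i => nonZeroDivisors.coe_ne_zero (A i)
  have hUfin : ∀ (i : ι) (J : nonZeroDivisors (Ideal (𝓞 K))),
      (U e (A i : Ideal (𝓞 K)) (J : Ideal (𝓞 K))).Finite := by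
    intro i J
    refine (hKF K D hD hdeg hdisc e (A i) J (hA0 i) (nonZeroDivisors.coe_ne_zero J)).subset ?_
    rintro x ⟨h1, h2, h3⟩
    refine ⟨h1, ?_⟩
    show |Real.log (e.σ x / e.τ x)| ≤ 1
    rw [abs_of_nonneg h2]
    exact h3.le
  -- the ideals
  have hTfin : {I : nonZeroDivisors (Ideal (𝓞 K)) |
      Ideal.absNorm (I : Ideal (𝓞 K)) ≤ N ∧ ClassGroup.mk0 I ∈ H}.Finite :=
    (Ideal.finite_setOfPred_absNorm_le₀ (S := 𝓞 K) N).subset fun I hI => hI.1
  set T : Finset (nonZeroDivisors (Ideal (𝓞 K))) := hTfin.toFinset with hT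
  have hTmem : ∀ I, I ∈ T ↔ Ideal.absNorm (I : Ideal (𝓞 K)) ≤ N ∧ ClassGroup.mk0 I ∈ H := by
    intro I
    rw [hT, Set.Finite.mem_toFinset]
    rfl
  have hTcard : (Nat.card {I : nonZeroDivisors (Ideal (𝓞 K)) //
      Ideal.absNorm (I : Ideal (𝓞 K)) ≤ N ∧ ClassGroup.mk0 I ∈ H}) = T.card := by
    rw [hT]
    exact Nat.card_eq_card_finite_toFinset hTfin
  let UF : ι → nonZeroDivisors (Ideal (𝓞 K)) → Finset K := fun i J => (hUfin i J).toFinset
  have hUF : ∀ i J x, x ∈ UF i J ↔ x ∈ U e (A i : Ideal (𝓞 K)) (J : Ideal (𝓞 K)) := by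
    intro i J x
    exact Set.Finite.mem_toFinset _
  -- the lattice sets
  have hlat : ∀ i, latSet e (A i : Ideal (𝓞 K)) 0 1 N ⊆ (T.biUnion (UF i) : Finset K) := by
    rintro i x ⟨h1, h2, h3, h4, h5, h6⟩
    obtain ⟨J, hJ, hxJ⟩ := exists_XAB e (hA0 i) h1 h2 h5
    have hJ' : J ∈ nonZeroDivisors (Ideal (𝓞 K)) := mem_nonZeroDivisors_of_ne_zero hJ
    rw [Finset.mem_coe, Finset.mem_biUnion]
    refine ⟨⟨J, hJ'⟩, ?_, ?_⟩
    · rw [hTmem]
      constructor
      · have h7 := norm_XAB e hxJ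
        have h8 : (Ideal.absNorm J : ℝ) ≤ (N : ℝ) := by rw [h7]; exact h6
        exact_mod_cast h8
      · have h9 : ClassGroup.mk0 (⟨J, hJ'⟩ : nonZeroDivisors (Ideal (𝓞 K))) =
            ClassGroup.mk0 (A i) := class_XAB e (J := ⟨J, hJ'⟩) hxJ
        rw [h9]
        exact hH i
    · rw [hUF]
      exact ⟨hxJ, h3, h4⟩
  have hlatfin : ∀ i, (latSet e (A i : Ideal (𝓞 K)) 0 1 N).Finite := fun i =>
    (Finset.finite_toSet _).subset (hlat i)
  have hlatcard : ∀ i, ((latSet e (A i : Ideal (𝓞 K)) 0 1 N).ncard : ℝ) ≤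
      ∑ J ∈ T, ((UF i J).card : ℝ) := by
    intro i
    have h1 : (latSet e (A i : Ideal (𝓞 K)) 0 1 N).ncard ≤ (T.biUnion (UF i)).card := by
      rw [← Set.ncard_coe_finset]
      exact Set.ncard_le_ncard (hlat i) (Finset.finite_toSet _)
    have h2 : (T.biUnion (UF i)).card ≤ ∑ J ∈ T, (UF i J).card := Finset.card_biUnion_le
    have h3 := h1.trans h2
    calc ((latSet e (A i : Ideal (𝓞 K)) 0 1 N).ncard : ℝ) ≤ ((∑ J ∈ T, (UF i J).card : ℕ) : ℝ) := by
          exact_mod_cast h3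
      _ = ∑ J ∈ T, ((UF i J).card : ℝ) := by push_cast; rfl
  -- the pair counts
  have hpair : ∀ i j, ∑ J ∈ T, ((UF i J).card : ℝ) * ((UF j J).card : ℝ) ≤
      Vij e (A i : Ideal (𝓞 K)) (A j : Ideal (𝓞 K)) N := by
    intro i j
    have hΔfin := hKF K D hD hdeg hdisc e (A i) (A j) (hA0 i) (hA0 j)
    set Δ : Finset K := hΔfin.toFinset with hΔ
    have hΔmem : ∀ x, x ∈ Δ ↔ x ∈ XAB e (A i : Ideal (𝓞 K)) (A j : Ideal (𝓞 K)) ∧
        |Real.log (e.σ x / e.τ x)| ≤ 1 := by
      intro x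
      rw [hΔ, Set.Finite.mem_toFinset]
      rfl
    let L : K → Set K := fun x => latSet e (A j : Ideal (𝓞 K))
      (max 0 (-(Real.log (e.σ x / e.τ x)))) (min 1 (1 - Real.log (e.σ x / e.τ x))) N
    have hLfin : ∀ x, (L x).Finite := by
      intro x
      refine (hlatfin j).subset ?_
      rintro y ⟨h1, h2, h3, h4, h5, h6⟩
      exact ⟨h1, h2, (le_max_left _ _).trans h3, h4.trans_le (min_le_left _ _), h5, h6⟩
    have hV : Vij e (A i : Ideal (𝓞 K)) (A j : Ideal (𝓞 K)) N = ∑ x ∈ Δ, ((L x).ncard : ℝ) := by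
      unfold Vij
      refine finsum_mem_eq_sum_of_subset _ ?_ ?_
      · rintro x ⟨hx1, hx2⟩
        rw [Finset.mem_coe, hΔmem]
        refine ⟨hx1, ?_⟩
        by_contra hcon
        apply hx2
        have hempty : L x = ∅ := by
          rw [Set.eq_empty_iff_forall_notMem]
          rintro y ⟨h1, h2, h3, h4, h5, h6⟩
          have h7 : 0 ≤ Real.log (e.σ y / e.τ y) := (le_max_left _ _).trans h3
          have h8 : -(Real.log (e.σ x / e.τ x)) ≤ Real.log (e.σ y / e.τ y) :=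
            (le_max_right _ _).trans h3
          have h9 : Real.log (e.σ y / e.τ y) < 1 := h4.trans_le (min_le_left _ _)
          have h10 : Real.log (e.σ y / e.τ y) < 1 - Real.log (e.σ x / e.τ x) :=
            h4.trans_le (min_le_right _ _)
          apply hcon
          rw [abs_le]
          constructor <;> linarith
        show ((L x).ncard : ℝ) = 0
        rw [hempty, Set.ncard_empty, Nat.cast_zero]
      · intro x hx
        exact ((hΔmem x).1 (Finset.mem_coe.1 hx)).1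
    rw [hV]
    let LF : K → Finset K := fun x => (hLfin x).toFinset
    have hLF : ∀ x, (LF x).card = (L x).ncard := fun x =>
      (Set.ncard_eq_toFinset_card _ (hLfin x)).symm
    have hcard : (T.sigma fun J => UF i J ×ˢ UF j J).card ≤ (Δ.sigma LF).card := by
      refine Finset.card_le_card_of_injOn
        (fun p => (⟨p.2.1 / p.2.2, p.2.2⟩ : Σ _ : K, K)) ?_ ?_
      · rintro ⟨J, x, y⟩ hp
        rw [Finset.mem_coe, Finset.mem_sigma] at hp
        obtain ⟨hJ, hxy⟩ := hp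
        simp only [Finset.mem_product, hUF] at hxy
        obtain ⟨hx, hy⟩ := hxy
        rw [hTmem] at hJ
        have hld := log_div e hx.1.1 hx.1.2.1 hy.1.1 hy.1.2.1
        have hxd := XAB_div e hx.1 hy.1
        simp only at hJ
        rw [Finset.mem_coe, Finset.mem_sigma]
        constructor
        · show x / y ∈ Δ
          rw [hΔmem]
          refine ⟨hxd, ?_⟩
          rw [hld, abs_le]
          have h1 := hx.2.1
          have h2 := hx.2.2
          have h3 := hy.2.1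
          have h4 := hy.2.2
          constructor <;> linarith
        · show y ∈ LF (x / y)
          rw [Set.Finite.mem_toFinset]
          have h1 := hx.2.1
          have h2 := hx.2.2
          have h3 := hy.2.1
          have h4 := hy.2.2
          refine ⟨hy.1.1, hy.1.2.1, ?_, ?_, mem_inv_of_XAB e (hA0 j) hy.1, ?_⟩
          · rw [hld]
            refine max_le h3 ?_
            linarith
          · rw [hld]
            refine lt_min h4 ?_
            linarith
          · rw [← norm_XAB e hy.1]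
            exact_mod_cast hJ.1
      · rintro ⟨J, x, y⟩ hp ⟨J', x', y'⟩ hp' heq
        rw [Finset.mem_coe, Finset.mem_sigma] at hp hp'
        obtain ⟨hJ, hxy⟩ := hp
        obtain ⟨hJ', hxy'⟩ := hp'
        simp only [Finset.mem_product, hUF] at hxy hxy'
        simp only [Sigma.mk.injEq, heq_eq_eq] at heq
        obtain ⟨h1, h2⟩ := heq
        subst h2
        have hy0 := ne_zero_of_pos e hxy.2.1.1
        have h3 : x = x' := by
          have := congrArg (fun z => z * y) h1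
          simpa [div_mul_cancel₀ _ hy0] using this
        subst h3
        have h4 : (J : Ideal (𝓞 K)) = (J' : Ideal (𝓞 K)) := XAB_unique e hxy.2.1 hxy'.2.1
        have h5 : J = J' := Subtype.ext h4
        subst h5
        rfl
    rw [Finset.card_sigma, Finset.card_sigma] at hcard
    simp only [Finset.card_product] at hcard
    calc ∑ J ∈ T, ((UF i J).card : ℝ) * ((UF j J).card : ℝ)
        = ((∑ J ∈ T, (UF i J).card * (UF j J).card : ℕ) : ℝ) := by push_cast; rfl
      _ ≤ ((∑ x ∈ Δ, (LF x).card : ℕ) : ℝ) := by exact_mod_cast hcard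
      _ = ∑ x ∈ Δ, ((L x).ncard : ℝ) := by
          push_cast
          exact Finset.sum_congr rfl fun x _ => by rw [hLF]
  -- Cauchy-Schwarz
  have hsum0 : 0 ≤ ∑ i, w i * ((latSet e (A i : Ideal (𝓞 K)) 0 1 N).ncard : ℝ) :=
    Finset.sum_nonneg fun i _ => mul_nonneg (hw i) (Nat.cast_nonneg _)
  have hstep1 : ∑ i, w i * ((latSet e (A i : Ideal (𝓞 K)) 0 1 N).ncard : ℝ) ≤
      ∑ J ∈ T, ∑ i, w i * ((UF i J).card : ℝ) := by
    rw [Finset.sum_comm]
    refine Finset.sum_le_sum fun i _ => ?_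
    rw [← Finset.mul_sum]
    exact mul_le_mul_of_nonneg_left (hlatcard i) (hw i)
  calc (∑ i, w i * ((latSet e (A i : Ideal (𝓞 K)) 0 1 N).ncard : ℝ)) ^ 2
      ≤ (∑ J ∈ T, ∑ i, w i * ((UF i J).card : ℝ)) ^ 2 := pow_le_pow_left₀ hsum0 hstep1 2
    _ ≤ (T.card : ℝ) * ∑ J ∈ T, (∑ i, w i * ((UF i J).card : ℝ)) ^ 2 := sq_sum_le_card_mul_sum_sq
    _ = (T.card : ℝ) * ∑ i, ∑ j, w i * w j *
          ∑ J ∈ T, ((UF i J).card : ℝ) * ((UF j J).card : ℝ) := by
        congr 1
        have h1 : ∀ J, (∑ i, w i * ((UF i J).card : ℝ)) ^ 2 =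
            ∑ i, ∑ j, w i * w j * (((UF i J).card : ℝ) * ((UF j J).card : ℝ)) := by
          intro J
          rw [sq, Finset.sum_mul_sum]
          refine Finset.sum_congr rfl fun i _ => Finset.sum_congr rfl fun j _ => ?_
          ring
        rw [Finset.sum_congr rfl fun J _ => h1 J, Finset.sum_comm]
        refine Finset.sum_congr rfl fun i _ => ?_
        rw [Finset.sum_comm]
        refine Finset.sum_congr rfl fun j _ => ?_
        rw [Finset.mul_sum]
    _ ≤ (T.card : ℝ) * ∑ i, ∑ j, w i * w j *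
          Vij e (A i : Ideal (𝓞 K)) (A j : Ideal (𝓞 K)) N := by
        refine mul_le_mul_of_nonneg_left ?_ (Nat.cast_nonneg _)
        refine Finset.sum_le_sum fun i _ => Finset.sum_le_sum fun j _ => ?_
        exact mul_le_mul_of_nonneg_left (hpair i j) (mul_nonneg (hw i) (hw j))
    _ = _ := by rw [hTcard]

end Pool.Agent.H38R2.CG
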