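import Pool.Agent.H38R2.CG.Stubs

/-!
# Decomposition of primes in a real quadratic field
-/

set_option autoImplicit false

namespace Pool.Agent.H38R2.CG

open Finset Filter NumberField
open scoped Classical

namespace SPLh

/-- integral coordinates with respect to the basis `1, w`, `w^2 = D w - n` -/
structure Co (K : Type) [Field K] [NumberField K] (D n : ℤ) where
  A : 𝓞 K → ℤ
  B : 𝓞 K → ℤ
  w : 𝓞 K
  addA : ∀ x y, A (x + y) = A x + A y
  addB : ∀ x y, B (x + y) = B x + B y
  mulA : ∀ x y, A (x * y) = A x * A y - n * (B x * B y)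
  mulB : ∀ x y, B (x * y) = A x * B y + A y * B x + D * (B x * B y)
  intA : ∀ m : ℤ, A (m : 𝓞 K) = m
  intB : ∀ m : ℤ, B (m : 𝓞 K) = 0
  Aw : A w = 0
  Bw : B w = 1
  eq : ∀ x : 𝓞 K, x = (A x : 𝓞 K) + (B x : 𝓞 K) * w

lemma exists_co {K : Type} [Field K] [NumberField K] {D : ℕ} (hD : 0 < D) (e : Emb K D) (n : ℤ)
    (hn : 4 * n = (D : ℤ) ^ 2 - D) : Nonempty (Co K D n) := by
  have hD0 : (0 : ℝ) < D := by exact_mod_cast hD
  have hs : √(D : ℝ) ≠ 0 := (Real.sqrt_pos.2 hD0).ne'
  have hss : √(D : ℝ) * √(D : ℝ) = D := Real.mul_self_sqrt hD0.le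
  choose u v h2 hσ hτ using e.int1
  choose A hA using h2
  have hu : ∀ x, (u x : ℝ) = e.σ (x : K) + e.τ (x : K) := by
    intro x; rw [hσ, hτ]; ring
  have hv : ∀ x, (v x : ℝ) * √(D : ℝ) = e.σ (x : K) - e.τ (x : K) := by
    intro x; rw [hσ, hτ]; ring
  have uniq : ∀ (x : 𝓞 K) (a b : ℤ), e.σ (x : K) = (a + b * √(D : ℝ)) / 2 →
      e.τ (x : K) = (a - b * √(D : ℝ)) / 2 → u x = a ∧ v x = b := by
    intro x a b h1 h2
    constructor
    · have : (u x : ℝ) = a := by rw [hu, h1, h2]; ring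
      exact_mod_cast this
    · have : (v x : ℝ) = b := by
        apply mul_right_cancel₀ hs
        rw [hv, h1, h2]; ring
      exact_mod_cast this
  have huadd : ∀ x y, u (x + y) = u x + u y := by
    intro x y
    have : (u (x + y) : ℝ) = u x + u y := by
      rw [hu, hu, hu]; push_cast; rw [map_add, map_add]; ring
    exact_mod_cast this
  have hvadd : ∀ x y, v (x + y) = v x + v y := by
    intro x y
    have : (v (x + y) : ℝ) = v x + v y := by
      apply mul_right_cancel₀ hs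
      rw [add_mul, hv, hv, hv]; push_cast; rw [map_add, map_add]; ring
    exact_mod_cast this
  have humul : ∀ x y, 2 * u (x * y) = u x * u y + D * (v x * v y) := by
    intro x y
    have : 2 * (u (x * y) : ℝ) = u x * u y + D * (v x * v y) := by
      have h1 := hu (x * y)
      push_cast at h1
      rw [map_mul, map_mul, hσ, hσ, hτ, hτ] at h1
      rw [h1]
      linear_combination ((v x : ℝ) * v y) * hss
    exact_mod_cast this
  have hvmul : ∀ x y, 2 * v (x * y) = u x * v y + v x * u y := by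
    intro x y
    have : 2 * (v (x * y) : ℝ) = u x * v y + v x * u y := by
      apply mul_right_cancel₀ hs
      have h1 := hv (x * y)
      push_cast at h1
      rw [map_mul, map_mul, hσ, hσ, hτ, hτ] at h1
      rw [mul_assoc, h1]
      ring
    exact_mod_cast this
  have hcast : ∀ m : ℤ, ((m : 𝓞 K) : K) = (m : K) := fun m => map_intCast (algebraMap (𝓞 K) K) m
  have hint : ∀ m : ℤ, u (m : 𝓞 K) = 2 * m ∧ v (m : 𝓞 K) = 0 := by
    intro m
    apply uniq
    · rw [hcast, map_intCast]; push_cast; ring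
    · rw [hcast, map_intCast]; push_cast; ring
  obtain ⟨w, hw1, hw2⟩ := e.int2 D 1 (by simp)
  have hw := uniq w D 1 hw1 hw2
  refine ⟨⟨A, v, w, ?_, hvadd, ?_, ?_, ?_, fun m => (hint m).2, ?_, hw.2, ?_⟩⟩
  · intro x y
    have a1 := hA x; have a2 := hA y; have a3 := hA (x + y)
    rw [huadd, hvadd] at a3
    linarith
  · intro x y
    have a1 := hA x; have a2 := hA y; have a3 := hA (x * y)
    have b1 := humul x y
    have b2 := hvmul x y
    have e1 : u x = 2 * A x + D * v x := by linarith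
    have e2 : u y = 2 * A y + D * v y := by linarith
    rw [e1, e2] at b1 b2
    have : 4 * A (x * y) = 4 * (A x * A y - n * (v x * v y)) := by
      have : 4 * A (x * y) = 2 * u (x * y) - D * (2 * v (x * y)) := by linarith
      rw [this, b1, b2]
      linear_combination (v x * v y) * hn
    linarith
  · intro x y
    have a1 := hA x; have a2 := hA y
    have b2 := hvmul x y
    have e1 : u x = 2 * A x + D * v x := by linarith
    have e2 : u y = 2 * A y + D * v y := by linarith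
    rw [e1, e2] at b2
    linarith
  · intro m
    have a1 := hA (m : 𝓞 K)
    rw [(hint m).1, (hint m).2] at a1
    linarith
  · have a1 := hA w
    rw [hw.1, hw.2] at a1
    linarith
  · intro x
    apply RingOfIntegers.ext
    apply e.σ.injective
    have e1 : (((A x : 𝓞 K) + (v x : 𝓞 K) * w : 𝓞 K) : K) = (A x : K) + (v x : K) * (w : K) := by
      rw [← hcast, ← hcast]; rfl
    rw [e1, map_add, map_mul, map_intCast, map_intCast, hw1, hσ]
    have a1 := hA x
    have : (u x : ℝ) = 2 * A x + D * v x := by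
      have : u x = 2 * A x + D * v x := by linarith
      exact_mod_cast this
    rw [this]
    push_cast
    ring

variable {K : Type} [Field K] [NumberField K] {D n : ℤ}

/-- reduction modulo a prime of degree one -/
def red (C : Co K D n) (p : ℕ) (c : ZMod p) (hc : c ^ 2 - D * c + n = 0) : 𝓞 K →+* ZMod p where
  toFun x := (C.A x : ZMod p) + (C.B x : ZMod p) * c
  map_zero' := by
    have h1 := C.intA 0
    have h2 := C.intB 0
    simp only [Int.cast_zero] at h1 h2
    rw [h1, h2]; simp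
  map_one' := by
    have h1 := C.intA 1
    have h2 := C.intB 1
    simp only [Int.cast_one] at h1 h2
    rw [h1, h2]; simp
  map_add' x y := by
    rw [C.addA, C.addB]; push_cast; ring
  map_mul' x y := by
    rw [C.mulA, C.mulB]; push_cast
    linear_combination (-((C.B x : ZMod p) * (C.B y : ZMod p))) * hc

lemma red_apply (C : Co K D n) (p : ℕ) (c : ZMod p) (hc : c ^ 2 - D * c + n = 0) (x : 𝓞 K) :
    red C p c hc x = (C.A x : ZMod p) + (C.B x : ZMod p) * c := rfl

lemma red_surj (C : Co K D n) (p : ℕ) (c : ZMod p) (hc : c ^ 2 - D * c + n = 0) :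
    Function.Surjective (red C p c hc) := by
  intro y
  obtain ⟨m, rfl⟩ := ZMod.intCast_surjective y
  exact ⟨(m : 𝓞 K), by rw [map_intCast]⟩

lemma red_norm (C : Co K D n) (p : ℕ) (c : ZMod p) (hc : c ^ 2 - D * c + n = 0) :
    Ideal.absNorm (RingHom.ker (red C p c hc)) = p := by
  rw [Ideal.absNorm_apply, Submodule.cardQuot_apply]
  rw [Nat.card_congr (RingHom.quotientKerEquivOfSurjective (red_surj C p c hc)).toEquiv]
  exact Nat.card_zmod p

lemma mem_p (C : Co K D n) (p : ℕ) (x : 𝓞 K) (h1 : (C.A x : ZMod p) = 0) (h2 : (C.B x : ZMod p) = 0) :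
    x ∈ Ideal.span {(p : 𝓞 K)} := by
  rw [ZMod.intCast_zmod_eq_zero_iff_dvd] at h1 h2
  obtain ⟨a, ha⟩ := h1
  obtain ⟨b, hb⟩ := h2
  rw [Ideal.mem_span_singleton]
  refine ⟨(a : 𝓞 K) + (b : 𝓞 K) * C.w, ?_⟩
  rw [C.eq x, ha, hb]
  push_cast
  ring

lemma eq_p (h2 : Module.finrank ℚ K = 2) (p : ℕ) (hp : p.Prime) (I : Ideal (𝓞 K))
    (hI : I ≤ Ideal.span {(p : 𝓞 K)}) (hn : Ideal.absNorm I = p ^ 2) :
    I = Ideal.span {(p : 𝓞 K)} := by
  have hN : Ideal.absNorm (Ideal.span {(p : 𝓞 K)}) = p ^ 2 := by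
    rw [Ideal.absNorm_span_singleton]
    have : (p : 𝓞 K) = algebraMap ℤ (𝓞 K) (p : ℤ) := by simp
    rw [this, Algebra.norm_algebraMap, RingOfIntegers.rank, h2, Int.natAbs_pow, Int.natAbs_natCast]
  obtain ⟨J, hJ⟩ := Ideal.dvd_iff_le.2 hI
  rw [hJ, map_mul, hN] at hn
  have hp2 : 0 < p ^ 2 := pow_pos hp.pos 2
  have hJ1 : Ideal.absNorm J = 1 := by
    have : p ^ 2 * Ideal.absNorm J = p ^ 2 * 1 := by rw [hn, mul_one]
    exact Nat.eq_of_mul_eq_mul_left hp2 this
  rw [Ideal.absNorm_eq_one_iff] at hJ1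
  rw [hJ, hJ1, Ideal.mul_top]

/-- the norm form -/
def Nf (C : Co K D n) (x : 𝓞 K) : ℤ := C.A x ^ 2 + D * (C.A x * C.B x) + n * C.B x ^ 2

lemma Nf_mul (C : Co K D n) (x y : 𝓞 K) : Nf C (x * y) = Nf C x * Nf C y := by
  unfold Nf
  rw [C.mulA, C.mulB]
  ring

lemma split_case (C : Co K D n) (h2 : Module.finrank ℚ K = 2) (p : ℕ) (hp : p.Prime)
    (c c' : ZMod p) (hc : c ^ 2 - D * c + n = 0) (hc' : c' ^ 2 - D * c' + n = 0) (hne : c ≠ c') :
    ∃ P P' : Ideal (𝓞 K), P ≠ P' ∧ P.IsPrime ∧ P'.IsPrime ∧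
    Ideal.absNorm P = p ∧ Ideal.absNorm P' = p ∧ P * P' = Ideal.span {(p : 𝓞 K)} := by
  haveI : Fact p.Prime := ⟨hp⟩
  refine ⟨RingHom.ker (red C p c hc), RingHom.ker (red C p c' hc'), ?_, RingHom.ker_isPrime _,
    RingHom.ker_isPrime _, red_norm C p c hc, red_norm C p c' hc', ?_⟩
  · intro h
    obtain ⟨m, hm⟩ := ZMod.intCast_surjective c
    have h1 : C.w - (m : 𝓞 K) ∈ RingHom.ker (red C p c hc) := by
      rw [RingHom.mem_ker, map_sub, map_intCast, red_apply, C.Aw, C.Bw, hm]
      simp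
    rw [h, RingHom.mem_ker, map_sub, map_intCast, red_apply, C.Aw, C.Bw, hm] at h1
    simp only [Int.cast_zero, Int.cast_one, one_mul, zero_add] at h1
    exact hne (sub_eq_zero.1 h1).symm
  · apply eq_p h2 p hp
    · intro x hx
      have h1 := Ideal.mul_le_inf hx
      obtain ⟨h3, h4⟩ := Ideal.mem_inf.1 h1
      rw [RingHom.mem_ker, red_apply] at h3 h4
      have hB : (C.B x : ZMod p) = 0 := by
        have : (C.B x : ZMod p) * (c - c') = 0 := by linear_combination h3 - h4
        exact (mul_eq_zero.1 this).resolve_right (sub_ne_zero.2 hne)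
      rw [hB, zero_mul, add_zero] at h3
      exact mem_p C p x h3 hB
    · rw [map_mul, red_norm, red_norm, pow_two]

lemma ram_case (C : Co K D n) (h2 : Module.finrank ℚ K = 2) (p : ℕ) (hp : p.Prime)
    (c : ZMod p) (h3 : 2 * c = D) (h4 : c ^ 2 = n) :
    ∃ P : Ideal (𝓞 K), P.IsPrime ∧ Ideal.absNorm P = p ∧ P ^ 2 = Ideal.span {(p : 𝓞 K)} := by
  haveI : Fact p.Prime := ⟨hp⟩
  have hc : c ^ 2 - D * c + n = 0 := by
    rw [← h3, ← h4]; ring
  refine ⟨RingHom.ker (red C p c hc), RingHom.ker_isPrime _, red_norm C p c hc, ?_⟩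
  apply eq_p h2 p hp
  · rw [pow_two, Ideal.mul_le]
    intro x hx y hy
    rw [RingHom.mem_ker, red_apply] at hx hy
    have hx' : (C.A x : ZMod p) = -((C.B x : ZMod p) * c) := by linear_combination hx
    have hy' : (C.A y : ZMod p) = -((C.B y : ZMod p) * c) := by linear_combination hy
    apply mem_p C p
    · rw [C.mulA]; push_cast
      rw [hx', hy', ← h4]; ring
    · rw [C.mulB]; push_cast
      rw [hx', hy', ← h3]; ring
  · rw [map_pow, red_norm]

lemma inert_case (C : Co K D n) (p : ℕ) (hp : p.Prime)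
    (h : ∀ a b : ℤ, (p : ℤ) ∣ a ^ 2 + D * (a * b) + n * b ^ 2 → (p : ℤ) ∣ a ∧ (p : ℤ) ∣ b) :
    (Ideal.span {(p : 𝓞 K)}).IsPrime := by
  have hp0 : (p : 𝓞 K) ≠ 0 := by exact_mod_cast hp.ne_zero
  have hNp : Nf C (p : 𝓞 K) = (p : ℤ) ^ 2 := by
    have h1 := C.intA (p : ℤ)
    have h2 := C.intB (p : ℤ)
    rw [Int.cast_natCast] at h1 h2
    unfold Nf
    rw [h1, h2]; ring
  have hN1 : Nf C 1 = 1 := by
    have h1 := C.intA 1
    have h2 := C.intB 1
    rw [Int.cast_one] at h1 h2
    unfold Nf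
    rw [h1, h2]; ring
  have hpp : Prime (p : ℤ) := Nat.prime_iff_prime_int.1 hp
  rw [Ideal.span_singleton_prime hp0]
  refine ⟨hp0, ?_, ?_⟩
  · intro hu
    obtain ⟨y, hy⟩ := hu.exists_right_inv
    have h1 := Nf_mul C (p : 𝓞 K) y
    rw [hy, hN1, hNp] at h1
    exact hpp.not_unit (isUnit_of_dvd_one ⟨(p : ℤ) * Nf C y, by rw [h1]; ring⟩)
  · intro x y hxy
    obtain ⟨z, hz⟩ := hxy
    have h1 : (p : ℤ) ∣ Nf C x * Nf C y := by
      rw [← Nf_mul, hz, Nf_mul, hNp]
      exact ⟨(p : ℤ) * Nf C z, by ring⟩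
    have key : ∀ t : 𝓞 K, (p : ℤ) ∣ Nf C t → (p : 𝓞 K) ∣ t := by
      intro t ht
      obtain ⟨h3, h4⟩ := h _ _ ht
      rw [← Ideal.mem_span_singleton]
      apply mem_p C p t
      · rw [ZMod.intCast_zmod_eq_zero_iff_dvd]; exact h3
      · rw [ZMod.intCast_zmod_eq_zero_iff_dvd]; exact h4
    rcases hpp.dvd_or_dvd h1 with h3 | h3
    · exact Or.inl (key x h3)
    · exact Or.inr (key y h3)

lemma chi_odd (D : ℤ) (p : ℕ) [Fact p.Prime] (h2 : p ≠ 2) : chi D p = legendreSym p D := by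
  have hp : p.Prime := Fact.out
  have hv : padicValNat 2 p = 0 := by
    apply padicValNat.eq_zero_of_not_dvd
    intro h
    exact h2 ((Nat.prime_dvd_prime_iff_eq Nat.prime_two hp).1 h).symm
  unfold chi
  rw [hv, pow_zero, pow_zero, Nat.div_one, one_mul, jacobiSym.legendreSym.to_jacobiSym]

lemma chi_two (D : ℤ) : chi D 2 = chi2 D := by
  unfold chi
  have hv : padicValNat 2 2 = 1 := padicValNat_self
  rw [hv, pow_one, pow_one]
  norm_num

end SPLh

open SPLh

theorem T_SPL : P_N0 → P_SPL := by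
  intro hN0 K _ _ D hD h2 hdisc p hp
  obtain ⟨e⟩ := hN0 K D hD h2 hdisc
  have hD4 : D % 4 = 0 ∨ D % 4 = 1 := by
    rcases hD.2 with ⟨h, -⟩ | ⟨m, h, -, -⟩
    · exact Or.inr h
    · left; omega
  have hD4' : (D : ℤ) % 4 = 0 ∨ (D : ℤ) % 4 = 1 := by omega
  -- the constant term
  obtain ⟨n, hn⟩ : ∃ n : ℤ, 4 * n = (D : ℤ) ^ 2 - D := by
    rcases hD4' with h | h
    · obtain ⟨k, hk⟩ : ∃ k, (D : ℤ) = 4 * k := ⟨(D : ℤ) / 4, by omega⟩
      exact ⟨4 * k ^ 2 - k, by rw [hk]; ring⟩
    · obtain ⟨k, hk⟩ : ∃ k, (D : ℤ) = 4 * k + 1 := ⟨(D : ℤ) / 4, by omega⟩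
      exact ⟨4 * k ^ 2 + k, by rw [hk]; ring⟩
  obtain ⟨C⟩ := exists_co (by have := hD.1; omega) e n hn
  by_cases hp2 : p = 2
  · subst hp2
    rw [chi_two]
    -- parity of `n`
    have h8 : (D : ℤ) % 8 = 1 ∨ (D : ℤ) % 8 = 5 ∨ (D : ℤ) % 4 = 0 := by omega
    refine ⟨?_, ?_, ?_⟩
    · intro h
      have h1 : (D : ℤ) % 8 = 1 := by
        unfold chi2 at h
        by_contra hc
        rw [if_neg hc] at h
        split_ifs at h
        · norm_num at h
      obtain ⟨k, hk⟩ : ∃ k, (D : ℤ) = 8 * k + 1 := ⟨(D : ℤ) / 8, by omega⟩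
      have hn2 : n = 2 * (8 * k ^ 2 + k) := by
        rw [hk] at hn
        linarith
      have hnz : ((n : ℤ) : ZMod 2) = 0 := by
        rw [ZMod.intCast_zmod_eq_zero_iff_dvd]; exact ⟨_, by rw [hn2]; rfl⟩
      have hDz : (((D : ℕ) : ℤ) : ZMod 2) = 1 := by
        have : (((D : ℕ) : ℤ) - 1 : ℤ) = 2 * (4 * k) := by rw [hk]; ring
        have h3 : ((((D : ℕ) : ℤ) - 1 : ℤ) : ZMod 2) = 0 := by
          rw [ZMod.intCast_zmod_eq_zero_iff_dvd]; exact ⟨_, by rw [this]; rfl⟩
        rw [Int.cast_sub, Int.cast_one] at h3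
        exact sub_eq_zero.1 h3
      apply split_case C h2 2 hp 0 1
      · rw [hnz]; simp
      · rw [hnz, hDz]; simp
      · decide
    · intro h
      have h1 : (D : ℤ) % 4 = 0 := by
        unfold chi2 at h
        rcases h8 with h3 | h3 | h3
        · rw [if_pos h3] at h; exact absurd h one_ne_zero
        · rw [if_neg (by omega), if_pos h3] at h
          norm_num at h
        · exact h3
      obtain ⟨k, hk⟩ : ∃ k, (D : ℤ) = 4 * k := ⟨(D : ℤ) / 4, by omega⟩
      have hn2 : n = 4 * k ^ 2 - k := by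
        rw [hk] at hn
        linarith
      apply ram_case C h2 2 hp (k : ZMod 2)
      · rw [hk]
        push_cast
        have : (4 : ZMod 2) = 0 := by decide
        have h22 : (2 : ZMod 2) = 0 := by decide
        rw [this, h22, zero_mul]
      · rw [hn2]
        push_cast
        have : (4 : ZMod 2) = 0 := by decide
        rw [this]
        generalize ((k : ℤ) : ZMod 2) = t
        revert t
        decide
    · intro h
      have h1 : (D : ℤ) % 8 = 5 := by
        unfold chi2 at h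
        rcases h8 with h3 | h3 | h3
        · rw [if_pos h3] at h; norm_num at h
        · exact h3
        · rw [if_neg (by omega), if_neg (by omega)] at h
          norm_num at h
      obtain ⟨k, hk⟩ : ∃ k, (D : ℤ) = 8 * k + 5 := ⟨(D : ℤ) / 8, by omega⟩
      have hn2 : n = 2 * (8 * k ^ 2 + 9 * k + 2) + 1 := by
        rw [hk] at hn
        linarith
      apply inert_case C 2 hp
      intro a b hab
      have hnz : ((n : ℤ) : ZMod 2) = 1 := by
        rw [hn2]; push_cast
        have h22 : (2 : ZMod 2) = 0 := by decide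
        rw [h22]; ring
      have hDz : (((D : ℕ) : ℤ) : ZMod 2) = 1 := by
        rw [hk]; push_cast
        have h22 : (8 : ZMod 2) = 0 := by decide
        rw [h22, zero_mul, zero_add]
        decide
      have h3 : ((a ^ 2 + (D : ℤ) * (a * b) + n * b ^ 2 : ℤ) : ZMod 2) = 0 :=
        (ZMod.intCast_zmod_eq_zero_iff_dvd _ 2).2 hab
      rw [Int.cast_add, Int.cast_add, Int.cast_mul, Int.cast_mul n, hnz, hDz] at h3
      push_cast at h3
      have h4 : ∀ x y : ZMod 2, x ^ 2 + 1 * (x * y) + 1 * y ^ 2 = 0 → x = 0 ∧ y = 0 := by decide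
      obtain ⟨h5, h6⟩ := h4 _ _ h3
      exact ⟨(ZMod.intCast_zmod_eq_zero_iff_dvd _ 2).1 h5, (ZMod.intCast_zmod_eq_zero_iff_dvd _ 2).1 h6⟩
  · haveI : Fact p.Prime := ⟨hp⟩
    rw [chi_odd _ p hp2]
    have h20 : (2 : ZMod p) ≠ 0 := by
      intro h
      have : ((2 : ℕ) : ZMod p) = 0 := by exact_mod_cast h
      rw [ZMod.natCast_eq_zero_iff] at this
      exact hp2 ((Nat.prime_dvd_prime_iff_eq hp Nat.prime_two).1 this)
    have h40 : (4 : ZMod p) ≠ 0 := by
      have : (4 : ZMod p) = 2 * 2 := by norm_num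
      rw [this]; exact mul_ne_zero h20 h20
    have hnz : (4 : ZMod p) * (n : ZMod p) = ((D : ℤ) : ZMod p) ^ 2 - ((D : ℤ) : ZMod p) := by
      have := congrArg (fun z : ℤ => (z : ZMod p)) hn
      push_cast at this
      push_cast
      exact this
    refine ⟨?_, ?_, ?_⟩
    · intro h
      have hD0 : (((D : ℕ) : ℤ) : ZMod p) ≠ 0 := by
        intro h0
        rw [(legendreSym.eq_zero_iff p _).2 h0] at h
        norm_num at h
      obtain ⟨s, hs⟩ := (legendreSym.eq_one_iff p hD0).1 h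
      have hs0 : s ≠ 0 := by
        rintro rfl
        rw [mul_zero] at hs
        exact hD0 hs
      apply split_case C h2 p hp ((((D : ℤ) : ZMod p) + s) / 2) ((((D : ℤ) : ZMod p) - s) / 2)
      · apply mul_left_cancel₀ h40
        rw [mul_zero]
        have e1 : (4 : ZMod p) * ((((((D : ℤ) : ZMod p) + s) / 2) ^ 2 - ((D : ℤ) : ZMod p) *
          ((((D : ℤ) : ZMod p) + s) / 2) + (n : ZMod p))) =
          (((D : ℤ) : ZMod p) + s) ^ 2 - 2 * ((D : ℤ) : ZMod p) * (((D : ℤ) : ZMod p) + s) +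
            4 * (n : ZMod p) := by
          field_simp
          ring
        rw [e1, hnz]
        linear_combination -hs
      · apply mul_left_cancel₀ h40
        rw [mul_zero]
        have e1 : (4 : ZMod p) * ((((((D : ℤ) : ZMod p) - s) / 2) ^ 2 - ((D : ℤ) : ZMod p) *
          ((((D : ℤ) : ZMod p) - s) / 2) + (n : ZMod p))) =
          (((D : ℤ) : ZMod p) - s) ^ 2 - 2 * ((D : ℤ) : ZMod p) * (((D : ℤ) : ZMod p) - s) +
            4 * (n : ZMod p) := by
          field_simp
          ring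
        rw [e1, hnz]
        linear_combination -hs
      · intro h5
        have h6 : (2 : ZMod p) * s = 0 := by
          field_simp at h5
          linear_combination h5
        exact hs0 ((mul_eq_zero.1 h6).resolve_left h20)
    · intro h
      have h0 : (((D : ℕ) : ℤ) : ZMod p) = 0 := (legendreSym.eq_zero_iff p _).1 h
      apply ram_case C h2 p hp 0
      · rw [h0, mul_zero]
      · rw [h0] at hnz
        have : (4 : ZMod p) * (n : ZMod p) = 0 := by rw [hnz]; ring
        rw [(mul_eq_zero.1 this).resolve_left h40]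
        ring
    · intro h
      have hns : ¬ IsSquare ((((D : ℕ) : ℤ) : ZMod p)) := (legendreSym.eq_neg_one_iff p).1 h
      apply inert_case C p hp
      intro a b hab
      have h3 : ((a ^ 2 + (D : ℤ) * (a * b) + n * b ^ 2 : ℤ) : ZMod p) = 0 :=
        (ZMod.intCast_zmod_eq_zero_iff_dvd _ p).2 hab
      rw [Int.cast_add, Int.cast_add, Int.cast_mul, Int.cast_mul n, Int.cast_pow, Int.cast_pow,
        Int.cast_mul a b] at h3
      rw [← ZMod.intCast_zmod_eq_zero_iff_dvd, ← ZMod.intCast_zmod_eq_zero_iff_dvd]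
      generalize (((D : ℕ) : ℤ) : ZMod p) = d at *
      generalize (n : ZMod p) = m at *
      generalize (a : ZMod p) = x at *
      generalize (b : ZMod p) = y at *
      have h4 : (2 * x + d * y) ^ 2 = d * y ^ 2 := by
        linear_combination 4 * h3 - y ^ 2 * hnz
      have hy : y = 0 := by
        by_contra hy
        apply hns
        refine ⟨(2 * x + d * y) / y, ?_⟩
        field_simp
        rw [h4]
      rw [hy] at h4
      have h5 : (2 * x) ^ 2 = 0 := by
        have : (2 * x + d * 0) ^ 2 = (2 * x) ^ 2 := by ring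
        rw [← this, h4]; ring
      have h6 : 2 * x = 0 := by
        exact pow_eq_zero_iff (two_ne_zero) |>.1 h5
      exact ⟨(mul_eq_zero.1 h6).resolve_left h20, hy⟩

end Pool.Agent.H38R2.CG
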