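import Pool.Agent.H38R2.CG.Stubs

set_option autoImplicit false

namespace Pool.Agent.H38R2.CG

open Finset Filter
open scoped Classical

namespace SZh

theorem tendsto_log : Tendsto (fun X : ℕ => Real.log (X : ℝ)) atTop atTop :=
  Real.tendsto_log_atTop.comp tendsto_natCast_atTop_atTop

theorem tendsto_yy : Tendsto (fun X : ℕ => (yy X : ℝ)) atTop atTop := by
  have h1 : Tendsto (fun X : ℕ => (Real.log X) ^ 6 / 4) atTop atTop :=
    ((tendsto_pow_atTop (by norm_num)).comp tendsto_log).atTop_div_const (by norm_num)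
  exact tendsto_natCast_atTop_atTop.comp (tendsto_nat_floor_atTop.comp h1)

theorem ev : ∀ᶠ X : ℕ in atTop, 60 ≤ Real.log (yy X) ∧
    Real.log (yy X) + Real.log 2 ≤ Real.log X / 120 ∧ 1 ≤ Real.log X := by
  have h1 : ∀ᶠ X : ℕ in atTop, 60 ≤ Real.log (yy X) :=
    (Real.tendsto_log_atTop.comp tendsto_yy).eventually_ge_atTop 60
  have h2 : ∀ᶠ X : ℕ in atTop, 1000 ≤ Real.log (X : ℝ) := tendsto_log.eventually_ge_atTop 1000
  have h3 : ∀ᶠ L : ℝ in atTop, Real.log L ≤ (1 / 1440) * L := by
    have h := Real.isLittleO_log_id_atTop.bound (show (0:ℝ) < 1 / 1440 by norm_num)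
    filter_upwards [h, eventually_ge_atTop 1] with L hL hL1
    simp only [id_eq, Real.norm_eq_abs] at hL
    rw [abs_of_nonneg (by linarith : (0:ℝ) ≤ L)] at hL
    exact (le_abs_self _).trans hL
  have h4 := tendsto_log.eventually h3
  filter_upwards [h1, h2, h4] with X a1 a2 a3
  refine ⟨a1, ?_, by linarith⟩
  have hy0 : (0:ℝ) < yy X := by
    by_contra hc
    push Not at hc
    have h0 : (yy X : ℝ) = 0 := le_antisymm hc (Nat.cast_nonneg _)
    rw [h0, Real.log_zero] at a1
    norm_num at a1
  have hL : (0:ℝ) < Real.log X := by linarith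
  have hy : (yy X : ℝ) ≤ (Real.log X) ^ 6 := by
    have h5 : (yy X : ℝ) ≤ (Real.log X) ^ 6 / 4 := Nat.floor_le (by positivity)
    have h6 : 0 ≤ (Real.log X) ^ 6 := by positivity
    linarith
  have h7 : Real.log (yy X) ≤ 6 * Real.log (Real.log X) := by
    have := Real.log_le_log hy0 hy
    rw [Real.log_pow] at this
    exact_mod_cast this
  have h8 : Real.log 2 ≤ 1 := by
    have := Real.log_two_lt_d9
    linarith
  linarith

end SZh

theorem T_SZ : P_SZ := by
  obtain ⟨X0, hX0⟩ := Filter.eventually_atTop.mp SZh.ev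
  refine ⟨X0, fun X hX s hs => ?_⟩
  obtain ⟨h1, h2, h3⟩ := hX0 X hX
  unfold SX PX PP at hs
  rw [Finset.mem_powersetCard] at hs
  obtain ⟨hsub, hcard⟩ := hs
  set L := Real.log (X : ℝ) with hL
  set l := Real.log (yy X : ℝ) with hl
  have hX1 : (0:ℝ) < X := by
    by_contra hc
    push Not at hc
    have h0 : (X : ℝ) = 0 := le_antisymm hc (Nat.cast_nonneg _)
    rw [hL, h0, Real.log_zero] at h3
    norm_num at h3
  have hy0 : (0:ℝ) < yy X := by
    by_contra hc
    push Not at hc
    have h0 : (yy X : ℝ) = 0 := le_antisymm hc (Nat.cast_nonneg _)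
    rw [hl, h0, Real.log_zero] at h1
    norm_num at h1
  have hk1 : 13 / 20 * L / l ≤ kk X := by
    unfold kk
    push_cast
    exact (Nat.lt_floor_add_one _).le
  have hk2 : (kk X : ℝ) ≤ 13 / 20 * L / l + 1 := by
    unfold kk
    push_cast
    have : (⌊(13 / 20 : ℝ) * Real.log X / Real.log (yy X)⌋₊ : ℝ) ≤ 13 / 20 * L / l :=
      Nat.floor_le (by positivity)
    linarith
  have hpr : ∀ p ∈ s, (yy X : ℝ) ≤ p ∧ (p : ℝ) ≤ 2 * yy X := by
    intro p hp
    have := hsub hp
    rw [Finset.mem_filter, Finset.mem_Ioc] at this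
    constructor
    · exact_mod_cast this.1.1.le
    · exact_mod_cast this.1.2
  have hprod : ((prodS s : ℕ) : ℝ) = ∏ p ∈ s, (p : ℝ) := by
    unfold prodS
    push_cast
    rfl
  constructor
  · rw [hprod]
    calc (X : ℝ) ^ (13 / 20 : ℝ) = Real.exp (13 / 20 * L) := by
          rw [Real.rpow_def_of_pos hX1]; congr 1; ring
      _ ≤ Real.exp (kk X * l) := by
          apply Real.exp_le_exp.mpr
          have : 13 / 20 * L = 13 / 20 * L / l * l := by field_simp
          rw [this]
          exact mul_le_mul_of_nonneg_right hk1 (by linarith)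
      _ = (yy X : ℝ) ^ (kk X) := by
          rw [← Real.rpow_natCast, Real.rpow_def_of_pos hy0]; congr 1; ring
      _ = ∏ p ∈ s, (yy X : ℝ) := by rw [Finset.prod_const, hcard]
      _ ≤ ∏ p ∈ s, (p : ℝ) := Finset.prod_le_prod (fun _ _ => hy0.le) (fun p hp => (hpr p hp).1)
  · rw [hprod]
    calc ∏ p ∈ s, (p : ℝ) ≤ ∏ p ∈ s, (2 * yy X : ℝ) :=
          Finset.prod_le_prod (fun p hp => hy0.le.trans (hpr p hp).1) (fun p hp => (hpr p hp).2)
      _ = (2 * yy X : ℝ) ^ (kk X) := by rw [Finset.prod_const, hcard]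
      _ = Real.exp (kk X * (Real.log 2 + l)) := by
          rw [← Real.rpow_natCast, Real.rpow_def_of_pos (by positivity),
            Real.log_mul (by norm_num) hy0.ne']
          congr 1; ring
      _ ≤ Real.exp ((13 / 20 * L / l + 1) * (Real.log 2 + l)) := by
          apply Real.exp_le_exp.mpr
          refine mul_le_mul_of_nonneg_right hk2 ?_
          have := Real.log_pos (show (1:ℝ) < 2 by norm_num)
          linarith
      _ ≤ Real.exp (2 / 3 * L) := by
          apply Real.exp_le_exp.mpr
          have e : (13 / 20 * L / l + 1) * (Real.log 2 + l) =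
              13 / 20 * L + (l + Real.log 2) + 13 / 20 * L / l * Real.log 2 := by
            field_simp
            ring
          rw [e]
          have h5 : 13 / 20 * L / l ≤ 13 / 20 * L / 60 :=
            div_le_div_of_nonneg_left (by positivity) (by norm_num) h1
          have h6 : Real.log 2 ≤ 0.7 := by
            have := Real.log_two_lt_d9
            linarith
          have h7 : 0 ≤ Real.log 2 := (Real.log_pos (by norm_num)).le
          have h8 : 13 / 20 * L / l * Real.log 2 ≤ 13 / 20 * L / 60 * 0.7 :=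
            mul_le_mul h5 h6 h7 (by positivity)
          linarith
      _ = (X : ℝ) ^ (2 / 3 : ℝ) := by
          rw [Real.rpow_def_of_pos hX1]; congr 1; ring

end Pool.Agent.H38R2.CG
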