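import Pool.Agent.H38R2.CG.Stubs

/-!
# TB1: the sum over D for one n
-/

set_option autoImplicit false

namespace Pool.Agent.H38R2.CG.TB1h

open Finset
open scoped Classical

theorem phi_nonneg (t : ℝ) : 0 ≤ phi t := by
  unfold phi
  exact le_max_left _ _

theorem phi_le_one (t : ℝ) : phi t ≤ 1 := by
  unfold phi
  have := abs_nonneg t
  exact max_le (by norm_num) (by linarith)

theorem phi_neg (t : ℝ) : phi (-t) = phi t := by
  unfold phi
  rw [abs_neg]

theorem sum_sym (f : ℤ → ℝ) (N : ℕ) :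
    ∑ v ∈ Finset.Icc (-(N : ℤ)) (N : ℤ), f v =
      f 0 + ∑ v ∈ Finset.Icc 1 N, (f (v : ℤ) + f (-(v : ℤ))) := by
  induction N with
  | zero => simp
  | succ N ih =>
    have h1 : Finset.Icc (-((N + 1 : ℕ) : ℤ)) ((N + 1 : ℕ) : ℤ) =
        insert (-((N + 1 : ℕ) : ℤ)) (insert ((N + 1 : ℕ) : ℤ)
          (Finset.Icc (-(N : ℤ)) (N : ℤ))) := by
      ext x
      simp only [Finset.mem_Icc, Finset.mem_insert]
      push_cast
      omega
    rw [h1, Finset.sum_insert, Finset.sum_insert, ih, Finset.sum_Icc_succ_top (by omega)]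
    · ring
    · simp only [Finset.mem_Icc, not_and, not_le]
      push_cast
      omega
    · simp only [Finset.mem_Icc, Finset.mem_insert, not_or, not_and, not_le]
      push_cast
      constructor
      · omega
      · omega

/-- the summand -/
noncomputable def T (D n u : ℕ) (v : ℤ) : ℝ :=
  if ((u : ℤ) ^ 2 - (D : ℤ) * v ^ 2 = 4 * n) then
      phi (Real.log (((u : ℝ) + v * √(D : ℝ)) / ((u : ℝ) - v * √(D : ℝ)))) else 0

theorem T_nonneg (D n u : ℕ) (v : ℤ) : 0 ≤ T D n u v := by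
  unfold T
  split_ifs
  · exact phi_nonneg _
  · exact le_refl _

theorem T_neg (D n u : ℕ) (v : ℤ) : T D n u (-v) = T D n u v := by
  unfold T
  rw [neg_sq]
  split_ifs
  · rw [← phi_neg, ← Real.log_inv, inv_div]
    push_cast
    congr 3
    · ring
    · ring
  · rfl

theorem T_zero_le (D n u : ℕ) : T D n u 0 ≤ if u ^ 2 = 4 * n then 1 else 0 := by
  unfold T
  by_cases h : u ^ 2 = 4 * n
  · rw [if_pos h]
    split_ifs
    · exact phi_le_one _
    · norm_num
  · rw [if_neg h, if_neg]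
    intro h'
    apply h
    have : ((u ^ 2 : ℕ) : ℤ) = ((4 * n : ℕ) : ℤ) := by
      push_cast
      linarith
    exact_mod_cast this

theorem sum_T_zero (D n N : ℕ) :
    ∑ u ∈ Finset.Icc 1 N, T D n u 0 ≤ if IsSquare n then 1 else 0 := by
  refine (Finset.sum_le_sum (fun u _ => T_zero_le D n u)).trans ?_
  by_cases hn : IsSquare n
  · rw [if_pos hn]
    obtain ⟨w, hw⟩ := hn
    have h1 : ∀ u ∈ Finset.Icc 1 N, (if u ^ 2 = 4 * n then (1 : ℝ) else 0) =
        if u = 2 * w then 1 else 0 := by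
      intro u _
      have : u ^ 2 = 4 * n ↔ u = 2 * w := by
        constructor
        · intro h
          have h2 : u ^ 2 = (2 * w) ^ 2 := by
            rw [h, hw]
            ring
          exact Nat.pow_left_injective (n := 2) (by norm_num) h2
        · intro h
          rw [h, hw]
          ring
      simp only [this]
    rw [Finset.sum_congr rfl h1, Finset.sum_ite_eq']
    split_ifs
    · exact le_refl _
    · norm_num
  · rw [if_neg hn]
    apply le_of_eq
    apply Finset.sum_eq_zero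
    intro u _
    rw [if_neg]
    intro h
    apply hn
    have h2 : 2 ∣ u := by
      have : 2 ∣ u ^ 2 := ⟨2 * n, by omega⟩
      exact Nat.prime_two.dvd_of_dvd_pow this
    obtain ⟨w, hw⟩ := h2
    refine ⟨w, ?_⟩
    subst hw
    nlinarith

theorem T_large (X D n u v : ℕ) (hX : 1 ≤ X) (hn : 1 ≤ n) (hD : X < D)
    (hv : 2 * √((n : ℝ) / X) < v) : T D n u (v : ℤ) = 0 := by
  unfold T
  split_ifs with h
  · have hXr : (1 : ℝ) ≤ X := by exact_mod_cast hX
    have hnr : (1 : ℝ) ≤ n := by exact_mod_cast hn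
    have hDr : (X : ℝ) < D := by exact_mod_cast hD
    have hv0 : (0 : ℝ) < v := lt_of_le_of_lt (by positivity) hv
    have hsq : 4 * ((n : ℝ) / X) < (v : ℝ) ^ 2 := by
      have h1 : (2 * √((n : ℝ) / X)) ^ 2 < (v : ℝ) ^ 2 := by
        apply pow_lt_pow_left₀ hv (by positivity) (by norm_num)
      rw [mul_pow, Real.sq_sqrt (by positivity)] at h1
      linarith
    have h2 : 4 * (n : ℝ) < (D : ℝ) * (v : ℝ) ^ 2 := by
      have h3 : 4 * (n : ℝ) = X * (4 * ((n : ℝ) / X)) := by
        field_simp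
      rw [h3]
      calc (X : ℝ) * (4 * ((n : ℝ) / X)) < X * (v : ℝ) ^ 2 := by
            apply mul_lt_mul_of_pos_left hsq (by linarith)
        _ ≤ D * (v : ℝ) ^ 2 := by
            apply mul_le_mul_of_nonneg_right hDr.le (by positivity)
    have h4 : (u : ℝ) ^ 2 - (D : ℝ) * (v : ℝ) ^ 2 = 4 * n := by exact_mod_cast h
    have hs : √(D : ℝ) ^ 2 = D := Real.sq_sqrt (by linarith)
    have hs0 : 0 < √(D : ℝ) := Real.sqrt_pos.mpr (by linarith)
    have hu0 : (0 : ℝ) ≤ u := by positivity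
    have hpr : ((u : ℝ) + v * √(D : ℝ)) * ((u : ℝ) - v * √(D : ℝ)) = 4 * n := by
      rw [← h4]
      ring_nf
      rw [hs]
    have hpos : 0 < (u : ℝ) + v * √(D : ℝ) := by positivity
    have hpos2 : 0 < (u : ℝ) - v * √(D : ℝ) := by
      by_contra hc
      push Not at hc
      have : ((u : ℝ) + v * √(D : ℝ)) * ((u : ℝ) - v * √(D : ℝ)) ≤ 0 :=
        mul_nonpos_of_nonneg_of_nonpos hpos.le hc
      linarith
    have hbig : 3 * (4 * (n : ℝ)) < ((u : ℝ) + v * √(D : ℝ)) ^ 2 := by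
      have h5 : ((u : ℝ) + v * √(D : ℝ)) ^ 2 =
          (u : ℝ) ^ 2 + (D : ℝ) * (v : ℝ) ^ 2 + 2 * (u * (v * √(D : ℝ))) := by
        ring_nf
        rw [hs]
      rw [h5]
      have h6 : 0 ≤ 2 * ((u : ℝ) * (v * √(D : ℝ))) := by positivity
      linarith
    have hrat : 3 < ((u : ℝ) + v * √(D : ℝ)) / ((u : ℝ) - v * √(D : ℝ)) := by
      rw [lt_div_iff₀ hpos2]
      rw [← hpr] at hbig
      nlinarith
    have hlog : 1 < Real.log (((u : ℝ) + v * √(D : ℝ)) / ((u : ℝ) - v * √(D : ℝ))) := by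
      rw [Real.lt_log_iff_exp_lt (by linarith)]
      have := Real.exp_one_lt_d9
      linarith
    unfold phi
    apply max_eq_left
    have h7 : (((v : ℕ) : ℤ) : ℝ) = (v : ℝ) := by push_cast; rfl
    rw [h7]
    have := le_abs_self (Real.log (((u : ℝ) + v * √(D : ℝ)) / ((u : ℝ) - v * √(D : ℝ))))
    linarith
  · rfl

theorem Rsum_eq (D n : ℕ) : Rsum D n = ∑ u ∈ Finset.Icc 1 (4 * n), T D n u 0 +
    2 * ∑ v ∈ Finset.Icc 1 (4 * n), ∑ u ∈ Finset.Icc 1 (4 * n), T D n u (v : ℤ) := by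
  have h1 : Rsum D n = ∑ u ∈ Finset.Icc 1 (4 * n),
      ∑ v ∈ Finset.Icc (-((4 * n : ℕ) : ℤ)) ((4 * n : ℕ) : ℤ), T D n u v := by
    unfold Rsum T
    push_cast
    rfl
  rw [h1, Finset.sum_comm (s := Finset.Icc 1 (4 * n)) (t := Finset.Icc 1 (4 * n)),
    Finset.mul_sum, ← Finset.sum_add_distrib]
  apply Finset.sum_congr rfl
  intro u _
  rw [sum_sym]
  congr 1
  rw [Finset.mul_sum]
  apply Finset.sum_congr rfl
  intro v _
  rw [T_neg]
  ring

end Pool.Agent.H38R2.CG.TB1h

namespace Pool.Agent.H38R2.CG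

open Finset TB1h
open scoped Classical

theorem T_TB1 : P_TB1a → P_TB1 := by
  intro hA z r X n η hr hη hη1 hX hn
  have h0 : ∑ D ∈ DD z r X η, Rsum D n =
      ∑ D ∈ DD z r X η, ∑ u ∈ Finset.Icc 1 (4 * n), T D n u 0 +
      2 * ∑ v ∈ Finset.Icc 1 (4 * n), ∑ D ∈ DD z r X η,
        ∑ u ∈ Finset.Icc 1 (4 * n), T D n u (v : ℤ) := by
    rw [Finset.sum_congr rfl (fun D _ => Rsum_eq D n), Finset.sum_add_distrib,
      ← Finset.mul_sum]
    congr 2
    rw [Finset.sum_comm]
  rw [h0]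
  apply add_le_add
  · calc ∑ D ∈ DD z r X η, ∑ u ∈ Finset.Icc 1 (4 * n), T D n u 0
        ≤ ∑ D ∈ DD z r X η, (if IsSquare n then (1 : ℝ) else 0) :=
          Finset.sum_le_sum (fun D _ => sum_T_zero D n (4 * n))
      _ = if IsSquare n then ((DD z r X η).card : ℝ) else 0 := by
          rw [Finset.sum_const, nsmul_eq_mul]
          split_ifs <;> simp
  · apply mul_le_mul_of_nonneg_left _ (by norm_num)
    set V : ℕ := ⌊2 * √((n : ℝ) / X)⌋₊ with hV
    have h1 : ∑ v ∈ Finset.Icc 1 (4 * n), ∑ D ∈ DD z r X η,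
        ∑ u ∈ Finset.Icc 1 (4 * n), T D n u (v : ℤ) =
        ∑ v ∈ (Finset.Icc 1 (4 * n)).filter (fun v => v ≤ V), ∑ D ∈ DD z r X η,
        ∑ u ∈ Finset.Icc 1 (4 * n), T D n u (v : ℤ) := by
      rw [Finset.sum_filter]
      apply Finset.sum_congr rfl
      intro v _
      split_ifs with h
      · rfl
      · push Not at h
        have h2 : 2 * √((n : ℝ) / X) < v := by
          rw [hV] at h
          exact Nat.lt_of_floor_lt h
        apply Finset.sum_eq_zero
        intro D hD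
        apply Finset.sum_eq_zero
        intro u _
        have hD' : X < D := by
          unfold DD at hD
          rw [Finset.mem_filter, Finset.mem_Ioc] at hD
          exact hD.1.1
        exact T_large X D n u v hX hn hD' h2
    rw [h1]
    have h2 : ∑ v ∈ (Finset.Icc 1 (4 * n)).filter (fun v => v ≤ V), ∑ D ∈ DD z r X η,
        ∑ u ∈ Finset.Icc 1 (4 * n), T D n u (v : ℤ) ≤
        ∑ v ∈ Finset.Icc 1 V, ∑ D ∈ DD z r X η,
        ∑ u ∈ Finset.Icc 1 (4 * n), T D n u (v : ℤ) := by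
      apply Finset.sum_le_sum_of_subset_of_nonneg
      · intro v hv
        rw [Finset.mem_filter, Finset.mem_Icc] at hv
        rw [Finset.mem_Icc]
        exact ⟨hv.1.1, hv.2⟩
      · intro v _ _
        exact Finset.sum_nonneg (fun D _ => Finset.sum_nonneg (fun u _ => T_nonneg D n u v))
    refine h2.trans ?_
    apply Finset.sum_le_sum
    intro v hv
    rw [Finset.mem_Icc] at hv
    have h3 := hA z r X n v η hr hη hη1 hX hn hv.1
    refine le_trans (le_of_eq ?_) h3
    apply Finset.sum_congr rfl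
    intro D _
    apply Finset.sum_congr rfl
    intro u _
    unfold T
    push_cast
    rfl

end Pool.Agent.H38R2.CG
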