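import Pool.Agent.H38R2.CG.Stubs

/-!
# TB3b: local factors (helper406)
-/

set_option autoImplicit false

namespace Pool.Agent.H38R2.CG

open Finset

namespace TB3bh

/-- number of square roots of `c` modulo `m` -/
def N (m c : ℕ) : ℕ := ((Finset.range m).filter (fun u => u ^ 2 ≡ c [MOD m])).card

theorem N_mul {a b c : ℕ} (h : Nat.Coprime a b) (ha : 0 < a) (hb : 0 < b) :
    N (a * b) c ≤ N a c * N b c := by
  unfold N
  rw [← Finset.card_product]
  refine Finset.card_le_card_of_injOn (fun u => (u % a, u % b)) ?_ ?_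
  · intro u hu
    have hu' := Finset.mem_filter.1 (Finset.mem_coe.1 hu)
    obtain ⟨h1, h2⟩ := (Nat.modEq_and_modEq_iff_modEq_mul h).2 hu'.2
    refine Finset.mem_coe.2 (Finset.mem_product.2 ⟨Finset.mem_filter.2 ⟨?_, ?_⟩,
      Finset.mem_filter.2 ⟨?_, ?_⟩⟩)
    · exact Finset.mem_range.2 (Nat.mod_lt _ ha)
    · exact ((Nat.mod_modEq u a).pow 2).trans h1
    · exact Finset.mem_range.2 (Nat.mod_lt _ hb)
    · exact ((Nat.mod_modEq u b).pow 2).trans h2
  · intro u hu u' hu' he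
    have h1 := Finset.mem_range.1 (Finset.mem_filter.1 (Finset.mem_coe.1 hu)).1
    have h2 := Finset.mem_range.1 (Finset.mem_filter.1 (Finset.mem_coe.1 hu')).1
    have he' := Prod.mk.inj he
    have h3 : u ≡ u' [MOD a * b] := (Nat.modEq_and_modEq_iff_modEq_mul h).1 he'
    exact Nat.ModEq.eq_of_lt_of_lt h3 h1 h2

theorem N_congr {m c c' : ℕ} (h : c ≡ c' [MOD m]) : N m c = N m c' := by
  unfold N
  congr 1
  refine Finset.filter_congr fun u _ => ?_
  exact ⟨fun h1 => h1.trans h, fun h1 => h1.trans h.symm⟩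

theorem N_one (c : ℕ) : N 1 c ≤ 1 := by
  unfold N
  refine (Finset.card_filter_le _ _).trans ?_
  simp

theorem N_prod (S : Finset ℕ) (e : ℕ → ℕ) (c : ℕ) (hS : ∀ p ∈ S, p.Prime) :
    N (∏ p ∈ S, p ^ e p) c ≤ ∏ p ∈ S, N (p ^ e p) c := by
  induction S using Finset.induction_on with
  | empty => simpa using N_one c
  | insert a S ha ih =>
    rw [Finset.prod_insert ha, Finset.prod_insert ha]
    have hS' : ∀ p ∈ S, p.Prime := fun p hp => hS p (Finset.mem_insert_of_mem hp)
    have hap := hS a (Finset.mem_insert_self _ _)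
    have hc : Nat.Coprime (a ^ e a) (∏ p ∈ S, p ^ e p) := by
      refine Nat.Coprime.prod_right fun p hp => ?_
      refine Nat.Coprime.pow _ _ ?_
      rw [Nat.coprime_primes hap (hS' p hp)]
      rintro rfl
      exact ha hp
    refine (N_mul hc (pow_pos hap.pos _) (Finset.prod_pos fun p hp =>
      pow_pos (hS' p hp).pos _)).trans ?_
    exact Nat.mul_le_mul_left _ (ih hS')

/-- at most two square roots -/
theorem N_two {p m c : ℕ} (hp : p.Prime) (hp2 : p ≠ 2) (hm : 1 ≤ m) (hc : ¬ p ∣ c) :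
    N (p ^ m) c ≤ 2 := by
  unfold N
  by_cases hne : ((Finset.range (p ^ m)).filter (fun u => u ^ 2 ≡ c [MOD p ^ m])).Nonempty
  · obtain ⟨x, hx⟩ := hne
    have hx1 := Finset.mem_range.1 (Finset.mem_filter.1 hx).1
    have hx2 := (Finset.mem_filter.1 hx).2
    have hpx : ¬ p ∣ x := by
      intro h
      apply hc
      have h1 : x ^ 2 ≡ c [MOD p] := hx2.of_dvd (dvd_pow_self p (by omega))
      have h2 : p ∣ x ^ 2 := dvd_pow h (by norm_num)
      exact (h1.dvd_iff (dvd_refl p)).1 h2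
    have hsub : ((Finset.range (p ^ m)).filter (fun u => u ^ 2 ≡ c [MOD p ^ m])) ⊆
        {x, p ^ m - x} := by
      intro y hy
      have hy1 := Finset.mem_range.1 (Finset.mem_filter.1 hy).1
      have hy2 := (Finset.mem_filter.1 hy).2
      have h1 : y ^ 2 ≡ x ^ 2 [MOD p ^ m] := hy2.trans hx2.symm
      have h2 : ((p ^ m : ℕ) : ℤ) ∣ ((x : ℤ) - y) * (x + y) := by
        have h3 := (Nat.modEq_iff_dvd).1 h1
        push_cast at h3 ⊢
        have e : ((x : ℤ) - y) * (x + y) = x ^ 2 - y ^ 2 := by ring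
        rw [e]
        exact h3
      have hpi : Prime (p : ℤ) := Nat.prime_iff_prime_int.1 hp
      rw [Finset.mem_insert, Finset.mem_singleton]
      by_cases h3 : (p : ℤ) ∣ (x : ℤ) - y
      · -- then `p` does not divide `x + y`
        have h4 : ¬ (p : ℤ) ∣ (x : ℤ) + y := by
          intro h4
          have h5 : (p : ℤ) ∣ 2 * x := by
            have := dvd_add h3 h4
            have e : (x : ℤ) - y + (x + y) = 2 * x := by ring
            rwa [e] at this
          rcases hpi.dvd_or_dvd h5 with h6 | h6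
          · have h7 : p ∣ 2 := by exact_mod_cast h6
            exact hp2 ((Nat.prime_dvd_prime_iff_eq hp Nat.prime_two).1 h7)
          · exact hpx (by exact_mod_cast h6)
        have h5 : IsCoprime ((p ^ m : ℕ) : ℤ) ((x : ℤ) + y) := by
          push_cast
          exact IsCoprime.pow_left ((Prime.coprime_iff_not_dvd hpi).2 h4)
        have h6 := h5.dvd_of_dvd_mul_right h2
        have h7 : y ≡ x [MOD p ^ m] := by
          rw [Nat.modEq_iff_dvd]
          exact h6
        left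
        exact Nat.ModEq.eq_of_lt_of_lt h7 hy1 hx1
      · have h5 : IsCoprime ((p ^ m : ℕ) : ℤ) ((x : ℤ) - y) := by
          push_cast
          exact IsCoprime.pow_left ((Prime.coprime_iff_not_dvd hpi).2 h3)
        have h6 := h5.dvd_of_dvd_mul_left h2
        right
        have h7 : p ^ m ∣ x + y := by exact_mod_cast h6
        obtain ⟨q, hq⟩ := h7
        have hx0 : 0 < x := by
          rcases Nat.eq_zero_or_pos x with h8 | h8
          · exact absurd (h8 ▸ dvd_zero p) hpx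
          · exact h8
        have h8 : q = 1 := by
          have h9 : q < 2 := by
            by_contra h10
            have : p ^ m * 2 ≤ p ^ m * q := Nat.mul_le_mul_left _ (by omega)
            omega
          have h10 : q ≠ 0 := by
            rintro rfl
            omega
          omega
        rw [h8, mul_one] at hq
        omega
    refine (Finset.card_le_card hsub).trans ?_
    exact Finset.card_le_two
  · rw [Finset.not_nonempty_iff_eq_empty] at hne
    rw [hne]
    simp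

theorem jac_ge (a : ℤ) (b : ℕ) : (-1 : ℝ) ≤ ((jacobiSym a b : ℤ) : ℝ) := by
  have h := jacobiSym.trichotomy a b
  rcases h with h | h | h <;> rw [h] <;> norm_num

/-- the local factor at an odd prime -/
theorem local_factor {p e n : ℕ} (hp : p.Prime) (hp2 : p ≠ 2) (he : 1 ≤ e)
    (hn : ¬ p ^ 2 ∣ n) :
    (N (p ^ (e * 2)) (4 * n) : ℝ) ≤ 1 + ((jacobiSym (n : ℤ) p : ℤ) : ℝ) := by
  have hcop4 : ¬ p ∣ 4 := by
    intro h
    have h1 : p ∣ 2 ^ 2 := by simpa using h
    have h2 := hp.dvd_of_dvd_pow h1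
    exact hp2 ((Nat.prime_dvd_prime_iff_eq hp Nat.prime_two).1 h2)
  by_cases hz : N (p ^ (e * 2)) (4 * n) = 0
  · rw [hz]
    have := jac_ge (n : ℤ) p
    push_cast
    linarith
  -- a root
  have hne : ((Finset.range (p ^ (e * 2))).filter
      (fun u => u ^ 2 ≡ 4 * n [MOD p ^ (e * 2)])).Nonempty :=
    Finset.card_pos.1 (Nat.pos_of_ne_zero hz)
  obtain ⟨x, hx⟩ := hne
  have hx2 := (Finset.mem_filter.1 hx).2
  have hpn : ¬ p ∣ n := by
    intro h
    apply hn
    have h1 : x ^ 2 ≡ 4 * n [MOD p] := hx2.of_dvd (dvd_pow_self p (by omega))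
    have h2 : p ∣ x ^ 2 := (h1.dvd_iff (dvd_refl p)).2 (h.mul_left 4)
    have h3 : p ∣ x := hp.dvd_of_dvd_pow h2
    have h4 : x ^ 2 ≡ 4 * n [MOD p ^ 2] := hx2.of_dvd (pow_dvd_pow p (by omega))
    have h5 : p ^ 2 ∣ x ^ 2 := pow_dvd_pow_of_dvd h3 2
    have h6 : p ^ 2 ∣ 4 * n := (h4.dvd_iff (dvd_refl _)).1 h5
    have h7 : Nat.Coprime (p ^ 2) 4 := Nat.Coprime.pow_left 2 ((hp.coprime_iff_not_dvd).2 hcop4)
    exact h7.dvd_of_dvd_mul_left h6
  have hp4n : ¬ p ∣ 4 * n := by
    intro h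
    rcases (hp.dvd_mul).1 h with h1 | h1
    · exact hcop4 h1
    · exact hpn h1
  have hN := N_two (m := e * 2) hp hp2 (by omega) hp4n
  have hJ : jacobiSym (n : ℤ) p = 1 := by
    have : Fact p.Prime := ⟨hp⟩
    rw [← jacobiSym.legendreSym.to_jacobiSym]
    have hn0 : ((n : ℤ) : ZMod p) ≠ 0 := by
      intro h
      apply hpn
      have : ((n : ℕ) : ZMod p) = 0 := by exact_mod_cast h
      exact (ZMod.natCast_eq_zero_iff n p).1 this
    rw [legendreSym.eq_one_iff p hn0]
    have h1 : x ^ 2 ≡ 4 * n [MOD p] := hx2.of_dvd (dvd_pow_self p (by omega))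
    have h2 : ((x ^ 2 : ℕ) : ZMod p) = ((4 * n : ℕ) : ZMod p) :=
      (ZMod.natCast_eq_natCast_iff _ _ _).2 h1
    push_cast at h2
    have h20 : (2 : ZMod p) ≠ 0 := by
      intro h
      have h3 : ((2 : ℕ) : ZMod p) = 0 := by exact_mod_cast h
      have h4 := (ZMod.natCast_eq_zero_iff 2 p).1 h3
      exact hp2 ((Nat.prime_dvd_prime_iff_eq hp Nat.prime_two).1 h4)
    refine ⟨(x : ZMod p) / 2, ?_⟩
    push_cast
    field_simp
    rw [h2]
    ring
  rw [hJ]
  have : (N (p ^ (e * 2)) (4 * n) : ℝ) ≤ 2 := by exact_mod_cast hN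
  push_cast
  linarith

theorem Qz_pos (z : ℕ) : 0 < Qz z := by
  unfold Qz
  refine Nat.mul_pos (by norm_num) (Finset.prod_pos fun l hl => ?_)
  exact pow_pos (Finset.mem_filter.1 hl).2.pos 2

theorem two_dvd_Qz (z : ℕ) : 2 ∣ Qz z := by
  unfold Qz
  exact Dvd.dvd.mul_right (by norm_num) _

theorem sq_not_dvd {z : ℕ} {s t : Finset ℕ} (hst : Disjoint s t)
    (hp : ∀ p ∈ s ∪ t, p.Prime ∧ ¬ p ∣ Qz z) (q : ℕ) (hq : q.Prime) :
    ¬ q ^ 2 ∣ prodS s * prodS t := by
  have h1 : prodS s * prodS t = ∏ p ∈ s ∪ t, p := by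
    unfold prodS
    rw [Finset.prod_union hst]
  rw [h1]
  have h2 : Squarefree (∏ p ∈ s ∪ t, p) := by
    refine Finset.squarefree_prod_of_pairwise_isCoprime ?_ fun p hp' => (hp p hp').1.squarefree
    intro a ha b hb hab
    have := (Nat.coprime_primes (hp a ha).1 (hp b hb).1).2 hab
    exact Nat.coprime_iff_isRelPrime.1 this
  intro h
  rw [sq] at h
  exact hq.one_lt.ne' (Nat.isUnit_iff.1 (h2 q h))

end TB3bh

open TB3bh in
theorem T_TB3b : P_TB3b := by
  classical
  intro z r v s t hv hst hp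
  obtain ⟨n, hn⟩ : ∃ n : ℕ, n = prodS s * prodS t := ⟨_, rfl⟩
  have hsq : ∀ q : ℕ, q.Prime → ¬ q ^ 2 ∣ n := by
    intro q hq
    rw [hn]
    exact sq_not_dvd hst hp q hq
  rw [← hn]
  obtain ⟨S, hS⟩ : ∃ S : Finset ℕ, S = v.primeFactors.filter (fun p => ¬ p ∣ Qz z) := ⟨_, rfl⟩
  obtain ⟨v', hv'⟩ : ∃ v' : ℕ, v' = ∏ p ∈ S, p ^ (v.factorization p) := ⟨_, rfl⟩
  obtain ⟨w, hw⟩ : ∃ w : ℕ, w = qpart z v := ⟨_, rfl⟩
  have hvw : v = w * v' := by
    rw [hw, hv', hS]
    unfold qpart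
    rw [Finset.prod_filter_mul_prod_filter_not]
    exact (Nat.prod_factorization_pow_eq_self (by omega)).symm
  have hSp : ∀ p ∈ S, p.Prime ∧ p ∣ v ∧ ¬ p ∣ Qz z := by
    intro p hp'
    rw [hS] at hp'
    have h1 := Finset.mem_filter.1 hp'
    exact ⟨Nat.prime_of_mem_primeFactors h1.1, Nat.dvd_of_mem_primeFactors h1.1, h1.2⟩
  have hv0 : 0 < v' := by
    rw [hv']
    exact Finset.prod_pos fun p hp' => pow_pos (hSp p hp').1.pos _
  have hw0 : 0 < w := by
    rcases Nat.eq_zero_or_pos w with h | h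
    · rw [h, zero_mul] at hvw
      omega
    · exact h
  have hQ0 := Qz_pos z
  -- coprimality
  have hcop : Nat.Coprime (Qz z * w ^ 2) (v' ^ 2) := by
    refine Nat.Coprime.pow_right 2 ?_
    rw [hv']
    refine Nat.Coprime.prod_right fun p hp' => ?_
    obtain ⟨h1, h2, h3⟩ := hSp p hp'
    refine Nat.Coprime.pow_right _ ?_
    refine Nat.Coprime.mul_left ?_ (Nat.Coprime.pow_left 2 ?_)
    · exact (((h1.coprime_iff_not_dvd).2 h3)).symm
    · rw [hw]
      unfold qpart
      refine Nat.Coprime.prod_left fun q hq => ?_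
      have h4 := Finset.mem_filter.1 hq
      refine Nat.Coprime.pow_left _ ?_
      rw [Nat.coprime_primes (Nat.prime_of_mem_primeFactors h4.1) h1]
      rintro rfl
      exact h3 h4.2
  have h1 : Qz z * v ^ 2 = (Qz z * w ^ 2) * v' ^ 2 := by
    rw [hvw]
    ring
  have h2 : rho z r n v ≤ rhoQ z r n v * N (v' ^ 2) (4 * n + r * v ^ 2) := by
    have h3 := N_mul (c := 4 * n + r * v ^ 2) hcop (by positivity) (by positivity)
    rw [← h1] at h3
    have h4 : N (Qz z * w ^ 2) (4 * n + r * v ^ 2) = rhoQ z r n v := by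
      rw [hw]
      rfl
    rw [h4] at h3
    exact h3
  have h3 : N (v' ^ 2) (4 * n + r * v ^ 2) = N (v' ^ 2) (4 * n) := by
    apply N_congr
    have h4 : v' ^ 2 ∣ r * v ^ 2 := by
      rw [hvw]
      exact ⟨r * w ^ 2, by ring⟩
    have h5 := (Nat.modEq_zero_iff_dvd.2 h4).add_left (4 * n)
    simpa using h5
  have h4 : v' ^ 2 = ∏ p ∈ S, p ^ (v.factorization p * 2) := by
    rw [hv', ← Finset.prod_pow]
    exact Finset.prod_congr rfl fun p _ => by rw [← pow_mul]
  have h5 : N (v' ^ 2) (4 * n) ≤ ∏ p ∈ S, N (p ^ (v.factorization p * 2)) (4 * n) := by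
    rw [h4]
    exact N_prod S _ _ fun p hp' => (hSp p hp').1
  have h6 : ((∏ p ∈ S, N (p ^ (v.factorization p * 2)) (4 * n) : ℕ) : ℝ) ≤ jprod z n v := by
    push_cast
    unfold jprod
    rw [← hS]
    refine Finset.prod_le_prod (fun _ _ => by positivity) fun p hp' => ?_
    obtain ⟨h7, h8, h9⟩ := hSp p hp'
    have hp2 : p ≠ 2 := by
      rintro rfl
      exact h9 (two_dvd_Qz z)
    exact local_factor h7 hp2 (h7.factorization_pos_of_dvd (by omega) h8) (hsq p h7)
  calc (rho z r n v : ℝ) ≤ ((rhoQ z r n v * N (v' ^ 2) (4 * n + r * v ^ 2) : ℕ) : ℝ) := by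
        exact_mod_cast h2
    _ = (rhoQ z r n v : ℝ) * (N (v' ^ 2) (4 * n) : ℝ) := by rw [h3]; push_cast; ring
    _ ≤ (rhoQ z r n v : ℝ) * jprod z n v := by
        refine mul_le_mul_of_nonneg_left ?_ (by positivity)
        refine le_trans ?_ h6
        exact_mod_cast h5

end Pool.Agent.H38R2.CG
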