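import Pool.Agent.H38R2.CG.Stubs

set_option autoImplicit false

namespace Pool.Agent.H38R2.CG

open Finset

namespace TB3dh

theorem jac_prod (n : ℤ) (T : Finset ℕ) (hT : ∀ p ∈ T, p ≠ 0) :
    jacobiSym n (∏ p ∈ T, p) = ∏ p ∈ T, jacobiSym n p := by
  classical
  induction T using Finset.induction_on with
  | empty => simp
  | insert a s ha ih =>
    rw [Finset.prod_insert ha, Finset.prod_insert ha, jacobiSym.mul_right' n
      (hT a (Finset.mem_insert_self _ _))
      (Finset.prod_ne_zero_iff.mpr fun p hp => hT p (Finset.mem_insert_of_mem hp)),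
      ih (fun p hp => hT p (Finset.mem_insert_of_mem hp))]

end TB3dh

open TB3dh in
theorem T_TB3d : P_TB3d := by
  classical
  intro z n v hv
  constructor
  · unfold jprod
    apply Finset.prod_nonneg
    intro p _
    have h : (-1 : ℤ) ≤ jacobiSym (n : ℤ) p := by
      rcases jacobiSym.trichotomy (n : ℤ) p with h | h | h <;> rw [h] <;> norm_num
    have h' : (-1 : ℝ) ≤ (jacobiSym (n : ℤ) p : ℝ) := by exact_mod_cast h
    linarith
  · unfold jprod
    rw [Finset.prod_one_add]
    have hpr : ∀ T ∈ (v.primeFactors.filter (fun p => ¬ p ∣ Qz z)).powerset,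
        ∀ p ∈ T, p.Prime ∧ p ∈ v.primeFactors ∧ ¬ p ∣ Qz z := by
      intro T hT p hp
      have := (Finset.mem_powerset.mp hT) hp
      rw [Finset.mem_filter] at this
      exact ⟨Nat.prime_of_mem_primeFactors this.1, this.1, this.2⟩
    refine Finset.sum_nbij' (fun T => ∏ p ∈ T, p) (fun f => f.primeFactors) ?_ ?_ ?_ ?_ ?_
    · intro T hT
      have h := hpr T hT
      simp only [Finset.mem_filter, Nat.mem_divisors]
      refine ⟨⟨?_, by omega⟩, ?_, ?_⟩
      · refine dvd_trans (Finset.prod_dvd_prod_of_subset _ _ _ ?_) (Nat.prod_primeFactors_dvd v)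
        intro p hp
        exact (h p hp).2.1
      · apply Finset.squarefree_prod_of_pairwise_isCoprime
        · intro a ha b hb hab
          simp only [Function.onFun]
          rw [← Nat.coprime_iff_isRelPrime]
          exact (Nat.coprime_primes (h a ha).1 (h b hb).1).mpr hab
        · intro p hp
          exact (h p hp).1.prime.squarefree
      · apply Nat.Coprime.prod_left
        intro p hp
        exact ((h p hp).1.coprime_iff_not_dvd).mpr (h p hp).2.2
    · intro f hf
      simp only [Finset.mem_filter, Nat.mem_divisors] at hf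
      rw [Finset.mem_powerset]
      intro p hp
      have hp' := Nat.prime_of_mem_primeFactors hp
      have hd := Nat.dvd_of_mem_primeFactors hp
      rw [Finset.mem_filter]
      refine ⟨Nat.mem_primeFactors.mpr ⟨hp', hd.trans hf.1.1, by omega⟩, ?_⟩
      exact (hp'.coprime_iff_not_dvd).mp (Nat.Coprime.coprime_dvd_left hd hf.2.2)
    · intro T hT
      exact Nat.primeFactors_prod fun p hp => (hpr T hT p hp).1
    · intro f hf
      simp only [Finset.mem_filter] at hf
      exact Nat.prod_primeFactors_of_squarefree hf.2.1
    · intro T hT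
      rw [jac_prod _ _ fun p hp => (hpr T hT p hp).1.ne_zero]
      push_cast
      rfl

end Pool.Agent.H38R2.CG
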