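import Pool.Agent.H38R2.CG.Stubs

/-! # TB4: terms of lower order -/

set_option autoImplicit false

namespace Pool.Agent.H38R2.CG

open Finset Filter
open scoped Classical

namespace TB4h

theorem phi_nonneg (t : ℝ) : 0 ≤ phi t := le_max_left _ _

theorem phi_le_one (t : ℝ) : phi t ≤ 1 := by
  unfold phi
  exact max_le zero_le_one (by linarith [abs_nonneg t])

theorem win_nonneg (η' : ℝ) (j : ℤ) (s : Finset ℕ) : 0 ≤ win η' j s := phi_nonneg _

theorem win_le_one (η' : ℝ) (j : ℤ) (s : Finset ℕ) : win η' j s ≤ 1 := phi_le_one _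

theorem yy_tendsto : Tendsto yy atTop atTop := by
  have h1 : Tendsto (fun X : ℕ => (Real.log X) ^ 6 / 4) atTop atTop :=
    ((tendsto_pow_atTop (by norm_num)).comp
      (Real.tendsto_log_atTop.comp tendsto_natCast_atTop_atTop)).atTop_div_const (by norm_num)
  exact tendsto_nat_floor_atTop.comp h1

theorem kk_le (c : ℝ) (hc : 0 < c) : ∀ᶠ X : ℕ in atTop, (kk X : ℝ) ≤ c * Real.log X := by
  have h1 : Tendsto (fun X : ℕ => Real.log (yy X)) atTop atTop :=
    Real.tendsto_log_atTop.comp (tendsto_natCast_atTop_atTop.comp yy_tendsto)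
  have h2 : Tendsto (fun X : ℕ => Real.log X) atTop atTop :=
    Real.tendsto_log_atTop.comp tendsto_natCast_atTop_atTop
  filter_upwards [h1.eventually_ge_atTop (13 / (10 * c)), h2.eventually_ge_atTop (2 / c)]
    with X h3 h4
  have hlog : 0 < Real.log X := lt_of_lt_of_le (by positivity) h4
  have hL : 0 < Real.log (yy X) := lt_of_lt_of_le (by positivity) h3
  unfold kk
  push_cast
  have h5 : (⌊(13 / 20 : ℝ) * Real.log X / Real.log (yy X)⌋₊ : ℝ) ≤
      (13 / 20 : ℝ) * Real.log X / Real.log (yy X) := Nat.floor_le (by positivity)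
  have h6 : (13 / 20 : ℝ) * Real.log X / Real.log (yy X) ≤ c / 2 * Real.log X := by
    rw [div_le_iff₀ hL]
    have h7 : 13 / 10 ≤ c * Real.log (yy X) := by
      rw [div_le_iff₀ (by positivity)] at h3
      linarith
    nlinarith
  have h8 : 1 ≤ c / 2 * Real.log X := by
    rw [div_le_iff₀ hc] at h4
    linarith
  linarith

theorem two_pow_le (c : ℝ) (hc : 0 < c) : ∀ᶠ X : ℕ in atTop, (2 : ℝ) ^ (kk X) ≤ (X : ℝ) ^ c := by
  filter_upwards [kk_le c hc, eventually_ge_atTop 1] with X h1 h2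
  have hX : (0 : ℝ) < X := by exact_mod_cast h2
  rw [← Real.rpow_natCast, Real.rpow_def_of_pos (by norm_num), Real.rpow_def_of_pos hX]
  apply Real.exp_le_exp.2
  have h3 : Real.log 2 ≤ 1 := by linarith [Real.log_two_lt_d9]
  have h4 : 0 < Real.log 2 := Real.log_pos (by norm_num)
  have h5 : (0 : ℝ) ≤ kk X := Nat.cast_nonneg _
  nlinarith

theorem ev_le (a C ε : ℝ) (ha : a < 1 / 2) (hε : 0 < ε) :
    ∀ᶠ X : ℕ in atTop, C * (X : ℝ) ^ a ≤ ε * √(X : ℝ) := by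
  have h1 : Tendsto (fun X : ℕ => C * (X : ℝ) ^ (-(1 / 2 - a))) atTop (nhds (C * 0)) :=
    ((tendsto_rpow_neg_atTop (by linarith)).comp tendsto_natCast_atTop_atTop).const_mul C
  rw [mul_zero] at h1
  filter_upwards [h1.eventually_lt_const hε, eventually_ge_atTop 1] with X h2 h3
  have hX : (0 : ℝ) < X := by exact_mod_cast h3
  have h4 : C * (X : ℝ) ^ a = C * (X : ℝ) ^ (-(1 / 2 - a)) * (X : ℝ) ^ (1 / 2 : ℝ) := by
    rw [mul_assoc, ← Real.rpow_add hX]
    congr 2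
    ring
  rw [h4, Real.sqrt_eq_rpow]
  exact mul_le_mul_of_nonneg_right h2.le (Real.rpow_nonneg hX.le _)

theorem card_div_le (v : ℕ) : v.divisors.card ≤ 2 * Nat.sqrt v := by
  have hsub : v.divisors ⊆ Finset.Icc 1 (Nat.sqrt v) ∪
      (Finset.Icc 1 (Nat.sqrt v)).image (fun d => v / d) := by
    intro d hd
    rw [Nat.mem_divisors] at hd
    obtain ⟨hdv, hv⟩ := hd
    have hd0 : 0 < d := Nat.pos_of_dvd_of_pos hdv (Nat.pos_of_ne_zero hv)
    rw [Finset.mem_union, Finset.mem_image]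
    by_cases h : d ≤ Nat.sqrt v
    · left
      rw [Finset.mem_Icc]
      exact ⟨hd0, h⟩
    · right
      push Not at h
      obtain ⟨e, rfl⟩ := hdv
      have he0 : 0 < e := Nat.pos_of_ne_zero (by rintro rfl; simp at hv)
      refine ⟨e, ?_, Nat.mul_div_cancel _ he0⟩
      rw [Finset.mem_Icc]
      refine ⟨he0, ?_⟩
      by_contra h2
      push Not at h2
      have h3 := Nat.lt_succ_sqrt (d * e)
      have h4 : (Nat.sqrt (d * e)).succ * (Nat.sqrt (d * e)).succ ≤ d * e :=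
        Nat.mul_le_mul h h2
      omega
  calc v.divisors.card ≤ _ := Finset.card_le_card hsub
    _ ≤ (Finset.Icc 1 (Nat.sqrt v)).card +
        ((Finset.Icc 1 (Nat.sqrt v)).image (fun d => v / d)).card := Finset.card_union_le _ _
    _ ≤ (Finset.Icc 1 (Nat.sqrt v)).card + (Finset.Icc 1 (Nat.sqrt v)).card :=
        Nat.add_le_add_left Finset.card_image_le _
    _ = 2 * Nat.sqrt v := by rw [Nat.card_Icc]; omega

theorem sqfree (u : Finset ℕ) (hu : ∀ p ∈ u, p.Prime) : Squarefree (prodS u) := by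
  unfold prodS
  apply Finset.squarefree_prod_of_pairwise_isCoprime
  · intro p hp q hq hpq
    exact Nat.coprime_iff_isRelPrime.1 ((Nat.coprime_primes (hu p hp) (hu q hq)).2 hpq)
  · intro p hp
    exact (hu p hp).prime.squarefree

theorem prodS_pos (u : Finset ℕ) (hu : ∀ p ∈ u, p.Prime) : 1 ≤ prodS u :=
  Nat.one_le_iff_ne_zero.2 (Finset.prod_ne_zero_iff.2 fun p hp => (hu p hp).ne_zero)

theorem rho_le (hA : P_TB3a) (z r : ℕ) (s t : Finset ℕ) (hs : ∀ p ∈ s, p.Prime)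
    (ht : ∀ p ∈ t, p.Prime) (v : ℕ) (hv : 1 ≤ v) :
    (rho z r (prodS s * prodS t) v : ℝ) ≤ 32 * (Qz z : ℝ) * (√(v : ℝ) * v) := by
  have hst : ∀ p ∈ s ∩ t, p.Prime := fun p hp => hs p (Finset.mem_inter.1 hp).1
  have hdisj : Disjoint (s \ t) (t \ s) := by
    rw [Finset.disjoint_left]
    intro a ha hb
    exact (Finset.mem_sdiff.1 ha).2 (Finset.mem_sdiff.1 hb).1
  have h1 : prodS s = prodS (s ∩ t) * prodS (s \ t) := by
    unfold prodS
    exact (Finset.prod_inter_mul_prod_sdiff s t (fun p => p)).symm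
  have h2 : prodS t = prodS (s ∩ t) * prodS (t \ s) := by
    unfold prodS
    rw [Finset.inter_comm]
    exact (Finset.prod_inter_mul_prod_sdiff t s (fun p => p)).symm
  have h3 : prodS (s \ t) * prodS (t \ s) = prodS ((s \ t) ∪ (t \ s)) := by
    unfold prodS
    exact (Finset.prod_union hdisj).symm
  have hn : prodS s * prodS t = (prodS (s ∩ t)) ^ 2 * prodS ((s \ t) ∪ (t \ s)) := by
    rw [← h3, h1, h2]
    ring
  have h4 := hA z r (prodS s * prodS t) v (prodS (s ∩ t)) (prodS ((s \ t) ∪ (t \ s))) hn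
    (sqfree _ (by
      intro p hp
      rcases Finset.mem_union.1 hp with h | h
      · exact hs p (Finset.mem_sdiff.1 h).1
      · exact ht p (Finset.mem_sdiff.1 h).1)) (prodS_pos _ hst) hv
  have h5 : Nat.gcd (prodS (s ∩ t)) v ≤ v := Nat.gcd_le_right _ hv
  have h6 : rho z r (prodS s * prodS t) v ≤ 16 * Qz z * (2 * Nat.sqrt v) * v :=
    h4.trans (Nat.mul_le_mul (Nat.mul_le_mul_left _ (card_div_le v)) h5)
  have h7 : (rho z r (prodS s * prodS t) v : ℝ) ≤ 16 * Qz z * (2 * Nat.sqrt v) * v := by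
    exact_mod_cast h6
  have h8 : (Nat.sqrt v : ℝ) ≤ √(v : ℝ) := Real.nat_sqrt_le_real_sqrt
  have hv0 : (0 : ℝ) ≤ v := Nat.cast_nonneg _
  have hQ : (0 : ℝ) ≤ Qz z := Nat.cast_nonneg _
  calc (rho z r (prodS s * prodS t) v : ℝ) ≤ 16 * Qz z * (2 * Nat.sqrt v) * v := h7
    _ = 32 * Qz z * ((Nat.sqrt v : ℝ) * v) := by ring
    _ ≤ _ := mul_le_mul_of_nonneg_left (mul_le_mul_of_nonneg_right h8 hv0) (by positivity)

theorem inner (hA : P_TB3a) (z r : ℕ) (s t : Finset ℕ) (hs : ∀ p ∈ s, p.Prime)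
    (ht : ∀ p ∈ t, p.Prime) (X : ℕ) (hX : 1 ≤ X) (h1 : (prodS s : ℝ) ≤ (X : ℝ) ^ (2 / 3 : ℝ))
    (h2 : (prodS t : ℝ) ≤ (X : ℝ) ^ (2 / 3 : ℝ)) :
    ∑ v ∈ Finset.Icc 1 ⌊2 * √(((prodS s * prodS t : ℕ) : ℝ) / X)⌋₊,
      (rho z r (prodS s * prodS t) v : ℝ) ≤ 256 * Qz z * (X : ℝ) ^ (5 / 12 : ℝ) := by
  have hX0 : (0 : ℝ) < X := by exact_mod_cast hX
  have hQ : (0 : ℝ) ≤ Qz z := Nat.cast_nonneg _
  set U : ℝ := 2 * (X : ℝ) ^ (1 / 6 : ℝ) with hU
  have hU0 : 0 < U := by positivity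
  have hle : 2 * √(((prodS s * prodS t : ℕ) : ℝ) / X) ≤ U := by
    rw [hU]
    apply mul_le_mul_of_nonneg_left _ (by norm_num)
    rw [Real.sqrt_le_left (by positivity), ← Real.rpow_natCast, ← Real.rpow_mul hX0.le,
      div_le_iff₀ hX0]
    push_cast
    calc (prodS s : ℝ) * prodS t ≤ (X : ℝ) ^ (2 / 3 : ℝ) * (X : ℝ) ^ (2 / 3 : ℝ) :=
          mul_le_mul h1 h2 (Nat.cast_nonneg _) (by positivity)
      _ = (X : ℝ) ^ ((1 / 6 : ℝ) * 2) * X := by
          rw [← Real.rpow_add hX0]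
          nth_rw 3 [← Real.rpow_one (X : ℝ)]
          rw [← Real.rpow_add hX0]
          norm_num
  have hb : ∀ v ∈ Finset.Icc 1 ⌊2 * √(((prodS s * prodS t : ℕ) : ℝ) / X)⌋₊,
      (rho z r (prodS s * prodS t) v : ℝ) ≤ 32 * (Qz z : ℝ) * (√U * U) := by
    intro v hv
    rw [Finset.mem_Icc] at hv
    have h3 : (v : ℝ) ≤ U := by
      have h4 : (v : ℝ) ≤ 2 * √(((prodS s * prodS t : ℕ) : ℝ) / X) :=
        (Nat.le_floor_iff (by positivity)).1 hv.2
      linarith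
    refine (rho_le hA z r s t hs ht v hv.1).trans ?_
    apply mul_le_mul_of_nonneg_left _ (by positivity)
    exact mul_le_mul (Real.sqrt_le_sqrt h3) h3 (Nat.cast_nonneg _) (Real.sqrt_nonneg _)
  refine (Finset.sum_le_sum hb).trans ?_
  rw [Finset.sum_const, nsmul_eq_mul, Nat.card_Icc, Nat.add_sub_cancel]
  have h5 : (⌊2 * √(((prodS s * prodS t : ℕ) : ℝ) / X)⌋₊ : ℝ) ≤ U :=
    (Nat.floor_le (by positivity)).trans hle
  have h6 : √U ≤ 2 * (X : ℝ) ^ (1 / 12 : ℝ) := by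
    rw [Real.sqrt_le_left (by positivity), mul_pow, ← Real.rpow_natCast ((X : ℝ) ^ (1 / 12 : ℝ)),
      ← Real.rpow_mul hX0.le, hU]
    norm_num
    have : 0 ≤ (X : ℝ) ^ (1 / 6 : ℝ) := by positivity
    linarith
  calc (⌊2 * √(((prodS s * prodS t : ℕ) : ℝ) / X)⌋₊ : ℝ) * (32 * (Qz z : ℝ) * (√U * U))
      ≤ U * (32 * (Qz z : ℝ) * (2 * (X : ℝ) ^ (1 / 12 : ℝ) * U)) := by
        apply mul_le_mul h5 _ (by positivity) hU0.le
        apply mul_le_mul_of_nonneg_left _ (by positivity)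
        exact mul_le_mul_of_nonneg_right h6 hU0.le
    _ = 256 * Qz z * ((X : ℝ) ^ (1 / 6 : ℝ) * (X : ℝ) ^ (1 / 6 : ℝ) * (X : ℝ) ^ (1 / 12 : ℝ)) := by
        rw [hU]; ring
    _ = _ := by
        rw [← Real.rpow_add hX0, ← Real.rpow_add hX0]
        norm_num

end TB4h

open TB4h in
theorem T_TB4 : P_SZ → P_NB → P_TB3a → P_TB4 := by
  intro hSZ hNB hA z r _ η hη0 hη1 η' _ _ δ ε hδ hε
  obtain ⟨X1, hX1⟩ := hSZ
  obtain ⟨X2, hX2⟩ := hNB.1
  have hev : ∀ᶠ X : ℕ in atTop, 1 ≤ X ∧ X1 ≤ X ∧ X2 ≤ X ∧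
      (2 : ℝ) ^ (kk X) ≤ (X : ℝ) ^ (1 / 400 : ℝ) ∧
      (256 * Qz z : ℝ) * (X : ℝ) ^ (1 / 400 + 5 / 12 : ℝ) ≤ ε * √(X : ℝ) ∧
      (1 / δ) * (X : ℝ) ^ (97 / 200 : ℝ) ≤ ε * √(X : ℝ) := by
    filter_upwards [eventually_ge_atTop 1, eventually_ge_atTop X1, eventually_ge_atTop X2,
      two_pow_le (1 / 400) (by norm_num), ev_le (1 / 400 + 5 / 12) (256 * Qz z) ε (by norm_num) hε,
      ev_le (97 / 200) (1 / δ) ε (by norm_num) hε] with X a1 a2 a3 a4 a5 a6
    exact ⟨a1, a2, a3, a4, a5, a6⟩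
  obtain ⟨X0, hX0⟩ := eventually_atTop.1 hev
  refine ⟨X0, fun X hX j hS1 => ?_⟩
  obtain ⟨b1, b2, b3, b4, b5, b6⟩ := hX0 X hX
  have hXp : (0 : ℝ) < X := by exact_mod_cast b1
  have hpr : ∀ s ∈ SX X, ∀ p ∈ s, p.Prime := by
    intro s hs p hp
    unfold SX PX PP at hs
    have h1 := (Finset.mem_powersetCard.1 hs).1 hp
    exact (Finset.mem_filter.1 h1).2
  have hcard : ∀ s ∈ SX X, s.card = kk X := fun s hs => (Finset.mem_powersetCard.1 hs).2
  have hS1n : 0 ≤ S1 X η' j := Finset.sum_nonneg fun s _ => win_nonneg _ _ _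
  constructor
  · have hterm : ∀ s ∈ SX X, ∀ t ∈ SX X, win η' j s * win η' j t * 2 ^ ((s ∩ t).card) *
        ∑ v ∈ Finset.Icc 1 ⌊2 * √(((prodS s * prodS t : ℕ) : ℝ) / X)⌋₊,
          (rho z r (prodS s * prodS t) v : ℝ) ≤
        win η' j s * win η' j t * ((X : ℝ) ^ (1 / 400 : ℝ) *
          (256 * Qz z * (X : ℝ) ^ (5 / 12 : ℝ))) := by
      intro s hs t ht
      rw [mul_assoc (win η' j s * win η' j t)]
      apply mul_le_mul_of_nonneg_left _ (mul_nonneg (win_nonneg _ _ _) (win_nonneg _ _ _))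
      apply mul_le_mul _ (inner hA z r s t (hpr s hs) (hpr t ht) X b1 (hX1 X b2 s hs).2
        (hX1 X b2 t ht).2) (Finset.sum_nonneg fun v _ => Nat.cast_nonneg _) (by positivity)
      refine le_trans ?_ b4
      apply pow_le_pow_right₀ (by norm_num)
      rw [← hcard s hs]
      exact Finset.card_le_card Finset.inter_subset_left
    calc _ ≤ ∑ s ∈ SX X, ∑ t ∈ SX X, win η' j s * win η' j t * ((X : ℝ) ^ (1 / 400 : ℝ) *
          (256 * Qz z * (X : ℝ) ^ (5 / 12 : ℝ))) :=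
          Finset.sum_le_sum fun s hs => Finset.sum_le_sum fun t ht => hterm s hs t ht
      _ = (256 * Qz z : ℝ) * (X : ℝ) ^ (1 / 400 + 5 / 12 : ℝ) * (S1 X η' j) ^ 2 := by
          simp_rw [← Finset.sum_mul]
          rw [← Finset.sum_mul_sum, Real.rpow_add hXp]
          unfold S1
          ring
      _ ≤ ε * √(X : ℝ) * (S1 X η' j) ^ 2 :=
          mul_le_mul_of_nonneg_right b5 (sq_nonneg _)
  · have hDD : ((DD z r X η).card : ℝ) ≤ X := by
      have h1 : (DD z r X η).card ≤ (Finset.Ioc X ⌊(1 + η) * X⌋₊).card :=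
        Finset.card_filter_le _ _
      rw [Nat.card_Ioc] at h1
      have h2 : (⌊(1 + η) * X⌋₊ : ℝ) ≤ (1 + η) * X := Nat.floor_le (by positivity)
      have h3 : X ≤ ⌊(1 + η) * X⌋₊ := Nat.le_floor (by nlinarith)
      have h4 : ((DD z r X η).card : ℝ) ≤ (⌊(1 + η) * X⌋₊ : ℝ) - X := by
        rw [← Nat.cast_sub h3]
        exact_mod_cast h1
      nlinarith
    have hterm : ∀ s ∈ SX X, (win η' j s) ^ 2 * 2 ^ (s.card) * ((DD z r X η).card : ℝ) ≤
        win η' j s * ((X : ℝ) ^ (1 / 400 : ℝ) * X) := by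
      intro s hs
      have h1 : (win η' j s) ^ 2 ≤ win η' j s := by
        have := win_nonneg η' j s
        have := win_le_one η' j s
        nlinarith
      rw [mul_assoc, hcard s hs]
      apply mul_le_mul h1 _ (by positivity) (win_nonneg _ _ _)
      exact mul_le_mul b4 hDD (Nat.cast_nonneg _) (by positivity)
    have hk : (kk X : ℝ) ≤ (X : ℝ) ^ (1 / 400 : ℝ) := by
      have h1 : kk X ≤ 2 ^ kk X := Nat.lt_two_pow_self.le
      have h2 : (kk X : ℝ) ≤ (2 : ℝ) ^ kk X := by exact_mod_cast h1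
      exact h2.trans b4
    have hk0 : (0 : ℝ) < kk X := by
      have : 0 < kk X := Nat.succ_pos _
      exact_mod_cast this
    have hlow : δ * (X : ℝ) ^ (13 / 25 - 1 / 400 : ℝ) ≤ S1 X η' j := by
      refine le_trans ?_ hS1
      rw [Real.rpow_sub hXp]
      have h1 := hX2 X b3
      have h2 : (0 : ℝ) < (X : ℝ) ^ (1 / 400 : ℝ) := by positivity
      rw [← mul_div_assoc, div_mul_eq_mul_div]
      apply div_le_div₀ (mul_nonneg hδ.le (Nat.cast_nonneg _)) _ hk0 hk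
      exact mul_le_mul_of_nonneg_left h1 hδ.le
    have hpos : 0 < δ * (X : ℝ) ^ (13 / 25 - 1 / 400 : ℝ) := by positivity
    calc _ ≤ ∑ s ∈ SX X, win η' j s * ((X : ℝ) ^ (1 / 400 : ℝ) * X) := Finset.sum_le_sum hterm
      _ = (X : ℝ) ^ (1 / 400 : ℝ) * X * S1 X η' j := by
          rw [← Finset.sum_mul]
          unfold S1
          ring
      _ ≤ (X : ℝ) ^ (1 / 400 : ℝ) * X * ((S1 X η' j) ^ 2 /
            (δ * (X : ℝ) ^ (13 / 25 - 1 / 400 : ℝ))) := by
          apply mul_le_mul_of_nonneg_left _ (by positivity)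
          rw [le_div_iff₀ hpos, pow_two]
          exact mul_le_mul_of_nonneg_left hlow hS1n
      _ = (1 / δ) * (X : ℝ) ^ (97 / 200 : ℝ) * (S1 X η' j) ^ 2 := by
          have h1 : (X : ℝ) ^ (97 / 200 : ℝ) * (X : ℝ) ^ (13 / 25 - 1 / 400 : ℝ) =
              (X : ℝ) ^ (1 / 400 : ℝ) * X := by
            nth_rw 4 [← Real.rpow_one (X : ℝ)]
            rw [← Real.rpow_add hXp, ← Real.rpow_add hXp]
            norm_num
          rw [← h1]
          have h2 : (0 : ℝ) < (X : ℝ) ^ (13 / 25 - 1 / 400 : ℝ) := by positivity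
          field_simp
      _ ≤ ε * √(X : ℝ) * (S1 X η' j) ^ 2 :=
          mul_le_mul_of_nonneg_right b6 (sq_nonneg _)

end Pool.Agent.H38R2.CG
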