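import Pool.Agent.H38R2.CG.Stubs

/-!
# The main term of the near collision sum
-/

set_option autoImplicit false

namespace Pool.Agent.H38R2.CG

open Finset Filter
open scoped Classical

namespace TB6h

/-- sum of an antitone function over the multiples of `f` -/
lemma sum_dvd_le (G : ℝ → ℝ) (hG : AntitoneOn G (Set.Ici 0)) (I : ℝ)
    (hI : ∀ V : ℝ, 0 ≤ V → ∫ x in (0 : ℝ)..V, G x ≤ I) (f V : ℕ) (hf : 1 ≤ f) :
    ∑ v ∈ (Finset.Icc 1 V).filter (fun v => f ∣ v), G v ≤ I / f := by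
  have hf0 : (0 : ℝ) < f := by exact_mod_cast hf
  have h1 : ∑ v ∈ (Finset.Icc 1 V).filter (fun v => f ∣ v), G v =
      ∑ k ∈ Finset.range (V / f), G ((f : ℝ) * (0 + ((k + 1 : ℕ) : ℝ))) := by
    symm
    refine Finset.sum_bij' (fun k _ => f * (k + 1)) (fun v _ => v / f - 1) ?_ ?_ ?_ ?_ ?_
    · intro k hk
      rw [Finset.mem_range] at hk
      rw [Finset.mem_filter, Finset.mem_Icc]
      refine ⟨⟨Nat.mul_pos (by omega) (by omega), ?_⟩, dvd_mul_right _ _⟩
      calc f * (k + 1) ≤ f * (V / f) := Nat.mul_le_mul_left _ (by omega)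
        _ ≤ V := Nat.mul_div_le V f
    · intro v hv
      rw [Finset.mem_filter, Finset.mem_Icc] at hv
      obtain ⟨⟨hv1, hv2⟩, c, rfl⟩ := hv
      rw [Finset.mem_range, Nat.mul_div_cancel_left c (by omega)]
      have hc : 0 < c := Nat.pos_of_ne_zero (by rintro rfl; simp at hv1)
      have : c ≤ V / f := (Nat.le_div_iff_mul_le (by omega)).2 (by rw [mul_comm]; exact hv2)
      omega
    · intro k _
      rw [Nat.mul_div_cancel_left _ (by omega)]
      omega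
    · intro v hv
      rw [Finset.mem_filter, Finset.mem_Icc] at hv
      obtain ⟨⟨hv1, hv2⟩, c, rfl⟩ := hv
      rw [Nat.mul_div_cancel_left c (by omega)]
      have hc : 0 < c := Nat.pos_of_ne_zero (by rintro rfl; simp at hv1)
      congr 1
      omega
    · intro k _
      congr 1
      push_cast
      ring
  rw [h1]
  have hanti : AntitoneOn (fun x : ℝ => G ((f : ℝ) * x)) (Set.Icc (0 : ℝ) (0 + ((V / f : ℕ) : ℝ))) := by
    intro x hx y hy hxy
    exact hG (Set.mem_Ici.2 (mul_nonneg hf0.le hx.1)) (Set.mem_Ici.2 (mul_nonneg hf0.le hy.1))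
      (mul_le_mul_of_nonneg_left hxy hf0.le)
  refine hanti.sum_le_integral.trans ?_
  rw [intervalIntegral.integral_comp_mul_left (fun x => G x) hf0.ne', smul_eq_mul, mul_zero]
  rw [div_eq_inv_mul]
  exact mul_le_mul_of_nonneg_left (hI _ (by positivity)) (inv_nonneg.2 hf0.le)

lemma Qz_pos (z : ℕ) : 0 < Qz z := by
  unfold Qz
  refine Nat.mul_pos (by norm_num) (Finset.prod_pos fun l hl => ?_)
  rw [Finset.mem_filter] at hl
  exact pow_pos hl.2.pos 2

lemma prime_dvd_Qz {z p : ℕ} (hz : 2 ≤ z) (hp : p.Prime) (h : p ∣ Qz z) : p ≤ z := by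
  unfold Qz at h
  rcases hp.dvd_mul.1 h with h | h
  · have : p ∣ 2 ^ 4 := by simpa using h
    have := (Nat.prime_dvd_prime_iff_eq hp Nat.prime_two).1 (hp.dvd_of_dvd_pow this)
    omega
  · obtain ⟨l, hl, hpl⟩ := (hp.prime.dvd_finsetProd_iff _).1 h
    rw [Finset.mem_filter, Finset.mem_Icc] at hl
    have := (Nat.prime_dvd_prime_iff_eq hp hl.2).1 (hp.dvd_of_dvd_pow hpl)
    omega

lemma dvd_Qz {z p : ℕ} (hp : p.Prime) (h : p ≤ z) : p ∣ Qz z := by
  unfold Qz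
  rcases hp.two_le.eq_or_lt with h2 | h2
  · exact dvd_mul_of_dvd_left (by rw [← h2]; norm_num) _
  · refine dvd_mul_of_dvd_right ?_ _
    refine (dvd_pow_self p two_ne_zero).trans ?_
    exact Finset.dvd_prod_of_mem (fun l => l ^ 2)
      (Finset.mem_filter.2 ⟨Finset.mem_Icc.2 ⟨h2, h⟩, hp⟩)

/-- product of `E`-th powers of the primes up to `z` -/
def LE (z E : ℕ) : ℕ := ∏ l ∈ (Finset.Icc 2 z).filter Nat.Prime, l ^ E

lemma LE_pos (z E : ℕ) : 0 < LE z E := by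
  unfold LE
  refine Finset.prod_pos fun l hl => ?_
  rw [Finset.mem_filter] at hl
  exact pow_pos hl.2.pos E

lemma coprime_LE {z E f : ℕ} (h : f.Coprime (Qz z)) : f.Coprime (LE z E) := by
  unfold LE
  refine Nat.Coprime.prod_right fun l hl => ?_
  rw [Finset.mem_filter, Finset.mem_Icc] at hl
  exact Nat.Coprime.pow_right E (h.coprime_dvd_right (dvd_Qz hl.2 hl.1.2))

lemma qpart_dvd {z E v : ℕ} (hz : 2 ≤ z) (hv : 1 ≤ v)
    (hgood : ∀ l ∈ (Finset.Icc 2 z).filter Nat.Prime, ¬ l ^ E ∣ v) : qpart z v ∣ LE z E := by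
  unfold qpart LE
  have hsub : v.primeFactors.filter (fun p => p ∣ Qz z) ⊆ (Finset.Icc 2 z).filter Nat.Prime := by
    intro p hp
    rw [Finset.mem_filter] at hp
    have hpp := Nat.prime_of_mem_primeFactors hp.1
    rw [Finset.mem_filter, Finset.mem_Icc]
    exact ⟨⟨hpp.two_le, prime_dvd_Qz hz hpp hp.2⟩, hpp⟩
  refine (Finset.prod_dvd_prod_of_dvd _ (fun l => l ^ E) ?_).trans
    (Finset.prod_dvd_prod_of_subset _ _ _ hsub)
  intro p hp
  refine pow_dvd_pow p ?_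
  by_contra hcon
  push Not at hcon
  refine hgood p (hsub hp) ?_
  exact (pow_dvd_pow p hcon.le).trans (Nat.ordProj_dvd v p)

lemma coprime_all {z E f w : ℕ} (hw : w ∣ LE z E) (h : f.Coprime (Qz z)) :
    f.Coprime (2 * (Qz z * w ^ 2)) := by
  have h2 : (2 : ℕ) ∣ Qz z := by
    unfold Qz
    exact dvd_mul_of_dvd_left (by norm_num) _
  refine Nat.Coprime.mul_right (h.coprime_dvd_right h2) (Nat.Coprime.mul_right h ?_)
  exact Nat.Coprime.pow_right 2 ((coprime_LE h).coprime_dvd_right hw)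

lemma chi_abs (D : ℤ) (n : ℕ) : |chi D n| ≤ 1 := by
  unfold chi
  rw [abs_mul, abs_pow]
  have h1 : |chi2 D| ≤ 1 := by
    unfold chi2
    split_ifs <;> simp
  have h2 : |jacobiSym D (n / 2 ^ padicValNat 2 n)| ≤ 1 := by
    rcases jacobiSym.trichotomy D (n / 2 ^ padicValNat 2 n) with h | h | h <;> rw [h] <;> simp
  exact mul_le_one₀ (pow_le_one₀ (abs_nonneg _) h1) (abs_nonneg _) h2

lemma PiR_pos (z r : ℕ) : 0 < PiR z r := by
  unfold PiR
  refine Finset.prod_pos fun l hl => ?_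
  rw [Finset.mem_filter, Finset.mem_Icc] at hl
  have h2 : (2 : ℝ) ≤ l := by exact_mod_cast hl.1.1
  have h1 : (chi r l : ℝ) ≤ 1 := by
    have := (abs_le.1 (chi_abs r l)).2
    exact_mod_cast this
  have h3 : (chi r l : ℝ) / l ≤ 1 / 2 := by
    rw [div_le_div_iff₀ (by linarith) (by norm_num)]
    linarith
  linarith

/-- the sum over the nontrivial pairs -/
noncomputable def cM (X : ℕ) (η' : ℝ) (j : ℤ) (M f : ℕ) : ℝ :=
  ∑ ψ : DirichletCharacter ℂ M, if ψ = 1 ∧ f = 1 then 0 else ‖Sch X η' j M ψ f‖ ^ 2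

lemma cM_nonneg (X : ℕ) (η' : ℝ) (j : ℤ) (M f : ℕ) : 0 ≤ cM X η' j M f := by
  unfold cM
  refine Finset.sum_nonneg fun ψ _ => ?_
  split_ifs
  · exact le_rfl
  · positivity

/-- the moduli -/
noncomputable def MS (z E : ℕ) : Finset ℕ :=
  insert 1 ((LE z E).divisors.image (fun w => Qz z * w ^ 2))

lemma win_nonneg (η' : ℝ) (j : ℤ) (s : Finset ℕ) : 0 ≤ win η' j s := by
  unfold win phi
  exact le_max_left _ _

/-- the square of the twisted sum with trivial character -/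
lemma sq_sum_le (X : ℕ) (η' : ℝ) (j : ℤ) (f : ℕ) :
    ∑ s ∈ SX X, ∑ t ∈ SX X, win η' j s * win η' j t *
      ((jacobiSym ((prodS s * prodS t : ℕ) : ℤ) f : ℤ) : ℝ) ≤
    (if f = 1 then (S1 X η' j) ^ 2 else 0) + cM X η' j 1 f := by
  have h1 : ∑ s ∈ SX X, ∑ t ∈ SX X, win η' j s * win η' j t *
      ((jacobiSym ((prodS s * prodS t : ℕ) : ℤ) f : ℤ) : ℝ) =
      (∑ s ∈ SX X, win η' j s * ((jacobiSym (prodS s : ℤ) f : ℤ) : ℝ)) ^ 2 := by
    rw [sq, Finset.sum_mul_sum]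
    refine Finset.sum_congr rfl fun s _ => Finset.sum_congr rfl fun t _ => ?_
    rw [Nat.cast_mul, jacobiSym.mul_left]
    push_cast
    ring
  rw [h1]
  by_cases hf : f = 1
  · subst hf
    rw [if_pos rfl]
    have h2 : ∑ s ∈ SX X, win η' j s * ((jacobiSym (prodS s : ℤ) 1 : ℤ) : ℝ) = S1 X η' j := by
      unfold S1
      refine Finset.sum_congr rfl fun s _ => ?_
      rw [jacobiSym.one_right]
      simp
    rw [h2]
    have := cM_nonneg X η' j 1 1
    linarith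
  · rw [if_neg hf, zero_add]
    unfold cM
    have h2 : ‖Sch X η' j 1 1 f‖ ^ 2 =
        (∑ s ∈ SX X, win η' j s * ((jacobiSym (prodS s : ℤ) f : ℤ) : ℝ)) ^ 2 := by
      have h3 : Sch X η' j 1 1 f =
          ((∑ s ∈ SX X, win η' j s * ((jacobiSym (prodS s : ℤ) f : ℤ) : ℝ) : ℝ) : ℂ) := by
        unfold Sch
        push_cast
        refine Finset.sum_congr rfl fun s _ => ?_
        have h4 : (1 : DirichletCharacter ℂ 1) (prodS s : ZMod 1) = 1 := by
          apply MulChar.one_apply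
          exact isUnit_of_subsingleton _
        rw [h4, mul_one]
      rw [h3, Complex.norm_real, Real.norm_eq_abs, sq_abs]
    rw [← h2]
    have h5 := Finset.single_le_sum
      (f := fun ψ : DirichletCharacter ℂ 1 =>
        if ψ = 1 ∧ f = 1 then (0 : ℝ) else ‖Sch X η' j 1 ψ f‖ ^ 2)
      (fun ψ _ => by
        split_ifs
        · exact le_rfl
        · positivity) (Finset.mem_univ (1 : DirichletCharacter ℂ 1))
    simp only [hf, and_false, if_false] at h5 ⊢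
    exact h5

lemma swap3 {α β γ : Type} (A : Finset α) (B : Finset β) (C : Finset γ) (g : α → β → γ → ℝ) :
    ∑ a ∈ A, ∑ b ∈ B, ∑ c ∈ C, g a b c = ∑ b ∈ B, ∑ c ∈ C, ∑ a ∈ A, g a b c := by
  rw [Finset.sum_comm]
  refine Finset.sum_congr rfl fun b _ => ?_
  rw [Finset.sum_comm]

/-- pointwise bound -/
lemma A_le (h3c : P_TB3c) (h3d : P_TB3d) (h6b : P_TB6b) (h6d : P_TB6d) {z r X : ℕ} {η' : ℝ}
    {j : ℤ} (hz : 2 ≤ z) (hr : FundRes z r) (hcop : ∀ s ∈ SX X, (prodS s).Coprime (Qz z))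
    (E v : ℕ) (hv : 1 ≤ v) :
    ∑ s ∈ SX X, ∑ t ∈ SX X, win η' j s * win η' j t *
      ((rhoQ z r (prodS s * prodS t) v : ℝ) * jprod z (prodS s * prodS t) v) ≤
    rbar z r v * (S1 X η' j) ^ 2 +
      (Qz z * 8 * 2 ^ z : ℝ) * (∑ M ∈ MS z E, ∑ f ∈ v.divisors.filter
        (fun f => Squarefree f ∧ f.Coprime (Qz z)), cM X η' j M f) +
      (Qz z * 8 * 2 ^ z : ℝ) * ((S1 X η' j) ^ 2 * ∑ l ∈ (Finset.Icc 2 z).filter Nat.Prime,
        if l ^ E ∣ v then (1 : ℝ) else 0) := by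
  set C0 : ℝ := (Qz z * 8 * 2 ^ z : ℝ) with hC0
  have hC0nn : 0 ≤ C0 := by rw [hC0]; positivity
  set F := v.divisors.filter (fun f => Squarefree f ∧ f.Coprime (Qz z)) with hF
  have hcnn : ∀ M f, 0 ≤ cM X η' j M f := cM_nonneg X η' j
  have hrb : 0 ≤ rbar z r v * (S1 X η' j) ^ 2 := mul_nonneg ((h6b z r hz hr).1 v) (sq_nonneg _)
  have hbadnn : 0 ≤ C0 * ((S1 X η' j) ^ 2 * ∑ l ∈ (Finset.Icc 2 z).filter Nat.Prime,
        if l ^ E ∣ v then (1 : ℝ) else 0) := by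
    refine mul_nonneg hC0nn (mul_nonneg (sq_nonneg _) (Finset.sum_nonneg fun l _ => ?_))
    split_ifs <;> norm_num
  have hMnn : ∀ M, 0 ≤ ∑ f ∈ F, cM X η' j M f := fun M => Finset.sum_nonneg fun f _ => hcnn M f
  by_cases hgood : ∀ l ∈ (Finset.Icc 2 z).filter Nat.Prime, ¬ l ^ E ∣ v
  · -- good v
    have hexp : ∑ s ∈ SX X, ∑ t ∈ SX X, win η' j s * win η' j t *
        ((rhoQ z r (prodS s * prodS t) v : ℝ) * jprod z (prodS s * prodS t) v) =
        ∑ f ∈ F, ∑ s ∈ SX X, ∑ t ∈ SX X, win η' j s * win η' j t *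
          (rhoQ z r (prodS s * prodS t) v : ℝ) *
          ((jacobiSym ((prodS s * prodS t : ℕ) : ℤ) f : ℤ) : ℝ) := by
      rw [swap3 F (SX X) (SX X)]
      refine Finset.sum_congr rfl fun s _ => ?_
      refine Finset.sum_congr rfl fun t _ => ?_
      rw [(h3d z (prodS s * prodS t) v hv).2, Finset.mul_sum, Finset.mul_sum]
      refine Finset.sum_congr rfl fun f _ => ?_
      ring
    rw [hexp]
    have hone : (1 : ℕ) ∈ F := by
      rw [hF, Finset.mem_filter]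
      exact ⟨Nat.one_mem_divisors.2 (by omega), squarefree_one, Nat.coprime_one_left _⟩
    have hterm : ∀ f ∈ F, ∑ s ∈ SX X, ∑ t ∈ SX X, win η' j s * win η' j t *
          (rhoQ z r (prodS s * prodS t) v : ℝ) *
          ((jacobiSym ((prodS s * prodS t : ℕ) : ℤ) f : ℤ) : ℝ) ≤
        (if f = 1 then rbar z r v * (S1 X η' j) ^ 2 else 0) +
          C0 * cM X η' j (Qz z * (qpart z v) ^ 2) f := by
      intro f _
      have := (abs_le.1 (h6d z r v f X η' j hz hr hv hcop)).2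
      unfold cM
      linarith
    refine (Finset.sum_le_sum hterm).trans ?_
    rw [Finset.sum_add_distrib, Finset.sum_ite_eq' F 1, if_pos hone, ← Finset.mul_sum]
    have hmem : Qz z * (qpart z v) ^ 2 ∈ MS z E := by
      unfold MS
      refine Finset.mem_insert_of_mem (Finset.mem_image.2 ⟨qpart z v, ?_, rfl⟩)
      exact Nat.mem_divisors.2 ⟨qpart_dvd hz hv hgood, (LE_pos z E).ne'⟩
    have h7 : ∑ f ∈ F, cM X η' j (Qz z * (qpart z v) ^ 2) f ≤
        ∑ M ∈ MS z E, ∑ f ∈ F, cM X η' j M f :=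
      Finset.single_le_sum (f := fun M => ∑ f ∈ F, cM X η' j M f) (fun M _ => hMnn M) hmem
    have h8 := mul_le_mul_of_nonneg_left h7 hC0nn
    linarith
  · -- bad v
    push Not at hgood
    obtain ⟨l0, hl0, hl0v⟩ := hgood
    have h1 : ∑ s ∈ SX X, ∑ t ∈ SX X, win η' j s * win η' j t *
        ((rhoQ z r (prodS s * prodS t) v : ℝ) * jprod z (prodS s * prodS t) v) ≤
        C0 * ∑ s ∈ SX X, ∑ t ∈ SX X, win η' j s * win η' j t *
          jprod z (prodS s * prodS t) v := by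
      rw [Finset.mul_sum]
      refine Finset.sum_le_sum fun s hs => ?_
      rw [Finset.mul_sum]
      refine Finset.sum_le_sum fun t ht => ?_
      have h2 : (rhoQ z r (prodS s * prodS t) v : ℝ) ≤ C0 := by
        have := h3c z r (prodS s * prodS t) v hv
          (Nat.Coprime.mul_left (hcop s hs) (hcop t ht))
        rw [hC0]
        exact_mod_cast this
      have h3 := (h3d z (prodS s * prodS t) v hv).1
      have h4 := mul_nonneg (win_nonneg η' j s) (win_nonneg η' j t)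
      calc win η' j s * win η' j t *
          ((rhoQ z r (prodS s * prodS t) v : ℝ) * jprod z (prodS s * prodS t) v)
          ≤ win η' j s * win η' j t * (C0 * jprod z (prodS s * prodS t) v) :=
            mul_le_mul_of_nonneg_left (mul_le_mul_of_nonneg_right h2 h3) h4
        _ = _ := by ring
    have h5 : ∑ s ∈ SX X, ∑ t ∈ SX X, win η' j s * win η' j t *
          jprod z (prodS s * prodS t) v =
        ∑ f ∈ F, ∑ s ∈ SX X, ∑ t ∈ SX X, win η' j s * win η' j t *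
          ((jacobiSym ((prodS s * prodS t : ℕ) : ℤ) f : ℤ) : ℝ) := by
      rw [swap3 F (SX X) (SX X)]
      refine Finset.sum_congr rfl fun s _ => ?_
      refine Finset.sum_congr rfl fun t _ => ?_
      rw [(h3d z (prodS s * prodS t) v hv).2, Finset.mul_sum]
    have h6 : ∑ f ∈ F, ∑ s ∈ SX X, ∑ t ∈ SX X, win η' j s * win η' j t *
          ((jacobiSym ((prodS s * prodS t : ℕ) : ℤ) f : ℤ) : ℝ) ≤
        (S1 X η' j) ^ 2 + ∑ f ∈ F, cM X η' j 1 f := by
      refine (Finset.sum_le_sum fun f _ => sq_sum_le X η' j f).trans ?_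
      rw [Finset.sum_add_distrib]
      have h7 : ∑ f ∈ F, (if f = 1 then (S1 X η' j) ^ 2 else 0) ≤ (S1 X η' j) ^ 2 := by
        rw [Finset.sum_ite_eq' F 1]
        split_ifs
        · exact le_rfl
        · exact sq_nonneg _
      linarith
    have h8 : ∑ f ∈ F, cM X η' j 1 f ≤ ∑ M ∈ MS z E, ∑ f ∈ F, cM X η' j M f :=
      Finset.single_le_sum (f := fun M => ∑ f ∈ F, cM X η' j M f) (fun M _ => hMnn M)
        (Finset.mem_insert_self _ _)
    have h9 : (1 : ℝ) ≤ ∑ l ∈ (Finset.Icc 2 z).filter Nat.Prime,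
        if l ^ E ∣ v then (1 : ℝ) else 0 := by
      have := Finset.single_le_sum (f := fun l => if l ^ E ∣ v then (1 : ℝ) else 0)
        (fun l _ => by split_ifs <;> norm_num) hl0
      simp only [hl0v, if_true] at this
      exact this
    have h10 : (S1 X η' j) ^ 2 ≤ (S1 X η' j) ^ 2 * ∑ l ∈ (Finset.Icc 2 z).filter Nat.Prime,
        (if l ^ E ∣ v then (1 : ℝ) else 0) := le_mul_of_one_le_right (sq_nonneg _) h9
    calc _ ≤ C0 * ∑ s ∈ SX X, ∑ t ∈ SX X, win η' j s * win η' j t *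
          jprod z (prodS s * prodS t) v := h1
      _ ≤ C0 * ((S1 X η' j) ^ 2 * (∑ l ∈ (Finset.Icc 2 z).filter Nat.Prime,
            (if l ^ E ∣ v then (1 : ℝ) else 0)) +
            ∑ M ∈ MS z E, ∑ f ∈ F, cM X η' j M f) := by
          rw [h5]
          exact mul_le_mul_of_nonneg_left (by linarith) hC0nn
      _ ≤ _ := by linarith

lemma MS_pos {z E M : ℕ} (hM : M ∈ MS z E) : 1 ≤ M := by
  unfold MS at hM
  rcases Finset.mem_insert.1 hM with h | h
  · omega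
  · obtain ⟨w, hw, rfl⟩ := Finset.mem_image.1 h
    have hw0 : 0 < w := Nat.pos_of_dvd_of_pos (Nat.dvd_of_mem_divisors hw) (LE_pos z E)
    exact Nat.mul_pos (Qz_pos z) (pow_pos hw0 2)

lemma MS_cop {z E M f : ℕ} (hM : M ∈ MS z E) (hf : f.Coprime (Qz z)) : f.Coprime (2 * M) := by
  unfold MS at hM
  rcases Finset.mem_insert.1 hM with h | h
  · rw [h, mul_one]
    refine hf.coprime_dvd_right ?_
    unfold Qz
    exact dvd_mul_of_dvd_left (by norm_num) _
  · obtain ⟨w, hw, rfl⟩ := Finset.mem_image.1 h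
    exact coprime_all (Nat.dvd_of_mem_divisors hw) hf

/-- the contribution of the nontrivial characters -/
lemma char_part {z X V : ℕ} (E : ℕ) {η' : ℝ} {j : ℤ} (G : ℝ → ℝ)
    (hG : AntitoneOn G (Set.Ici 0)) (I : ℝ) (hI0 : 0 ≤ I)
    (hI : ∀ V : ℝ, 0 ≤ V → ∫ x in (0 : ℝ)..V, G x ≤ I) (ε1 : ℝ) (hV : V ≤ X)
    (hCM : ∀ M ∈ MS z E, ∑ f ∈ (Finset.Icc 1 X).filter (fun f => Squarefree f ∧ f.Coprime (2 * M)),
      ∑ ψ : DirichletCharacter ℂ M,
        (if ψ = 1 ∧ f = 1 then 0 else ‖Sch X η' j M ψ f‖ ^ 2 / f) ≤ ε1 * (S1 X η' j) ^ 2) :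
    ∑ v ∈ Finset.Icc 1 V, G v * (∑ M ∈ MS z E, ∑ f ∈ v.divisors.filter
        (fun f => Squarefree f ∧ f.Coprime (Qz z)), cM X η' j M f) ≤
      (MS z E).card * (I * (ε1 * (S1 X η' j) ^ 2)) := by
  have h1 : ∑ v ∈ Finset.Icc 1 V, G v * (∑ M ∈ MS z E, ∑ f ∈ v.divisors.filter
        (fun f => Squarefree f ∧ f.Coprime (Qz z)), cM X η' j M f) =
      ∑ M ∈ MS z E, ∑ v ∈ Finset.Icc 1 V, ∑ f ∈ v.divisors.filter
        (fun f => Squarefree f ∧ f.Coprime (Qz z)), G v * cM X η' j M f := by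
    rw [Finset.sum_comm]
    refine Finset.sum_congr rfl fun v _ => ?_
    rw [Finset.mul_sum]
    refine Finset.sum_congr rfl fun M _ => ?_
    rw [Finset.mul_sum]
  rw [h1, ← nsmul_eq_mul]
  refine Finset.sum_le_card_nsmul _ _ _ fun M hM => ?_
  have h2 : ∑ v ∈ Finset.Icc 1 V, ∑ f ∈ v.divisors.filter
        (fun f => Squarefree f ∧ f.Coprime (Qz z)), G v * cM X η' j M f =
      ∑ f ∈ (Finset.Icc 1 V).filter (fun f => Squarefree f ∧ f.Coprime (Qz z)),
        ∑ v ∈ (Finset.Icc 1 V).filter (fun v => f ∣ v), G v * cM X η' j M f := by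
    refine Finset.sum_comm' ?_
    intro v f
    simp only [Finset.mem_Icc, Finset.mem_filter, Nat.mem_divisors]
    constructor
    · rintro ⟨⟨hv1, hv2⟩, ⟨hfv, -⟩, hf⟩
      exact ⟨⟨⟨hv1, hv2⟩, hfv⟩, ⟨Nat.pos_of_dvd_of_pos hfv hv1, (Nat.le_of_dvd hv1 hfv).trans hv2⟩,
        hf⟩
    · rintro ⟨⟨⟨hv1, hv2⟩, hfv⟩, -, hf⟩
      exact ⟨⟨hv1, hv2⟩, ⟨hfv, by omega⟩, hf⟩
  rw [h2]
  have h3 : ∀ f ∈ (Finset.Icc 1 V).filter (fun f => Squarefree f ∧ f.Coprime (Qz z)),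
      ∑ v ∈ (Finset.Icc 1 V).filter (fun v => f ∣ v), G v * cM X η' j M f ≤
      I * ∑ ψ : DirichletCharacter ℂ M,
        (if ψ = 1 ∧ f = 1 then 0 else ‖Sch X η' j M ψ f‖ ^ 2 / f) := by
    intro f hf
    rw [Finset.mem_filter, Finset.mem_Icc] at hf
    rw [← Finset.sum_mul]
    have h4 := sum_dvd_le G hG I hI f V hf.1.1
    calc (∑ v ∈ (Finset.Icc 1 V).filter (fun v => f ∣ v), G v) * cM X η' j M f
        ≤ I / f * cM X η' j M f := mul_le_mul_of_nonneg_right h4 (cM_nonneg X η' j M f)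
      _ = _ := by
        unfold cM
        rw [Finset.mul_sum, Finset.mul_sum]
        refine Finset.sum_congr rfl fun ψ _ => ?_
        split_ifs
        · simp
        · ring
  refine (Finset.sum_le_sum h3).trans ?_
  rw [← Finset.mul_sum]
  refine mul_le_mul_of_nonneg_left ?_ hI0
  refine le_trans (Finset.sum_le_sum_of_subset_of_nonneg ?_ ?_) (hCM M hM)
  · intro f hf
    rw [Finset.mem_filter, Finset.mem_Icc] at hf ⊢
    exact ⟨⟨hf.1.1, hf.1.2.trans hV⟩, hf.2.1, MS_cop hM hf.2.2⟩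
  · intro f _ _
    refine Finset.sum_nonneg fun ψ _ => ?_
    split_ifs
    · exact le_rfl
    · positivity

/-- the contribution of the v divisible by a high power of a small prime -/
lemma bad_part {z V : ℕ} (E : ℕ) (G : ℝ → ℝ)
    (hG : AntitoneOn G (Set.Ici 0)) (I : ℝ) (hI0 : 0 ≤ I)
    (hI : ∀ V : ℝ, 0 ≤ V → ∫ x in (0 : ℝ)..V, G x ≤ I) :
    ∑ v ∈ Finset.Icc 1 V, G v * (∑ l ∈ (Finset.Icc 2 z).filter Nat.Prime,
        if l ^ E ∣ v then (1 : ℝ) else 0) ≤ I * (z * (1 / 2 : ℝ) ^ E) := by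
  have h1 : ∑ v ∈ Finset.Icc 1 V, G v * (∑ l ∈ (Finset.Icc 2 z).filter Nat.Prime,
        if l ^ E ∣ v then (1 : ℝ) else 0) =
      ∑ l ∈ (Finset.Icc 2 z).filter Nat.Prime,
        ∑ v ∈ (Finset.Icc 1 V).filter (fun v => l ^ E ∣ v), G v := by
    simp_rw [Finset.mul_sum]
    rw [Finset.sum_comm]
    refine Finset.sum_congr rfl fun l _ => ?_
    rw [Finset.sum_filter]
    refine Finset.sum_congr rfl fun v _ => ?_
    split_ifs <;> simp
  rw [h1]
  have h2 : ∀ l ∈ (Finset.Icc 2 z).filter Nat.Prime,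
      ∑ v ∈ (Finset.Icc 1 V).filter (fun v => l ^ E ∣ v), G v ≤ I * (1 / 2 : ℝ) ^ E := by
    intro l hl
    rw [Finset.mem_filter, Finset.mem_Icc] at hl
    refine (sum_dvd_le G hG I hI (l ^ E) V (Nat.one_le_pow _ _ (by omega))).trans ?_
    rw [div_eq_mul_inv]
    refine mul_le_mul_of_nonneg_left ?_ hI0
    rw [one_div, inv_pow]
    push_cast
    have h3 : (2 : ℝ) ≤ l := by exact_mod_cast hl.1.1
    exact inv_anti₀ (by positivity) (pow_le_pow_left₀ (by norm_num) h3 E)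
  refine (Finset.sum_le_card_nsmul _ _ _ h2).trans ?_
  rw [nsmul_eq_mul]
  have h3 : (((Finset.Icc 2 z).filter Nat.Prime).card : ℝ) ≤ z := by
    have : ((Finset.Icc 2 z).filter Nat.Prime).card ≤ z := by
      refine (Finset.card_filter_le _ _).trans ?_
      rw [Nat.card_Icc]
      omega
    exact_mod_cast this
  calc (((Finset.Icc 2 z).filter Nat.Prime).card : ℝ) * (I * (1 / 2 : ℝ) ^ E)
      ≤ z * (I * (1 / 2 : ℝ) ^ E) := mul_le_mul_of_nonneg_right h3 (by positivity)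
    _ = _ := by ring

/-- summation over v -/
lemma core (h3c : P_TB3c) (h3d : P_TB3d) (h6b : P_TB6b) (h6c : P_TB6c) (h6d : P_TB6d)
    {z r X V : ℕ} {η' : ℝ}
    {j : ℤ} (hz : 2 ≤ z) (hr : FundRes z r) (hcop : ∀ s ∈ SX X, (prodS s).Coprime (Qz z))
    (E : ℕ) (G : ℝ → ℝ)
    (hG : AntitoneOn G (Set.Ici 0)) (hGnn : ∀ x, 0 ≤ G x) (I : ℝ) (hI0 : 0 ≤ I)
    (hI : ∀ V : ℝ, 0 ≤ V → ∫ x in (0 : ℝ)..V, G x ≤ I) (ε1 : ℝ) (hV : V ≤ X)
    (hCM : ∀ M ∈ MS z E, ∑ f ∈ (Finset.Icc 1 X).filter (fun f => Squarefree f ∧ f.Coprime (2 * M)),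
      ∑ ψ : DirichletCharacter ℂ M,
        (if ψ = 1 ∧ f = 1 then 0 else ‖Sch X η' j M ψ f‖ ^ 2 / f) ≤ ε1 * (S1 X η' j) ^ 2) :
    ∑ s ∈ SX X, ∑ t ∈ SX X, win η' j s * win η' j t *
      ∑ v ∈ Finset.Icc 1 V, (rhoQ z r (prodS s * prodS t) v : ℝ) *
        jprod z (prodS s * prodS t) v * G v ≤
      (2 * PiR z r * (((∏ l ∈ (Finset.Icc 2 z).filter Nat.Prime, l : ℕ) : ℝ) * G 0 + I) +
        (Qz z * 8 * 2 ^ z : ℝ) * ((MS z E).card * (I * ε1)) +
        (Qz z * 8 * 2 ^ z : ℝ) * (I * (z * (1 / 2 : ℝ) ^ E))) * (S1 X η' j) ^ 2 := by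
  have h1 : ∑ s ∈ SX X, ∑ t ∈ SX X, win η' j s * win η' j t *
      ∑ v ∈ Finset.Icc 1 V, (rhoQ z r (prodS s * prodS t) v : ℝ) *
        jprod z (prodS s * prodS t) v * G v =
      ∑ v ∈ Finset.Icc 1 V, G v * ∑ s ∈ SX X, ∑ t ∈ SX X, win η' j s * win η' j t *
        ((rhoQ z r (prodS s * prodS t) v : ℝ) * jprod z (prodS s * prodS t) v) := by
    have h2 : ∀ v ∈ Finset.Icc 1 V, G v * ∑ s ∈ SX X, ∑ t ∈ SX X, win η' j s * win η' j t *
        ((rhoQ z r (prodS s * prodS t) v : ℝ) * jprod z (prodS s * prodS t) v) =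
        ∑ s ∈ SX X, ∑ t ∈ SX X, win η' j s * win η' j t *
        ((rhoQ z r (prodS s * prodS t) v : ℝ) * jprod z (prodS s * prodS t) v * G v) := by
      intro v _
      rw [Finset.mul_sum]
      refine Finset.sum_congr rfl fun s _ => ?_
      rw [Finset.mul_sum]
      refine Finset.sum_congr rfl fun t _ => ?_
      ring
    rw [Finset.sum_congr rfl h2, swap3]
    refine Finset.sum_congr rfl fun s _ => Finset.sum_congr rfl fun t _ => ?_
    rw [Finset.mul_sum]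
  rw [h1]
  have h3 : ∀ v ∈ Finset.Icc 1 V, G v * ∑ s ∈ SX X, ∑ t ∈ SX X, win η' j s * win η' j t *
        ((rhoQ z r (prodS s * prodS t) v : ℝ) * jprod z (prodS s * prodS t) v) ≤
      rbar z r v * G v * (S1 X η' j) ^ 2 +
      (Qz z * 8 * 2 ^ z : ℝ) * (G v * (∑ M ∈ MS z E, ∑ f ∈ v.divisors.filter
        (fun f => Squarefree f ∧ f.Coprime (Qz z)), cM X η' j M f)) +
      (Qz z * 8 * 2 ^ z : ℝ) * ((S1 X η' j) ^ 2 *
        (G v * ∑ l ∈ (Finset.Icc 2 z).filter Nat.Prime, if l ^ E ∣ v then (1 : ℝ) else 0)) := by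
    intro v hv
    have h4 := mul_le_mul_of_nonneg_left
      (A_le h3c h3d h6b h6d (X := X) (η' := η') (j := j) hz hr hcop E v (Finset.mem_Icc.1 hv).1)
      (hGnn v)
    refine h4.trans (le_of_eq ?_)
    ring
  refine (Finset.sum_le_sum h3).trans ?_
  rw [Finset.sum_add_distrib, Finset.sum_add_distrib, ← Finset.sum_mul, ← Finset.mul_sum,
    ← Finset.mul_sum, ← Finset.mul_sum]
  obtain ⟨hb1, hb2, hb3⟩ := h6b z r hz hr
  have hq1 : 1 ≤ ∏ l ∈ (Finset.Icc 2 z).filter Nat.Prime, l := by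
    have : 0 < ∏ l ∈ (Finset.Icc 2 z).filter Nat.Prime, l :=
      Finset.prod_pos fun l hl => Nat.Prime.pos (Finset.mem_filter.1 hl).2
    exact this
  have hmain := h6c (∏ l ∈ (Finset.Icc 2 z).filter Nat.Prime, l) (fun v => rbar z r v) G I
    (2 * PiR z r) hq1 hb1 hb2 hb3 hG hGnn hI V
  have hch := char_part (z := z) (X := X) (V := V) E (η' := η') (j := j) G hG I hI0 hI ε1 hV hCM
  have hbad := bad_part (z := z) (V := V) E G hG I hI0 hI
  have hC0 : (0 : ℝ) ≤ (Qz z * 8 * 2 ^ z : ℝ) := by positivity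
  have k1 := mul_le_mul_of_nonneg_right hmain (sq_nonneg (S1 X η' j))
  have k2 := mul_le_mul_of_nonneg_left hch hC0
  have k3 := mul_le_mul_of_nonneg_left (mul_le_mul_of_nonneg_left hbad (sq_nonneg (S1 X η' j))) hC0
  refine (add_le_add (add_le_add k1 k2) k3).trans (le_of_eq ?_)
  ring

/-- lower bound for the square root of n0 -/
lemma exp_lower {X : ℕ} {η' : ℝ} {j : ℤ} (hη' : 0 < η')
    (hSZ : ∀ s ∈ SX X, (X : ℝ) ^ (13 / 20 : ℝ) ≤ prodS s) (hX : 1 ≤ X)
    (hS1 : 0 < S1 X η' j) : (X : ℝ) ^ (13 / 20 : ℝ) * Real.exp (-η') ≤ Real.exp (η' * j) := by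
  have hX0 : (0 : ℝ) < X := by exact_mod_cast hX
  obtain ⟨s, hs, hpos⟩ : ∃ s ∈ SX X, 0 < win η' j s := by
    by_contra hcon
    push Not at hcon
    have : S1 X η' j ≤ 0 := Finset.sum_nonpos hcon
    linarith
  have h1 := hSZ s hs
  have hp : (0 : ℝ) < prodS s := lt_of_lt_of_le (Real.rpow_pos_of_pos hX0 _) h1
  unfold win phi at hpos
  have h2 : |Real.log (prodS s) / η' - j| < 1 := by
    by_contra hcon
    push Not at hcon
    have : max 0 (1 - |Real.log (prodS s) / η' - j|) = 0 := max_eq_left (by linarith)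
    linarith
  have h3 := (abs_lt.1 h2).2
  have h4 : Real.log (prodS s) / η' < 1 + j := by linarith
  rw [div_lt_iff₀ hη'] at h4
  calc (X : ℝ) ^ (13 / 20 : ℝ) * Real.exp (-η') ≤ prodS s * Real.exp (-η') :=
        mul_le_mul_of_nonneg_right h1 (Real.exp_pos _).le
    _ = Real.exp (Real.log (prodS s) + -η') := by rw [Real.exp_add, Real.exp_log hp]
    _ ≤ Real.exp (η' * j) := Real.exp_le_exp.2 (by linarith)

lemma coprime_of_large {X z : ℕ} (hz : 2 ≤ z) (hy : z ≤ yy X) : ∀ s ∈ SX X,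
    (prodS s).Coprime (Qz z) := by
  intro s hs
  unfold SX PX PP at hs
  rw [Finset.mem_powersetCard] at hs
  unfold prodS
  refine Nat.Coprime.prod_left fun p hp => ?_
  have h1 := hs.1 hp
  rw [Finset.mem_filter, Finset.mem_Ioc] at h1
  rw [Nat.Prime.coprime_iff_not_dvd h1.2]
  intro h2
  have := prime_dvd_Qz hz h1.2 h2
  omega

lemma yy_large (z : ℕ) : ∃ X0 : ℕ, ∀ X ≥ X0, z ≤ yy X := by
  have h1 : Tendsto (fun X : ℕ => (Real.log (X : ℝ)) ^ 6 / 4) atTop atTop := by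
    have h2 : Tendsto (fun X : ℕ => Real.log (X : ℝ)) atTop atTop :=
      Real.tendsto_log_atTop.comp tendsto_natCast_atTop_atTop
    exact ((tendsto_pow_atTop (by norm_num : (6 : ℕ) ≠ 0)).comp h2).atTop_div_const (by norm_num)
  obtain ⟨X0, h2⟩ := Filter.eventually_atTop.1 (h1.eventually_ge_atTop (z : ℝ))
  refine ⟨X0, fun X hX => ?_⟩
  unfold yy
  exact Nat.le_floor (h2 X hX)

lemma rpow_small (c : ℝ) (hc : 0 < c) : ∃ X0 : ℕ, ∀ X : ℕ, X ≥ X0 →
    (X : ℝ) ^ (-(3 / 20 : ℝ)) ≤ c := by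
  have h1 : Tendsto (fun X : ℕ => (X : ℝ) ^ (-(3 / 20 : ℝ))) atTop (nhds 0) :=
    (tendsto_rpow_neg_atTop (by norm_num)).comp tendsto_natCast_atTop_atTop
  obtain ⟨X0, h2⟩ := Filter.eventually_atTop.1 (h1.eventually_le_const hc)
  exact ⟨X0, h2⟩

/-- final numerical step -/
lemma numeric {B C0 P q G0 I m ε1 ε zE Q K : ℝ} (hI : I = K * (B / (2 * P))) (hP : 0 < P)
    (hB : 0 ≤ B) (hK : K ≤ 1 + ε / 4) (hK0 : 0 ≤ K)
    (h1 : 2 * P * (q * G0) ≤ ε / 4 * B)
    (h2 : C0 * (m * ε1) * (1 + ε / 4) / (2 * P) ≤ ε / 4)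
    (h3 : C0 * zE * (1 + ε / 4) / (2 * P) ≤ ε / 4)
    (hC0 : 0 ≤ C0) (hm : 0 ≤ m) (hε1 : 0 ≤ ε1) (hzE : 0 ≤ zE) :
    2 * P * (q * G0 + I) + C0 * (m * (I * ε1)) + C0 * (I * zE) ≤ (1 + ε) * B := by
  have e1 : 2 * P * I = K * B := by
    rw [hI]
    field_simp
  have e2 : C0 * (m * (I * ε1)) = (C0 * (m * ε1) * K / (2 * P)) * B := by
    rw [hI]
    field_simp
  have e3 : C0 * (I * zE) = (C0 * zE * K / (2 * P)) * B := by
    rw [hI]
    field_simp
  have l2 : C0 * (m * ε1) * K / (2 * P) ≤ ε / 4 := by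
    refine le_trans ?_ h2
    gcongr
  have l3 : C0 * zE * K / (2 * P) ≤ ε / 4 := by
    refine le_trans ?_ h3
    gcongr
  have k1 := mul_le_mul_of_nonneg_right hK hB
  have k2 := mul_le_mul_of_nonneg_right l2 hB
  have k3 := mul_le_mul_of_nonneg_right l3 hB
  rw [mul_add, e1, e2, e3]
  linarith

end TB6h

open TB6h in
/-- TB6: the main term. -/
theorem T_TB6 : P_SZ → P_NB → P_TB2 → P_TB3c → P_TB3d → P_TB6b → P_TB6c → P_TB6d → P_CM →
    P_TB6 := by
  intro hSZ hNB hTB2 h3c h3d h6b h6c h6d hCM z r hz hr η hη hη1 ε hε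
  set P : ℝ := PiR z r with hPdef
  have hP : 0 < P := PiR_pos z r
  have hQ : (0 : ℝ) < Qz z := by exact_mod_cast Qz_pos z
  set C0 : ℝ := (Qz z * 8 * 2 ^ z : ℝ) with hC0def
  have hC0 : 0 < C0 := by positivity
  set q : ℝ := ((∏ l ∈ (Finset.Icc 2 z).filter Nat.Prime, l : ℕ) : ℝ) with hqdef
  have hq0 : 0 ≤ q := by positivity
  -- choice of E
  obtain ⟨E, hE⟩ : ∃ E : ℕ, C0 * (z * (1 / 2 : ℝ) ^ E) * (1 + ε / 4) / (2 * P) ≤ ε / 4 := by
    have hc : 0 < ε / 4 * (2 * P) / (C0 * (z + 1) * (1 + ε / 4)) := by positivity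
    obtain ⟨E, hE⟩ := exists_pow_lt_of_lt_one hc (by norm_num : (1 / 2 : ℝ) < 1)
    refine ⟨E, ?_⟩
    rw [lt_div_iff₀ (by positivity)] at hE
    rw [div_le_iff₀ (by positivity)]
    have hpow : (0 : ℝ) < (1 / 2 : ℝ) ^ E := by positivity
    nlinarith [mul_pos (mul_pos hpow hC0) (by positivity : (0 : ℝ) < 1 + ε / 4)]
  set m : ℝ := ((MS z E).card : ℝ) with hmdef
  have hm0 : 0 ≤ m := by positivity
  set ε1 : ℝ := ε / 4 * (2 * P) / (C0 * (m + 1) * (1 + ε / 4)) with hε1def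
  have hε1 : 0 < ε1 := by positivity
  have hε1' : C0 * (m * ε1) * (1 + ε / 4) / (2 * P) ≤ ε / 4 := by
    have h1 : ε1 * (C0 * (m + 1) * (1 + ε / 4)) = ε / 4 * (2 * P) := by
      rw [hε1def]
      field_simp
    rw [div_le_iff₀ (by positivity), ← h1]
    nlinarith [mul_pos (mul_pos hε1 hC0) (by positivity : (0 : ℝ) < 1 + ε / 4)]
  -- choice of η0
  have hlog : 0 < Real.log (1 + ε / 4) := Real.log_pos (by linarith)
  refine ⟨Real.log (1 + ε / 4) / 2, by linarith, ?_⟩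
  intro η' hη' hη'0 δ hδ
  have hK : Real.exp (2 * η') ≤ 1 + ε / 4 := by
    rw [← Real.le_log_iff_exp_le (by linarith)]
    linarith
  -- choice of X0
  obtain ⟨X1, hX1⟩ := hSZ
  obtain ⟨⟨X2, hX2⟩, -⟩ := hNB
  obtain ⟨X3, hX3⟩ := yy_large z
  obtain ⟨X4, hX4⟩ := rpow_small (ε / 4 / (2 * (q + 1) * (1 + ε / 4))) (by positivity)
  have hCM' : ∀ M ∈ MS z E, ∃ X0 : ℕ, ∀ X ≥ X0, ∀ j : ℤ, δ / kk X * NX X ≤ S1 X η' j →
    ∑ f ∈ (Finset.Icc 1 X).filter (fun f => Squarefree f ∧ f.Coprime (2 * M)),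
      ∑ ψ : DirichletCharacter ℂ M,
        (if ψ = 1 ∧ f = 1 then 0 else ‖Sch X η' j M ψ f‖ ^ 2 / f) ≤ ε1 * (S1 X η' j) ^ 2 :=
    fun M hM => hCM M (MS_pos hM) η' hη' δ ε1 hδ hε1
  choose! XM hXM using hCM'
  refine ⟨max (max X1 X2) (max (max X3 X4) (max 1 ((MS z E).sup XM))), ?_⟩
  intro X hX j hj V hV
  have hXX1 : X1 ≤ X := le_trans (le_trans (le_max_left _ _) (le_max_left _ _)) hX
  have hXX2 : X2 ≤ X := le_trans (le_trans (le_max_right _ _) (le_max_left _ _)) hX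
  have hXX3 : X3 ≤ X := le_trans (le_trans (le_trans (le_max_left _ _) (le_max_left _ _))
    (le_max_right _ _)) hX
  have hXX4 : X4 ≤ X := le_trans (le_trans (le_trans (le_max_right _ _) (le_max_left _ _))
    (le_max_right _ _)) hX
  have hX1' : 1 ≤ X := le_trans (le_trans (le_trans (le_max_left _ _) (le_max_right _ _))
    (le_max_right _ _)) hX
  have hXS : (MS z E).sup XM ≤ X := le_trans (le_trans (le_trans (le_max_right _ _)
    (le_max_right _ _)) (le_max_right _ _)) hX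
  have hX0 : (0 : ℝ) < X := by exact_mod_cast hX1'
  have hcop := coprime_of_large hz (hX3 X hXX3)
  have hNX : 0 < NX X := lt_of_lt_of_le (Real.rpow_pos_of_pos hX0 _) (hX2 X hXX2)
  have hkk : (0 : ℝ) < kk X := by
    unfold kk
    positivity
  have hS1 : 0 < S1 X η' j := lt_of_lt_of_le (by positivity) hj
  have hlow := exp_lower hη' (fun s hs => (hX1 X hXX1 s hs).1) hX1' hS1
  set n0 : ℝ := Real.exp (2 * η' * j) with hn0
  have hn0pos : 0 < n0 := Real.exp_pos _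
  have hsq : √n0 = Real.exp (η' * j) := by
    rw [hn0, show 2 * η' * (j : ℝ) = η' * j + η' * j by ring, Real.exp_add,
      Real.sqrt_mul_self (Real.exp_pos _).le]
  obtain ⟨ho1, ho2, ho3, ho4, -⟩ := hTB2 X η hX1' hη hη1 n0 hn0pos
  set G : ℝ → ℝ := fun x => Real.exp η' * om X η (x * Real.exp (-η')) n0 / Qz z with hG
  have hGanti : AntitoneOn G (Set.Ici 0) := by
    intro x hx y hy hxy
    have h1 := ho1 (Set.mem_Ici.2 (mul_nonneg hx (Real.exp_pos (-η')).le))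
      (Set.mem_Ici.2 (mul_nonneg hy (Real.exp_pos (-η')).le))
      (mul_le_mul_of_nonneg_right hxy (Real.exp_pos (-η')).le)
    simp only [hG]
    have := Real.exp_pos η'
    gcongr
  have hGnn : ∀ x, 0 ≤ G x := fun x => by
    simp only [hG]
    exact div_nonneg (mul_nonneg (Real.exp_pos _).le (ho2 _)) hQ.le
  set B : ℝ := P / (4 * Qz z) * η * √(X : ℝ) with hB
  have hB0 : 0 ≤ B := by positivity
  set I : ℝ := Real.exp (2 * η') * (B / (2 * P)) with hI
  have hI0 : 0 ≤ I := by positivity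
  have hGI : ∀ V : ℝ, 0 ≤ V → ∫ x in (0 : ℝ)..V, G x ≤ I := by
    intro W hW
    have h1 : ∫ x in (0 : ℝ)..W, G x = Real.exp η' / Qz z * (Real.exp η' *
        ∫ x in (0 : ℝ)..(W * Real.exp (-η')), om X η x n0) := by
      have h2 : G = fun x => Real.exp η' / Qz z * om X η (x * Real.exp (-η')) n0 := by
        funext x
        simp only [hG]
        ring
      rw [h2, intervalIntegral.integral_const_mul,
        intervalIntegral.integral_comp_mul_right (fun x => om X η x n0) (Real.exp_pos _).ne',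
        smul_eq_mul, zero_mul, ← Real.exp_neg, neg_neg]
    rw [h1]
    have h3 := ho4 (W * Real.exp (-η')) (by positivity)
    have h4 : I = Real.exp η' / Qz z * (Real.exp η' * (η * √(X : ℝ) / 8)) := by
      rw [hI, hB, show 2 * η' = η' + η' by ring, Real.exp_add]
      field_simp
      ring
    rw [h4]
    gcongr
  have hG0 : 2 * P * (q * G 0) ≤ ε / 4 * B := by
    have h1 : G 0 ≤ Real.exp η' * (η * X / (4 * √n0)) / Qz z := by
      simp only [hG]
      have := ho3 (0 * Real.exp (-η'))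
      gcongr
    have h2 : Real.exp η' * (η * X / (4 * √n0)) / Qz z =
        (η / (4 * Qz z) * √(X : ℝ)) * (Real.exp η' * (√(X : ℝ) / √n0)) := by
      have h3 : (X : ℝ) = √(X : ℝ) * √(X : ℝ) := (Real.mul_self_sqrt hX0.le).symm
      have h4 : √n0 ≠ 0 := by rw [hsq]; exact (Real.exp_pos _).ne'
      field_simp
      rw [Real.sq_sqrt hX0.le]
    have h5 : √(X : ℝ) / √n0 ≤ (X : ℝ) ^ (-(3 / 20 : ℝ)) * Real.exp η' := by
      rw [hsq, div_le_iff₀ (Real.exp_pos _)]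
      have h6 : √(X : ℝ) = (X : ℝ) ^ (-(3 / 20 : ℝ)) * Real.exp η' *
          ((X : ℝ) ^ (13 / 20 : ℝ) * Real.exp (-η')) := by
        rw [Real.sqrt_eq_rpow]
        have h7 : (X : ℝ) ^ (1 / 2 : ℝ) = (X : ℝ) ^ (-(3 / 20 : ℝ)) * (X : ℝ) ^ (13 / 20 : ℝ) := by
          rw [← Real.rpow_add hX0]
          norm_num
        rw [h7, Real.exp_neg]
        have := (Real.exp_pos η').ne'
        field_simp
      rw [h6]
      exact mul_le_mul_of_nonneg_left hlow (by positivity)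
    have h6 : Real.exp η' * (√(X : ℝ) / √n0) ≤ (1 + ε / 4) * (ε / 4 / (2 * (q + 1) * (1 + ε / 4))) := by
      calc Real.exp η' * (√(X : ℝ) / √n0)
          ≤ Real.exp η' * ((X : ℝ) ^ (-(3 / 20 : ℝ)) * Real.exp η') :=
            mul_le_mul_of_nonneg_left h5 (Real.exp_pos _).le
        _ = Real.exp (2 * η') * (X : ℝ) ^ (-(3 / 20 : ℝ)) := by
            rw [show 2 * η' = η' + η' by ring, Real.exp_add]
            ring
        _ ≤ (1 + ε / 4) * (ε / 4 / (2 * (q + 1) * (1 + ε / 4))) :=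
            mul_le_mul hK (hX4 X hXX4) (by positivity) (by positivity)
    have h7 : (1 + ε / 4) * (ε / 4 / (2 * (q + 1) * (1 + ε / 4))) = ε / 4 / (2 * (q + 1)) := by
      field_simp
    rw [h7] at h6
    rw [h2] at h1
    have h8 : q / (q + 1) ≤ 1 := by
      rw [div_le_one (by positivity)]
      linarith
    calc 2 * P * (q * G 0) ≤ 2 * P * (q * ((η / (4 * Qz z) * √(X : ℝ)) *
          (ε / 4 / (2 * (q + 1))))) := by
          have h9 : G 0 ≤ (η / (4 * Qz z) * √(X : ℝ)) * (ε / 4 / (2 * (q + 1))) :=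
            h1.trans (mul_le_mul_of_nonneg_left h6 (by positivity))
          gcongr
      _ = (q / (q + 1)) * (ε / 4 * B) := by
          rw [hB]
          field_simp
      _ ≤ 1 * (ε / 4 * B) := mul_le_mul_of_nonneg_right h8 (by positivity)
      _ = ε / 4 * B := one_mul _
  have hcore := core h3c h3d h6b h6c h6d (V := V) hz hr hcop E G hGanti hGnn I hI0 hGI ε1 hV
    (fun M hM => hXM M hM X ((Finset.le_sup hM).trans hXS) j hj)
  refine hcore.trans ?_
  have hnum := numeric (B := B) (C0 := C0) (P := P) (q := q) (G0 := G 0) (I := I) (m := m)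
    (ε1 := ε1) (ε := ε) (zE := z * (1 / 2 : ℝ) ^ E) (Q := Qz z) (K := Real.exp (2 * η')) hI hP hB0
    hK (Real.exp_pos _).le hG0 hε1' hE hC0.le hm0 hε1.le (by positivity)
  refine (mul_le_mul_of_nonneg_right hnum (sq_nonneg _)).trans (le_of_eq ?_)
  rw [hB]
  ring

end Pool.Agent.H38R2.CG
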