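import Pool.Agent.H38R2.CG.Stubs

set_option autoImplicit false

namespace Pool.Agent.H38R2.CG

open Finset

namespace TB6bh

theorem chi_abs (D : ℤ) (n : ℕ) : |(chi D n : ℝ)| ≤ 1 := by
  have h1 : |(chi2 D : ℤ)| ≤ 1 := by
    unfold chi2
    split_ifs <;> simp
  have h2 : |jacobiSym D (n / 2 ^ padicValNat 2 n)| ≤ 1 := by
    rcases jacobiSym.trichotomy D (n / 2 ^ padicValNat 2 n) with h | h | h <;> rw [h] <;> simp
  have h3 : |chi D n| ≤ 1 := by
    unfold chi
    rw [abs_mul, abs_pow]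
    calc |chi2 D| ^ padicValNat 2 n * |jacobiSym D (n / 2 ^ padicValNat 2 n)|
        ≤ 1 * 1 := by
          apply mul_le_mul (pow_le_one₀ (abs_nonneg _) h1) h2 (abs_nonneg _) (by norm_num)
      _ = 1 := by norm_num
  exact_mod_cast h3

theorem sum_crt (a b : ℕ) (ha : 0 < a) (hb : 0 < b) (hab : a.Coprime b) (f g : ℕ → ℝ)
    (hf : ∀ v, f (v % a) = f v) (hg : ∀ v, g (v % b) = g v) :
    ∑ v ∈ Finset.range (a * b), f v * g v =
      (∑ v ∈ Finset.range a, f v) * ∑ v ∈ Finset.range b, g v := by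
  rw [Finset.sum_mul_sum, ← Finset.sum_product']
  refine Finset.sum_bij (fun v _ => (v % a, v % b)) ?_ ?_ ?_ ?_
  · intro v _
    simp only [Finset.mem_product, Finset.mem_range]
    exact ⟨Nat.mod_lt _ ha, Nat.mod_lt _ hb⟩
  · intro v hv w hw h
    simp only [Prod.mk.injEq] at h
    rw [Finset.mem_range] at hv hw
    have h1 : v ≡ w [MOD a * b] := (Nat.modEq_and_modEq_iff_modEq_mul hab).1 ⟨h.1, h.2⟩
    exact Nat.ModEq.eq_of_lt_of_lt h1 hv hw
  · rintro ⟨x, y⟩ hxy
    simp only [Finset.mem_product, Finset.mem_range] at hxy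
    obtain ⟨k, hk1, hk2⟩ := Nat.chineseRemainder hab x y
    refine ⟨k % (a * b), Finset.mem_range.2 (Nat.mod_lt _ (Nat.mul_pos ha hb)), ?_⟩
    have e1 : k % (a * b) % a = x := by
      rw [Nat.mod_mul_right_mod]
      rw [hk1, Nat.mod_eq_of_lt hxy.1]
    have e2 : k % (a * b) % b = y := by
      rw [Nat.mod_mul_left_mod]
      rw [hk2, Nat.mod_eq_of_lt hxy.2]
    simp [e1, e2]
  · intro v _
    simp only
    rw [hf, hg]

theorem sum_prod (S : Finset ℕ) (hS : ∀ l ∈ S, l.Prime) (h : ℕ → ℕ → ℝ)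
    (hp : ∀ l ∈ S, ∀ v, h l (v % l) = h l v) :
    ∑ v ∈ Finset.range (∏ l ∈ S, l), ∏ l ∈ S, h l v = ∏ l ∈ S, ∑ c ∈ Finset.range l, h l c := by
  classical
  induction S using Finset.induction_on with
  | empty => simp
  | insert p S hpS ih =>
    rw [Finset.prod_insert hpS, Finset.prod_insert hpS]
    simp_rw [Finset.prod_insert hpS]
    have hS' : ∀ l ∈ S, l.Prime := fun l hl => hS l (Finset.mem_insert_of_mem hl)
    have hp' : ∀ l ∈ S, ∀ v, h l (v % l) = h l v := fun l hl => hp l (Finset.mem_insert_of_mem hl)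
    rw [← ih hS' hp']
    have hpp : p.Prime := hS p (Finset.mem_insert_self _ _)
    refine sum_crt p (∏ l ∈ S, l) hpp.pos (Finset.prod_pos fun l hl => (hS' l hl).pos) ?_
      (h p) (fun v => ∏ l ∈ S, h l v) (hp p (Finset.mem_insert_self _ _)) ?_
    · apply Nat.Coprime.prod_right
      intro l hl
      rw [Nat.coprime_primes hpp (hS' l hl)]
      rintro rfl
      exact hpS hl
    · intro v
      apply Finset.prod_congr rfl
      intro l hl
      have hd : l ∣ ∏ l ∈ S, l := Finset.dvd_prod_of_mem _ hl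
      rw [← hp' l hl (v % ∏ l ∈ S, l), Nat.mod_mod_of_dvd _ hd, hp' l hl v]

end TB6bh

open TB6bh in
theorem T_TB6b : P_TB6b := by
  intro z r hz _
  set S := (Finset.Icc 2 z).filter Nat.Prime with hSdef
  have hS : ∀ l ∈ S, l.Prime := fun l hl => (Finset.mem_filter.1 hl).2
  refine ⟨?_, ?_, ?_⟩
  · intro v
    unfold rbar
    apply mul_nonneg (by norm_num)
    apply Finset.prod_nonneg
    intro l hl
    have hl2 : (2 : ℝ) ≤ l := by exact_mod_cast (hS l hl).two_le
    split_ifs with hv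
    · norm_num
    · have h1 := chi_abs (r : ℤ) l
      have h2 : ((chi (r : ℤ) l : ℤ) : ℝ) / ((l : ℝ) - 1) ≤ 1 := by
        rw [div_le_one (by linarith)]
        have := (abs_le.1 h1).2
        linarith
      linarith
  · intro v
    unfold rbar
    congr 1
    apply Finset.prod_congr rfl
    intro l hl
    have hd : l ∣ ∏ l ∈ S, l := Finset.dvd_prod_of_mem _ hl
    have : (l ∣ v + ∏ l ∈ S, l) ↔ l ∣ v := (Nat.dvd_add_left hd)
    simp only [this]
  · unfold rbar PiR
    rw [← Finset.mul_sum]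
    have key := sum_prod S hS (fun l v => (1 - if l ∣ v then 0 else (chi r l : ℝ) / ((l : ℝ) - 1)))
      (by
        intro l hl v
        have : (l ∣ v % l) ↔ l ∣ v := (Nat.dvd_mod_iff (dvd_refl l))
        simp only [this])
    rw [key]
    have h3 : ∀ l ∈ S, ∑ c ∈ Finset.range l,
        (1 - if l ∣ c then (0 : ℝ) else (chi r l : ℝ) / ((l : ℝ) - 1)) =
        (1 - (chi r l : ℝ) / l) * l := by
      intro l hl
      have hl2 : 2 ≤ l := (hS l hl).two_le
      have hl2' : (2 : ℝ) ≤ l := by exact_mod_cast hl2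
      obtain ⟨m, rfl⟩ : ∃ m, l = m + 1 := ⟨l - 1, by omega⟩
      rw [Finset.sum_range_succ']
      have h4 : ∀ c ∈ Finset.range m, (1 - if m + 1 ∣ c + 1 then (0 : ℝ) else
          (chi r (m + 1) : ℝ) / (((m + 1 : ℕ) : ℝ) - 1)) =
          1 - (chi r (m + 1) : ℝ) / (((m + 1 : ℕ) : ℝ) - 1) := by
        intro c hc
        rw [Finset.mem_range] at hc
        rw [if_neg]
        intro hd
        have := Nat.le_of_dvd (by omega) hd
        omega
      rw [Finset.sum_congr rfl h4, Finset.sum_const, Finset.card_range, if_pos (dvd_zero _)]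
      rw [nsmul_eq_mul]
      push_cast at hl2' ⊢
      have hm : (m : ℝ) ≠ 0 := by
        have : (1 : ℝ) ≤ m := by linarith
        linarith
      have hm1 : (m : ℝ) + 1 ≠ 0 := by positivity
      have hmm : (m : ℝ) + 1 - 1 = m := by ring
      rw [hmm]
      field_simp
      ring
    rw [Finset.prod_congr rfl h3, Finset.prod_mul_distrib]
    push_cast
    ring

end Pool.Agent.H38R2.CG
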