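import Pool.Agent.H38R2.CG.Stubs

set_option autoImplicit false

namespace Pool.Agent.H38R2.CG

open Finset

namespace TB6dh

/-- coefficient of a character -/
noncomputable def cc {M : ℕ} [NeZero M] (g : ZMod M → ℂ) (ψ : DirichletCharacter ℂ M) : ℂ :=
  (1 / (M.totient : ℂ)) * ∑ u : (ZMod M)ˣ, g u * ψ ((u : ZMod M)⁻¹)

theorem expand {M : ℕ} [NeZero M] (g : ZMod M → ℂ) (b : ZMod M) (hb : IsUnit b) :
    g b = ∑ ψ : DirichletCharacter ℂ M, cc g ψ * ψ b := by
  classical
  have hM : (M.totient : ℂ) ≠ 0 := by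
    have := Nat.totient_pos.mpr (Nat.pos_of_ne_zero (NeZero.ne M))
    exact_mod_cast this.ne'
  have h1 : ∑ ψ : DirichletCharacter ℂ M, cc g ψ * ψ b =
      (1 / (M.totient : ℂ)) * ∑ u : (ZMod M)ˣ, g u *
        ∑ ψ : DirichletCharacter ℂ M, ψ ((u : ZMod M)⁻¹) * ψ b := by
    simp only [cc, Finset.mul_sum, Finset.sum_mul]
    rw [Finset.sum_comm]
    refine Finset.sum_congr rfl fun u _ => Finset.sum_congr rfl fun ψ _ => ?_
    ring
  rw [h1]
  have h2 : ∀ u : (ZMod M)ˣ, ∑ ψ : DirichletCharacter ℂ M, ψ ((u : ZMod M)⁻¹) * ψ b =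
      if (u : ZMod M) = b then (M.totient : ℂ) else 0 := fun u =>
    DirichletCharacter.sum_char_inv_mul_char_eq ℂ u.isUnit b
  simp only [h2]
  rw [Finset.sum_eq_single hb.unit]
  · rw [if_pos hb.unit_spec, hb.unit_spec]
    field_simp
  · intro u _ hu
    rw [if_neg]
    · ring
    · intro h
      exact hu (Units.ext (by rw [h, hb.unit_spec]))
  · intro h
    exact absurd (Finset.mem_univ _) h

theorem norm_cc {M : ℕ} [NeZero M] (g : ZMod M → ℂ) (ψ : DirichletCharacter ℂ M) (B : ℝ)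
    (hB : ∀ u : (ZMod M)ˣ, ‖g u‖ ≤ B) : ‖cc g ψ‖ ≤ B := by
  classical
  have hM : (0 : ℝ) < (M.totient : ℝ) := by
    exact_mod_cast Nat.totient_pos.mpr (Nat.pos_of_ne_zero (NeZero.ne M))
  unfold cc
  rw [norm_mul]
  have h1 : ‖∑ u : (ZMod M)ˣ, g u * ψ ((u : ZMod M)⁻¹)‖ ≤ (M.totient : ℝ) * B := by
    refine (norm_sum_le _ _).trans ?_
    have : ∑ u : (ZMod M)ˣ, ‖g u * ψ ((u : ZMod M)⁻¹)‖ ≤ ∑ _u : (ZMod M)ˣ, B := by
      refine Finset.sum_le_sum fun u _ => ?_
      rw [norm_mul]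
      have h1 := DirichletCharacter.norm_le_one ψ ((u : ZMod M)⁻¹)
      have h2 := hB u
      have h3 := norm_nonneg (g u)
      nlinarith [norm_nonneg (ψ ((u : ZMod M)⁻¹))]
    refine this.trans ?_
    rw [Finset.sum_const, Finset.card_univ, ZMod.card_units_eq_totient, nsmul_eq_mul]
  have h2 : ‖(1 / (M.totient : ℂ))‖ = 1 / (M.totient : ℝ) := by
    rw [norm_div, norm_one, Complex.norm_natCast]
  rw [h2]
  calc 1 / (M.totient : ℝ) * ‖∑ u : (ZMod M)ˣ, g u * ψ ((u : ZMod M)⁻¹)‖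
      ≤ 1 / (M.totient : ℝ) * ((M.totient : ℝ) * B) := by
        apply mul_le_mul_of_nonneg_left h1; positivity
    _ = B := by field_simp

theorem cc_one {M : ℕ} [NeZero M] (g : ZMod M → ℂ) :
    cc g 1 = (1 / (M.totient : ℂ)) *
      ∑ n ∈ (Finset.range M).filter (fun n => n.Coprime M), g (n : ZMod M) := by
  classical
  unfold cc
  congr 1
  refine Finset.sum_bij (fun u _ => (u : ZMod M).val) ?_ ?_ ?_ ?_
  · intro u _
    rw [Finset.mem_filter, Finset.mem_range]
    exact ⟨ZMod.val_lt _, ZMod.val_coe_unit_coprime u⟩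
  · intro u _ w _ h
    exact Units.ext (ZMod.val_injective M h)
  · intro n hn
    rw [Finset.mem_filter, Finset.mem_range] at hn
    refine ⟨ZMod.unitOfCoprime n hn.2, Finset.mem_univ _, ?_⟩
    rw [ZMod.coe_unitOfCoprime, ZMod.val_natCast, Nat.mod_eq_of_lt hn.1]
  · intro u _
    rw [ZMod.natCast_zmod_val]
    have : (1 : DirichletCharacter ℂ M) ((u : ZMod M)⁻¹) = 1 := by
      rw [ZMod.inv_coe_unit]
      exact MulChar.one_apply_coe _
    rw [this, mul_one]

theorem qpart_pos (z v : ℕ) : 0 < qpart z v := by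
  unfold qpart
  apply Finset.prod_pos
  intro p hp
  rw [Finset.mem_filter] at hp
  exact pow_pos (Nat.prime_of_mem_primeFactors hp.1).pos _

theorem Qz_pos (z : ℕ) : 0 < Qz z := by
  unfold Qz
  apply Nat.mul_pos (by norm_num)
  apply Finset.prod_pos
  intro p hp
  rw [Finset.mem_filter] at hp
  exact pow_pos hp.2.pos _

theorem cop_iff (z v n : ℕ) : n.Coprime (Qz z * (qpart z v) ^ 2) ↔ n.Coprime (Qz z) := by
  constructor
  · intro h
    exact Nat.Coprime.coprime_mul_right_right h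
  · intro h
    apply Nat.Coprime.mul_right h
    apply Nat.Coprime.pow_right
    unfold qpart
    apply Nat.Coprime.prod_right
    intro p hp
    rw [Finset.mem_filter] at hp
    apply Nat.Coprime.pow_right
    exact Nat.Coprime.coprime_dvd_right hp.2 h

theorem rhoQ_mod (z r n v : ℕ) :
    rhoQ z r (n % (Qz z * (qpart z v) ^ 2)) v = rhoQ z r n v := by
  unfold rhoQ
  congr 1
  apply Finset.filter_congr
  intro u _
  have h : 4 * (n % (Qz z * (qpart z v) ^ 2)) + r * v ^ 2 ≡ 4 * n + r * v ^ 2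
      [MOD Qz z * (qpart z v) ^ 2] :=
    Nat.ModEq.add_right _ (Nat.ModEq.mul_left _ (Nat.mod_modEq _ _))
  constructor
  · intro h1; exact h1.trans h
  · intro h1; exact h1.trans h.symm

end TB6dh

open TB6dh in
theorem T_TB6d : P_TB6a → P_TB3c → P_TB6d := by
  classical
  intro h6a h3c z r v f X η' j hz hr hv hcop
  have hMpos : 0 < Qz z * (qpart z v) ^ 2 :=
    Nat.mul_pos (Qz_pos z) (pow_pos (qpart_pos z v) _)
  set M := Qz z * (qpart z v) ^ 2 with hMdef
  have : NeZero M := ⟨hMpos.ne'⟩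
  set B : ℝ := (Qz z * 8 * 2 ^ z : ℝ) with hB
  have hB0 : 0 ≤ B := by positivity
  set g : ZMod M → ℂ := fun a => (rhoQ z r a.val v : ℂ) with hg
  have hgn : ∀ n : ℕ, g (n : ZMod M) = (rhoQ z r n v : ℂ) := by
    intro n
    simp only [hg]
    rw [ZMod.val_natCast, rhoQ_mod]
  have hgB : ∀ u : (ZMod M)ˣ, ‖g u‖ ≤ B := by
    intro u
    simp only [hg]
    rw [Complex.norm_natCast]
    have h1 : ((u : ZMod M).val).Coprime M := ZMod.val_coe_unit_coprime u
    have h2 := h3c z r ((u : ZMod M).val) v hv ((cop_iff z v _).mp h1)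
    have h3 : ((rhoQ z r ((u : ZMod M).val) v : ℕ) : ℝ) ≤ ((Qz z * 8 * 2 ^ z : ℕ) : ℝ) := by
      exact_mod_cast h2
    rw [hB]
    push_cast at h3
    exact h3
  have hc1 : cc g 1 = (rbar z r v : ℂ) := by
    rw [cc_one]
    have h1 : (Finset.range M).filter (fun n => n.Coprime M) =
        (Finset.range M).filter (fun n => n.Coprime (Qz z)) := by
      apply Finset.filter_congr
      intro n _
      exact cop_iff z v n
    rw [h1]
    simp only [hgn]
    have h2 := h6a z r v hz hr hv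
    have h3 : ((∑ n ∈ (Finset.range M).filter (fun n => n.Coprime (Qz z)),
        (rhoQ z r n v : ℂ))) = ((Nat.totient M : ℝ) * rbar z r v : ℝ) := by
      rw [hMdef, ← h2]
      push_cast
      rfl
    rw [h3]
    have h4 : (M.totient : ℂ) ≠ 0 := by
      have := Nat.totient_pos.mpr (Nat.pos_of_ne_zero (NeZero.ne M))
      exact_mod_cast this.ne'
    push_cast
    field_simp
  have hexp : ∀ n : ℕ, n.Coprime (Qz z) →
      (rhoQ z r n v : ℂ) = ∑ ψ : DirichletCharacter ℂ M, cc g ψ * ψ (n : ZMod M) := by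
    intro n hn
    rw [← hgn n]
    apply expand
    rw [ZMod.isUnit_iff_coprime]
    exact (cop_iff z v n).mpr hn
  -- the double sum
  have hmain : (((∑ s ∈ SX X, ∑ t ∈ SX X, win η' j s * win η' j t *
      (rhoQ z r (prodS s * prodS t) v : ℝ) *
      ((jacobiSym ((prodS s * prodS t : ℕ) : ℤ) f : ℤ) : ℝ)) : ℝ) : ℂ) =
      ∑ ψ : DirichletCharacter ℂ M, cc g ψ * (Sch X η' j M ψ f) ^ 2 := by
    push_cast
    have h1 : ∀ s ∈ SX X, ∀ t ∈ SX X, (win η' j s : ℂ) * (win η' j t : ℂ) *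
        (rhoQ z r (prodS s * prodS t) v : ℂ) *
        ((jacobiSym ((prodS s : ℤ) * (prodS t : ℤ)) f : ℤ) : ℂ) =
        ∑ ψ : DirichletCharacter ℂ M, cc g ψ *
          (((win η' j s : ℝ) : ℂ) * ψ (prodS s : ZMod M) * ((jacobiSym (prodS s : ℤ) f : ℤ) : ℂ)) *
          (((win η' j t : ℝ) : ℂ) * ψ (prodS t : ZMod M) * ((jacobiSym (prodS t : ℤ) f : ℤ) : ℂ)) := by
      intro s hs t ht
      rw [hexp _ (Nat.Coprime.mul_left (hcop s hs) (hcop t ht)), jacobiSym.mul_left]
      push_cast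
      rw [Finset.mul_sum, Finset.sum_mul]
      refine Finset.sum_congr rfl fun ψ _ => ?_
      rw [map_mul]
      ring
    rw [Finset.sum_congr rfl fun s hs => Finset.sum_congr rfl fun t ht => h1 s hs t ht]
    have h2 : ∀ s ∈ SX X, ∑ t ∈ SX X, ∑ ψ : DirichletCharacter ℂ M, cc g ψ *
          (((win η' j s : ℝ) : ℂ) * ψ (prodS s : ZMod M) * ((jacobiSym (prodS s : ℤ) f : ℤ) : ℂ)) *
          (((win η' j t : ℝ) : ℂ) * ψ (prodS t : ZMod M) * ((jacobiSym (prodS t : ℤ) f : ℤ) : ℂ)) =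
        ∑ ψ : DirichletCharacter ℂ M, ∑ t ∈ SX X, cc g ψ *
          (((win η' j s : ℝ) : ℂ) * ψ (prodS s : ZMod M) * ((jacobiSym (prodS s : ℤ) f : ℤ) : ℂ)) *
          (((win η' j t : ℝ) : ℂ) * ψ (prodS t : ZMod M) *
            ((jacobiSym (prodS t : ℤ) f : ℤ) : ℂ)) := by
      intro s _
      rw [Finset.sum_comm]
    rw [Finset.sum_congr rfl h2, Finset.sum_comm]
    refine Finset.sum_congr rfl fun ψ _ => ?_
    unfold Sch
    rw [sq, Finset.sum_mul_sum, Finset.mul_sum]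
    refine Finset.sum_congr rfl fun s _ => ?_
    rw [Finset.mul_sum]
    refine Finset.sum_congr rfl fun t _ => ?_
    ring
  have hS1 : f = 1 → Sch X η' j M 1 f = (S1 X η' j : ℂ) := by
    intro hf
    unfold Sch S1
    push_cast
    refine Finset.sum_congr rfl fun s hs => ?_
    rw [hf, jacobiSym.one_right]
    have h1 : (1 : DirichletCharacter ℂ M) (prodS s : ZMod M) = 1 := by
      apply MulChar.one_apply
      rw [ZMod.isUnit_iff_coprime]
      exact (cop_iff z v _).mpr (hcop s hs)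
    rw [h1]
    simp
  have hsub : ((if f = 1 then rbar z r v * (S1 X η' j) ^ 2 else 0 : ℝ) : ℂ) =
      ∑ ψ : DirichletCharacter ℂ M, if ψ = 1 ∧ f = 1 then cc g ψ * (Sch X η' j M ψ f) ^ 2 else 0 := by
    by_cases hf : f = 1
    · rw [if_pos hf, Finset.sum_eq_single (1 : DirichletCharacter ℂ M)]
      · rw [if_pos ⟨rfl, hf⟩, hc1, hS1 hf]
        push_cast
        ring
      · intro ψ _ hψ
        rw [if_neg]
        intro h
        exact hψ h.1
      · intro h
        exact absurd (Finset.mem_univ _) h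
    · rw [if_neg hf]
      rw [Finset.sum_eq_zero]
      · simp
      · intro ψ _
        rw [if_neg]
        intro h
        exact hf h.2
  rw [← Real.norm_eq_abs, ← Complex.norm_real, Complex.ofReal_sub, hmain, hsub, ← Finset.sum_sub_distrib]
  refine (norm_sum_le _ _).trans ?_
  rw [Finset.mul_sum]
  refine Finset.sum_le_sum fun ψ _ => ?_
  by_cases h : ψ = 1 ∧ f = 1
  · rw [if_pos h, if_pos h]
    simp
  · rw [if_neg h, if_neg h, sub_zero, norm_mul, norm_pow]
    exact mul_le_mul_of_nonneg_right (norm_cc g ψ B hgB) (by positivity)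

end Pool.Agent.H38R2.CG
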