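import Pool.Agent.H38R2.CG.N0d
import Pool.Agent.H38R2.CG.N0
import Pool.Agent.H38R2.CG.N0e
import Pool.Agent.H38R2.CG.SPL
import Pool.Agent.H38R2.CG.N1
import Pool.Agent.H38R2.CG.N2
import Pool.Agent.H38R2.CG.KR
import Pool.Agent.H38R2.CG.PV
import Pool.Agent.H38R2.CG.N3a
import Pool.Agent.H38R2.CG.N3b
import Pool.Agent.H38R2.CG.N3
import Pool.Agent.H38R2.CG.N4a
import Pool.Agent.H38R2.CG.N4b
import Pool.Agent.H38R2.CG.N4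
import Pool.Agent.H38R2.CG.KF
import Pool.Agent.H38R2.CG.N5a
import Pool.Agent.H38R2.CG.N5b
import Pool.Agent.H38R2.CG.N5
import Pool.Agent.H38R2.CG.N6
import Pool.Agent.H38R2.CG.NF
import Pool.Agent.H38R2.CG.LM2
import Pool.Agent.H38R2.CG.LM
import Pool.Agent.H38R2.CG.SZ
import Pool.Agent.H38R2.CG.M1U
import Pool.Agent.H38R2.CG.M1L
import Pool.Agent.H38R2.CG.NB
import Pool.Agent.H38R2.CG.MLOW
import Pool.Agent.H38R2.CG.TB1a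
import Pool.Agent.H38R2.CG.TB1
import Pool.Agent.H38R2.CG.TB2
import Pool.Agent.H38R2.CG.TB3b
import Pool.Agent.H38R2.CG.TB3d
import Pool.Agent.H38R2.CG.TB3a
import Pool.Agent.H38R2.CG.TB4
import Pool.Agent.H38R2.CG.TB5
import Pool.Agent.H38R2.CG.TB3c
import Pool.Agent.H38R2.CG.TB6b
import Pool.Agent.H38R2.CG.TB6c
import Pool.Agent.H38R2.CG.TB6a
import Pool.Agent.H38R2.CG.TB6d
import Pool.Agent.H38R2.CG.CC1
import Pool.Agent.H38R2.CG.CC2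
import Pool.Agent.H38R2.CG.BT
import Pool.Agent.H38R2.CG.CC3
import Pool.Agent.H38R2.CG.CC4
import Pool.Agent.H38R2.CG.CC6
import Pool.Agent.H38R2.CG.LS
import Pool.Agent.H38R2.CG.CC5
import Pool.Agent.H38R2.CG.CC7
import Pool.Agent.H38R2.CG.CM
import Pool.Agent.H38R2.CG.TB6
import Pool.Agent.H38R2.CG.TM
import Pool.Agent.H38R2.CG.AS0
import Pool.Agent.H38R2.CG.AS1
import Pool.Agent.H38R2.CG.FIN

set_option autoImplicit false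

namespace Pool.Agent.H38R2.CG

theorem finalStmt : FinalStmt := by
  have h_P_N0d : P_N0d := T_N0d 
  have h_P_N0 : P_N0 := T_N0 
  have h_P_N0e : P_N0e := T_N0e h_P_N0d
  have h_P_SPL : P_SPL := T_SPL h_P_N0
  have h_P_N1 : P_N1 := T_N1 h_P_SPL
  have h_P_N2 : P_N2 := T_N2 h_P_SPL
  have h_P_KR : P_KR := T_KR 
  have h_P_PV : P_PV := T_PV 
  have h_P_N3a : P_N3a := T_N3a h_P_KR h_P_PV
  have h_P_N3b : P_N3b := T_N3b h_P_KR h_P_PV h_P_N3a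
  have h_P_N3 : P_N3 := T_N3 h_P_N2 h_P_N3b
  have h_P_N4a : P_N4a := T_N4a 
  have h_P_N4b : P_N4b := T_N4b 
  have h_P_N4 : P_N4 := T_N4 h_P_N4a h_P_N4b
  have h_P_KF : P_KF := T_KF 
  have h_P_N5a : P_N5a := T_N5a h_P_KF
  have h_P_N5b : P_N5b := T_N5b h_P_KF h_P_N4
  have h_P_N5 : P_N5 := T_N5 h_P_N3 h_P_N4 h_P_N5a h_P_N5b
  have h_P_N6 : P_N6 := T_N6 h_P_KF
  have h_P_NF : P_NF := T_NF h_P_N0 h_P_N0e h_P_N1 h_P_N3 h_P_N5 h_P_N6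
  have h_P_LM2 : P_LM2 := T_LM2 h_P_PV
  have h_P_LM : P_LM := T_LM h_P_N3a h_P_LM2
  have h_P_SZ : P_SZ := T_SZ 
  have h_P_M1U : P_M1U := T_M1U h_P_SZ
  have h_P_M1L : P_M1L := T_M1L h_P_SZ
  have h_P_NB : P_NB := T_NB 
  have h_P_MLOW : P_MLOW := T_MLOW h_P_NB
  have h_P_TB1a : P_TB1a := T_TB1a 
  have h_P_TB1 : P_TB1 := T_TB1 h_P_TB1a
  have h_P_TB2 : P_TB2 := T_TB2 
  have h_P_TB3b : P_TB3b := T_TB3b 
  have h_P_TB3d : P_TB3d := T_TB3d 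
  have h_P_TB3a : P_TB3a := T_TB3a 
  have h_P_TB4 : P_TB4 := T_TB4 h_P_SZ h_P_NB h_P_TB3a
  have h_P_TB5 : P_TB5 := T_TB5 h_P_SZ h_P_NB h_P_TB2 h_P_TB3a
  have h_P_TB3c : P_TB3c := T_TB3c 
  have h_P_TB6b : P_TB6b := T_TB6b 
  have h_P_TB6c : P_TB6c := T_TB6c 
  have h_P_TB6a : P_TB6a := T_TB6a 
  have h_P_TB6d : P_TB6d := T_TB6d h_P_TB6a h_P_TB3c
  have h_P_CC1 : P_CC1 := T_CC1 
  have h_P_CC2 : P_CC2 := T_CC2 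
  have h_P_BT : P_BT := T_BT 
  have h_P_CC3 : P_CC3 := T_CC3 h_P_BT h_P_NB
  have h_P_CC4 : P_CC4 := T_CC4 h_P_CC1 h_P_CC2 h_P_CC3 h_P_NB
  have h_P_CC6 : P_CC6 := T_CC6 h_P_NB
  have h_P_LS : P_LS := T_LS 
  have h_P_CC5 : P_CC5 := T_CC5 h_P_LS h_P_NB
  have h_P_CC7 : P_CC7 := T_CC7 h_P_CC5 h_P_CC6
  have h_P_CM : P_CM := T_CM h_P_CC4 h_P_CC6 h_P_CC7 h_P_NB
  have h_P_TB6 : P_TB6 := T_TB6 h_P_SZ h_P_NB h_P_TB2 h_P_TB3c h_P_TB3d h_P_TB6b h_P_TB6c h_P_TB6d h_P_CM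
  have h_P_TM : P_TM := T_TM h_P_SZ h_P_TB1 h_P_TB2 h_P_TB3b h_P_TB3d h_P_TB4 h_P_TB5 h_P_TB6
  have h_P_AS0 : P_AS0 := T_AS0 h_P_NF h_P_LM h_P_M1U h_P_M1L h_P_MLOW h_P_SZ h_P_NB h_P_TM
  have h_P_AS1 : P_AS1 := T_AS1 h_P_AS0
  have h_FinalStmt : FinalStmt := T_FIN h_P_N0d h_P_AS1
  exact h_FinalStmt

end Pool.Agent.H38R2.CG
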