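import Pool.Agent.H38R2.CG.Stubs
import Pool.Agent.Helper923.PNT

set_option autoImplicit false

namespace Pool.Agent.H38R2.CG

open MeasureTheory FourierTransform

namespace CC2h

open Pool.Agent.Helper923.PNT (K K_nonneg K_integrable K_mul_sq_le fejer_complex)

/-- the tent as a complex function -/
noncomputable def g (t : ℝ) : ℂ := ((phi t : ℝ) : ℂ)

lemma phi_cont : Continuous phi := by unfold phi; fun_prop

lemma g_cont : Continuous g := by
  unfold g; exact Complex.continuous_ofReal.comp phi_cont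

lemma phi_zero {t : ℝ} (h : 1 ≤ |t|) : phi t = 0 := by
  unfold phi; rw [max_eq_left]; linarith

lemma g_supp : Function.support g ⊆ Set.Icc (-1) 1 := by
  intro t ht
  by_contra h
  apply ht
  unfold g
  rw [phi_zero]
  · simp
  · by_contra h2
    push Not at h2
    rw [abs_lt] at h2
    exact h ⟨h2.1.le, h2.2.le⟩

lemma g_int : Integrable g := by
  apply g_cont.integrable_of_hasCompactSupport
  exact HasCompactSupport.of_support_subset_isCompact isCompact_Icc g_supp

lemma g_fourier (w : ℝ) : 𝓕 g w = ((K (2 * Real.pi * w) : ℝ) : ℂ) := by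
  rw [Real.fourier_real_eq_integral_exp_smul]
  have h1 : ∫ v : ℝ, Complex.exp (↑(-2 * Real.pi * v * w) * Complex.I) • g v =
      ∫ v in (-1 : ℝ)..1, Complex.exp (↑(-2 * Real.pi * v * w) * Complex.I) • g v := by
    rw [intervalIntegral.integral_of_le (by norm_num), ← integral_Icc_eq_integral_Ioc]
    symm
    apply setIntegral_eq_integral_of_forall_compl_eq_zero
    intro v hv
    have : g v = 0 := by
      by_contra h
      exact hv (g_supp h)
    rw [this, smul_zero]
  rw [h1]
  have h2 := fejer_complex 1 (-2 * Real.pi * w) one_pos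
  have hK : K (1 * (-2 * Real.pi * w)) = K (2 * Real.pi * w) := by
    unfold K
    have : 1 * (-2 * Real.pi * w) = -(2 * Real.pi * w) := by ring
    rw [this, Real.cos_neg, neg_sq]
    simp only [neg_eq_zero]
  rw [hK, one_mul] at h2
  rw [← h2]
  refine intervalIntegral.integral_congr fun y hy => ?_
  rw [Set.uIcc_of_le (by norm_num)] at hy
  have hy' : |y| ≤ 1 := abs_le.2 hy
  simp only [smul_eq_mul, g, phi]
  rw [max_eq_right (by linarith), mul_comm]
  congr 2
  · simp
  · push_cast; ring

lemma K2_int : Integrable (fun w : ℝ => K (2 * Real.pi * w)) :=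
  K_integrable.comp_mul_left' (by positivity)

lemma phi_eq (t : ℝ) : ((phi t : ℝ) : ℂ) =
    ∫ w : ℝ, Complex.exp (↑(2 * Real.pi * w * t) * Complex.I) * ((K (2 * Real.pi * w) : ℝ) : ℂ) := by
  have h := g_cont.fourierInv_fourier_eq g_int (by
    have : 𝓕 g = fun w => ((K (2 * Real.pi * w) : ℝ) : ℂ) := funext g_fourier
    rw [this]
    exact K2_int.ofReal)
  have h2 := congrFun h t
  rw [Real.fourierInv_eq'] at h2
  rw [show ((phi t : ℝ) : ℂ) = g t from rfl, ← h2]
  apply integral_congr_ae
  refine Filter.Eventually.of_forall fun w => ?_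
  simp only [g_fourier, smul_eq_mul]
  congr 3
  simp
  ring

lemma K2_one : ∫ w : ℝ, K (2 * Real.pi * w) = 1 := by
  have h := phi_eq 0
  have h0 : phi 0 = 1 := by unfold phi; simp
  rw [h0] at h
  simp only [mul_zero, Complex.ofReal_zero, zero_mul, Complex.exp_zero, one_mul] at h
  rw [integral_complex_ofReal] at h
  exact_mod_cast h.symm

lemma inv_int {Θ : ℝ} (hΘ : 0 < Θ) : Integrable (fun w : ℝ => (Θ ^ 2 + w ^ 2)⁻¹) := by
  have h := (integrable_inv_one_add_sq.comp_mul_left' (R := Θ⁻¹) (by positivity)).const_mul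
    ((Θ ^ 2)⁻¹)
  refine h.congr (Filter.Eventually.of_forall fun w => ?_)
  simp only
  rw [← mul_inv]
  congr 1
  field_simp

lemma inv_val {Θ : ℝ} (hΘ : 0 < Θ) : ∫ w : ℝ, (Θ ^ 2 + w ^ 2)⁻¹ = Real.pi / Θ := by
  have h : ∀ w : ℝ, (Θ ^ 2 + w ^ 2)⁻¹ = (Θ ^ 2)⁻¹ * (fun x : ℝ => (1 + x ^ 2)⁻¹) (Θ⁻¹ * w) := by
    intro w
    simp only
    rw [← mul_inv]
    congr 1
    field_simp
  simp_rw [h]
  rw [integral_const_mul, Measure.integral_comp_mul_left (fun x : ℝ => (1 + x ^ 2)⁻¹),
    integral_univ_inv_one_add_sq, inv_inv, abs_of_pos hΘ, smul_eq_mul]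
  field_simp

lemma K_far {Θ w : ℝ} (hΘ : 0 < Θ) (h : Θ < |w|) :
    K (2 * Real.pi * w) ≤ 2 / Real.pi ^ 2 * (Θ ^ 2 + w ^ 2)⁻¹ := by
  have h1 := K_mul_sq_le (2 * Real.pi * w)
  have hpi := Real.pi_pos
  have hw : Θ ^ 2 < w ^ 2 := by
    rw [← sq_abs w]; exact pow_lt_pow_left₀ h hΘ.le (by norm_num)
  rw [← div_eq_mul_inv, le_div_iff₀ (by positivity), le_div_iff₀ (by positivity)]
  have hK := K_nonneg (2 * Real.pi * w)
  nlinarith [mul_nonneg hK (mul_nonneg (sq_nonneg Real.pi) (sub_nonneg.2 hw.le))]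

end CC2h

open CC2h Pool.Agent.Helper923.PNT in
theorem T_CC2 : P_CC2 := by
  intro ι T x c η' Θ B j hη hΘ hc hB
  have hpi := Real.pi_pos
  set S : ℝ → ℂ := fun ξ => ∑ i ∈ T, c i * Complex.exp (ξ * x i * Complex.I) with hS
  have hScont : Continuous S := by rw [hS]; fun_prop
  have hStriv : ∀ ξ, ‖S ξ‖ ≤ T.card := by
    intro ξ
    calc ‖S ξ‖ ≤ ∑ i ∈ T, ‖c i * Complex.exp (ξ * x i * Complex.I)‖ := norm_sum_le _ _
      _ ≤ ∑ i ∈ T, (1 : ℝ) := by
          apply Finset.sum_le_sum
          intro i hi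
          rw [norm_mul, ← Complex.ofReal_mul, Complex.norm_exp_ofReal_mul_I, mul_one]
          exact hc i hi
      _ = T.card := by simp
  have hB0 : 0 ≤ B := le_trans (norm_nonneg _) (hB 0 (by rw [abs_zero]; positivity))
  -- the integral representation
  have key : ∑ i ∈ T, ((phi (x i / η' - j) : ℝ) : ℂ) * c i =
      ∫ w : ℝ, ((K (2 * Real.pi * w) : ℝ) : ℂ) *
        (Complex.exp (↑(-(2 * Real.pi * w * j)) * Complex.I) * S (2 * Real.pi * w / η')) := by
    have e1 : ∀ w : ℝ, ((K (2 * Real.pi * w) : ℝ) : ℂ) *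
        (Complex.exp (↑(-(2 * Real.pi * w * j)) * Complex.I) * S (2 * Real.pi * w / η')) =
        ∑ i ∈ T, Complex.exp (↑(2 * Real.pi * w * (x i / η' - j)) * Complex.I) *
          ((K (2 * Real.pi * w) : ℝ) : ℂ) * c i := by
      intro w
      rw [hS]
      simp only
      rw [Finset.mul_sum, Finset.mul_sum]
      apply Finset.sum_congr rfl
      intro i _
      have : Complex.exp (↑(2 * Real.pi * w * (x i / η' - j)) * Complex.I) =
          Complex.exp (↑(-(2 * Real.pi * w * j)) * Complex.I) *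
          Complex.exp (↑(2 * Real.pi * w / η') * x i * Complex.I) := by
        rw [← Complex.exp_add]
        congr 1
        push_cast
        ring
      rw [this]
      ring
    simp_rw [e1]
    rw [integral_finsetSum]
    · apply Finset.sum_congr rfl
      intro i _
      rw [integral_mul_const, ← phi_eq]
    · intro i _
      apply Integrable.mul_const
      refine (K2_int.ofReal (𝕜 := ℂ)).bdd_mul (c := 1) ?_ ?_
      · apply Continuous.aestronglyMeasurable; fun_prop
      · refine Filter.Eventually.of_forall fun w => ?_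
        rw [Complex.norm_exp_ofReal_mul_I]
  rw [key]
  have hint : Integrable (fun w : ℝ => K (2 * Real.pi * w) * B +
      T.card * (2 / Real.pi ^ 2 * (Θ ^ 2 + w ^ 2)⁻¹)) :=
    (K2_int.mul_const B).add (((inv_int hΘ).const_mul _).const_mul _)
  calc ‖∫ w : ℝ, ((K (2 * Real.pi * w) : ℝ) : ℂ) *
        (Complex.exp (↑(-(2 * Real.pi * w * j)) * Complex.I) * S (2 * Real.pi * w / η'))‖
      ≤ ∫ w : ℝ, (K (2 * Real.pi * w) * B +
          T.card * (2 / Real.pi ^ 2 * (Θ ^ 2 + w ^ 2)⁻¹)) := by
        apply norm_integral_le_of_norm_le hint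
        refine Filter.Eventually.of_forall fun w => ?_
        rw [norm_mul, norm_mul, Complex.norm_exp_ofReal_mul_I, one_mul, Complex.norm_real,
          Real.norm_of_nonneg (K_nonneg _)]
        have hK := K_nonneg (2 * Real.pi * w)
        have hT : (0 : ℝ) ≤ T.card := Nat.cast_nonneg _
        by_cases h : |w| ≤ Θ
        · have h1 : ‖S (2 * Real.pi * w / η')‖ ≤ B := by
            apply hB
            rw [abs_div, abs_mul, abs_of_pos hη, abs_of_pos (by positivity : 0 < 2 * Real.pi)]
            gcongr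
          have h2 := mul_le_mul_of_nonneg_left h1 hK
          have h3 : 0 ≤ (T.card : ℝ) * (2 / Real.pi ^ 2 * (Θ ^ 2 + w ^ 2)⁻¹) := by positivity
          linarith
        · push Not at h
          have h1 := hStriv (2 * Real.pi * w / η')
          have h2 := K_far hΘ h
          have h3 : K (2 * Real.pi * w) * ‖S (2 * Real.pi * w / η')‖ ≤
              (2 / Real.pi ^ 2 * (Θ ^ 2 + w ^ 2)⁻¹) * T.card :=
            mul_le_mul h2 h1 (norm_nonneg _) (by positivity)
          have h4 : 0 ≤ K (2 * Real.pi * w) * B := mul_nonneg hK hB0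
          linarith
    _ = B + T.card * (2 / Real.pi / Θ) := by
        rw [integral_add (K2_int.mul_const B) (((inv_int hΘ).const_mul _).const_mul _),
          integral_mul_const, K2_one, integral_const_mul, integral_const_mul, inv_val hΘ]
        field_simp
    _ ≤ B + T.card / Θ := by
        have h1 : 2 / Real.pi ≤ 1 := by
          rw [div_le_one hpi]; linarith [Real.pi_gt_three]
        have h2 : 2 / Real.pi / Θ ≤ 1 / Θ := by gcongr
        have hT : (0 : ℝ) ≤ T.card := Nat.cast_nonneg _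
        have := mul_le_mul_of_nonneg_left h2 hT
        rw [div_eq_mul_one_div (T.card : ℝ) Θ]
        linarith

end Pool.Agent.H38R2.CG
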