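import Pool.Agent.H38R2.CG.Stubs

/-!
# TB1a: the sum over D for one n and one v
-/

set_option autoImplicit false

namespace Pool.Agent.H38R2.CG

open Finset Filter
open scoped Classical

namespace TB1ah

open MeasureTheory

/-- sum of an antitone function over an arithmetic progression -/
lemma prog (H : ℝ → ℝ) (a b : ℝ) (hab : a ≤ b) (m : ℕ) (hm : 1 ≤ m) (c : ℕ) (U : Finset ℕ)
    (hU : ∀ u ∈ U, a < (u : ℝ) ∧ (u : ℝ) ≤ b ∧ u % m = c)
    (hanti : AntitoneOn H (Set.Icc a b)) (h0 : ∀ x ∈ Set.Icc a b, 0 ≤ H x)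
    (h1 : ∀ x ∈ Set.Icc a b, H x ≤ 1) (hc : ContinuousOn H (Set.Icc a b)) :
    ∑ u ∈ U, H (u : ℝ) ≤ 1 + (1 / (m : ℝ)) * ∫ x in a..b, H x := by
  have hm' : (0 : ℝ) < m := by exact_mod_cast hm
  have hint : IntegrableOn H (Set.Icc a b) := hc.integrableOn_Icc
  have hfar : ∀ u ∈ U, ∀ u' ∈ U, u < u' → u + m ≤ u' := by
    intro u hu u' hu' hlt
    have e1 := (hU u hu).2.2
    have e2 := (hU u' hu').2.2
    have h3 : u ≡ u' [MOD m] := by rw [Nat.ModEq, e1, e2]
    have h4 : m ∣ u' - u := (Nat.modEq_iff_dvd' hlt.le).mp h3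
    have h5 : m ≤ u' - u := Nat.le_of_dvd (by omega) h4
    omega
  rw [← Finset.sum_filter_add_sum_filter_not U (fun u : ℕ => (u : ℝ) - m < a)]
  have hA : ∑ u ∈ U.filter (fun u : ℕ => (u : ℝ) - m < a), H (u : ℝ) ≤ 1 := by
    have hcard : (U.filter (fun u : ℕ => (u : ℝ) - m < a)).card ≤ 1 := by
      rw [Finset.card_le_one]
      intro u hu u' hu'
      rw [Finset.mem_filter] at hu hu'
      by_contra hne
      rcases lt_or_gt_of_ne hne with h | h
      · have h3 := hfar u hu.1 u' hu'.1 h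
        have h4 : (u : ℝ) + m ≤ u' := by exact_mod_cast h3
        have h5 := (hU u hu.1).1
        linarith [hu'.2]
      · have h3 := hfar u' hu'.1 u hu.1 h
        have h4 : (u' : ℝ) + m ≤ u := by exact_mod_cast h3
        have h5 := (hU u' hu'.1).1
        linarith [hu.2]
    calc ∑ u ∈ U.filter (fun u : ℕ => (u : ℝ) - m < a), H (u : ℝ)
        ≤ ∑ u ∈ U.filter (fun u : ℕ => (u : ℝ) - m < a), (1 : ℝ) := by
          refine Finset.sum_le_sum fun u hu => ?_
          rw [Finset.mem_filter] at hu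
          exact h1 u ⟨(hU u hu.1).1.le, (hU u hu.1).2.1⟩
      _ = ((U.filter (fun u : ℕ => (u : ℝ) - m < a)).card : ℝ) := by simp
      _ ≤ 1 := by exact_mod_cast hcard
  have hB : ∑ u ∈ U.filter (fun u : ℕ => ¬ ((u : ℝ) - m < a)), H (u : ℝ) ≤
      (1 / (m : ℝ)) * ∫ x in a..b, H x := by
    set U2 := U.filter (fun u : ℕ => ¬ ((u : ℝ) - m < a)) with hU2
    have hsub : ∀ u ∈ U2, Set.Ioc ((u : ℝ) - m) u ⊆ Set.Ioc a b := by
      intro u hu x hx
      rw [hU2, Finset.mem_filter] at hu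
      have := (hU u hu.1).2.1
      exact ⟨lt_of_le_of_lt (not_lt.mp hu.2) hx.1, hx.2.trans this⟩
    have hterm : ∀ u ∈ U2, H (u : ℝ) ≤ (1 / (m : ℝ)) * ∫ x in Set.Ioc ((u : ℝ) - m) u, H x := by
      intro u hu
      have hu' := hu
      rw [hU2, Finset.mem_filter] at hu
      have hub : (u : ℝ) ∈ Set.Icc a b := ⟨(hU u hu.1).1.le, (hU u hu.1).2.1⟩
      have h3 : ∫ x in Set.Ioc ((u : ℝ) - m) u, H (u : ℝ) ≤ ∫ x in Set.Ioc ((u : ℝ) - m) u, H x := by
        refine setIntegral_mono_on ?_ ?_ measurableSet_Ioc ?_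
        · exact integrableOn_const (by simp)
        · exact hint.mono_set ((hsub u hu').trans Set.Ioc_subset_Icc_self)
        · intro x hx
          have hxab := Set.Ioc_subset_Icc_self (hsub u hu' hx)
          exact hanti hxab hub hx.2
      rw [setIntegral_const] at h3
      simp only [smul_eq_mul] at h3
      have h4 : (volume.real (Set.Ioc ((u : ℝ) - m) u)) = m := by
        rw [Real.volume_real_Ioc_of_le (by linarith)]
        ring
      rw [h4] at h3
      rw [one_div, ← div_eq_inv_mul, le_div_iff₀ hm']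
      linarith
    calc ∑ u ∈ U2, H (u : ℝ) ≤ ∑ u ∈ U2, (1 / (m : ℝ)) * ∫ x in Set.Ioc ((u : ℝ) - m) u, H x :=
          Finset.sum_le_sum hterm
      _ = (1 / (m : ℝ)) * ∑ u ∈ U2, ∫ x in Set.Ioc ((u : ℝ) - m) u, H x := by
          rw [Finset.mul_sum]
      _ = (1 / (m : ℝ)) * ∫ x in ⋃ u ∈ U2, Set.Ioc ((u : ℝ) - m) u, H x := by
          congr 1
          rw [integral_biUnion_finset]
          · intro i _; exact measurableSet_Ioc
          · intro u hu u' hu' hne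
            have hu1 : u ∈ U := (Finset.mem_filter.mp hu).1
            have hu1' : u' ∈ U := (Finset.mem_filter.mp hu').1
            rw [Function.onFun, Set.disjoint_left]
            intro x hx hx'
            rcases lt_or_gt_of_ne hne with h | h
            · have h3 := hfar u hu1 u' hu1' h
              have h4 : (u : ℝ) + m ≤ u' := by exact_mod_cast h3
              linarith [hx.2, hx'.1]
            · have h3 := hfar u' hu1' u hu1 h
              have h4 : (u' : ℝ) + m ≤ u := by exact_mod_cast h3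
              linarith [hx'.2, hx.1]
          · intro u hu
            exact hint.mono_set ((hsub u hu).trans Set.Ioc_subset_Icc_self)
      _ ≤ (1 / (m : ℝ)) * ∫ x in Set.Ioc a b, H x := by
          apply mul_le_mul_of_nonneg_left _ (by positivity)
          refine setIntegral_mono_set (hint.mono_set Set.Ioc_subset_Icc_self) ?_ ?_
          · refine (ae_restrict_iff' measurableSet_Ioc).mpr (ae_of_all _ fun x hx => ?_)
            exact h0 x (Set.Ioc_subset_Icc_self hx)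
          · refine LE.le.eventuallyLE ?_
            exact Set.iUnion₂_subset hsub
      _ = (1 / (m : ℝ)) * ∫ x in a..b, H x := by
          rw [intervalIntegral.integral_of_le hab]
  linarith

lemma phi_nonneg (t : ℝ) : 0 ≤ phi t := le_max_left _ _

lemma phi_le_one (t : ℝ) : phi t ≤ 1 := by
  unfold phi
  exact max_le zero_le_one (by linarith [abs_nonneg t])

lemma phi_cont : Continuous phi := by
  unfold phi
  exact continuous_const.max (continuous_const.sub continuous_abs)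

lemma phi_anti {s t : ℝ} (hs : 0 ≤ s) (hst : s ≤ t) : phi t ≤ phi s := by
  unfold phi
  rw [abs_of_nonneg hs, abs_of_nonneg (hs.trans hst)]
  exact max_le_max le_rfl (by linarith)

noncomputable def HH (n : ℕ) (u : ℝ) : ℝ := phi (2 * Real.arsinh (√(u ^ 2 - 4 * n) / (2 * √(n : ℝ))))

lemma HH_cont (n : ℕ) : Continuous (HH n) := by
  unfold HH
  refine phi_cont.comp (continuous_const.mul (Real.continuous_arsinh.comp ?_))
  exact (Real.continuous_sqrt.comp (by fun_prop)).div_const _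

lemma HH_anti (n : ℕ) (a b : ℝ) (ha : 0 ≤ a) : AntitoneOn (HH n) (Set.Icc a b) := by
  intro x hx y hy hxy
  unfold HH
  have hx0 : 0 ≤ x := ha.trans hx.1
  apply phi_anti
  · have : 0 ≤ Real.arsinh (√(x ^ 2 - 4 * n) / (2 * √(n : ℝ))) :=
      Real.arsinh_nonneg_iff.mpr (by positivity)
    linarith
  · have h1 : √(x ^ 2 - 4 * n) ≤ √(y ^ 2 - 4 * n) := by
      apply Real.sqrt_le_sqrt
      nlinarith
    have h2 : √(x ^ 2 - 4 * n) / (2 * √(n : ℝ)) ≤ √(y ^ 2 - 4 * n) / (2 * √(n : ℝ)) := by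
      gcongr
    have := Real.arsinh_le_arsinh.mpr h2
    linarith

/-- the logarithm as an arsinh -/
lemma term_eq (n v D u : ℕ) (hn : 1 ≤ n) (hu : 1 ≤ u)
    (h : (u : ℤ) ^ 2 - (D : ℤ) * (v : ℤ) ^ 2 = 4 * n) :
    phi (Real.log (((u : ℝ) + v * √(D : ℝ)) / ((u : ℝ) - v * √(D : ℝ)))) = HH n u := by
  have hR : (u : ℝ) ^ 2 - (D : ℝ) * (v : ℝ) ^ 2 = 4 * n := by exact_mod_cast h
  have hn' : (0 : ℝ) < n := by exact_mod_cast hn
  have hu' : (0 : ℝ) < u := by exact_mod_cast hu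
  have hD : (0 : ℝ) ≤ D := Nat.cast_nonneg _
  have hv : (0 : ℝ) ≤ v := Nat.cast_nonneg _
  have hsD : √(D : ℝ) ^ 2 = D := Real.sq_sqrt hD
  have hsn : √(n : ℝ) ^ 2 = n := Real.sq_sqrt hn'.le
  have hsn0 : 0 < √(n : ℝ) := Real.sqrt_pos.mpr hn'
  have hw0 : 0 ≤ v * √(D : ℝ) := by positivity
  have hw2 : (v * √(D : ℝ)) ^ 2 = (u : ℝ) ^ 2 - 4 * n := by
    rw [mul_pow, hsD]; linarith
  have hprod : ((u : ℝ) + v * √(D : ℝ)) * ((u : ℝ) - v * √(D : ℝ)) = 4 * n := by
    have : ((u : ℝ) + v * √(D : ℝ)) * ((u : ℝ) - v * √(D : ℝ)) = (u : ℝ) ^ 2 - (v * √(D : ℝ)) ^ 2 := by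
      ring
    rw [this, hw2]; ring
  have hplus : 0 < (u : ℝ) + v * √(D : ℝ) := by linarith
  have hminus : 0 < (u : ℝ) - v * √(D : ℝ) := by
    by_contra hcon
    have : ((u : ℝ) + v * √(D : ℝ)) * ((u : ℝ) - v * √(D : ℝ)) ≤ 0 :=
      mul_nonpos_of_nonneg_of_nonpos hplus.le (not_lt.mp hcon)
    linarith
  unfold HH
  congr 1
  have h1 : √((u : ℝ) ^ 2 - 4 * n) = v * √(D : ℝ) := by
    rw [← hw2, Real.sqrt_sq hw0]
  rw [h1]
  have h2 : √(1 + (v * √(D : ℝ) / (2 * √(n : ℝ))) ^ 2) = u / (2 * √(n : ℝ)) := by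
    rw [show 1 + (v * √(D : ℝ) / (2 * √(n : ℝ))) ^ 2 = (u / (2 * √(n : ℝ))) ^ 2 by
      rw [div_pow, div_pow, hw2, mul_pow, hsn]
      field_simp
      ring]
    exact Real.sqrt_sq (by positivity)
  rw [Real.arsinh, h2]
  rw [show (2 : ℝ) * Real.log (v * √(D : ℝ) / (2 * √(n : ℝ)) + u / (2 * √(n : ℝ))) =
    Real.log ((v * √(D : ℝ) / (2 * √(n : ℝ)) + u / (2 * √(n : ℝ))) ^ 2) by
      rw [Real.log_pow]; norm_num]
  congr 1
  rw [div_eq_iff hminus.ne']
  rw [show (v * √(D : ℝ) / (2 * √(n : ℝ)) + u / (2 * √(n : ℝ))) ^ 2 * ((u : ℝ) - v * √(D : ℝ)) =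
    ((u : ℝ) + v * √(D : ℝ)) * (((u : ℝ) + v * √(D : ℝ)) * ((u : ℝ) - v * √(D : ℝ))) /
      (4 * √(n : ℝ) ^ 2) by
    field_simp
    ring]
  rw [hprod, hsn]
  field_simp

/-- the substitution -/
lemma int_eq (X n v : ℕ) (η : ℝ) (hη : 0 < η) (hX : 1 ≤ X) (hn : 1 ≤ n) (hv : 1 ≤ v) :
    ∫ u in √(4 * (n : ℝ) + X * (v : ℝ) ^ 2)..√(4 * (n : ℝ) + ((1 + η) * X) * (v : ℝ) ^ 2), HH n u =
      (v : ℝ) ^ 2 * om X η v n := by
  have hn' : (0 : ℝ) < n := by exact_mod_cast hn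
  have hX' : (0 : ℝ) < X := by exact_mod_cast hX
  have hv' : (0 : ℝ) < v := by exact_mod_cast hv
  have hpos : ∀ x ∈ Set.uIcc (X : ℝ) ((1 + η) * X), 0 < 4 * (n : ℝ) + x * (v : ℝ) ^ 2 := by
    intro x hx
    rw [Set.uIcc_of_le (by nlinarith)] at hx
    have : 0 < x := lt_of_lt_of_le hX' hx.1
    positivity
  have h1 : ∀ x ∈ Set.uIcc (X : ℝ) ((1 + η) * X),
      HasDerivAt (fun x : ℝ => √(4 * (n : ℝ) + x * (v : ℝ) ^ 2))
        ((v : ℝ) ^ 2 / (2 * √(4 * (n : ℝ) + x * (v : ℝ) ^ 2))) x := by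
    intro x hx
    have h2 : HasDerivAt (fun x : ℝ => 4 * (n : ℝ) + x * (v : ℝ) ^ 2) ((v : ℝ) ^ 2) x := by
      have := ((hasDerivAt_id x).mul_const ((v : ℝ) ^ 2)).const_add (4 * (n : ℝ))
      simpa using this
    exact h2.sqrt (hpos x hx).ne'
  have h2 : ContinuousOn (fun x : ℝ => (v : ℝ) ^ 2 / (2 * √(4 * (n : ℝ) + x * (v : ℝ) ^ 2)))
      (Set.uIcc (X : ℝ) ((1 + η) * X)) := by
    refine ContinuousOn.div continuousOn_const ?_ ?_
    · exact (continuous_const.mul (Real.continuous_sqrt.comp (by fun_prop))).continuousOn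
    · intro x hx
      have := Real.sqrt_pos.mpr (hpos x hx)
      positivity
  have h3 := intervalIntegral.integral_comp_mul_deriv' h1 h2
    ((HH_cont n).continuousOn (s := (fun x : ℝ => √(4 * (n : ℝ) + x * (v : ℝ) ^ 2)) ''
      Set.uIcc (X : ℝ) ((1 + η) * X)))
  rw [← h3, om, ← intervalIntegral.integral_const_mul]
  refine intervalIntegral.integral_congr fun x hx => ?_
  have hx' := hx
  rw [Set.uIcc_of_le (by nlinarith)] at hx'
  have hx0 : 0 < x := lt_of_lt_of_le hX' hx'.1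
  simp only [Function.comp, HH]
  rw [Real.sq_sqrt (hpos x hx).le]
  have h4 : √(4 * (n : ℝ) + x * (v : ℝ) ^ 2 - 4 * n) = v * √x := by
    rw [show 4 * (n : ℝ) + x * (v : ℝ) ^ 2 - 4 * n = (v : ℝ) ^ 2 * x by ring,
      Real.sqrt_mul (by positivity), Real.sqrt_sq hv'.le]
  rw [h4]
  have := Real.sqrt_pos.mpr (hpos x hx)
  field_simp

end TB1ah

open TB1ah in
theorem T_TB1a : P_TB1a := by
  intro z r X n v η hr hη hη1 hX hn hv
  have hQ : 0 < Qz z := by omega
  have hn' : (0 : ℝ) < n := by exact_mod_cast hn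
  have hX' : (0 : ℝ) < X := by exact_mod_cast hX
  have hv' : (0 : ℝ) < v := by exact_mod_cast hv
  have hQ' : (0 : ℝ) < Qz z := by exact_mod_cast hQ
  have hm : 1 ≤ Qz z * v ^ 2 := Nat.one_le_iff_ne_zero.mpr (by positivity)
  set a : ℝ := √(4 * (n : ℝ) + X * (v : ℝ) ^ 2) with ha
  set b : ℝ := √(4 * (n : ℝ) + ((1 + η) * X) * (v : ℝ) ^ 2) with hb
  have hab : a ≤ b := by
    apply Real.sqrt_le_sqrt
    have : (X : ℝ) * (v : ℝ) ^ 2 ≤ ((1 + η) * X) * (v : ℝ) ^ 2 := by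
      apply mul_le_mul_of_nonneg_right _ (by positivity)
      nlinarith
    linarith
  have ha0 : 0 ≤ a := Real.sqrt_nonneg _
  have hDD : ∀ D ∈ DD z r X η, (X : ℝ) < D ∧ (D : ℝ) ≤ (1 + η) * X ∧ D % Qz z = r := by
    intro D hD
    rw [DD, Finset.mem_filter, Finset.mem_Ioc] at hD
    refine ⟨by exact_mod_cast hD.1.1, ?_, hD.2⟩
    exact (Nat.le_floor_iff (by positivity)).mp hD.1.2
  set U : Finset ℕ := (Finset.Icc 1 (4 * n)).filter
    (fun u => ∃ D ∈ DD z r X η, (u : ℤ) ^ 2 - (D : ℤ) * (v : ℤ) ^ 2 = 4 * n) with hU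
  have hUab : ∀ u ∈ U, a < (u : ℝ) ∧ (u : ℝ) ≤ b := by
    intro u hu
    rw [hU, Finset.mem_filter, Finset.mem_Icc] at hu
    obtain ⟨⟨hu1, _⟩, D, hD, h⟩ := hu
    obtain ⟨hD1, hD2, _⟩ := hDD D hD
    have hR : (u : ℝ) ^ 2 - (D : ℝ) * (v : ℝ) ^ 2 = 4 * n := by exact_mod_cast h
    have hu0 : (0 : ℝ) ≤ u := Nat.cast_nonneg _
    have hv2 : (0 : ℝ) < (v : ℝ) ^ 2 := by positivity
    constructor
    · rw [ha, Real.sqrt_lt' (by exact_mod_cast hu1)]
      nlinarith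
    · rw [hb]
      apply Real.le_sqrt_of_sq_le
      nlinarith
  -- step 1: swap the sums
  have hstep1 : ∑ D ∈ DD z r X η, ∑ u ∈ Finset.Icc 1 (4 * n),
      (if ((u : ℤ) ^ 2 - (D : ℤ) * (v : ℤ) ^ 2 = 4 * n) then
        phi (Real.log (((u : ℝ) + v * √(D : ℝ)) / ((u : ℝ) - v * √(D : ℝ)))) else 0) =
      ∑ u ∈ U, HH n u := by
    rw [Finset.sum_comm, hU, Finset.sum_filter]
    refine Finset.sum_congr rfl fun u hu => ?_
    rw [Finset.mem_Icc] at hu
    split_ifs with hex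
    · obtain ⟨D, hD, h⟩ := hex
      rw [Finset.sum_eq_single_of_mem D hD]
      · rw [if_pos h, term_eq n v D u hn hu.1 h]
      · intro D' _ hne
        rw [if_neg]
        intro h'
        apply hne
        have h5 : ((D' : ℤ) - D) * (v : ℤ) ^ 2 = 0 := by linear_combination h - h'
        rcases mul_eq_zero.mp h5 with h6 | h6
        · exact_mod_cast (sub_eq_zero.mp h6)
        · exfalso
          have : (v : ℤ) = 0 := by simpa using h6
          omega
    · refine Finset.sum_eq_zero fun D hD => ?_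
      rw [if_neg]
      intro h
      exact hex ⟨D, hD, h⟩
  rw [hstep1]
  -- step 2: split into residue classes
  have hmap : ∀ u ∈ U, u % (Qz z * v ^ 2) ∈ (Finset.range (Qz z * v ^ 2)).filter
      (fun u => u ^ 2 ≡ 4 * n + r * v ^ 2 [MOD Qz z * v ^ 2]) := by
    intro u hu
    rw [hU, Finset.mem_filter, Finset.mem_Icc] at hu
    obtain ⟨⟨hu1, _⟩, D, hD, h⟩ := hu
    obtain ⟨_, _, hDr⟩ := hDD D hD
    rw [Finset.mem_filter, Finset.mem_range]
    refine ⟨Nat.mod_lt _ (by omega), ?_⟩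
    have h6 : u ^ 2 = 4 * n + D * v ^ 2 := by
      have : (u : ℤ) ^ 2 = 4 * n + D * (v : ℤ) ^ 2 := by linarith
      exact_mod_cast this
    have h7 : (u % (Qz z * v ^ 2)) ^ 2 ≡ u ^ 2 [MOD Qz z * v ^ 2] :=
      (Nat.mod_modEq u _).pow 2
    refine h7.trans ?_
    rw [h6]
    have h8 : D ≡ r [MOD Qz z] := by
      rw [Nat.ModEq, hDr, Nat.mod_eq_of_lt hr]
    exact Nat.ModEq.add_left _ (Nat.ModEq.mul_right' _ h8)
  rw [← Finset.sum_fiberwise_of_maps_to hmap]
  have hI := int_eq X n v η hη hX hn hv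
  have hfib : ∀ c ∈ (Finset.range (Qz z * v ^ 2)).filter
      (fun u => u ^ 2 ≡ 4 * n + r * v ^ 2 [MOD Qz z * v ^ 2]),
      ∑ u ∈ U.filter (fun u => u % (Qz z * v ^ 2) = c), HH n (u : ℝ) ≤ om X η v n / Qz z + 1 := by
    intro c _
    have h9 := prog (HH n) a b hab (Qz z * v ^ 2) hm c (U.filter (fun u => u % (Qz z * v ^ 2) = c))
      (by
        intro u hu
        rw [Finset.mem_filter] at hu
        exact ⟨(hUab u hu.1).1, (hUab u hu.1).2, hu.2⟩)
      (HH_anti n a b ha0) (fun x _ => phi_nonneg _) (fun x _ => phi_le_one _)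
      (HH_cont n).continuousOn
    rw [hI] at h9
    have h10 : 1 / ((Qz z * v ^ 2 : ℕ) : ℝ) * ((v : ℝ) ^ 2 * om X η v n) = om X η v n / Qz z := by
      push_cast
      field_simp
    rw [h10] at h9
    linarith
  refine (Finset.sum_le_sum hfib).trans ?_
  rw [Finset.sum_const, nsmul_eq_mul, rho]

end Pool.Agent.H38R2.CG
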